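import Mathlib

/-!
Relatively prime polynomials have no common zero with `n` of `n + 1` coordinates algebraically
independent.
-/

namespace Pool.Agent.Work.RC

open MvPolynomial

/-- relatively prime polynomials over a factorial ring are coprime over the fraction field -/
theorem isCoprime_map_of_isRelPrime {R K : Type*} [CommRing R] [IsDomain R]
    [UniqueFactorizationMonoid R] [Field K] [Algebra R K] [IsFractionRing R K]
    {A B : Polynomial R} (h : IsRelPrime A B) (hA : A ≠ 0) :
    IsCoprime (A.map (algebraMap R K)) (B.map (algebraMap R K)) := by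
  classical
  let _ : StrongNormalizationMonoid R := UniqueFactorizationMonoid.strongNormalizationMonoid
  let _ : NormalizedGCDMonoid R := UniqueFactorizationMonoid.toNormalizedGCDMonoid R
  have hinj : Function.Injective (algebraMap R K) := IsFractionRing.injective R K
  refine isCoprime_of_prime_dvd ?_ ?_
  · rintro ⟨h1, -⟩
    exact hA ((Polynomial.map_eq_zero_iff hinj).1 h1)
  · intro z hz hzA hzB
    obtain ⟨b, hb, hbz⟩ :=
      IsLocalization.integerNormalization_spec (nonZeroDivisors R) z
    set r := IsLocalization.integerNormalization (nonZeroDivisors R) z with hr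
    have hb0 : (algebraMap R K) b ≠ 0 := by
      intro h0
      exact nonZeroDivisors.ne_zero hb (hinj (by rw [h0, map_zero]))
    have hr0 : r ≠ 0 := by
      intro h0
      rw [h0, Polynomial.map_zero] at hbz
      have : (b : R) • z = 0 := hbz.symm
      rw [Algebra.smul_def, Polynomial.algebraMap_apply] at this
      rcases mul_eq_zero.1 this with h1 | h1
      · exact hb0 (Polynomial.C_eq_zero.1 h1)
      · exact hz.ne_zero h1
    have hc0 : (algebraMap R K) r.content ≠ 0 := by
      intro h0
      exact hr0 (Polynomial.content_eq_zero_iff.1 (hinj (by rw [h0, map_zero])))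
    -- the primitive part of the denominator free form
    have hq : r.primPart.map (algebraMap R K) ∣ z ∧ z ∣ r.primPart.map (algebraMap R K) := by
      have h1 : Polynomial.C ((algebraMap R K) r.content) * r.primPart.map (algebraMap R K) =
          Polynomial.C ((algebraMap R K) b) * z := by
        have h2 : r.map (algebraMap R K) = Polynomial.C ((algebraMap R K) r.content) *
            r.primPart.map (algebraMap R K) := by
          conv_lhs => rw [r.eq_C_content_mul_primPart]
          rw [Polynomial.map_mul, Polynomial.map_C]
        rw [← h2, hbz, Algebra.smul_def, Polynomial.algebraMap_apply]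
      have u1 : IsUnit (Polynomial.C ((algebraMap R K) r.content)) :=
        Polynomial.isUnit_C.2 (isUnit_iff_ne_zero.2 hc0)
      have u2 : IsUnit (Polynomial.C ((algebraMap R K) b)) :=
        Polynomial.isUnit_C.2 (isUnit_iff_ne_zero.2 hb0)
      constructor
      · refine (u2.dvd_mul_left).1 ?_
        rw [← h1]
        exact Dvd.intro_left _ rfl
      · refine (u1.dvd_mul_left).1 ?_
        rw [h1]
        exact Dvd.intro_left _ rfl
    have key : ∀ P : Polynomial R, z ∣ P.map (algebraMap R K) → r.primPart ∣ P := by
      intro P hP
      by_cases hP0 : P = 0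
      · rw [hP0]
        exact dvd_zero _
      have hcP : (algebraMap R K) P.content ≠ 0 := by
        intro h0
        exact hP0 (Polynomial.content_eq_zero_iff.1 (hinj (by rw [h0, map_zero])))
      have h2 : P.map (algebraMap R K) = Polynomial.C ((algebraMap R K) P.content) *
          P.primPart.map (algebraMap R K) := by
        conv_lhs => rw [P.eq_C_content_mul_primPart]
        rw [Polynomial.map_mul, Polynomial.map_C]
      have h3 : z ∣ P.primPart.map (algebraMap R K) := by
        rw [h2] at hP
        exact ((Polynomial.isUnit_C.2 (isUnit_iff_ne_zero.2 hcP)).dvd_mul_left).1 hP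
      have h4 := Polynomial.IsPrimitive.dvd_of_fraction_map_dvd_fraction_map (K := K)
        r.isPrimitive_primPart (hq.1.trans h3)
      exact h4.trans P.primPart_dvd
    have hu : IsUnit r.primPart := h (key A hzA) (key B hzB)
    have hu' : IsUnit (r.primPart.map (algebraMap R K)) :=
      hu.map (Polynomial.mapRingHom (algebraMap R K))
    exact hz.not_isUnit (isUnit_of_dvd_unit hq.2 hu')

/-- Relatively prime polynomials do not vanish at a point all coordinates of which, except one, are
algebraically independent. -/
theorem no_common_zero_gen {σ k F : Type*} [Field k] [Field F] [Algebra k F]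
    {A B : MvPolynomial σ k} (h : IsRelPrime A B) {y : σ → F}
    (hA : aeval y A = 0) (hB : aeval y B = 0) {j0 : σ}
    (hy : AlgebraicIndependent k (fun j : {j // j ≠ j0} => y j)) : False := by
  classical
  -- one of the polynomials is not zero
  wlog hA0 : A ≠ 0 generalizing A B with H
  · by_cases hB0 : B = 0
    · rw [not_not] at hA0
      have hu : IsUnit A := by
        apply h
        · exact dvd_rfl
        · rw [hB0, hA0]
      rw [hA0] at hu
      exact not_isUnit_zero hu
    · exact H h.symm hB hA hB0
  let R := MvPolynomial {j : σ // j ≠ j0} k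
  let f : MvPolynomial σ k ≃ₐ[k] Polynomial R :=
    (renameEquiv k (Equiv.optionSubtypeNe j0).symm).trans
      (optionEquivLeft k {j : σ // j ≠ j0})
  let φ : R →ₐ[k] F := aeval fun j : {j : σ // j ≠ j0} => y j
  have hφ : Function.Injective (φ : R →+* F) := hy
  let K := FractionRing R
  let ψ : K →+* F := IsFractionRing.lift hφ
  have hψ : ∀ a : R, ψ (algebraMap R K a) = φ a := fun a => IsFractionRing.lift_algebraMap hφ a
  have hev : ∀ P : MvPolynomial σ k,
      Polynomial.eval₂ (φ : R →+* F) (y j0) (f P) = aeval y P := by
    intro P
    let g : MvPolynomial σ k →ₐ[k] F :=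
      { toRingHom := (Polynomial.eval₂RingHom (φ : R →+* F) (y j0)).comp (f : _ →+* _)
        commutes' := by
          intro c
          change Polynomial.eval₂ (φ : R →+* F) (y j0) (f (algebraMap k _ c)) = algebraMap k F c
          rw [AlgEquiv.commutes]
          change Polynomial.eval₂ (φ : R →+* F) (y j0) (Polynomial.C (algebraMap k R c)) = _
          rw [Polynomial.eval₂_C]
          exact φ.commutes c }
    have hg : g = aeval y := by
      ext i
      change Polynomial.eval₂ (φ : R →+* F) (y j0) (f (X i)) = aeval y (X i)
      rw [aeval_X]
      have h1 : f (X i) = optionEquivLeft k {j : σ // j ≠ j0}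
          (X ((Equiv.optionSubtypeNe j0).symm i)) := by
        simp [f]
      rw [h1]
      by_cases hi : i = j0
      · subst hi
        simp
      · have h2 : (Equiv.optionSubtypeNe j0).symm i = some ⟨i, hi⟩ := by
          rw [Equiv.symm_apply_eq]
          simp
        rw [h2, optionEquivLeft_X_some, Polynomial.eval₂_C]
        exact aeval_X _ _
    exact congrArg (fun q : MvPolynomial σ k →ₐ[k] F => q P) hg
  have hrel : IsRelPrime (f A) (f B) := by
    intro d h1 h2
    have h3 : f.symm d ∣ A := by
      have := map_dvd f.symm h1
      rwa [AlgEquiv.symm_apply_apply] at this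
    have h4 : f.symm d ∣ B := by
      have := map_dvd f.symm h2
      rwa [AlgEquiv.symm_apply_apply] at this
    have h5 : IsUnit (f.symm d) := h h3 h4
    have h6 := h5.map f
    rwa [AlgEquiv.apply_symm_apply] at h6
  have hfA : f A ≠ 0 := by
    intro h0
    exact hA0 (f.injective (by rw [h0, map_zero]))
  obtain ⟨u, v, huv⟩ := isCoprime_map_of_isRelPrime (K := K) hrel hfA
  have hz : ∀ P : MvPolynomial σ k, aeval y P = 0 →
      Polynomial.eval₂ ψ (y j0) ((f P).map (algebraMap R K)) = 0 := by
    intro P hP
    rw [Polynomial.eval₂_map]
    have : ψ.comp (algebraMap R K) = (φ : R →+* F) := RingHom.ext hψ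
    rw [this, hev, hP]
  have h1 := congrArg (Polynomial.eval₂ ψ (y j0)) huv
  rw [Polynomial.eval₂_add, Polynomial.eval₂_mul, Polynomial.eval₂_mul, hz A hA, hz B hB,
    mul_zero, mul_zero, add_zero, Polynomial.eval₂_one] at h1
  exact zero_ne_one h1

/-- Relatively prime polynomials do not vanish at a point with `n` algebraically independent
coordinates. -/
theorem no_common_zero {k F : Type*} [Field k] [Field F] [Algebra k F] {n : ℕ}
    {A B : MvPolynomial (Fin (n + 1)) k} (h : IsRelPrime A B) {y : Fin (n + 1) → F}
    (hA : aeval y A = 0) (hB : aeval y B = 0) {j0 : Fin (n + 1)}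
    (hy : AlgebraicIndependent k (fun j : {j // j ≠ j0} => y j)) : False :=
  no_common_zero_gen h hA hB hy

end Pool.Agent.Work.RC
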