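import Mathlib
import Pool.Agent.Work.MP_4329d7_ag_rc.Coprime

/-!
The version of `no_common_zero` for a finite index set.
-/

namespace Pool.Agent.Work.RC

open MvPolynomial

theorem no_common_zero' {σ k F : Type*} [Finite σ] [Field k] [Field F] [Algebra k F]
    {P Q : MvPolynomial σ k} (h : IsRelPrime P Q) {y : σ → F} (hP : aeval y P = 0)
    (hQ : aeval y Q = 0) {j₀ : σ} (hy : AlgebraicIndependent k (fun j : {j // j ≠ j₀} => y j)) :
    False :=
  no_common_zero_gen h hP hQ hy

end Pool.Agent.Work.RC
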