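import Mathlib

/-!
A root which is not a unit.  Proof: induction on the degree: if `P` has a root `r ∈ Rˣ` then
`P = (X - r) Q`, the constant coefficient of `Q` is not a unit; otherwise every root will do.
-/

namespace Pool.Agent.Work.RC

open Polynomial

theorem exists_nonunit_root {R k : Type*} [CommRing R] [IsDomain R] [Field k] [IsAlgClosed k]
    [Algebra R k] (hinj : Function.Injective (algebraMap R k)) (P : R[X])
    (h1 : IsUnit P.leadingCoeff) (h0 : ¬ IsUnit (P.coeff 0)) :
    ∃ s : k, aeval s P = 0 ∧ ∀ r : R, IsUnit r → s ≠ algebraMap R k r := by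
  suffices H : ∀ (d : ℕ) (P : R[X]), P.natDegree = d → IsUnit P.leadingCoeff →
      ¬ IsUnit (P.coeff 0) →
      ∃ s : k, aeval s P = 0 ∧ ∀ r : R, IsUnit r → s ≠ algebraMap R k r from
    H _ P rfl h1 h0
  intro d
  induction d using Nat.strong_induction_on with
  | _ d ih =>
    intro P hd h1 h0
    have hd0 : P.natDegree ≠ 0 := by
      intro h
      apply h0
      rw [Polynomial.leadingCoeff, h] at h1
      exact h1
    have hP0 : P ≠ 0 := by
      rintro rfl
      simp at hd0
    have hdeg : (P.map (algebraMap R k)).degree ≠ 0 := by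
      rw [Polynomial.degree_map_eq_of_injective hinj, Polynomial.degree_eq_natDegree hP0]
      exact_mod_cast hd0
    obtain ⟨s, hs⟩ := IsAlgClosed.exists_root (P.map (algebraMap R k)) hdeg
    have hs' : aeval s P = 0 := by
      rw [Polynomial.aeval_def, ← Polynomial.eval_map]
      exact hs
    by_cases hr : ∃ r : R, IsUnit r ∧ s = algebraMap R k r
    · obtain ⟨r, hru, rfl⟩ := hr
      have hroot : P.IsRoot r := by
        rw [Polynomial.aeval_algebraMap_apply] at hs'
        have := hinj (hs'.trans (map_zero (algebraMap R k)).symm)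
        simpa [Polynomial.IsRoot, Polynomial.aeval_def] using this
      obtain ⟨Q, hQ⟩ := Polynomial.dvd_iff_isRoot.mpr hroot
      have hQ0 : Q ≠ 0 := by
        rintro rfl
        exact hP0 (by rw [hQ, mul_zero])
      have hQd : Q.natDegree < d := by
        have h := congrArg Polynomial.natDegree hQ
        rw [Polynomial.natDegree_mul (Polynomial.X_sub_C_ne_zero r) hQ0,
          Polynomial.natDegree_X_sub_C] at h
        omega
      have hQl : IsUnit Q.leadingCoeff := by
        have h := congrArg Polynomial.leadingCoeff hQ
        rw [Polynomial.leadingCoeff_mul, Polynomial.leadingCoeff_X_sub_C, one_mul] at h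
        rw [← h]
        exact h1
      have hQc : ¬ IsUnit (Q.coeff 0) := by
        intro hu
        apply h0
        rw [hQ, Polynomial.mul_coeff_zero]
        simp only [Polynomial.coeff_sub, Polynomial.coeff_X_zero, Polynomial.coeff_C_zero,
          zero_sub]
        exact hru.neg.mul hu
      obtain ⟨s', hs1, hs2⟩ := ih _ hQd Q rfl hQl hQc
      refine ⟨s', ?_, hs2⟩
      rw [hQ, map_mul, hs1, mul_zero]
    · push Not at hr
      exact ⟨s, hs', fun r hr' => hr r hr'⟩

end Pool.Agent.Work.RC
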