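import Mathlib
import Pool.Agent.Work.MP_4329d7_ag_sq.LinDis

/-!
Derivations and transcendence degree: the linear algebra of the rank argument.
-/

namespace Pool.Agent.Work.RC

open Polynomial

namespace RankA

variable {k : Type} [Field k] [Algebra ℂ k]

/-- a derivation which vanishes on a subalgebra vanishes on the elements which are algebraic
over it -/
theorem der_eq_zero_of_isAlgebraic (D : Derivation ℂ k k) (S : Subalgebra ℂ k)
    (hS : ∀ a ∈ S, D a = 0) {a : k} (ha : IsAlgebraic S a) : D a = 0 := by
  haveI : CharZero k := charZero_of_injective_algebraMap (algebraMap ℂ k).injective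
  haveI : CharZero S := charZero_of_injective_algebraMap (algebraMap ℂ S).injective
  let D' : Derivation S k k := Derivation.mk'
    { toFun := D
      map_add' := fun u v => map_add D u v
      map_smul' := fun c u => by
        have h1 : c • u = (c : k) * u := rfl
        rw [h1, D.leibniz, hS c c.2, smul_zero, add_zero]
        rfl } (fun u v => D.leibniz u v)
  have hD' : ∀ u, D' u = D u := fun _ => rfl
  obtain ⟨q, hq0, hq⟩ := ha
  rw [← hD']
  induction hN : q.natDegree using Nat.strong_induction_on generalizing q with
  | _ N ih =>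
    have h1 := D'.map_aeval q a
    rw [hq, map_zero] at h1
    by_cases h2 : aeval a (derivative q) = 0
    · -- a smaller polynomial
      have hdeg : q.natDegree ≠ 0 := by
        intro h3
        rw [eq_C_of_natDegree_eq_zero h3, aeval_C] at hq
        apply hq0
        rw [eq_C_of_natDegree_eq_zero h3]
        have : q.coeff 0 = 0 := by
          apply Subtype.ext
          exact hq
        rw [this, C_0]
      have hd0 : derivative q ≠ 0 := by
        intro h3
        exact hdeg (Polynomial.derivative_eq_zero.1 h3)
      exact ih (derivative q).natDegree (hN ▸ natDegree_derivative_lt hdeg) (derivative q) hd0 h2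
        rfl
    · rcases smul_eq_zero.1 h1.symm with h3 | h3
      · exact absurd h3 h2
      · exact h3

/-- the subalgebra generated by elements killed by a derivation is killed -/
theorem der_adjoin (D : Derivation ℂ k k) (T : Set k) (hT : ∀ a ∈ T, D a = 0) (a : k)
    (ha : a ∈ Algebra.adjoin ℂ T) : D a = 0 := by
  induction ha using Algebra.adjoin_induction with
  | mem u hu => exact hT u hu
  | algebraMap c => exact D.map_algebraMap c
  | add u v _ _ hu hv => rw [map_add, hu, hv, add_zero]
  | mul u v _ _ hu hv => rw [D.leibniz, hu, hv, smul_zero, smul_zero, add_zero]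

/-- the rank argument: if the derivations which vanish on `w` and `y` and at the form `lam` vanish
on `x` then all the coordinates of `y` but one are algebraically independent -/
theorem rank_of_form {n : ℕ} {S : Type} (x : Fin (n + 1) → k) (w : S → k)
    (hai : AlgebraicIndependent ℂ (Sum.elim x w)) (y : Fin (n + 1) → k)
    (lam : Derivation ℂ k k →ₗ[k] k)
    (h : ∀ D : Derivation ℂ k k, (∀ j, D (w j) = 0) → (∀ s, D (y s) = 0) → lam D = 0 →
      ∀ s, D (x s) = 0) :
    ∃ j₀ : Fin (n + 1), AlgebraicIndependent ℂ (fun j : {j // j ≠ j₀} => y j.1) := by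
  classical
  -- the basis of derivations
  have hD : ∀ s : Fin (n + 1), ∃ D : Derivation ℂ k k, (∀ s', D (x s') = if s' = s then 1 else 0) ∧
      ∀ j, D (w j) = 0 := by
    intro s
    obtain ⟨D, hD⟩ := Pool.Agent.Work.MP_4329d7_ag_sq.exists_der_of_algInd hai
      (Sum.elim (fun s' => if s' = s then 1 else 0) (fun _ => 0))
    exact ⟨D, fun s' => hD (Sum.inl s'), fun j => hD (Sum.inr j)⟩
  choose D hDx hDw using hD
  let F : (Fin (n + 1) → k) →ₗ[k] Derivation ℂ k k := Fintype.linearCombination k D
  have hF : ∀ z u, F z u = ∑ s, z s * D s u := by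
    intro z u
    have h1 : F z = ∑ s, z s • D s := rfl
    have h2 : ∀ (t : Finset (Fin (n + 1))), (∑ s ∈ t, z s • D s) u = ∑ s ∈ t, z s * D s u := by
      intro t
      induction t using Finset.induction_on with
      | empty => simp
      | insert i t hi ih =>
        rw [Finset.sum_insert hi, Finset.sum_insert hi, Derivation.add_apply, ih,
          Derivation.smul_apply, smul_eq_mul]
    rw [h1, h2]
  have hFx : ∀ z s, F z (x s) = z s := by
    intro z s
    rw [hF]
    simp [hDx]
  have hFw : ∀ z j, F z (w j) = 0 := by
    intro z j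
    rw [hF]
    simp [hDw]
  -- a maximal algebraically independent set of coordinates
  obtain ⟨J, hJ, hJmax⟩ := Finset.exists_max_image
    ((Finset.univ : Finset (Finset (Fin (n + 1)))).filter
      (fun J : Finset (Fin (n + 1)) => AlgebraicIndepOn ℂ y {s | s ∈ J})) Finset.card
    ⟨∅, by
      rw [Finset.mem_filter]
      refine ⟨Finset.mem_univ _, ?_⟩
      haveI : IsEmpty {s : Fin (n + 1) // s ∈ {s | s ∈ (∅ : Finset (Fin (n + 1)))}} :=
        ⟨fun a => absurd a.2 (Finset.notMem_empty _)⟩
      exact algebraicIndependent_empty_type_iff.2 (algebraMap ℂ k).injective⟩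
  rw [Finset.mem_filter] at hJ
  have hJi : AlgebraicIndepOn ℂ y (J : Set (Fin (n + 1))) := hJ.2
  by_cases hc : ∃ j₀ : Fin (n + 1), ∀ j, j ≠ j₀ → j ∈ J
  · obtain ⟨j₀, hj₀⟩ := hc
    refine ⟨j₀, ?_⟩
    exact hJi.comp (fun j : {j // j ≠ j₀} => (⟨j.1, hj₀ j.1 j.2⟩ : (J : Set (Fin (n + 1)))))
      (fun a b hab => Subtype.ext (congrArg (fun c => c.1) hab))
  · exfalso
    have hcard : J.card < n := by
      by_contra hge
      rw [not_lt] at hge
      apply hc
      have h1 : Jᶜ.card ≤ 1 := by
        rw [Finset.card_compl, Fintype.card_fin]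
        omega
      rw [Finset.card_le_one] at h1
      rcases Finset.eq_empty_or_nonempty Jᶜ with h2 | ⟨j₀, h2⟩
      · refine ⟨0, fun j _ => ?_⟩
        rw [Finset.compl_eq_empty_iff] at h2
        rw [h2]
        exact Finset.mem_univ _
      · refine ⟨j₀, fun j hj => ?_⟩
        by_contra h3
        exact hj (h1 j (Finset.mem_compl.2 h3) j₀ h2)
    -- the kernel
    let ev : k → (Derivation ℂ k k →ₗ[k] k) := fun u =>
      { toFun := fun D => D u
        map_add' := fun _ _ => rfl
        map_smul' := fun _ _ => rfl }
    let Φ : (Fin (n + 1) → k) →ₗ[k] ((J → k) × k) :=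
      (LinearMap.prod (LinearMap.pi fun j : J => ev (y j.1)) lam).comp F
    have hker : LinearMap.ker Φ ≠ ⊥ := by
      apply LinearMap.ker_ne_bot_of_finrank_lt
      rw [Module.finrank_prod, Module.finrank_fintype_fun_eq_card,
        Module.finrank_fintype_fun_eq_card, Module.finrank_self, Fintype.card_coe,
        Fintype.card_fin]
      omega
    obtain ⟨z, hz, hz0⟩ := (Submodule.ne_bot_iff _).1 hker
    rw [LinearMap.mem_ker] at hz
    have hz1 : ∀ j ∈ J, F z (y j) = 0 := by
      intro j hj
      have := congrArg (fun q : (J → k) × k => q.1 ⟨j, hj⟩) hz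
      exact this
    have hz2 : lam (F z) = 0 := congrArg Prod.snd hz
    have hadj : ∀ a ∈ Algebra.adjoin ℂ (y '' (J : Set (Fin (n + 1)))), F z a = 0 := by
      apply der_adjoin
      rintro _ ⟨j, hj, rfl⟩
      exact hz1 j hj
    have hall : ∀ s, F z (y s) = 0 := by
      intro s
      by_cases hs : s ∈ J
      · exact hz1 s hs
      · apply der_eq_zero_of_isAlgebraic (F z) _ hadj
        by_contra htr
        have h1 : AlgebraicIndepOn ℂ y (insert s (J : Set (Fin (n + 1)))) :=
          AlgebraicIndepOn.insert hJi htr
        rw [← Finset.coe_insert] at h1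
        have h2 := hJmax (insert s J) (Finset.mem_filter.2 ⟨Finset.mem_univ _, h1⟩)
        rw [Finset.card_insert_of_notMem hs] at h2
        omega
    have h3 := h (F z) (hFw z) hall hz2
    apply hz0
    funext s
    rw [← hFx z s, h3 s]
    rfl

end RankA

end Pool.Agent.Work.RC
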