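import Mathlib
import Pool.Agent.Work.MP_4329d7_ag_uni.Defs

/-!
Plan P (helper27): uniruled implies rationally connected for abelian covers of `ℙⁿ` branched along
simple normal crossing divisors.  Definitions.

* `Arr n E`: the forms `F e` (degree `d e`) of the branch divisors, the lattice `L` of the blocks,
  the exponent `N`;
* `Cv A k x`: a rational curve `Y ∈ k[X]^(n+1)` through the point `x` (its value at infinity) which
  meets the branch divisors in the roots `t i` with blocks `β i ∈ L`;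
* `Jac`: the derivative of the system `F_e(Y) = F_e(x) ∏ (X - t_i)^(β i e)`;
* `bi G Y₁ Y₂ = G(Y₁(s₁), Y₂(s₂))`.
-/

namespace Pool.Agent.Work.RC

open Polynomial
open Pool.Agent.Work.Uni (rootPoly)

/-- the branch data -/
structure Arr (n : ℕ) (E : Type) : Type where
  /-- the forms of the branch divisors -/
  F : E → MvPolynomial (Fin (n + 1)) ℂ
  /-- their degrees -/
  d : E → ℕ
  /-- the lattice of the blocks -/
  L : AddSubgroup (E → ℤ)
  /-- the exponent of the cover -/
  N : ℕ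

/-- the branch data of an abelian cover of `ℙⁿ` branched along an snc divisor -/
structure Arr.Ok {n : ℕ} {E : Type} [DecidableEq E] (A : Arr n E) : Prop where
  hom : ∀ e, (A.F e).IsHomogeneous (A.d e)
  d_pos : ∀ e, 0 < A.d e
  N_pos : 0 < A.N
  N_mem : ∀ e, (Pi.single e (A.N : ℤ) : E → ℤ) ∈ A.L
  d_mem : (fun e => (A.d e : ℤ)) ∈ A.L
  snc : ∀ (k : Type) [Field k] [Algebra ℂ k] (P : Fin (n + 1) → k), P ≠ 0 →
    LinearIndependent k (fun (e : {e : E // MvPolynomial.aeval P (A.F e) = 0})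
      (s : Fin (n + 1)) => MvPolynomial.aeval P (MvPolynomial.pderiv s (A.F e.1)))

/-- a rational curve through `x` which lifts to the cover -/
structure Cv {n : ℕ} {E : Type} (A : Arr n E) (k : Type) [Field k] [Algebra ℂ k]
    (x : Fin (n + 1) → k) : Type 1 where
  /-- the degree -/
  m : ℕ
  /-- the index set of the roots -/
  ι : Type
  [fin : Fintype ι]
  /-- the blocks -/
  β : ι → E → ℕ
  /-- the roots -/
  t : ι → k
  /-- the homogeneous coordinates -/
  Y : Fin (n + 1) → k[X]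
  m_pos : 0 < m
  mem : ∀ i, (fun e => (β i e : ℤ)) ∈ A.L
  inj : Function.Injective t
  deg : ∀ s, (Y s).natDegree ≤ m
  lead : ∀ s, (Y s).coeff m = x s
  cop : ∃ V : Fin (n + 1) → k[X], ∑ s, V s * Y s = 1
  eqn : ∀ e, MvPolynomial.aeval Y (A.F e) = C (MvPolynomial.aeval x (A.F e)) * rootPoly β t e

attribute [instance] Cv.fin

/-- `- ∂/∂t_i` of `rootPoly β t e` -/
noncomputable def uD {ι E R : Type*} [Fintype ι] [CommRing R] (β : ι → E → ℕ) (t : ι → R)
    (e : E) (i : ι) : R[X] :=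
  open Classical in
  C (β i e : R) * (X - C (t i)) ^ (β i e - 1) *
    ∏ i' ∈ Finset.univ.erase i, (X - C (t i')) ^ β i' e

/-- the derivative of the system `F_e(Y) = F_e(x) ∏ (X - t_i)^(β i e)` with respect to `(Y, t)`,
times an arbitrary polynomial `w e` in the second term (`w = 1` for a curve) -/
noncomputable def JacW {n : ℕ} {E R ι : Type*} [Fintype ι] [CommRing R] [Algebra ℂ R]
    (F : E → MvPolynomial (Fin (n + 1)) ℂ) (x : Fin (n + 1) → R) (w : E → R[X])
    (β : ι → E → ℕ) (t : ι → R) (Y Z : Fin (n + 1) → R[X]) (δ : ι → R) (e : E) : R[X] :=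
  ∑ s, MvPolynomial.aeval Y (MvPolynomial.pderiv s (F e)) * Z s +
    C (MvPolynomial.aeval x (F e)) * w e * ∑ i, C (δ i) * uD β t e i

/-- the derivative of the system at a curve -/
noncomputable def Cv.Jac {n : ℕ} {E : Type} {A : Arr n E} {k : Type} [Field k] [Algebra ℂ k]
    {x : Fin (n + 1) → k} (c : Cv A k x) (Z : Fin (n + 1) → k[X]) (δ : c.ι → k) (e : E) : k[X] :=
  JacW A.F x 1 c.β c.t c.Y Z δ e

/-- `G(Y₁(s₁), Y₂(s₂))`; `s₁` is the inner variable -/
noncomputable def bi {n : ℕ} {l k : Type*} [CommRing l] [CommRing k] [Algebra l k]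
    (G : MvPolynomial (Fin (n + 1) ⊕ Fin (n + 1)) l) (Y₁ Y₂ : Fin (n + 1) → k[X]) : k[X][X] :=
  MvPolynomial.aeval (Sum.elim (fun s => (C (Y₁ s) : k[X][X])) (fun s => (Y₂ s).map C)) G

/-- `G(x, Y)` -/
noncomputable def semi {n : ℕ} {l k : Type*} [CommRing l] [CommRing k] [Algebra l k]
    (G : MvPolynomial (Fin (n + 1) ⊕ Fin (n + 1)) l) (x : Fin (n + 1) → k)
    (Y : Fin (n + 1) → k[X]) : k[X] :=
  MvPolynomial.aeval (Sum.elim (fun s => (C (x s) : k[X])) Y) G

/-- `G` is homogeneous of degree `a` in the first and of degree `b` in the second variables -/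
def BiHom {n : ℕ} {k : Type*} [CommRing k] (a b : ℕ)
    (G : MvPolynomial (Fin (n + 1) ⊕ Fin (n + 1)) k) : Prop :=
  G.IsWeightedHomogeneous (Sum.elim (fun _ => 1) (fun _ => 0) : _ → ℕ) a ∧
    G.IsWeightedHomogeneous (Sum.elim (fun _ => 0) (fun _ => 1) : _ → ℕ) b

/-- the parameters of a curve: the values of `Y` at the constants `a j` and the roots -/
noncomputable def Cv.par {n : ℕ} {E : Type} {A : Arr n E} {k : Type} [Field k] [Algebra ℂ k]
    {x : Fin (n + 1) → k} (c : Cv A k x) (a : Fin c.m → ℂ) :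
    (Fin (n + 1) × Fin c.m) ⊕ c.ι → k :=
  Sum.elim (fun p => (c.Y p.1).eval (algebraMap ℂ k (a p.2))) c.t

/-- a curve with free parameters `S`: `x` and the parameters in `S` are algebraically independent
and the other parameters are (infinitesimally) determined by them -/
structure Rig {n : ℕ} {E : Type} {A : Arr n E} {k : Type} [Field k] [Algebra ℂ k]
    {x : Fin (n + 1) → k} (c : Cv A k x) (a : Fin c.m → ℂ)
    (S : Set ((Fin (n + 1) × Fin c.m) ⊕ c.ι)) : Prop where
  a_inj : Function.Injective a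
  ai : AlgebraicIndependent ℂ (Sum.elim x (fun j : S => c.par a j.1))
  ker : ∀ (Z : Fin (n + 1) → k[X]) (δ : c.ι → k), (∀ s, (Z s).degree < c.m) →
    (∀ e, c.Jac Z δ e = 0) →
    (∀ s j, Sum.inl (s, j) ∈ S → (Z s).eval (algebraMap ℂ k (a j)) = 0) →
    (∀ i, Sum.inr i ∈ S → δ i = 0) → Z = 0 ∧ δ = 0

/-- the function field of the generic point of affine `n+1`-space, algebraically closed -/
abbrev KK (n : ℕ) : Type := AlgebraicClosure (FractionRing (MvPolynomial (Fin (n + 1)) ℂ))

/-- the generic point -/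
noncomputable def gen (n : ℕ) : Fin (n + 1) → KK n := fun s =>
  algebraMap (FractionRing (MvPolynomial (Fin (n + 1)) ℂ)) (KK n)
    (algebraMap (MvPolynomial (Fin (n + 1)) ℂ) _ (MvPolynomial.X s))

/-- The data of an abelian cover of `ℙⁿ` with branch data `A`: `K = ℂ(x)(z)`, `z ^ N = ∏ F_e ^ c_e` -/
structure Cover {n : ℕ} {E : Type} [Fintype E] (A : Arr n E) (K : Type) [Field K] [Algebra ℂ K]
    (x : Fin n → K) (S : Set (K × (E → ℕ))) : Prop where
  alg_indep : AlgebraicIndependent ℂ x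
  rad : ∀ z c, (z, c) ∈ S → z ^ A.N =
    ∏ e, MvPolynomial.aeval (Fin.cons 1 x : Fin (n + 1) → K) (A.F e) ^ c e
  deg : ∀ z c, (z, c) ∈ S → A.N ∣ ∑ e, c e * A.d e
  blk : ∀ z c, (z, c) ∈ S → ∀ b ∈ A.L, (A.N : ℤ) ∣ ∑ e, b e * (c e : ℤ)
  gen : IntermediateField.adjoin ℂ (Set.range x ∪ {z | ∃ c, (z, c) ∈ S}) = ⊤

end Pool.Agent.Work.RC
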