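import Mathlib
import Pool.Agent.Work.MP_4329d7_ag_rc.Defs

/-!
Basic facts on curves: degrees, base change, translation, scaling, the chain rule.
-/

namespace Pool.Agent.Work.RC

open Polynomial
open Pool.Agent.Work.Uni (rootPoly)

section Forms

variable {n : ℕ}

/-- degree and coefficient of a product of powers -/
theorem prod_pow_aux {R : Type*} [CommRing R] (Y : Fin (n + 1) → R[X]) {m : ℕ}
    (hY : ∀ s, (Y s).natDegree ≤ m) (e : Fin (n + 1) → ℕ) (S : Finset (Fin (n + 1))) :
    (∏ s ∈ S, Y s ^ e s).natDegree ≤ (∑ s ∈ S, e s) * m ∧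
    (∏ s ∈ S, Y s ^ e s).coeff ((∑ s ∈ S, e s) * m) = ∏ s ∈ S, (Y s).coeff m ^ e s := by
  classical
  induction S using Finset.induction_on with
  | empty => simp
  | insert a S ha ih =>
    have h1 : (Y a ^ e a).natDegree ≤ e a * m :=
      (natDegree_pow_le).trans (Nat.mul_le_mul_left _ (hY a))
    rw [Finset.prod_insert ha, Finset.sum_insert ha, Finset.prod_insert ha, add_mul]
    refine ⟨(natDegree_mul_le).trans (add_le_add h1 ih.1), ?_⟩
    rw [coeff_mul_add_eq_of_natDegree_le h1 ih.1, ih.2, coeff_pow_of_natDegree_le (hY a)]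

/-- the value as a sum over the support -/
theorem aeval_sum_support {R : Type*} [CommRing R] [Algebra ℂ R]
    (G : MvPolynomial (Fin (n + 1)) ℂ) (Y : Fin (n + 1) → R) :
    MvPolynomial.aeval Y G =
      ∑ e ∈ G.support, algebraMap ℂ R (G.coeff e) * ∏ s, Y s ^ e s := by
  rw [MvPolynomial.aeval_def, MvPolynomial.eval₂_eq']

theorem hom_sum {G : MvPolynomial (Fin (n + 1)) ℂ} {d : ℕ} (hG : G.IsHomogeneous d)
    {e : Fin (n + 1) →₀ ℕ} (he : e ∈ G.support) : ∑ s, e s = d := by
  have h := hG (MvPolynomial.mem_support_iff.1 he)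
  rw [← h, Finsupp.weight_apply, Finsupp.sum_fintype _ _ (by simp)]
  simp

/-- the degree and the top coefficient of a form of degree `d` at polynomials of degree `≤ m` -/
theorem natDegree_aeval_le {R : Type*} [CommRing R] [Algebra ℂ R]
    {G : MvPolynomial (Fin (n + 1)) ℂ} {d m : ℕ} (hG : G.IsHomogeneous d) (Y : Fin (n + 1) → R[X])
    (hY : ∀ s, (Y s).natDegree ≤ m) :
    (MvPolynomial.aeval Y G).natDegree ≤ d * m := by
  rw [aeval_sum_support]
  refine natDegree_sum_le_of_forall_le _ _ fun e he => ?_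
  rw [Polynomial.algebraMap_apply]
  refine (natDegree_C_mul_le _ _).trans ?_
  have h := (prod_pow_aux Y hY (fun s => e s) Finset.univ).1
  rwa [hom_sum hG he] at h

theorem coeff_aeval {R : Type*} [CommRing R] [Algebra ℂ R]
    {G : MvPolynomial (Fin (n + 1)) ℂ} {d m : ℕ} (hG : G.IsHomogeneous d) (Y : Fin (n + 1) → R[X])
    (hY : ∀ s, (Y s).natDegree ≤ m) :
    (MvPolynomial.aeval Y G).coeff (d * m) = MvPolynomial.aeval (fun s => (Y s).coeff m) G := by
  rw [aeval_sum_support, aeval_sum_support, finsetSum_coeff]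
  refine Finset.sum_congr rfl fun e he => ?_
  rw [Polynomial.algebraMap_apply, coeff_C_mul]
  have h := (prod_pow_aux Y hY (fun s => e s) Finset.univ).2
  rw [hom_sum hG he] at h
  rw [h]

/-- an arbitrary polynomial of total degree `d` -/
theorem natDegree_aeval_le' {R : Type*} [CommRing R] [Algebra ℂ R]
    (G : MvPolynomial (Fin (n + 1)) ℂ) {m : ℕ} (Y : Fin (n + 1) → R[X])
    (hY : ∀ s, (Y s).natDegree ≤ m) :
    (MvPolynomial.aeval Y G).natDegree ≤ G.totalDegree * m := by
  rw [aeval_sum_support]
  refine natDegree_sum_le_of_forall_le _ _ fun e he => ?_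
  rw [Polynomial.algebraMap_apply]
  refine (natDegree_C_mul_le _ _).trans ?_
  refine (prod_pow_aux Y hY (fun s => e s) Finset.univ).1.trans (Nat.mul_le_mul_right _ ?_)
  have h := MvPolynomial.le_totalDegree he
  rwa [Finsupp.sum_fintype _ _ (by simp)] at h

theorem coeff_aeval' {R : Type*} [CommRing R] [Algebra ℂ R]
    (G : MvPolynomial (Fin (n + 1)) ℂ) {m : ℕ} (hm : 0 < m) (Y : Fin (n + 1) → R[X])
    (hY : ∀ s, (Y s).natDegree ≤ m) :
    (MvPolynomial.aeval Y G).coeff (G.totalDegree * m) =
      MvPolynomial.aeval (fun s => (Y s).coeff m)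
        (MvPolynomial.homogeneousComponent G.totalDegree G) := by
  conv_lhs => rw [← MvPolynomial.sum_homogeneousComponent G]
  rw [map_sum, finsetSum_coeff, MvPolynomial.sum_homogeneousComponent G]
  rw [Finset.sum_range_succ, Finset.sum_eq_zero, zero_add]
  · exact coeff_aeval (MvPolynomial.homogeneousComponent_isHomogeneous _ _) Y hY
  · intro i hi
    refine coeff_eq_zero_of_natDegree_lt
      ((natDegree_aeval_le (MvPolynomial.homogeneousComponent_isHomogeneous i G) Y hY).trans_lt ?_)
    exact (Nat.mul_lt_mul_right hm).2 (Finset.mem_range.1 hi)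

/-- the chain rule for the coefficientwise extension `D'` of a derivation -/
theorem derivation_aeval {R : Type*} [CommRing R] [Algebra ℂ R] (D : Derivation ℂ R R)
    (G : MvPolynomial (Fin (n + 1)) ℂ) (Y : Fin (n + 1) → R) :
    D (MvPolynomial.aeval Y G) =
      ∑ s, MvPolynomial.aeval Y (MvPolynomial.pderiv s G) * D (Y s) := by
  induction G using MvPolynomial.induction_on with
  | C a => simp
  | add p q hp hq => simp only [map_add, hp, hq, add_mul, Finset.sum_add_distrib]
  | mul_X p i hp =>
    rw [map_mul, MvPolynomial.aeval_X, Derivation.leibniz, hp]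
    simp only [Derivation.leibniz, MvPolynomial.pderiv_X, smul_eq_mul, map_add, map_mul,
      MvPolynomial.aeval_X, add_mul, Finset.sum_add_distrib]
    congr 1
    · rw [Finset.sum_eq_single i]
      · simp
      · intro b _ hb
        simp [hb]
      · simp
    · rw [Finset.mul_sum]
      exact Finset.sum_congr rfl fun s _ => by ring

theorem coeffD_aux {R : Type*} [CommRing R] [Algebra ℂ R] (D : Derivation ℂ R R) (p : R[X])
    (i : ℕ) : (p.sum fun i a => monomial i (D a)).coeff i = D (p.coeff i) := by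
  rw [Polynomial.sum_def, finsetSum_coeff]
  simp only [coeff_monomial]
  rw [Finset.sum_ite_eq']
  split_ifs with h
  · rfl
  · rw [notMem_support_iff.1 h, map_zero]

/-- the coefficientwise extension of a derivation to polynomials -/
noncomputable def coeffD {R : Type*} [CommRing R] [Algebra ℂ R] (D : Derivation ℂ R R) :
    Derivation ℂ R[X] R[X] where
  toFun p := p.sum fun i a => monomial i (D a)
  map_add' p q := by
    ext i
    rw [coeff_add, coeffD_aux, coeffD_aux, coeffD_aux, coeff_add, map_add]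
  map_smul' c p := by
    ext i
    rw [coeffD_aux, coeff_smul, Derivation.map_smul, RingHom.id_apply, coeff_smul, coeffD_aux]
  map_one_eq_zero' := by
    change (1 : R[X]).sum (fun i a => monomial i (D a)) = 0
    ext i
    rw [coeffD_aux, coeff_one, coeff_zero]
    split_ifs
    · exact D.map_one_eq_zero
    · exact map_zero D
  leibniz' p q := by
    change (p * q).sum (fun i a => monomial i (D a)) =
      p • q.sum (fun i a => monomial i (D a)) + q • p.sum (fun i a => monomial i (D a))
    ext i
    rw [coeffD_aux, coeff_add, smul_eq_mul, smul_eq_mul, coeff_mul, map_sum,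
      mul_comm q, coeff_mul, coeff_mul, ← Finset.sum_add_distrib]
    refine Finset.sum_congr rfl fun a _ => ?_
    rw [coeffD_aux, coeffD_aux, Derivation.leibniz, smul_eq_mul, smul_eq_mul]
    ring

theorem coeffD_coeff {R : Type*} [CommRing R] [Algebra ℂ R] (D : Derivation ℂ R R) (p : R[X])
    (i : ℕ) : (coeffD D p).coeff i = D (p.coeff i) := coeffD_aux D p i

theorem coeffD_C {R : Type*} [CommRing R] [Algebra ℂ R] (D : Derivation ℂ R R) (a : R) :
    coeffD D (C a) = C (D a) := by
  ext i
  rw [coeffD_coeff, coeff_C, coeff_C]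
  split_ifs
  · rfl
  · exact map_zero D

theorem coeffD_X {R : Type*} [CommRing R] [Algebra ℂ R] (D : Derivation ℂ R R) :
    coeffD D X = 0 := by
  ext i
  rw [coeffD_coeff, coeff_X, coeff_zero]
  split_ifs
  · exact D.map_one_eq_zero
  · exact map_zero D

/-- `D (p s) = (D p) s + p' s * D s` -/
theorem derivation_eval {R : Type*} [CommRing R] [Algebra ℂ R] (D : Derivation ℂ R R) (p : R[X])
    (s : R) : D (p.eval s) = (coeffD D p).eval s + (derivative p).eval s * D s := by
  induction p using Polynomial.induction_on' with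
  | add p q hp hq => rw [eval_add, map_add, hp, hq, map_add, eval_add, derivative_add, eval_add]; ring
  | monomial i a =>
    rw [← C_mul_X_pow_eq_monomial, eval_mul, eval_C, eval_pow, eval_X, Derivation.leibniz,
      Derivation.leibniz, coeffD_C, Derivation.leibniz_pow, Derivation.leibniz_pow, coeffD_X]
    simp only [smul_eq_mul, nsmul_eq_mul, mul_zero, smul_zero, zero_add, eval_mul, eval_pow,
      eval_X, eval_C, derivative_mul, derivative_C, zero_mul, derivative_X_pow]
    ring

end Forms

section Roots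

variable {ι E R : Type*} [Fintype ι] [CommRing R]

theorem uD_mul (β : ι → E → ℕ) (t : ι → R) (e : E) (i : ι) :
    (X - C (t i)) * uD β t e i = C (β i e : R) * rootPoly β t e := by
  classical
  have h : rootPoly β t e = (X - C (t i)) ^ β i e *
      ∏ i' ∈ Finset.univ.erase i, (X - C (t i')) ^ β i' e :=
    (Finset.mul_prod_erase _ _ (Finset.mem_univ i)).symm
  have h2 : uD β t e i = C (β i e : R) * (X - C (t i)) ^ (β i e - 1) *
      ∏ i' ∈ Finset.univ.erase i, (X - C (t i')) ^ β i' e := by
    unfold uD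
    rfl
  rw [h, h2]
  rcases Nat.eq_zero_or_pos (β i e) with h0 | h0
  · simp [h0]
  · obtain ⟨b, hb⟩ := Nat.exists_eq_succ_of_ne_zero h0.ne'
    rw [hb, Nat.succ_sub_one, pow_succ]
    ring

theorem uD_eq (β : ι → E → ℕ) (t : ι → R) (e : E) (i : ι) [inst : DecidableEq ι] :
    uD β t e i = (∏ i' ∈ Finset.univ.erase i, (X - C (t i')) ^ β i' e) *
      (C (β i e : R) * (X - C (t i)) ^ (β i e - 1)) := by
  obtain rfl : inst = fun a b => Classical.propDecidable (a = b) := Subsingleton.elim _ _
  unfold uD
  rw [mul_comm]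

theorem derivative_rootPoly (β : ι → E → ℕ) (t : ι → R) (e : E) :
    derivative (rootPoly β t e) = ∑ i, uD β t e i := by
  classical
  unfold rootPoly
  rw [derivative_prod_finset]
  refine Finset.sum_congr rfl fun i _ => ?_
  rw [uD_eq, derivative_X_sub_C_pow]

theorem derivation_prod {A B : Type*} [CommRing A] [CommRing B] [Algebra B A]
    (D : Derivation B A A) {κ : Type*} [DecidableEq κ] (S : Finset κ) (f : κ → A) :
    D (∏ i ∈ S, f i) = ∑ i ∈ S, (∏ j ∈ S.erase i, f j) * D (f i) := by
  induction S using Finset.induction_on with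
  | empty => simp
  | insert a S ha ih =>
    rw [Finset.prod_insert ha, Derivation.leibniz, ih, Finset.sum_insert ha,
      Finset.erase_insert ha, smul_eq_mul, smul_eq_mul, add_comm, Finset.mul_sum]
    congr 1
    refine Finset.sum_congr rfl fun i hi => ?_
    have hia : i ≠ a := fun h => ha (h ▸ hi)
    rw [Finset.erase_insert_of_ne hia.symm, Finset.prod_insert (fun h => ha (Finset.mem_of_mem_erase h))]
    ring

theorem coeffD_rootPoly [Algebra ℂ R] (D : Derivation ℂ R R) (β : ι → E → ℕ) (t : ι → R) (e : E) :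
    coeffD D (rootPoly β t e) = - ∑ i, C (D (t i)) * uD β t e i := by
  classical
  unfold rootPoly
  rw [derivation_prod, ← Finset.sum_neg_distrib]
  refine Finset.sum_congr rfl fun i _ => ?_
  rw [uD_eq, Derivation.leibniz_pow, map_sub, coeffD_X, coeffD_C]
  simp only [nsmul_eq_mul, smul_eq_mul, map_natCast]
  ring

theorem uD_degree [Nontrivial R] (β : ι → E → ℕ) (t : ι → R) (e : E) (i : ι) :
    (uD β t e i).degree < (∑ i, β i e : ℕ) := by
  classical
  rw [uD_eq]
  rcases Nat.eq_zero_or_pos (β i e) with h0 | h0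
  · rw [h0]
    simp only [Nat.cast_zero, C_0, zero_mul, mul_zero, degree_zero]
    exact WithBot.bot_lt_coe _
  · have h1 : ((∏ i' ∈ Finset.univ.erase i, (X - C (t i')) ^ β i' e) *
        (C (β i e : R) * (X - C (t i)) ^ (β i e - 1))).natDegree ≤
        ∑ i' ∈ Finset.univ.erase i, β i' e + (β i e - 1) := by
      refine natDegree_mul_le.trans (add_le_add ?_ ?_)
      · refine (natDegree_prod_le _ _).trans (Finset.sum_le_sum fun j _ => ?_)
        refine natDegree_pow_le.trans ?_
        rw [natDegree_X_sub_C, mul_one]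
      · refine (natDegree_C_mul_le _ _).trans (natDegree_pow_le.trans ?_)
        rw [natDegree_X_sub_C, mul_one]
    refine (degree_le_natDegree).trans_lt ?_
    have h2 : ∑ i' ∈ Finset.univ.erase i, β i' e + β i e = ∑ i, β i e :=
      Finset.sum_erase_add _ _ (Finset.mem_univ i)
    have h3 : ∑ i' ∈ Finset.univ.erase i, β i' e + (β i e - 1) < ∑ i, β i e := by omega
    exact_mod_cast h1.trans_lt h3

theorem rootPoly_map {S : Type*} [CommRing S] (f : R →+* S) (β : ι → E → ℕ) (t : ι → R) (e : E) :
    (rootPoly β t e).map f = rootPoly β (fun i => f (t i)) e := by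
  unfold rootPoly
  rw [Polynomial.map_prod]
  refine Finset.prod_congr rfl fun i _ => ?_
  rw [Polynomial.map_pow, Polynomial.map_sub, map_X, map_C]

theorem uD_map {S : Type*} [CommRing S] (f : R →+* S) (β : ι → E → ℕ) (t : ι → R) (e : E) (i : ι) :
    (uD β t e i).map f = uD β (fun i => f (t i)) e i := by
  classical
  rw [uD_eq, uD_eq, Polynomial.map_mul, Polynomial.map_mul, Polynomial.map_prod,
    Polynomial.map_pow, Polynomial.map_sub, map_X, map_C, map_C, map_natCast]
  congr 1
  refine Finset.prod_congr rfl fun i _ => ?_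
  rw [Polynomial.map_pow, Polynomial.map_sub, map_X, map_C]

end Roots

section Curves

variable {n : ℕ} {E : Type} [DecidableEq E] {A : Arr n E}

theorem Arr.Ok.F_ne_zero (hA : A.Ok) (e : E) : A.F e ≠ 0 := by
  intro h0
  have hP : (Pi.single 0 1 : Fin (n + 1) → ℂ) ≠ 0 := by
    intro h
    have := congrFun h 0
    simp at this
  have hli := hA.snc ℂ (Pi.single 0 1) hP
  have hz : MvPolynomial.aeval (Pi.single 0 1 : Fin (n + 1) → ℂ) (A.F e) = 0 := by
    rw [h0, map_zero]
  refine hli.ne_zero ⟨e, hz⟩ ?_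
  funext s
  simp only [h0, map_zero, Pi.zero_apply]

theorem Arr.Ok.aeval_ne_zero (hA : A.Ok) {k : Type} [Field k] [Algebra ℂ k] {x : Fin (n + 1) → k}
    (hx : AlgebraicIndependent ℂ x) (e : E) : MvPolynomial.aeval x (A.F e) ≠ 0 := by
  intro h0
  refine hA.F_ne_zero e (hx ?_)
  rw [h0, map_zero]

variable {k : Type} [Field k] [Algebra ℂ k] {x : Fin (n + 1) → k}

omit [DecidableEq E] in
theorem rootPoly_monic {ι R : Type*} [Fintype ι] [CommRing R] (β : ι → E → ℕ) (t : ι → R)
    (e : E) : (rootPoly β t e).Monic :=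
  monic_prod_of_monic _ _ fun i _ => (monic_X_sub_C _).pow _

omit [DecidableEq E] in
theorem natDegree_rootPoly {ι R : Type*} [Fintype ι] [CommRing R] [Nontrivial R]
    (β : ι → E → ℕ) (t : ι → R) (e : E) : (rootPoly β t e).natDegree = ∑ i, β i e := by
  unfold rootPoly
  rw [natDegree_prod_of_monic _ _ fun i _ => (monic_X_sub_C _).pow _]
  refine Finset.sum_congr rfl fun i _ => ?_
  rw [(monic_X_sub_C _).natDegree_pow, natDegree_X_sub_C, mul_one]

/-- the degree of a system -/
theorem sum_β_of_eqn (hA : A.Ok) (hx : AlgebraicIndependent ℂ x) {m : ℕ} {ι : Type} [Fintype ι]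
    (β : ι → E → ℕ) (t : ι → k) (Y : Fin (n + 1) → k[X])
    (deg : ∀ s, (Y s).natDegree ≤ m) (lead : ∀ s, (Y s).coeff m = x s) (e : E)
    (eqn : MvPolynomial.aeval Y (A.F e) = C (MvPolynomial.aeval x (A.F e)) * rootPoly β t e) :
    ∑ i, β i e = A.d e * m := by
  have h0 := hA.aeval_ne_zero hx e
  have h1 : (MvPolynomial.aeval Y (A.F e)).natDegree = A.d e * m := by
    refine le_antisymm (natDegree_aeval_le (hA.hom e) Y deg) ?_
    refine le_natDegree_of_ne_zero ?_
    rw [coeff_aeval (hA.hom e) Y deg]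
    simp only [lead]
    exact h0
  rw [← h1, eqn, natDegree_C_mul h0, natDegree_rootPoly]

theorem Cv.sum_β (hA : A.Ok) (hx : AlgebraicIndependent ℂ x) (c : Cv A k x) (e : E) :
    ∑ i, c.β i e = A.d e * c.m :=
  sum_β_of_eqn hA hx c.β c.t c.Y c.deg c.lead e (c.eqn e)

omit [DecidableEq E] in
/-- forms commute with algebra homomorphisms -/
theorem aeval_map_poly {R S : Type*} [CommRing R] [CommRing S] [Algebra ℂ R] [Algebra ℂ S]
    (f : R →ₐ[ℂ] S) (Y : Fin (n + 1) → R[X]) (G : MvPolynomial (Fin (n + 1)) ℂ) :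
    MvPolynomial.aeval (fun s => (Y s).map (f : R →+* S)) G =
      (MvPolynomial.aeval Y G).map (f : R →+* S) := by
  have h := MvPolynomial.comp_aeval_apply (R := ℂ) Y (mapAlgHom f) G
  rw [coe_mapAlgHom] at h
  exact h.symm

/-- base change -/
noncomputable def Cv.map {k' : Type} [Field k'] [Algebra ℂ k'] (f : k →ₐ[ℂ] k') (c : Cv A k x) :
    Cv A k' (fun s => f (x s)) where
  m := c.m
  ι := c.ι
  β := c.β
  t := fun i => f (c.t i)
  Y := fun s => (c.Y s).map (f : k →+* k')
  m_pos := c.m_pos
  mem := c.mem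
  inj := f.injective.comp c.inj
  deg := fun s => natDegree_map_le.trans (c.deg s)
  lead := fun s => by rw [coeff_map, c.lead]; rfl
  cop := by
    obtain ⟨V, hV⟩ := c.cop
    refine ⟨fun s => (V s).map (f : k →+* k'), ?_⟩
    have h := congrArg (Polynomial.map (f : k →+* k')) hV
    rw [Polynomial.map_sum, Polynomial.map_one] at h
    rw [← h]
    refine Finset.sum_congr rfl fun s _ => ?_
    rw [Polynomial.map_mul]
  eqn := fun e => by
    rw [aeval_map_poly, c.eqn, Polynomial.map_mul, Polynomial.map_C, rootPoly_map]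
    congr 2
    exact (MvPolynomial.comp_aeval_apply x f (A.F e))

/-- translation of the parameter -/
noncomputable def Cv.translate (c : Cv A k x) (a : k) : Cv A k x where
  m := c.m
  ι := c.ι
  β := c.β
  t := fun i => c.t i - a
  Y := fun s => (c.Y s).comp (X + C a)
  m_pos := c.m_pos
  mem := c.mem
  inj := fun i j h => c.inj (sub_left_injective h)
  deg := fun s => by
    rw [← taylor_apply, natDegree_taylor]
    exact c.deg s
  lead := fun s => by
    rcases (c.deg s).lt_or_eq with h | h
    · rw [← c.lead s, coeff_eq_zero_of_natDegree_lt h, coeff_eq_zero_of_natDegree_lt]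
      rw [← taylor_apply, natDegree_taylor]
      exact h
    · rw [← c.lead s, ← h, ← taylor_apply, coeff_taylor_natDegree]
      rfl
  cop := by
    obtain ⟨V, hV⟩ := c.cop
    refine ⟨fun s => (V s).comp (X + C a), ?_⟩
    have h := congrArg (fun p : k[X] => p.comp (X + C a)) hV
    simp only [one_comp] at h
    rw [← h, Polynomial.sum_comp]
    refine Finset.sum_congr rfl fun s _ => ?_
    rw [mul_comp]
  eqn := fun e => by
    have h := MvPolynomial.comp_aeval_apply (R := ℂ) c.Y
      ((Polynomial.aeval (X + C a : k[X])).restrictScalars ℂ) (A.F e)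
    simp only [AlgHom.restrictScalars_apply, ← comp_eq_aeval] at h
    rw [← h, c.eqn, mul_comp, C_comp]
    congr 1
    unfold rootPoly
    rw [Polynomial.prod_comp]
    refine Finset.prod_congr rfl fun i _ => ?_
    rw [pow_comp, sub_comp, X_comp, C_comp, C_sub]
    congr 1
    ring

omit [DecidableEq E] in
/-- homogeneity of a form -/
theorem aeval_smul_form {R : Type*} [CommRing R] [Algebra ℂ R] {G : MvPolynomial (Fin (n + 1)) ℂ}
    {d : ℕ} (hG : G.IsHomogeneous d) (Y : Fin (n + 1) → R) (l : R) :
    MvPolynomial.aeval (fun s => l * Y s) G = l ^ d * MvPolynomial.aeval Y G := by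
  classical
  rw [MvPolynomial.aeval_def, MvPolynomial.aeval_def, MvPolynomial.eval₂_eq, MvPolynomial.eval₂_eq,
    Finset.mul_sum]
  refine Finset.sum_congr rfl fun v hv => ?_
  have hd : v.sum (fun _ => id) = d := by
    have := hG (MvPolynomial.mem_support_iff.1 hv)
    rw [← this]
    simp [Finsupp.weight_apply, Finsupp.sum]
  rw [Finset.prod_congr rfl (fun s _ => mul_pow l (Y s) (v s)), Finset.prod_mul_distrib,
    Finset.prod_pow_eq_pow_sum]
  have h2 : ∑ s ∈ v.support, v s = d := by
    rw [← hd]
    rfl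
  rw [h2]
  ring

/-- scaling of the base point -/
noncomputable def Cv.scale (hA : A.Ok) (c : Cv A k x) (l : k) (hl : l ≠ 0) :
    Cv A k (fun s => l * x s) where
  m := c.m
  ι := c.ι
  β := c.β
  t := c.t
  Y := fun s => C l * c.Y s
  m_pos := c.m_pos
  mem := c.mem
  inj := c.inj
  deg := fun s => (natDegree_C_mul_le l _).trans (c.deg s)
  lead := fun s => by rw [coeff_C_mul, c.lead]
  cop := by
    obtain ⟨V, hV⟩ := c.cop
    refine ⟨fun s => C l⁻¹ * V s, ?_⟩
    rw [← hV]
    refine Finset.sum_congr rfl fun s _ => ?_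
    have : C l⁻¹ * C l = (1 : k[X]) := by rw [← C_mul, inv_mul_cancel₀ hl, C_1]
    calc C l⁻¹ * V s * (C l * c.Y s) = (C l⁻¹ * C l) * (V s * c.Y s) := by ring
      _ = V s * c.Y s := by rw [this, one_mul]
  eqn := fun e => by
    rw [aeval_smul_form (hA.hom e), aeval_smul_form (hA.hom e), c.eqn, C_mul, C_pow]
    ring

end Curves

end Pool.Agent.Work.RC
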