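import Mathlib

/-!
Formal implicit function theorem over `k[[ε]]`: a polynomial system with coefficients in `k[[ε]]`
which has a solution modulo `ε` whose Jacobian is onto has a solution in `k[[ε]]`.
-/

namespace Pool.Agent.Work.RC

open MvPolynomial

section Taylor

variable {A N : Type*} [CommRing A] [Fintype N]

/-- Taylor expansion to first order -/
theorem ift_taylor (I : Ideal A) (z h : N → A) (hh : ∀ j, h j ∈ I) (p : MvPolynomial N A) :
    aeval (z + h) p - aeval z p - ∑ j, aeval z (pderiv j p) * h j ∈ I ^ 2 := by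
  classical
  induction p using MvPolynomial.induction_on with
  | C a =>
    simp only [aeval_C, pderiv_C, map_zero, zero_mul, Finset.sum_const_zero, sub_self, zero_mem]
  | add p q hp hq =>
    have h1 := add_mem hp hq
    simp only [map_add, add_mul, Finset.sum_add_distrib]
    convert h1 using 1
    ring
  | mul_X p n hp =>
    have hS : ∑ j, aeval z (pderiv j p) * h j ∈ I :=
      Ideal.sum_mem _ fun j _ => Ideal.mul_mem_left _ _ (hh j)
    have h1 : ∑ j, aeval z (pderiv j (p * X n)) * h j =
        aeval z p * h n + z n * ∑ j, aeval z (pderiv j p) * h j := by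
      have h2 : ∀ j, aeval z (pderiv j (p * X n)) * h j =
          (if j = n then aeval z p * h j else 0) + z n * (aeval z (pderiv j p) * h j) := by
        intro j
        rw [pderiv_mul, map_add, map_mul, map_mul, aeval_X, pderiv_X]
        by_cases hj : j = n
        · subst hj
          rw [if_pos rfl, Pi.single_eq_same, map_one]
          ring
        · rw [if_neg hj, Pi.single_eq_of_ne (fun h => hj h.symm), map_zero]
          ring
      simp only [h2, Finset.sum_add_distrib, Finset.sum_ite_eq', Finset.mem_univ, if_true,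
        Finset.mul_sum]
    rw [h1, map_mul, map_mul, aeval_X, aeval_X, Pi.add_apply]
    have h3 : aeval (z + h) p - aeval z p ∈ I := by
      have h4 := add_mem (Ideal.pow_le_self two_ne_zero hp) hS
      rwa [sub_add_cancel] at h4
    have h5 : (aeval (z + h) p - aeval z p) * h n ∈ I ^ 2 := by
      rw [pow_two]
      exact Ideal.mul_mem_mul h3 (hh n)
    have h6 := add_mem (Ideal.mul_mem_left _ (z n) hp) h5
    convert h6 using 1
    ring

/-- congruences -/
theorem ift_congr (I : Ideal A) (z z' : N → A) (hz : ∀ j, z' j - z j ∈ I) (p : MvPolynomial N A) :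
    aeval z' p - aeval z p ∈ I := by
  have h1 := ift_taylor I z (z' - z) hz p
  have hS : ∑ j, aeval z (pderiv j p) * (z' - z) j ∈ I :=
    Ideal.sum_mem _ fun j _ => Ideal.mul_mem_left _ _ (hz j)
  have h2 := add_mem (Ideal.pow_le_self two_ne_zero h1) hS
  rwa [add_sub_cancel, sub_add_cancel] at h2

end Taylor

open PowerSeries in
/-- The formal implicit function theorem. -/
theorem ift {k M N : Type*} [Field k] [Fintype M] [Fintype N] (P : M → MvPolynomial N k⟦X⟧)
    (z₀ : N → k⟦X⟧) (h0 : ∀ i, constantCoeff (aeval z₀ (P i)) = 0)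
    (hJ : ∀ w : M → k, ∃ v : N → k, ∀ i,
      ∑ j, constantCoeff (aeval z₀ (MvPolynomial.pderiv j (P i))) * v j = w i) :
    ∃ z : N → k⟦X⟧, (∀ j, constantCoeff (z j) = constantCoeff (z₀ j)) ∧
      ∀ i, aeval z (P i) = 0 := by
  classical
  -- a right inverse of the Jacobian
  choose R hR using fun l : M => hJ (Pi.single l 1)
  let I : Ideal k⟦X⟧ := Ideal.span {(PowerSeries.X : k⟦X⟧)}
  have hI : ∀ (n : ℕ) (f : k⟦X⟧), f ∈ I ^ n ↔ (PowerSeries.X : k⟦X⟧) ^ n ∣ f := by
    intro n f
    rw [Ideal.span_singleton_pow, Ideal.mem_span_singleton]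
  have hI1 : ∀ f : k⟦X⟧, f ∈ I ↔ constantCoeff f = 0 := by
    intro f
    rw [Ideal.mem_span_singleton, PowerSeries.X_dvd_iff]
  let step : (N → k⟦X⟧) → (N → k⟦X⟧) := fun z => z + fun j =>
    -∑ l, PowerSeries.C (R l j) * aeval z (P l)
  let Z : ℕ → N → k⟦X⟧ := fun n => step^[n] z₀
  have hZs : ∀ n, Z (n + 1) = step (Z n) := fun n => Function.iterate_succ_apply' step n z₀
  have key : ∀ n, (∀ j, Z n j - z₀ j ∈ I) ∧ ∀ i, aeval (Z n) (P i) ∈ I ^ (n + 1) := by
    intro n
    induction n with
    | zero =>
      refine ⟨fun j => ?_, fun i => ?_⟩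
      · change z₀ j - z₀ j ∈ I
        rw [sub_self]
        exact zero_mem _
      · rw [zero_add, pow_one, hI1]
        exact h0 i
    | succ n ih =>
      obtain ⟨ih1, ih2⟩ := ih
      have hh : ∀ j, (-∑ l, PowerSeries.C (R l j) * aeval (Z n) (P l)) ∈ I ^ (n + 1) :=
        fun j => neg_mem (Ideal.sum_mem _ fun l _ => Ideal.mul_mem_left _ _ (ih2 l))
      refine ⟨fun j => ?_, fun i => ?_⟩
      · rw [hZs]
        have h1 : step (Z n) j - z₀ j = (Z n j - z₀ j) +
            (-∑ l, PowerSeries.C (R l j) * aeval (Z n) (P l)) := by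
          change Z n j + (-∑ l, PowerSeries.C (R l j) * aeval (Z n) (P l)) - z₀ j = _
          ring
        rw [h1]
        exact add_mem (ih1 j) (Ideal.pow_le_self (Nat.succ_ne_zero n) (hh j))
      · rw [hZs]
        have h1 := ift_taylor (I ^ (n + 1)) (Z n) _ hh (P i)
        have h2' : (I ^ (n + 1)) ^ 2 ≤ I ^ (n + 1 + 1) := by
          rw [← pow_mul]
          exact Ideal.pow_le_pow_right (by omega)
        have h3 := h2' h1
        have h4 : aeval (Z n) (P i) + ∑ j, aeval (Z n) (MvPolynomial.pderiv j (P i)) *
            (-∑ l, PowerSeries.C (R l j) * aeval (Z n) (P l)) ∈ I ^ (n + 1 + 1) := by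
          have h5 : aeval (Z n) (P i) + ∑ j, aeval (Z n) (MvPolynomial.pderiv j (P i)) *
              (-∑ l, PowerSeries.C (R l j) * aeval (Z n) (P l)) =
              ∑ l, ((if l = i then 1 else 0) - ∑ j, aeval (Z n) (MvPolynomial.pderiv j (P i)) *
                PowerSeries.C (R l j)) * aeval (Z n) (P l) := by
            simp only [sub_mul, Finset.sum_sub_distrib, ite_mul, one_mul, zero_mul,
              Finset.sum_ite_eq', Finset.mem_univ, if_true, mul_neg, Finset.sum_neg_distrib,
              Finset.mul_sum, Finset.sum_mul]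
            rw [Finset.sum_comm, ← sub_eq_add_neg]
            simp only [mul_assoc]
          rw [h5]
          refine Ideal.sum_mem _ fun l _ => ?_
          rw [pow_succ' I (n + 1)]
          refine Ideal.mul_mem_mul ?_ (ih2 l)
          rw [hI1, map_sub, map_sum]
          have h6 : ∀ j, constantCoeff (aeval (Z n) (MvPolynomial.pderiv j (P i)) *
              PowerSeries.C (R l j)) =
                constantCoeff (aeval z₀ (MvPolynomial.pderiv j (P i))) * R l j := by
            intro j
            rw [map_mul, PowerSeries.constantCoeff_C]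
            congr 1
            have h7 := ift_congr I z₀ (Z n) ih1 (MvPolynomial.pderiv j (P i))
            rw [hI1, map_sub, sub_eq_zero] at h7
            exact h7
          simp only [h6, hR l i]
          by_cases hli : l = i
          · subst hli
            rw [if_pos rfl, Pi.single_eq_same, map_one, sub_self]
          · rw [if_neg hli, Pi.single_eq_of_ne (fun h => hli h.symm), map_zero, sub_self]
        have h5 := add_mem h3 h4
        have h6 : aeval (step (Z n)) (P i) = aeval (Z n + fun j =>
          -∑ l, PowerSeries.C (R l j) * aeval (Z n) (P l)) (P i) := rfl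
        rw [h6]
        convert h5 using 1
        ring
  -- the limit
  have hcauchy : ∀ n j, Z (n + 1) j - Z n j ∈ I ^ (n + 1) := by
    intro n j
    rw [hZs]
    have h1 : step (Z n) j - Z n j = -∑ l, PowerSeries.C (R l j) * aeval (Z n) (P l) := by
      change Z n j + (-∑ l, PowerSeries.C (R l j) * aeval (Z n) (P l)) - Z n j = _
      ring
    rw [h1]
    exact neg_mem (Ideal.sum_mem _ fun l _ => Ideal.mul_mem_left _ _ ((key n).2 l))
  have hcoeff : ∀ n m, n ≤ m → ∀ j, coeff n (Z m j) = coeff n (Z n j) := by
    intro n m hnm j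
    induction m, hnm using Nat.le_induction with
    | base => rfl
    | succ m hm ih =>
      rw [← ih]
      have h1 := (hI _ _).1 (hcauchy m j)
      rw [PowerSeries.X_pow_dvd_iff] at h1
      have h2 := h1 n (by omega)
      rw [map_sub, sub_eq_zero] at h2
      exact h2
  let z : N → k⟦X⟧ := fun j => PowerSeries.mk fun n => coeff n (Z n j)
  have hz : ∀ n j, z j - Z n j ∈ I ^ (n + 1) := by
    intro n j
    rw [hI, PowerSeries.X_pow_dvd_iff]
    intro m hm
    rw [map_sub, coeff_mk, hcoeff m n (by omega), sub_self]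
  refine ⟨z, fun j => ?_, fun i => ?_⟩
  · have h1 := hz 0 j
    rw [zero_add, pow_one, hI1, map_sub, sub_eq_zero] at h1
    exact h1
  · ext n
    have h1 := ift_congr (I ^ (n + 1)) (Z n) z (hz n) (P i)
    have h2 := add_mem h1 ((key n).2 i)
    rw [sub_add_cancel, hI, PowerSeries.X_pow_dvd_iff] at h2
    rw [h2 n (Nat.lt_succ_self n), map_zero]

end Pool.Agent.Work.RC
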