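import Mathlib
import Pool.Agent.Work.MP_4329d7_ag_rc.IFT

/-!
The formal implicit function theorem with the Jacobian expressed through dual numbers, and
products in rings with an element of square zero.
-/

namespace Pool.Agent.Work.RC

open MvPolynomial TrivSqZeroExt

/-- the reduction `k[[ε]] → k → k[η]` -/
noncomputable def dualRed (k : Type*) [Field k] : PowerSeries k →+* DualNumber k :=
  (algebraMap k (DualNumber k)).comp (PowerSeries.constantCoeff (R := k))

theorem dualRed_apply {k : Type*} [Field k] (a : PowerSeries k) :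
    dualRed k a = inl (PowerSeries.constantCoeff a) := rfl

theorem ift_eval_dual {k N : Type*} [Field k] [Fintype N] (z₀ v : N → k)
    (p : MvPolynomial N (PowerSeries k)) :
    eval₂ (dualRed k) (fun j => inl (z₀ j) + inr (v j)) p =
      inl (PowerSeries.constantCoeff (aeval (fun j => PowerSeries.C (z₀ j)) p)) +
        inr (∑ j, PowerSeries.constantCoeff (aeval (fun j => PowerSeries.C (z₀ j)) (pderiv j p)) *
          v j) := by
  classical
  induction p using MvPolynomial.induction_on with
  | C a =>
    simp only [eval₂_C, aeval_C, pderiv_C, map_zero, zero_mul, Finset.sum_const_zero, inr_zero,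
      add_zero, dualRed_apply, Algebra.algebraMap_self, RingHom.id_apply]
  | add p q hp hq =>
    simp only [eval₂_add, hp, hq, map_add, add_mul, Finset.sum_add_distrib, inl_add, inr_add]
    abel
  | mul_X p n hp =>
    rw [eval₂_mul, eval₂_X, hp, map_mul, map_mul, aeval_X, PowerSeries.constantCoeff_C]
    have h2 : ∀ j, PowerSeries.constantCoeff (aeval (fun j => PowerSeries.C (z₀ j))
        (pderiv j (p * X n))) * v j =
        (if j = n then PowerSeries.constantCoeff (aeval (fun j => PowerSeries.C (z₀ j)) p) * v j
          else 0) + z₀ n * (PowerSeries.constantCoeff (aeval (fun j => PowerSeries.C (z₀ j))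
            (pderiv j p)) * v j) := by
      intro j
      rw [pderiv_mul, map_add, map_mul, map_mul, aeval_X, pderiv_X, map_add, map_mul, map_mul,
        PowerSeries.constantCoeff_C]
      by_cases hj : j = n
      · subst hj
        rw [if_pos rfl, Pi.single_eq_same, map_one, map_one]
        ring
      · rw [if_neg hj, Pi.single_eq_of_ne (fun h => hj h.symm), map_zero, map_zero]
        ring
    simp only [h2, Finset.sum_add_distrib, Finset.sum_ite_eq', Finset.mem_univ, if_true,
      ← Finset.mul_sum]
    ext
    · simp
    · simp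
      ring

/-- The formal implicit function theorem, dual numbers version. -/
theorem ift_dual {k M N : Type*} [Field k] [Fintype M] [Fintype N]
    (P : M → MvPolynomial N (PowerSeries k)) (z₀ : N → k)
    (h : ∀ w : M → k, ∃ v : N → k, ∀ i,
      eval₂ (dualRed k) (fun j => inl (z₀ j) + inr (v j)) (P i) = inr (w i)) :
    ∃ z : N → PowerSeries k, (∀ j, PowerSeries.constantCoeff (z j) = z₀ j) ∧
      ∀ i, aeval z (P i) = 0 := by
  obtain ⟨z, h1, h2⟩ := ift P (fun j => PowerSeries.C (z₀ j)) (fun i => by
    obtain ⟨v, hv⟩ := h 0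
    have h1 := hv i
    rw [ift_eval_dual] at h1
    have h2 := congrArg TrivSqZeroExt.fst h1
    simpa using h2) (fun w => by
    obtain ⟨v, hv⟩ := h w
    refine ⟨v, fun i => ?_⟩
    have h1 := hv i
    rw [ift_eval_dual] at h1
    have h2 := congrArg TrivSqZeroExt.snd h1
    simpa using h2)
  exact ⟨z, fun j => by rw [h1, PowerSeries.constantCoeff_C], h2⟩

/-- products modulo an element of square zero -/
theorem prod_add_sq_zero {S ι : Type*} [CommRing S] [DecidableEq ι] (s : Finset ι) (η : S)
    (hη : η * η = 0) (A B : ι → S) :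
    ∏ i ∈ s, (A i + η * B i) = ∏ i ∈ s, A i + η * ∑ i ∈ s, B i * ∏ i' ∈ s.erase i, A i' := by
  induction s using Finset.induction_on with
  | empty => simp
  | insert a s ha ih =>
    rw [Finset.prod_insert ha, Finset.prod_insert ha, Finset.sum_insert ha, ih,
      Finset.erase_insert ha]
    have h1 : ∑ i ∈ s, B i * ∏ i' ∈ (insert a s).erase i, A i' =
        A a * ∑ i ∈ s, B i * ∏ i' ∈ s.erase i, A i' := by
      rw [Finset.mul_sum]
      refine Finset.sum_congr rfl fun i hi => ?_
      have hai : a ≠ i := fun h => ha (h ▸ hi)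
      rw [Finset.erase_insert_of_ne hai, Finset.prod_insert (fun h => ha (Finset.mem_of_mem_erase h))]
      ring
    rw [h1]
    linear_combination (B a * ∑ i ∈ s, B i * ∏ i' ∈ s.erase i, A i') * hη

theorem pow_add_sq_zero {S : Type*} [CommRing S] (η : S) (hη : η * η = 0) (A B : S) (n : ℕ) :
    (A + η * B) ^ n = A ^ n + η * (n * A ^ (n - 1) * B) := by
  induction n with
  | zero => simp
  | succ n ih =>
    rw [pow_succ, ih, Nat.add_sub_cancel]
    rcases Nat.eq_zero_or_pos n with h0 | h0
    · subst h0
      simp
    · obtain ⟨m, rfl⟩ : ∃ m, n = m + 1 := ⟨n - 1, by omega⟩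
      rw [Nat.add_sub_cancel]
      push_cast
      linear_combination ((m + 1 : S) * A ^ m * B * B) * hη

end Pool.Agent.Work.RC
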