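import Mathlib
import Pool.Agent.Work.MP_4329d7_ag_rc.IFTDual

/-!
The formal implicit function theorem with free coordinates.
-/

namespace Pool.Agent.Work.RC

open MvPolynomial

/-- columns which form a basis -/
theorem exists_columns {F σ ρ : Type} [Field F] [Fintype σ] [Fintype ρ] [DecidableEq ρ] (c : ρ → σ → F)
    (hJ : ∀ w : ρ → F, ∃ v : σ → F, ∀ r, ∑ j, c r j * v j = w r) :
    ∃ a : ρ → σ, Function.Injective a ∧ (Matrix.of fun r s => c r (a s)).det ≠ 0 := by
  classical
  let v : σ → (ρ → F) := fun j r => c r j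
  obtain ⟨κ, a, ha, hspan, hli⟩ := exists_linearIndependent' F v
  have htop : Submodule.span F (Set.range v) = ⊤ := by
    rw [eq_top_iff]
    intro w _
    obtain ⟨x, hx⟩ := hJ w
    refine (Submodule.mem_span_range_iff_exists_fun F).2 ⟨x, ?_⟩
    funext r
    rw [← hx r, Finset.sum_apply]
    exact Finset.sum_congr rfl fun j _ => mul_comm _ _
  have : Finite κ := Finite.of_injective a ha
  let _ : Fintype κ := Fintype.ofFinite κ
  let b : Module.Basis κ F (ρ → F) := Module.Basis.mk hli (by rw [hspan, htop])
  have hcard : Fintype.card κ = Fintype.card ρ := by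
    have h1 := Module.finrank_eq_card_basis b
    rw [Module.finrank_fintype_fun_eq_card] at h1
    exact h1.symm
  let e : ρ ≃ κ := (Fintype.equivOfCardEq hcard).symm
  refine ⟨a ∘ e, ha.comp e.injective, ?_⟩
  have h1 : LinearIndependent F (fun s : ρ => v (a (e s))) := hli.comp e e.injective
  have h2 : (Matrix.of fun r s => c r ((a ∘ e) s)) =
      (Matrix.of fun s : ρ => v (a (e s))).transpose := rfl
  rw [h2, Matrix.det_transpose]
  have h3 := Matrix.linearIndependent_rows_iff_isUnit (A := Matrix.of fun s : ρ => v (a (e s)))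
  exact ((Matrix.isUnit_iff_isUnit_det _).1 (h3.1 h1)).ne_zero

/-- The formal implicit function theorem with free coordinates `S`. -/
theorem ift_free {F σ ρ : Type} [Field F] [Fintype σ] [Fintype ρ] [DecidableEq σ]
    (Φ : ρ → MvPolynomial σ (PowerSeries F)) (w₀ : σ → F)
    (h0 : ∀ r, PowerSeries.constantCoeff (aeval (fun j => PowerSeries.C (w₀ j)) (Φ r)) = 0)
    (hJ : ∀ w : ρ → F, ∃ v : σ → F, ∀ r, ∑ j, PowerSeries.constantCoeff
      (aeval (fun j => PowerSeries.C (w₀ j)) (pderiv j (Φ r))) * v j = w r) :
    ∃ S : Finset σ, ∀ θ : σ → PowerSeries F, (∀ j, PowerSeries.constantCoeff (θ j) = w₀ j) →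
      ∃ w : σ → PowerSeries F, (∀ j, PowerSeries.constantCoeff (w j) = w₀ j) ∧
        (∀ j ∈ S, w j = θ j) ∧ (∀ r, aeval w (Φ r) = 0) ∧
        ∀ (L : Type) [Field L] (φ : PowerSeries F →+* L), Function.Injective φ →
          ∀ h : σ → L, (∀ j ∈ S, h j = 0) →
            (∀ r, ∑ j, φ (aeval w (pderiv j (Φ r))) * h j = 0) → h = 0 := by
  classical
  obtain ⟨a, ha, hdet⟩ := exists_columns _ hJ
  refine ⟨(Finset.univ.image a)ᶜ, fun θ hθ => ?_⟩
  set S : Finset σ := (Finset.univ.image a)ᶜ with hS
  have hmem : ∀ j, j ∈ S ∨ ∃ r, a r = j := by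
    intro j
    by_cases h : j ∈ S
    · exact Or.inl h
    · rw [hS, Finset.mem_compl, not_not, Finset.mem_image] at h
      obtain ⟨r, _, hr⟩ := h
      exact Or.inr ⟨r, hr⟩
  have hnot : ∀ r, a r ∉ S := by
    intro r h
    rw [hS, Finset.mem_compl] at h
    exact h (Finset.mem_image_of_mem a (Finset.mem_univ r))
  -- a sum over all coordinates of a vector supported outside of `S`
  have hsum : ∀ {L : Type} [Field L] (c h : σ → L), (∀ j ∈ S, h j = 0) →
      ∑ j, c j * h j = ∑ r, c (a r) * h (a r) := by
    intro L _ c h hh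
    have h1 : ∑ r, c (a r) * h (a r) = ∑ j ∈ Finset.univ.image a, c j * h j := by
      rw [Finset.sum_image fun x _ y _ hxy => ha hxy]
    rw [h1]
    refine (Finset.sum_subset (Finset.subset_univ _) fun j _ hj => ?_).symm
    rw [hh j (by rw [hS, Finset.mem_compl]; exact hj), mul_zero]
  obtain ⟨w, hw0, hw⟩ := ift (Sum.elim Φ fun j : S => X (j : σ) - C (θ j))
    (fun j => PowerSeries.C (w₀ j))
    (by
      rintro (r | j)
      · exact h0 r
      · simp only [Sum.elim_inr, map_sub, aeval_X, aeval_C, Algebra.algebraMap_self,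
          RingHom.id_apply, PowerSeries.constantCoeff_C, hθ, sub_self])
    (by
      intro u
      -- solve for the coordinates outside of `S`
      let c : ρ → σ → F := fun r j => PowerSeries.constantCoeff
        (aeval (fun j => PowerSeries.C (w₀ j)) (pderiv j (Φ r)))
      let v₁ : σ → F := fun j => if hj : j ∈ S then u (Sum.inr ⟨j, hj⟩) else 0
      let A : Matrix ρ ρ F := Matrix.of fun r s => c r (a s)
      have hA : IsUnit A.det := IsUnit.mk0 _ hdet
      let y : ρ → F := A⁻¹.mulVec fun r => u (Sum.inl r) - ∑ j, c r j * v₁ j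
      have hy : ∀ r, ∑ s, c r (a s) * y s = u (Sum.inl r) - ∑ j, c r j * v₁ j := by
        intro r
        have h1 : A.mulVec y = fun r => u (Sum.inl r) - ∑ j, c r j * v₁ j := by
          change A.mulVec (A⁻¹.mulVec _) = _
          rw [Matrix.mulVec_mulVec, Matrix.mul_nonsing_inv _ hA, Matrix.one_mulVec]
        exact congrFun h1 r
      let v₂ : σ → F := fun j => if h : ∃ r, a r = j then y h.choose else 0
      have hv₂ : ∀ r, v₂ (a r) = y r := by
        intro r
        have h : ∃ r', a r' = a r := ⟨r, rfl⟩
        change (if h : ∃ r', a r' = a r then y h.choose else 0) = y r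
        rw [dif_pos h]
        congr 1
        exact ha h.choose_spec
      have hv₂S : ∀ j ∈ S, v₂ j = 0 := by
        intro j hj
        refine dif_neg ?_
        rintro ⟨r, rfl⟩
        exact hnot r hj
      refine ⟨v₁ + v₂, ?_⟩
      rintro (r | j)
      · have h1 : ∑ j, c r j * v₂ j = u (Sum.inl r) - ∑ j, c r j * v₁ j := by
          rw [hsum (c r) v₂ hv₂S, ← hy r]
          exact Finset.sum_congr rfl fun s _ => by rw [hv₂]
        change ∑ j, c r j * (v₁ + v₂) j = u (Sum.inl r)
        simp only [Pi.add_apply, mul_add, Finset.sum_add_distrib]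
        rw [h1]
        ring
      · have h1 : ∀ i, PowerSeries.constantCoeff (aeval (fun j => PowerSeries.C (w₀ j))
            (pderiv i ((X (j : σ) : MvPolynomial σ (PowerSeries F)) - C (θ j)))) =
              if i = j then 1 else 0 := by
          intro i
          rw [map_sub, pderiv_C, sub_zero, pderiv_X]
          by_cases hij : i = j
          · rw [if_pos hij, hij, Pi.single_eq_same, map_one, map_one]
          · rw [if_neg hij, Pi.single_eq_of_ne (fun h => hij h.symm), map_zero, map_zero]
        simp only [Sum.elim_inr, h1, ite_mul, one_mul, zero_mul, Finset.sum_ite_eq',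
          Finset.mem_univ, if_true, Pi.add_apply]
        rw [hv₂S j j.2, add_zero]
        exact dif_pos j.2)
  refine ⟨w, fun j => ?_, fun j hj => ?_, fun r => hw (Sum.inl r), ?_⟩
  · rw [hw0, PowerSeries.constantCoeff_C]
  · have h1 := hw (Sum.inr ⟨j, hj⟩)
    simp only [Sum.elim_inr, map_sub, aeval_X, aeval_C, Algebra.algebraMap_self,
      RingHom.id_apply, sub_eq_zero] at h1
    exact h1
  · intro L _ φ hφ h hh hsys
    -- the determinant is a unit
    let B : Matrix ρ ρ (PowerSeries F) := Matrix.of fun r s => aeval w (pderiv (a s) (Φ r))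
    have hB : PowerSeries.constantCoeff B.det ≠ 0 := by
      rw [RingHom.map_det]
      have h1 : (PowerSeries.constantCoeff (R := F)).mapMatrix B =
          Matrix.of fun r s => PowerSeries.constantCoeff
            (aeval (fun j => PowerSeries.C (w₀ j)) (pderiv (a s) (Φ r))) := by
        ext r s
        change PowerSeries.constantCoeff (aeval w (pderiv (a s) (Φ r))) = _
        have h2 := ift_congr (Ideal.span {(PowerSeries.X : PowerSeries F)})
          (fun j => PowerSeries.C (w₀ j)) w (fun j => by
            rw [Ideal.mem_span_singleton, PowerSeries.X_dvd_iff, map_sub, hw0, sub_self])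
          (pderiv (a s) (Φ r))
        rw [Ideal.mem_span_singleton, PowerSeries.X_dvd_iff, map_sub, sub_eq_zero] at h2
        exact h2
      rw [h1]
      exact hdet
    have hB0 : B.det ≠ 0 := fun h0 => hB (by rw [h0, map_zero])
    have hBL : (φ.mapMatrix B).det ≠ 0 := by
      rw [← RingHom.map_det]
      exact (map_ne_zero_iff φ hφ).2 hB0
    have h3 : (φ.mapMatrix B).mulVec (fun s => h (a s)) = 0 := by
      funext r
      have h4 := hsys r
      rw [hsum (fun j => φ (aeval w (pderiv j (Φ r)))) h hh] at h4
      exact h4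
    have h5 := Matrix.eq_zero_of_mulVec_eq_zero hBL h3
    funext j
    rcases hmem j with hj | ⟨r, rfl⟩
    · exact hh j hj
    · exact congrFun h5 r

end Pool.Agent.Work.RC
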