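import Mathlib
import Pool.Agent.Work.MP_4329d7_ag_rc.Basic

/-!
The generic system for the splitting (helper37): unknowns = the values of `Y` at the constants `a j`
and the roots.
-/

namespace Pool.Agent.Work.RC

open Polynomial
open Pool.Agent.Work.Uni (rootPoly)

section Interp

variable {S T : Type*} [CommRing S] [Algebra ℂ S] [CommRing T] [Algebra ℂ T] {M : ℕ}

/-- the interpolation polynomial of degree `< M` -/
noncomputable def Zof (a : Fin M → ℂ) (h : Fin M → S) : S[X] :=
  ∑ j, C (h j) * (Lagrange.basis Finset.univ a j).map (algebraMap ℂ S)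

/-- the interpolation polynomial of degree `M` with top coefficient `x` -/
noncomputable def Yof (a : Fin M → ℂ) (x : S) (h : Fin M → S) : S[X] :=
  C x * (Lagrange.nodal Finset.univ a).map (algebraMap ℂ S) + Zof a h

theorem Zof_degree {a : Fin M → ℂ} (ha : Function.Injective a) (h : Fin M → S) :
    (Zof a h).degree < M := by
  rcases Nat.eq_zero_or_pos M with h0 | h0
  · subst h0
    unfold Zof
    rw [Finset.univ_eq_empty, Finset.sum_empty, degree_zero]
    exact WithBot.bot_lt_coe _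
  refine mem_degreeLT.1 (Submodule.sum_mem _ fun j _ => mem_degreeLT.2 ?_)
  have h1 : (C (h j) * (Lagrange.basis Finset.univ a j).map (algebraMap ℂ S)).degree ≤
      ((M - 1 : ℕ) : WithBot ℕ) := by
    refine degree_le_of_natDegree_le ?_
    refine (natDegree_C_mul_le _ _).trans (natDegree_map_le.trans ?_)
    rw [Lagrange.natDegree_basis ha.injOn (Finset.mem_univ j), Finset.card_univ, Fintype.card_fin]
  refine lt_of_le_of_lt h1 ?_
  exact_mod_cast (by omega : M - 1 < M)

theorem Zof_eval {a : Fin M → ℂ} (ha : Function.Injective a) (h : Fin M → S) (j : Fin M) :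
    (Zof a h).eval (algebraMap ℂ S (a j)) = h j := by
  unfold Zof
  rw [eval_finsetSum, Finset.sum_eq_single j]
  · rw [eval_mul, eval_C, eval_map, eval₂_at_apply,
      Lagrange.eval_basis_self ha.injOn (Finset.mem_univ j), map_one, mul_one]
  · intro i _ hij
    rw [eval_mul, eval_C, eval_map, eval₂_at_apply,
      Lagrange.eval_basis_of_ne hij (Finset.mem_univ j), map_zero, mul_zero]
  · intro h1
    exact absurd (Finset.mem_univ j) h1

theorem Yof_eval {a : Fin M → ℂ} (ha : Function.Injective a) (x : S) (h : Fin M → S) (j : Fin M) :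
    (Yof a x h).eval (algebraMap ℂ S (a j)) = h j := by
  unfold Yof
  rw [eval_add, Zof_eval ha, eval_mul, eval_map, eval₂_at_apply,
    Lagrange.eval_nodal_at_node (Finset.mem_univ j), map_zero, mul_zero, zero_add]

theorem nodal_monic_deg (a : Fin M → ℂ) : (Lagrange.nodal Finset.univ a).Monic ∧
    (Lagrange.nodal Finset.univ a).natDegree = M := by
  refine ⟨Lagrange.nodal_monic, ?_⟩
  rw [Lagrange.natDegree_nodal, Finset.card_univ, Fintype.card_fin]

theorem Yof_natDegree {a : Fin M → ℂ} (ha : Function.Injective a) (x : S) (h : Fin M → S) :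
    (Yof a x h).natDegree ≤ M := by
  unfold Yof
  refine (natDegree_add_le _ _).trans (max_le ?_ ?_)
  · refine (natDegree_C_mul_le _ _).trans (natDegree_map_le.trans ?_)
    rw [(nodal_monic_deg a).2]
  · exact natDegree_le_of_degree_le (Zof_degree ha h).le

theorem Yof_coeff {a : Fin M → ℂ} (ha : Function.Injective a) (x : S) (h : Fin M → S) :
    (Yof a x h).coeff M = x := by
  unfold Yof
  rw [coeff_add, coeff_eq_zero_of_degree_lt (Zof_degree ha h), add_zero, coeff_C_mul, coeff_map]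
  have h1 := (nodal_monic_deg a).1
  rw [Monic, leadingCoeff, (nodal_monic_deg a).2] at h1
  rw [h1, map_one, mul_one]

theorem Zof_map (a : Fin M → ℂ) (h : Fin M → S) (ψ : S →ₐ[ℂ] T) :
    (Zof a h).map (ψ : S →+* T) = Zof a fun j => ψ (h j) := by
  unfold Zof
  rw [Polynomial.map_sum]
  refine Finset.sum_congr rfl fun j _ => ?_
  rw [Polynomial.map_mul, map_C, Polynomial.map_map, AlgHom.comp_algebraMap]
  rfl

theorem Yof_map (a : Fin M → ℂ) (x : S) (h : Fin M → S) (ψ : S →ₐ[ℂ] T) :
    (Yof a x h).map (ψ : S →+* T) = Yof a (ψ x) fun j => ψ (h j) := by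
  unfold Yof
  rw [Polynomial.map_add, Zof_map, Polynomial.map_mul, map_C, Polynomial.map_map,
    AlgHom.comp_algebraMap]
  rfl

theorem Zof_zero (a : Fin M → ℂ) : Zof a (fun _ => (0 : S)) = 0 := by
  unfold Zof
  simp

theorem Zof_sum {J : Type*} [Fintype J] (a : Fin M → ℂ) (c : J → S) (h : J → Fin M → S) :
    ∑ j, C (c j) * Zof a (h j) = Zof a fun i => ∑ j, c j * h j i := by
  unfold Zof
  simp only [Finset.mul_sum]
  rw [Finset.sum_comm]
  refine Finset.sum_congr rfl fun i _ => ?_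
  rw [map_sum, Finset.sum_mul]
  refine Finset.sum_congr rfl fun j _ => ?_
  rw [C_mul]
  ring

theorem Zof_unique {K : Type*} [Field K] [Algebra ℂ K] {a : Fin M → ℂ}
    (ha : Function.Injective a) (Z : K[X]) (hZ : Z.degree < M) :
    Z = Zof a fun j => Z.eval (algebraMap ℂ K (a j)) := by
  refine eq_of_degrees_lt_of_eval_index_eq (Finset.univ : Finset (Fin M))
    (v := fun j => algebraMap ℂ K (a j)) ?_ ?_ ?_ ?_
  · intro i _ j _ hij
    exact ha ((algebraMap ℂ K).injective hij)
  · rwa [Finset.card_univ, Fintype.card_fin]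
  · rw [Finset.card_univ, Fintype.card_fin]
    exact Zof_degree ha _
  · intro j _
    rw [Zof_eval ha]

theorem Yof_unique {K : Type*} [Field K] [Algebra ℂ K] {a : Fin M → ℂ}
    (ha : Function.Injective a) (Y : K[X]) (hY : Y.natDegree ≤ M) (x : K) (hx : Y.coeff M = x) :
    Y = Yof a x fun j => Y.eval (algebraMap ℂ K (a j)) := by
  have h1 : (Y - C x * (Lagrange.nodal Finset.univ a).map (algebraMap ℂ K)).degree < M := by
    rw [degree_lt_iff_coeff_zero]
    intro i hi
    rw [coeff_sub, coeff_C_mul, coeff_map]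
    rcases Nat.eq_or_lt_of_le hi with h | h
    · rw [← h, hx]
      have h1 := (nodal_monic_deg a).1
      rw [Monic, leadingCoeff, (nodal_monic_deg a).2] at h1
      rw [h1, map_one, mul_one, sub_self]
    · rw [coeff_eq_zero_of_natDegree_lt (lt_of_le_of_lt hY h),
        coeff_eq_zero_of_natDegree_lt (by rw [(nodal_monic_deg a).2]; exact h), map_zero, mul_zero,
        sub_zero]
  have h2 := Zof_unique ha _ h1
  have h3 : (fun j => (Y - C x * (Lagrange.nodal Finset.univ a).map (algebraMap ℂ K)).eval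
      (algebraMap ℂ K (a j))) = fun j => Y.eval (algebraMap ℂ K (a j)) := by
    funext j
    rw [eval_sub, eval_mul, eval_map, eval₂_at_apply,
      Lagrange.eval_nodal_at_node (Finset.mem_univ j), map_zero, mul_zero, sub_zero]
  rw [h3] at h2
  unfold Yof
  rw [← h2]
  ring

theorem coeffD_map (D : Derivation ℂ S S) (p : ℂ[X]) : coeffD D (p.map (algebraMap ℂ S)) = 0 := by
  ext i
  rw [coeffD_coeff, coeff_map, D.map_algebraMap, coeff_zero]

theorem coeffD_Zof (D : Derivation ℂ S S) (a : Fin M → ℂ) (h : Fin M → S) :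
    coeffD D (Zof a h) = Zof a fun j => D (h j) := by
  unfold Zof
  rw [map_sum]
  refine Finset.sum_congr rfl fun j _ => ?_
  rw [Derivation.leibniz, coeffD_map, smul_zero, zero_add, coeffD_C, smul_eq_mul, mul_comm]

theorem coeffD_Yof (D : Derivation ℂ S S) (a : Fin M → ℂ) (x : S) (hx : D x = 0)
    (h : Fin M → S) : coeffD D (Yof a x h) = Zof a fun j => D (h j) := by
  unfold Yof
  rw [map_add, coeffD_Zof, Derivation.leibniz, coeffD_map, smul_zero, zero_add, coeffD_C, hx,
    C_0, smul_zero, zero_add]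

end Interp

section Jac

variable {n : ℕ} {E ι : Type*} [Fintype ι] {S T : Type*} [CommRing S] [Algebra ℂ S]
  [CommRing T] [Algebra ℂ T]

/-- `aeval` commutes with `map` -/
theorem aeval_map' (G : MvPolynomial (Fin (n + 1)) ℂ) (Y : Fin (n + 1) → S[X]) (ψ : S →ₐ[ℂ] T) :
    (MvPolynomial.aeval Y G).map (ψ : S →+* T) =
      MvPolynomial.aeval (fun s => (Y s).map (ψ : S →+* T)) G := by
  have h2 : (MvPolynomial.aeval Y G).map (ψ : S →+* T) = Polynomial.mapAlgHom ψ
    (MvPolynomial.aeval Y G) := rfl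
  rw [h2, ← AlgHom.comp_apply, MvPolynomial.comp_aeval]
  rfl

theorem aeval_pt (G : MvPolynomial (Fin (n + 1)) ℂ) (x : Fin (n + 1) → S) (ψ : S →ₐ[ℂ] T) :
    ψ (MvPolynomial.aeval x G) = MvPolynomial.aeval (fun s => ψ (x s)) G := by
  rw [← AlgHom.comp_apply, MvPolynomial.comp_aeval]

theorem JacW_map (F : E → MvPolynomial (Fin (n + 1)) ℂ) (x : Fin (n + 1) → S) (w : E → S[X])
    (β : ι → E → ℕ) (t : ι → S) (Y Z : Fin (n + 1) → S[X]) (δ : ι → S) (e : E) (ψ : S →ₐ[ℂ] T) :
    (JacW F x w β t Y Z δ e).map (ψ : S →+* T) =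
      JacW F (fun s => ψ (x s)) (fun e => (w e).map (ψ : S →+* T)) β (fun i => ψ (t i))
        (fun s => (Y s).map (ψ : S →+* T)) (fun s => (Z s).map (ψ : S →+* T))
        (fun i => ψ (δ i)) e := by
  unfold JacW
  rw [Polynomial.map_add, Polynomial.map_sum, Polynomial.map_mul, Polynomial.map_mul, map_C,
    Polynomial.map_sum]
  congr 1
  · refine Finset.sum_congr rfl fun s _ => ?_
    rw [Polynomial.map_mul, aeval_map']
  · congr 1
    · congr 2
      exact aeval_pt _ _ _
    · refine Finset.sum_congr rfl fun i _ => ?_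
      rw [Polynomial.map_mul, map_C, uD_map]
      rfl

theorem JacW_sum {J : Type*} [Fintype J] (F : E → MvPolynomial (Fin (n + 1)) ℂ)
    (x : Fin (n + 1) → S) (w : E → S[X]) (β : ι → E → ℕ) (t : ι → S) (Y : Fin (n + 1) → S[X])
    (c : J → S) (Z : J → Fin (n + 1) → S[X]) (δ : J → ι → S) (e : E) :
    ∑ j, C (c j) * JacW F x w β t Y (Z j) (δ j) e =
      JacW F x w β t Y (fun s => ∑ j, C (c j) * Z j s) (fun i => ∑ j, c j * δ j i) e := by
  unfold JacW
  simp only [mul_add, Finset.sum_add_distrib, Finset.mul_sum, map_sum, Finset.sum_mul]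
  congr 1
  · rw [Finset.sum_comm]
    refine Finset.sum_congr rfl fun s _ => Finset.sum_congr rfl fun j _ => ?_
    ring
  · rw [Finset.sum_comm]
    refine Finset.sum_congr rfl fun i _ => Finset.sum_congr rfl fun j _ => ?_
    rw [C_mul]
    ring

end Jac

section Gen

variable {n : ℕ} {E ι₁ : Type} [Fintype ι₁] {M : ℕ}

/-- the unknowns -/
abbrev Unk (n M : ℕ) (ι₁ : Type) : Type := (Fin (n + 1) × Fin M) ⊕ ι₁

/-- `F_e(Y) - F_e(x) W_e ∏ (X - t)^β` -/
noncomputable def GG (F : E → MvPolynomial (Fin (n + 1)) ℂ) (a : Fin M → ℂ)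
    (β : ι₁ → E → ℕ) {S : Type} [CommRing S] [Algebra ℂ S] (x : Fin (n + 1) → S) (W : E → S[X])
    (w : Unk n M ι₁ → S) (e : E) : S[X] :=
  MvPolynomial.aeval (fun s => Yof a (x s) fun j => w (Sum.inl (s, j))) (F e) -
    C (MvPolynomial.aeval x (F e)) * (W e * rootPoly β (fun i => w (Sum.inr i)) e)

variable (F : E → MvPolynomial (Fin (n + 1)) ℂ) (a : Fin M → ℂ) (β : ι₁ → E → ℕ)
  {S T : Type} [CommRing S] [Algebra ℂ S] [CommRing T] [Algebra ℂ T]

theorem GG_map (x : Fin (n + 1) → S) (W : E → S[X]) (w : Unk n M ι₁ → S) (e : E)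
    (ψ : S →ₐ[ℂ] T) :
    (GG F a β x W w e).map (ψ : S →+* T) =
      GG F a β (fun s => ψ (x s)) (fun e => (W e).map (ψ : S →+* T)) (fun j => ψ (w j)) e := by
  unfold GG
  rw [Polynomial.map_sub, aeval_map', Polynomial.map_mul, Polynomial.map_mul, map_C,
    rootPoly_map]
  congr 1
  · congr 2
    funext s
    rw [Yof_map]
  · congr 1
    congr 1
    exact aeval_pt _ _ _

theorem GG_coeffD (D : Derivation ℂ S S) (x : Fin (n + 1) → S) (hx : ∀ s, D (x s) = 0)
    (W : E → S[X]) (w : Unk n M ι₁ → S) (e : E) (hW : coeffD D (W e) = 0) :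
    coeffD D (GG F a β x W w e) =
      JacW F x W β (fun i => w (Sum.inr i))
        (fun s => Yof a (x s) fun j => w (Sum.inl (s, j)))
        (fun s => Zof a fun j => D (w (Sum.inl (s, j))))
        (fun i => D (w (Sum.inr i))) e := by
  unfold GG JacW
  rw [map_sub, derivation_aeval, Derivation.leibniz, Derivation.leibniz, hW, coeffD_C,
    derivation_aeval, coeffD_rootPoly]
  have h1 : ∑ s, MvPolynomial.aeval x (MvPolynomial.pderiv s (F e)) * D (x s) = 0 :=
    Finset.sum_eq_zero fun s _ => by rw [hx, mul_zero]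
  rw [h1, C_0, smul_zero, add_zero, smul_zero, add_zero, smul_eq_mul, smul_eq_mul, mul_neg,
    mul_neg, sub_neg_eq_add, mul_assoc]
  refine congrArg₂ (· + ·) (Finset.sum_congr rfl fun s _ => ?_) rfl
  rw [coeffD_Yof D a _ (hx s)]

theorem GG_der {Q : Type} [CommRing Q] [Algebra ℂ Q] (D : Derivation ℂ Q Q) (ψ : Q →ₐ[ℂ] T)
    (x : Fin (n + 1) → Q) (hx : ∀ s, D (x s) = 0) (W : E → Q[X]) (w : Unk n M ι₁ → Q)
    (e : E) (hW : coeffD D (W e) = 0) (r : ℕ) :
    ψ (D ((GG F a β x W w e).coeff r)) =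
      (JacW F (fun s => ψ (x s)) (fun e => (W e).map (ψ : Q →+* T)) β
        (fun i => ψ (w (Sum.inr i)))
        (fun s => Yof a (ψ (x s)) fun j => ψ (w (Sum.inl (s, j))))
        (fun s => Zof a fun j => ψ (D (w (Sum.inl (s, j)))))
        (fun i => ψ (D (w (Sum.inr i)))) e).coeff r := by
  have h5 : ∀ q : Q[X], ψ (q.coeff r) = (q.map (ψ : Q →+* T)).coeff r := by
    intro q
    rw [coeff_map]
    rfl
  rw [← coeffD_coeff, GG_coeffD F a β D x hx W w e hW, h5, JacW_map]
  have e4 : (fun s => (Yof a (x s) fun j => w (Sum.inl (s, j))).map (ψ : Q →+* T)) =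
      fun s => Yof a (ψ (x s)) fun j => ψ (w (Sum.inl (s, j))) := by
    funext s
    rw [Yof_map]
  have e5 : (fun s => (Zof a fun j => D (w (Sum.inl (s, j)))).map (ψ : Q →+* T)) =
      fun s => Zof a fun j => ψ (D (w (Sum.inl (s, j)))) := by
    funext s
    rw [Zof_map]
  rw [e4, e5]

variable {R₀ : Type} [CommRing R₀] [Algebra ℂ R₀] (d : E → ℕ)

/-- the equations -/
noncomputable def Phi (x : Fin (n + 1) → R₀) (W : E → R₀[X]) (p : Σ e, Fin (d e * M)) :
    MvPolynomial (Unk n M ι₁) R₀ :=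
  (GG F a β (fun s => (MvPolynomial.C (x s) : MvPolynomial (Unk n M ι₁) R₀))
    (fun e => (W e).map MvPolynomial.C) MvPolynomial.X p.1).coeff p.2

/-- evaluation -/
noncomputable def evA {σ : Type} (w : σ → R₀) (φ : R₀ →ₐ[ℂ] T) : MvPolynomial σ R₀ →ₐ[ℂ] T :=
  φ.comp ((MvPolynomial.aeval w : MvPolynomial σ R₀ →ₐ[R₀] R₀).restrictScalars ℂ)

theorem evA_apply {σ : Type} (w : σ → R₀) (φ : R₀ →ₐ[ℂ] T) (P : MvPolynomial σ R₀) :
    evA w φ P = φ (MvPolynomial.aeval w P) := rfl

theorem evA_C {σ : Type} (w : σ → R₀) (φ : R₀ →ₐ[ℂ] T) (r : R₀) :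
    evA w φ (MvPolynomial.C r) = φ r := by
  rw [evA_apply, MvPolynomial.aeval_C]
  rfl

theorem evA_X {σ : Type} (w : σ → R₀) (φ : R₀ →ₐ[ℂ] T) (j : σ) :
    evA w φ (MvPolynomial.X j) = φ (w j) := by
  rw [evA_apply, MvPolynomial.aeval_X]

theorem evA_map {σ : Type} (w : σ → R₀) (φ : R₀ →ₐ[ℂ] T) (P : R₀[X]) :
    (P.map (MvPolynomial.C : R₀ →+* MvPolynomial σ R₀)).map (evA w φ : _ →+* T) =
      P.map (φ : R₀ →+* T) := by
  rw [Polynomial.map_map]
  congr 1
  ext r
  exact evA_C w φ r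

theorem Phi_eval (x : Fin (n + 1) → R₀) (W : E → R₀[X]) (w : Unk n M ι₁ → R₀) (φ : R₀ →ₐ[ℂ] T)
    (p : Σ e, Fin (d e * M)) :
    φ (MvPolynomial.aeval w (Phi F a β d x W p)) =
      (GG F a β (fun s => φ (x s)) (fun e => (W e).map (φ : R₀ →+* T)) (fun j => φ (w j))
        p.1).coeff p.2 := by
  rw [← evA_apply w φ]
  unfold Phi
  have h := GG_map F a β (fun s => (MvPolynomial.C (x s) : MvPolynomial (Unk n M ι₁) R₀))
    (fun e => (W e).map MvPolynomial.C) MvPolynomial.X p.1 (evA w φ)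
  have h2 := congrArg (fun q : T[X] => q.coeff p.2) h
  simp only [coeff_map] at h2
  simp only [evA_C, evA_X, evA_map] at h2
  exact h2

theorem Phi_jac [DecidableEq ι₁] (x : Fin (n + 1) → R₀) (W : E → R₀[X]) (w : Unk n M ι₁ → R₀)
    (φ : R₀ →ₐ[ℂ] T) (h : Unk n M ι₁ → T) (p : Σ e, Fin (d e * M)) :
    ∑ j, φ (MvPolynomial.aeval w (MvPolynomial.pderiv j (Phi F a β d x W p))) * h j =
      (JacW F (fun s => φ (x s)) (fun e => (W e).map (φ : R₀ →+* T)) β
        (fun i => φ (w (Sum.inr i)))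
        (fun s => Yof a (φ (x s)) fun j => φ (w (Sum.inl (s, j))))
        (fun s => Zof a fun j => h (Sum.inl (s, j)))
        (fun i => h (Sum.inr i)) p.1).coeff p.2 := by
  have h1 : ∀ j, φ (MvPolynomial.aeval w (MvPolynomial.pderiv j (Phi F a β d x W p))) =
      (JacW F (fun s => φ (x s)) (fun e => (W e).map (φ : R₀ →+* T)) β
        (fun i => φ (w (Sum.inr i)))
        (fun s => Yof a (φ (x s)) fun j => φ (w (Sum.inl (s, j))))
        (fun s => Zof a fun i => if j = Sum.inl (s, i) then 1 else 0)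
        (fun i => if j = Sum.inr i then 1 else 0) p.1).coeff p.2 := by
    intro j
    have hX : ∀ i, evA w φ (MvPolynomial.pderiv j (MvPolynomial.X i)) =
        if j = i then 1 else 0 := by
      intro i
      rw [MvPolynomial.pderiv_X]
      by_cases hij : j = i
      · subst hij
        rw [Pi.single_eq_same, if_pos rfl, map_one]
      · rw [Pi.single_eq_of_ne (fun hh => hij hh.symm), if_neg hij, map_zero]
    have h2 := GG_der F a β ((MvPolynomial.pderiv j : Derivation R₀ (MvPolynomial (Unk n M ι₁) R₀)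
      (MvPolynomial (Unk n M ι₁) R₀)).restrictScalars ℂ) (evA w φ)
      (fun s => (MvPolynomial.C (x s) : MvPolynomial (Unk n M ι₁) R₀))
      (fun s => MvPolynomial.pderiv_C) (fun e => (W e).map MvPolynomial.C) MvPolynomial.X
      p.1 (by
        ext1 i
        rw [coeffD_coeff, coeff_map, coeff_zero]
        exact MvPolynomial.pderiv_C) p.2
    simp only [Derivation.coe_restrictScalars, evA_C, evA_X, hX, evA_map] at h2
    exact h2
  have h6 : ∀ j, φ (MvPolynomial.aeval w (MvPolynomial.pderiv j (Phi F a β d x W p))) * h j =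
      (C (h j) * JacW F (fun s => φ (x s)) (fun e => (W e).map (φ : R₀ →+* T)) β
        (fun i => φ (w (Sum.inr i)))
        (fun s => Yof a (φ (x s)) fun j => φ (w (Sum.inl (s, j))))
        (fun s => Zof a fun i => if j = Sum.inl (s, i) then 1 else 0)
        (fun i => if j = Sum.inr i then 1 else 0) p.1).coeff p.2 := by
    intro j
    rw [h1 j, coeff_C_mul, mul_comm]
  rw [Finset.sum_congr rfl fun j _ => h6 j, ← finsetSum_coeff, JacW_sum]
  have e7 : (fun s => ∑ j, C (h j) * Zof a fun i => if j = Sum.inl (s, i) then (1 : T) else 0) =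
      fun s : Fin (n + 1) => Zof a fun j => h (Sum.inl (s, j)) := by
    funext s
    rw [Zof_sum]
    congr 1
    funext i
    simp
  have e8 : (fun i : ι₁ => ∑ j, h j * (if j = Sum.inr i then (1 : T) else 0)) =
      fun i => h (Sum.inr i) := by
    funext i
    simp
  rw [e7, e8]

end Gen

end Pool.Agent.Work.RC
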