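import Mathlib
import Pool.Agent.Work.MP_4329d7_ag_rc.Basic
import Pool.Agent.Work.MP_4329d7_ag_rc.IftFree
import Pool.Agent.Work.MP_4329d7_ag_rc.SplitGen

/-!
Deformation of a solution of the system `F_e(Y) = F_e(x) w_e ∏ (X - t_i)^(β i e)` over `F⟦ε⟧`, when
the factor `w_e = ∏_(l ∈ Λ) (X - p_l)^(γ l e)` varies (`p_l ∈ F⟦ε⟧`).

Unknowns of `ift_free`: the values `Y_s(a_j)` (`j < M`) and the roots `t_i`:
`Y_s = x_s ∏_j (X - a_j) + ∑_j y_(s,j) L_j` (Lagrange), so the coefficient of `X^M` is `x_s`.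
Equations: the coefficients of `X^r`, `r < d_e M`, of `F_e(Y) - F_e(x) w_e ∏ (X - t_i)^(β i e)`; this
difference has degree `< d_e M`.  The Jacobian is `JacW` with `Z_s = ∑_j h_(s,j) L_j` (every `Z` of
degree `< M` is of this form).
-/

namespace Pool.Agent.Work.RC

open Polynomial
open Pool.Agent.Work.Uni (rootPoly)

/-- the constant coefficient as an algebra homomorphism -/
noncomputable def ccA (F : Type) [Field F] [Algebra ℂ F] : PowerSeries F →ₐ[ℂ] F :=
  { PowerSeries.constantCoeff (R := F) with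
    commutes' := fun z => by
      change PowerSeries.constantCoeff (algebraMap ℂ (PowerSeries F) z) = algebraMap ℂ F z
      rw [PowerSeries.algebraMap_apply, PowerSeries.constantCoeff_C] }

theorem ccA_apply {F : Type} [Field F] [Algebra ℂ F] (f : PowerSeries F) :
    ccA F f = PowerSeries.constantCoeff f := rfl

theorem rootPoly_monic' {ι E R : Type} [Fintype ι] [CommRing R] (β : ι → E → ℕ) (t : ι → R)
    (e : E) : (rootPoly β t e).Monic :=
  monic_prod_of_monic _ _ fun _ _ => (monic_X_sub_C _).pow _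

theorem rootPoly_natDegree' {ι E R : Type} [Fintype ι] [CommRing R] [Nontrivial R]
    (β : ι → E → ℕ) (t : ι → R) (e : E) : (rootPoly β t e).natDegree = ∑ i, β i e := by
  unfold rootPoly
  rw [natDegree_prod_of_monic _ _ fun i _ => (monic_X_sub_C _).pow _]
  refine Finset.sum_congr rfl fun i _ => ?_
  rw [(monic_X_sub_C _).natDegree_pow, natDegree_X_sub_C, mul_one]

theorem deform {n : ℕ} {E : Type} [Fintype E] {F ι Λ : Type} [Field F] [Algebra ℂ F] [Fintype ι]
    [Fintype Λ] (G : E → MvPolynomial (Fin (n + 1)) ℂ) (d : E → ℕ)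
    (hG : ∀ e, (G e).IsHomogeneous (d e)) (x : Fin (n + 1) → F) (M : ℕ) (a : Fin M → ℂ)
    (ha : Function.Injective a) (β : ι → E → ℕ) (γ : Λ → E → ℕ)
    (hdeg : ∀ e, ∑ i, β i e + ∑ l, γ l e = d e * M) (Y₀ : Fin (n + 1) → F[X])
    (hY₀ : ∀ s, (Y₀ s).natDegree ≤ M) (hlead : ∀ s, (Y₀ s).coeff M = x s) (t₀ : ι → F)
    (p : Λ → PowerSeries F)
    (heq : ∀ e, MvPolynomial.aeval Y₀ (G e) = C (MvPolynomial.aeval x (G e)) *
      (rootPoly γ (fun l => PowerSeries.constantCoeff (p l)) e * rootPoly β t₀ e))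
    (hfree : ∀ P : E → F[X], (∀ e, (P e).degree < (d e * M : ℕ)) →
      ∃ (Z : Fin (n + 1) → F[X]) (δ : ι → F), (∀ s, (Z s).degree < M) ∧
        ∀ e, JacW G x (rootPoly γ (fun l => PowerSeries.constantCoeff (p l))) β t₀ Y₀ Z δ e =
          P e) :
    ∃ S : Finset ((Fin (n + 1) × Fin M) ⊕ ι),
      ∀ θ : (Fin (n + 1) × Fin M) ⊕ ι → PowerSeries F,
        (∀ s j, PowerSeries.constantCoeff (θ (Sum.inl (s, j))) =
          (Y₀ s).eval (algebraMap ℂ F (a j))) →
        (∀ i, PowerSeries.constantCoeff (θ (Sum.inr i)) = t₀ i) →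
        ∃ (Y : Fin (n + 1) → (PowerSeries F)[X]) (t : ι → PowerSeries F),
          (∀ s, (Y s).natDegree ≤ M) ∧ (∀ s, (Y s).coeff M = PowerSeries.C (x s)) ∧
          (∀ s, (Y s).map PowerSeries.constantCoeff = Y₀ s) ∧
          (∀ i, PowerSeries.constantCoeff (t i) = t₀ i) ∧
          (∀ s j, Sum.inl (s, j) ∈ S →
            (Y s).eval (algebraMap ℂ (PowerSeries F) (a j)) = θ (Sum.inl (s, j))) ∧
          (∀ i, Sum.inr i ∈ S → t i = θ (Sum.inr i)) ∧
          (∀ e, MvPolynomial.aeval Y (G e) =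
            C (MvPolynomial.aeval (fun s => (PowerSeries.C (x s) : PowerSeries F)) (G e)) *
              (rootPoly γ p e * rootPoly β t e)) ∧
          ∀ (L : Type) [Field L] [Algebra ℂ L] (f : PowerSeries F →ₐ[ℂ] L),
            Function.Injective f → ∀ (Z : Fin (n + 1) → L[X]) (δ : ι → L),
              (∀ s, (Z s).degree < M) →
              (∀ s j, Sum.inl (s, j) ∈ S → (Z s).eval (algebraMap ℂ L (a j)) = 0) →
              (∀ i, Sum.inr i ∈ S → δ i = 0) →
              (∀ e, JacW G (fun s => f (PowerSeries.C (x s)))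
                (fun e => (rootPoly γ p e).map (f : PowerSeries F →+* L)) β (fun i => f (t i))
                (fun s => (Y s).map (f : PowerSeries F →+* L)) Z δ e = 0) → Z = 0 ∧ δ = 0 := by
  classical
  set W : E → (PowerSeries F)[X] := fun e => rootPoly γ p e with hW
  set w₀ : Unk n M ι → F :=
    Sum.elim (fun q => (Y₀ q.1).eval (algebraMap ℂ F (a q.2))) t₀ with hw₀
  have hW0 : ∀ e, (W e).map (ccA F : PowerSeries F →+* F) =
      rootPoly γ (fun l => PowerSeries.constantCoeff (p l)) e := by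
    intro e
    rw [hW, rootPoly_map]
    rfl
  have hYof : ∀ s, Yof a (x s) (fun j => w₀ (Sum.inl (s, j))) = Y₀ s := fun s =>
    (Yof_unique ha (Y₀ s) (hY₀ s) (x s) (hlead s)).symm
  have hccC : ∀ z : F, ccA F (PowerSeries.C z) = z := fun z => PowerSeries.constantCoeff_C _
  -- the point `w₀` is a solution
  have h0 : ∀ r, PowerSeries.constantCoeff (MvPolynomial.aeval (fun j => PowerSeries.C (w₀ j))
      (Phi G a β d (fun s => (PowerSeries.C (x s) : PowerSeries F)) W r)) = 0 := by
    intro r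
    rw [← ccA_apply, Phi_eval]
    simp only [hccC, hW0]
    unfold GG
    simp only [hYof]
    rw [heq r.1]
    have h1 : (fun i => w₀ (Sum.inr i)) = t₀ := rfl
    rw [h1, sub_self, coeff_zero]
  have hJ : ∀ w : (Σ e, Fin (d e * M)) → F, ∃ v : Unk n M ι → F, ∀ r, ∑ j,
      PowerSeries.constantCoeff (MvPolynomial.aeval (fun j => PowerSeries.C (w₀ j))
        (MvPolynomial.pderiv j
          (Phi G a β d (fun s => (PowerSeries.C (x s) : PowerSeries F)) W r))) * v j = w r := by
    intro w
    obtain ⟨Z, δ, hZ, hZδ⟩ := hfree (fun e => ∑ i : Fin (d e * M), C (w ⟨e, i⟩) * X ^ (i : ℕ)) (by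
      intro e
      refine mem_degreeLT.1 (Submodule.sum_mem _ fun i _ => mem_degreeLT.2 ?_)
      refine lt_of_le_of_lt (degree_C_mul_X_pow_le _ _) ?_
      exact_mod_cast i.2)
    refine ⟨Sum.elim (fun q => (Z q.1).eval (algebraMap ℂ F (a q.2))) δ, fun r => ?_⟩
    have h1 := Phi_jac G a β d (fun s => (PowerSeries.C (x s) : PowerSeries F)) W
      (fun j => PowerSeries.C (w₀ j)) (ccA F)
      (Sum.elim (fun q => (Z q.1).eval (algebraMap ℂ F (a q.2))) δ) r
    simp only [hccC, hW0, hYof] at h1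
    have h2 : (fun s => Zof a fun j => (Sum.elim (fun q : Fin (n + 1) × Fin M =>
        (Z q.1).eval (algebraMap ℂ F (a q.2))) δ) (Sum.inl (s, j))) = Z := by
      funext s
      exact (Zof_unique ha (Z s) (hZ s)).symm
    rw [h2] at h1
    have h3 := hZδ r.1
    refine h1.trans ?_
    have h4 : (fun i => w₀ (Sum.inr i)) = t₀ := rfl
    have h5 : (fun i => (Sum.elim (fun q : Fin (n + 1) × Fin M =>
        (Z q.1).eval (algebraMap ℂ F (a q.2))) δ) (Sum.inr i)) = δ := rfl
    rw [h4, h5, h3, finsetSum_coeff, Finset.sum_eq_single r.2]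
    · rw [coeff_C_mul, coeff_X_pow, if_pos rfl, mul_one]
    · intro i _ hi
      rw [coeff_C_mul, coeff_X_pow, if_neg, mul_zero]
      intro h6
      exact hi (Fin.ext h6.symm)
    · intro h6
      exact absurd (Finset.mem_univ _) h6
  obtain ⟨S, hS⟩ := ift_free (Phi G a β d (fun s => (PowerSeries.C (x s) : PowerSeries F)) W) w₀
    h0 hJ
  refine ⟨S, fun θ hθ1 hθ2 => ?_⟩
  obtain ⟨w, hwc, hwS, hwΦ, hker⟩ := hS θ (by
    rintro (⟨s, j⟩ | i)
    · exact hθ1 s j
    · exact hθ2 i)
  have hY : ∀ s, (Yof a (PowerSeries.C (x s)) (fun j => w (Sum.inl (s, j)))).map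
      (ccA F : PowerSeries F →+* F) = Y₀ s := by
    intro s
    rw [Yof_map, hccC]
    have h1 : (fun j => ccA F (w (Sum.inl (s, j)))) = fun j => w₀ (Sum.inl (s, j)) := by
      funext j
      exact hwc _
    rw [h1, hYof]
  refine ⟨fun s => Yof a (PowerSeries.C (x s)) fun j => w (Sum.inl (s, j)),
    fun i => w (Sum.inr i), fun s => Yof_natDegree ha _ _, fun s => Yof_coeff ha _ _,
    fun s => hY s, fun i => hwc _, fun s j hj => ?_, fun i hi => hwS _ hi, fun e => ?_, ?_⟩
  · rw [Yof_eval ha]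
    exact hwS _ hj
  · -- the equation
    rw [← sub_eq_zero]
    refine Polynomial.ext fun r => ?_
    rw [coeff_zero]
    rcases lt_trichotomy r (d e * M) with h | h | h
    · have h1 := hwΦ ⟨e, ⟨r, h⟩⟩
      have h2 := Phi_eval G a β d (fun s => (PowerSeries.C (x s) : PowerSeries F)) W w
        (AlgHom.id ℂ (PowerSeries F)) ⟨e, ⟨r, h⟩⟩
      rw [h1, map_zero] at h2
      have h3 : ∀ e, (W e).map ((AlgHom.id ℂ (PowerSeries F) :
          PowerSeries F →ₐ[ℂ] PowerSeries F) : PowerSeries F →+* PowerSeries F) = W e :=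
        fun e => Polynomial.map_id
      simp only [h3] at h2
      exact h2.symm
    · have h1 := coeff_aeval (m := M) (hG e) (fun s => Yof a (PowerSeries.C (x s))
        fun j => w (Sum.inl (s, j))) (fun s => Yof_natDegree ha _ _)
      simp only [Yof_coeff ha] at h1
      have h2 : (rootPoly γ p e * rootPoly β (fun i => w (Sum.inr i)) e).coeff (d e * M) = 1 := by
        have h3 : (rootPoly γ p e * rootPoly β (fun i => w (Sum.inr i)) e).natDegree =
            d e * M := by
          rw [(rootPoly_monic' γ p e).natDegree_mul (rootPoly_monic' _ _ e),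
            rootPoly_natDegree', rootPoly_natDegree', ← hdeg e, add_comm]
        rw [← h3]
        exact ((rootPoly_monic' γ p e).mul (rootPoly_monic' _ _ e))
      rw [h, coeff_sub, h1, coeff_C_mul, h2, mul_one, sub_self]
    · have h1 := natDegree_aeval_le (m := M) (hG e) (fun s => Yof a (PowerSeries.C (x s))
        fun j => w (Sum.inl (s, j))) (fun s => Yof_natDegree ha _ _)
      have h3 : (rootPoly γ p e * rootPoly β (fun i => w (Sum.inr i)) e).natDegree =
          d e * M := by
        rw [(rootPoly_monic' γ p e).natDegree_mul (rootPoly_monic' _ _ e),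
          rootPoly_natDegree', rootPoly_natDegree', ← hdeg e, add_comm]
      rw [coeff_sub, coeff_eq_zero_of_natDegree_lt (lt_of_le_of_lt h1 h), coeff_C_mul,
        coeff_eq_zero_of_natDegree_lt (lt_of_le_of_lt h3.le h), mul_zero, sub_zero]
  · intro L _ _ f hf Z δ hZ hZS hδS hJac
    have h1 := hker L (f : PowerSeries F →+* L) hf
      (Sum.elim (fun q => (Z q.1).eval (algebraMap ℂ L (a q.2))) δ) (by
      rintro (⟨s, j⟩ | i) hj
      · exact hZS s j hj
      · exact hδS i hj) (by
      intro r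
      have h2 := Phi_jac G a β d (fun s => (PowerSeries.C (x s) : PowerSeries F)) W w f
        (Sum.elim (fun q => (Z q.1).eval (algebraMap ℂ L (a q.2))) δ) r
      have h3 : (fun s => Zof a fun j => (Sum.elim (fun q : Fin (n + 1) × Fin M =>
          (Z q.1).eval (algebraMap ℂ L (a q.2))) δ) (Sum.inl (s, j))) = Z := by
        funext s
        exact (Zof_unique ha (Z s) (hZ s)).symm
      rw [h3] at h2
      refine h2.trans ?_
      have h4 := hJac r.1
      simp only [Yof_map] at h4
      have h5 := congrArg (fun q : L[X] => q.coeff r.2) h4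
      exact h5)
    have h2 : ∀ s, Z s = 0 := by
      intro s
      rw [Zof_unique ha (Z s) (hZ s)]
      have h3 : (fun j => (Z s).eval (algebraMap ℂ L (a j))) = fun _ => 0 := by
        funext j
        exact congrFun h1 (Sum.inl (s, j))
      rw [h3]
      exact Zof_zero a
    exact ⟨funext h2, funext fun i => congrFun h1 (Sum.inr i)⟩

end Pool.Agent.Work.RC
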