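import Mathlib
import Pool.Agent.Work.MP_4329d7_ag_rc.Basic
import Pool.Agent.Work.MP_4329d7_ag_sq.LinDis

/-!
(P1) Lift and (P2) Free: the derivative of the system at a curve is onto.

`lift`: take a derivation `D` of `k` with `D (x s) = z s` (`exists_der_of_algInd` in
`MP_4329d7_ag_sq/LinDis.lean`) and `Z = coeffD D Y`, `δ i = D (t i)`.

`free`: (A) the map `(Z, V) ↦ (∇F_e(Y)·Z + u_e V_e)_e` from `k[X]^(n+1) × k[X]^E` to `k[X]^E` is
onto: otherwise its image is in a maximal submodule, i.e. there are a maximal ideal `𝔪` of `k[X]`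
and `ℓ_e ∈ κ = k[X]/𝔪`, not all zero, with `ℓ_e u_e = 0` and `∑ ℓ_e ∂_s F_e(Y) = 0` in `κ`;
`F_e(Y) = c_e u_e` (`c_e ≠ 0`) vanishes where `ℓ_e ≠ 0`, contradiction to `snc` at the point
`Y mod 𝔪 ≠ 0` (`cop`).
(B) Start with `∇F_e(Y)·Z + u_e V_e = P_e`.  Claim: for all `M`, if
`∇F_e(Y)·Z + u_e V_e + c_e ∑ δ_i u^(i)_e = P_e` with `deg Z < m + M`, `deg V_e < M` then there is
such a relation with `M = 0`.  Step: let `z` = the coefficients of `Z` at `m + M - 1` (`M ≥ 1`);
compare coefficients at `d_e m + M - 1`: `∇F_e(x)·z + (V_e)_(M-1) = 0`; subtract `X^(M-1)` times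
`lift z`; `X^(M-1) u^(i)_e = β_ie u_e X^(M-1)/(X - t_i) = β_ie u_e q_i + t_i^(M-1) u^(i)_e` with
`deg q_i ≤ M - 2`.
-/

namespace Pool.Agent.Work.RC

open Polynomial
open Pool.Agent.Work.Uni (rootPoly)

/-- a submodule of `R ^ E` which is everything modulo all maximal ideals -/
theorem eq_top_of_mod_maximal {R E : Type} [CommRing R] [Fintype E] (N : Submodule R (E → R))
    (h : ∀ (P : Ideal R), P.IsMaximal → ∀ φ : E → R ⧸ P,
      (∀ g ∈ N, ∑ e, Ideal.Quotient.mk P (g e) * φ e = 0) → φ = 0) : N = ⊤ := by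
  classical
  by_contra hN
  obtain ⟨M, hM, hNM⟩ := (eq_top_or_exists_le_coatom N).resolve_left hN
  have hs : IsSimpleModule R ((E → R) ⧸ M) := isSimpleModule_iff_isCoatom.2 hM
  obtain ⟨P, hP, ⟨f⟩⟩ := isSimpleModule_iff_quot_maximal.1 hs
  let ψ : (E → R) →ₗ[R] R ⧸ P := f.toLinearMap.comp M.mkQ
  have hψ : ∀ g, ψ g = ∑ e, Ideal.Quotient.mk P (g e) * ψ (Pi.single e 1) := by
    intro g
    have h1 : g = ∑ e, g e • (Pi.single e 1 : E → R) := by
      funext e'
      simp [Finset.sum_apply, Pi.single_apply]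
    conv_lhs => rw [h1]
    rw [map_sum]
    refine Finset.sum_congr rfl fun e _ => ?_
    rw [map_smul]
    rfl
  have h0 := h P hP (fun e => ψ (Pi.single e 1)) (by
    intro g hg
    rw [← hψ]
    change f (M.mkQ g) = 0
    rw [(Submodule.Quotient.mk_eq_zero M).2 (hNM hg) |> fun h => (h : M.mkQ g = 0), map_zero])
  have h2 : ∀ g, ψ g = 0 := by
    intro g
    rw [hψ]
    refine Finset.sum_eq_zero fun e _ => ?_
    rw [congrFun h0 e, Pi.zero_apply, mul_zero]
  refine hM.1 ?_
  rw [eq_top_iff]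
  intro g _
  have h3 := h2 g
  change f (M.mkQ g) = 0 at h3
  have h4 : M.mkQ g = 0 := by
    have := congrArg f.symm h3
    simpa using this
  exact (Submodule.Quotient.mk_eq_zero M).1 h4

theorem eq_top_of_fields {R E : Type} [CommRing R] [Algebra ℂ R] [Fintype E]
    (N : Submodule R (E → R))
    (h : ∀ (κ : Type) [Field κ] [Algebra ℂ κ] (π : R →ₐ[ℂ] κ) (φ : E → κ),
      (∀ g ∈ N, ∑ e, π (g e) * φ e = 0) → φ = 0) : N = ⊤ :=
  eq_top_of_mod_maximal N fun P hP φ hφ => by
    let _ : Field (R ⧸ P) := Ideal.Quotient.field P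
    exact h (R ⧸ P) (Ideal.Quotient.mkₐ ℂ P) φ hφ

/-- `(Z, V) ↦ ∇F_e(Y)·Z + u_e V_e` as a linear map -/
noncomputable def gradMap {R E σ : Type} [CommRing R] [Fintype σ] (G : E → σ → R) (u : E → R) :
    ((σ → R) × (E → R)) →ₗ[R] (E → R) where
  toFun q e := ∑ s, G e s * q.1 s + u e * q.2 e
  map_add' q q' := by
    funext e
    simp only [Prod.fst_add, Prod.snd_add, Pi.add_apply, mul_add, Finset.sum_add_distrib]
    ring
  map_smul' a q := by
    funext e
    simp only [Prod.smul_fst, Prod.smul_snd, Pi.smul_apply, smul_eq_mul, RingHom.id_apply,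
      mul_add, Finset.mul_sum]
    congr 1
    · exact Finset.sum_congr rfl fun s _ => by ring
    · ring

theorem gradMap_onto {R E σ : Type} [CommRing R] [Algebra ℂ R] [Fintype σ] [Fintype E]
    (G : E → σ → R) (u : E → R)
    (h : ∀ (κ : Type) [Field κ] [Algebra ℂ κ] (π : R →ₐ[ℂ] κ) (φ : E → κ),
      (∀ s, ∑ e, π (G e s) * φ e = 0) → (∀ e, π (u e) * φ e = 0) → φ = 0) (P : E → R) :
    ∃ (Z : σ → R) (V : E → R), ∀ e, ∑ s, G e s * Z s + u e * V e = P e := by
  classical
  have htop : LinearMap.range (gradMap G u) = ⊤ := by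
    refine eq_top_of_fields _ fun κ _ _ π φ hφ => h κ π φ (fun s => ?_) fun e => ?_
    · have h1 := hφ (gradMap G u (Pi.single s 1, 0)) ⟨_, rfl⟩
      have h2 : ∀ e', gradMap G u (Pi.single s 1, 0) e' = G e' s := by
        intro e'
        change ∑ s', G e' s' * (Pi.single s 1 : σ → R) s' + u e' * (0 : E → R) e' = _
        rw [Pi.zero_apply, mul_zero, add_zero, Finset.sum_eq_single s
          (fun s' _ h => by rw [Pi.single_eq_of_ne h, mul_zero])
          (fun h => absurd (Finset.mem_univ s) h), Pi.single_eq_same, mul_one]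
      simp only [h2] at h1
      exact h1
    · have h1 := hφ (gradMap G u (0, Pi.single e 1)) ⟨_, rfl⟩
      have h2 : ∀ e', gradMap G u (0, Pi.single e 1) e' = if e' = e then u e else 0 := by
        intro e'
        change ∑ s', G e' s' * (0 : σ → R) s' + u e' * (Pi.single e 1 : E → R) e' = _
        simp only [Pi.zero_apply, mul_zero, Finset.sum_const_zero, zero_add]
        by_cases h : e' = e
        · subst h
          rw [Pi.single_eq_same, mul_one, if_pos rfl]
        · rw [Pi.single_eq_of_ne h, mul_zero, if_neg h]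
      simp only [h2] at h1
      rw [Finset.sum_eq_single e (fun e' _ h => by rw [if_neg h, map_zero, zero_mul])
        (fun h => absurd (Finset.mem_univ e) h), if_pos rfl] at h1
      exact h1
  obtain ⟨q, hq⟩ := LinearMap.range_eq_top.1 htop P
  exact ⟨q.1, q.2, fun e => congrFun hq e⟩

/-- `X ^ M = (X - a) q + a ^ M` with `deg q < M` -/
theorem exists_pow_div {k : Type} [Field k] (a : k) (M : ℕ) :
    ∃ q : k[X], q.degree < M ∧ (X : k[X]) ^ M = C (a ^ M) + q * (X - C a) := by
  refine ⟨∑ j ∈ Finset.range M, X ^ j * C a ^ (M - 1 - j), ?_, ?_⟩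
  · rw [← mem_degreeLT]
    refine Submodule.sum_mem _ fun j hj => ?_
    rw [mem_degreeLT, ← C_pow, mul_comm]
    exact (degree_C_mul_X_pow_le j _).trans_lt (by exact_mod_cast Finset.mem_range.1 hj)
  · rw [geom_sum₂_mul, C_pow]
    ring

variable {n : ℕ} {E : Type} [Fintype E] [DecidableEq E] {A : Arr n E}
  {k : Type} [Field k] [Algebra ℂ k] {x : Fin (n + 1) → k}

omit [Fintype E] [DecidableEq E] in
theorem lift_aux (hx : AlgebraicIndependent ℂ x) (c : Cv A k x) (z : Fin (n + 1) → k) :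
    ∃ (Z : Fin (n + 1) → k[X]) (δ : c.ι → k), (∀ s, (Z s).natDegree ≤ c.m) ∧
      (∀ s, (Z s).coeff c.m = z s) ∧
      ∀ e, c.Jac Z δ e = C (∑ s, MvPolynomial.aeval x (MvPolynomial.pderiv s (A.F e)) * z s) *
        rootPoly c.β c.t e := by
  obtain ⟨D, hD⟩ := Pool.Agent.Work.MP_4329d7_ag_sq.exists_der_of_algInd hx z
  refine ⟨fun s => coeffD D (c.Y s), fun i => D (c.t i), fun s => ?_, fun s => ?_, fun e => ?_⟩
  · rw [natDegree_le_iff_coeff_eq_zero]
    intro N hN
    rw [coeffD_coeff, coeff_eq_zero_of_natDegree_lt ((c.deg s).trans_lt hN), map_zero]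
  · rw [coeffD_coeff, c.lead, hD]
  · have h1 := derivation_aeval (coeffD D) (A.F e) c.Y
    rw [c.eqn e, Derivation.leibniz, coeffD_rootPoly, coeffD_C, derivation_aeval D (A.F e) x] at h1
    simp only [smul_eq_mul, hD] at h1
    unfold Cv.Jac JacW
    rw [← h1]
    simp only [Pi.one_apply, mul_one]
    ring

/-- (A) `(Z, V) ↦ ∇F_e(Y)·Z + u_e V_e` is onto -/
theorem grad_onto (hA : A.Ok) (c : Cv A k x) (P : E → k[X]) :
    ∃ (Z : Fin (n + 1) → k[X]) (V : E → k[X]), ∀ e,
      ∑ s, MvPolynomial.aeval c.Y (MvPolynomial.pderiv s (A.F e)) * Z s +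
        rootPoly c.β c.t e * V e = P e := by
  refine gradMap_onto (fun e s => MvPolynomial.aeval c.Y (MvPolynomial.pderiv s (A.F e)))
    (rootPoly c.β c.t) (fun κ _ _ π φ hl hr => ?_) P
  have hy : (fun s => π (c.Y s)) ≠ 0 := by
    intro h0
    obtain ⟨V, hV⟩ := c.cop
    have h1 := congrArg π hV
    rw [map_sum, map_one] at h1
    have h2 : ∑ s, π (V s * c.Y s) = 0 :=
      Finset.sum_eq_zero fun s _ => by
        rw [map_mul]
        have h3 : π (c.Y s) = 0 := congrFun h0 s
        rw [h3, mul_zero]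
    rw [h2] at h1
    exact zero_ne_one h1
  have hev : ∀ G : MvPolynomial (Fin (n + 1)) ℂ,
      MvPolynomial.aeval (fun s => π (c.Y s)) G = π (MvPolynomial.aeval c.Y G) := fun G =>
    (MvPolynomial.comp_aeval_apply (f := c.Y) π G).symm
  have hz : ∀ e, MvPolynomial.aeval (fun s => π (c.Y s)) (A.F e) ≠ 0 → φ e = 0 := by
    intro e he
    rcases mul_eq_zero.1 (hr e) with h3 | h3
    · exfalso
      apply he
      rw [hev, c.eqn e, map_mul, h3, mul_zero]
    · exact h3
  have hli := hA.snc κ (fun s => π (c.Y s)) hy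
  classical
  rw [Fintype.linearIndependent_iff] at hli
  have h3 := hli (fun e => φ e.1) (by
    funext s
    rw [Finset.sum_apply, Pi.zero_apply]
    refine Eq.trans ?_ (hl s)
    simp only [Pi.smul_apply, smul_eq_mul, hev]
    have h4 : ∀ e, φ e ≠ 0 → MvPolynomial.aeval (fun s => π (c.Y s)) (A.F e) = 0 := by
      intro e he
      by_contra h5
      exact he (hz e h5)
    rw [← Finset.sum_filter_of_ne
      (p := fun e => MvPolynomial.aeval (fun s => π (c.Y s)) (A.F e) = 0)
      (fun e _ he => h4 e (fun h => he (by rw [h, mul_zero])))]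
    refine Eq.trans (Finset.sum_congr rfl fun e _ => mul_comm (φ e.1) _)
      (Finset.sum_subtype (Finset.univ.filter fun e =>
        MvPolynomial.aeval (fun s => π (c.Y s)) (A.F e) = 0) (fun e => by simp)
        (fun e => π (MvPolynomial.aeval c.Y (MvPolynomial.pderiv s (A.F e))) * φ e)).symm)
  funext e
  by_cases he : MvPolynomial.aeval (fun s => π (c.Y s)) (A.F e) = 0
  · exact h3 ⟨e, he⟩
  · exact hz e he

omit [Fintype E] [DecidableEq E] in
theorem Cv.Jac_eq (c : Cv A k x) (Z : Fin (n + 1) → k[X]) (δ : c.ι → k) (e : E) :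
    c.Jac Z δ e = ∑ s, MvPolynomial.aeval c.Y (MvPolynomial.pderiv s (A.F e)) * Z s +
      C (MvPolynomial.aeval x (A.F e)) * ∑ i, C (δ i) * uD c.β c.t e i := by
  unfold Cv.Jac JacW
  rw [Pi.one_apply, mul_one]

omit [Fintype E] [DecidableEq E] [Algebra ℂ k] in
theorem uD_X_pow {ι : Type} [Fintype ι] (β : ι → E → ℕ) (t : ι → k) (e : E) (i : ι) (M : ℕ)
    (q : k[X]) (hq : (X : k[X]) ^ M = C (t i ^ M) + q * (X - C (t i))) :
    X ^ M * uD β t e i = C (t i ^ M) * uD β t e i + C (β i e : k) * rootPoly β t e * q := by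
  rw [hq, ← uD_mul]
  ring

omit [Fintype E] in
/-- the coefficient at `d_e m + M` of the derivative -/
theorem coeff_Jac (hA : A.Ok) (hx : AlgebraicIndependent ℂ x) (c : Cv A k x)
    (Z : Fin (n + 1) → k[X]) (δ : c.ι → k) (M : ℕ) (hZ : ∀ s, (Z s).natDegree ≤ c.m + M) (e : E) :
    (c.Jac Z δ e).coeff (A.d e * c.m + M) =
      ∑ s, MvPolynomial.aeval x (MvPolynomial.pderiv s (A.F e)) * (Z s).coeff (c.m + M) := by
  rw [Cv.Jac_eq, coeff_add, finsetSum_coeff]
  have h2 : (C (MvPolynomial.aeval x (A.F e)) * ∑ i, C (δ i) * uD c.β c.t e i).coeff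
      (A.d e * c.m + M) = 0 := by
    rw [coeff_C_mul, finsetSum_coeff, Finset.sum_eq_zero, mul_zero]
    intro i _
    rw [coeff_C_mul, coeff_eq_zero_of_degree_lt, mul_zero]
    refine (uD_degree c.β c.t e i).trans_le ?_
    rw [Cv.sum_β hA hx]
    exact_mod_cast Nat.le_add_right _ _
  rw [h2, add_zero]
  refine Finset.sum_congr rfl fun s _ => ?_
  have hd := hA.d_pos e
  have h3 : A.d e * c.m + M = (A.d e - 1) * c.m + (c.m + M) := by
    obtain ⟨d, hd'⟩ : ∃ d, A.d e = d + 1 := ⟨A.d e - 1, by omega⟩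
    rw [hd', Nat.add_sub_cancel]
    ring
  have hhom : (MvPolynomial.pderiv s (A.F e)).IsHomogeneous (A.d e - 1) := (hA.hom e).pderiv
  rw [h3, coeff_mul_add_eq_of_natDegree_le (natDegree_aeval_le hhom c.Y c.deg) (hZ s),
    coeff_aeval hhom c.Y c.deg]
  simp only [c.lead]

omit [Fintype E] in
theorem free_step (hA : A.Ok) (hx : AlgebraicIndependent ℂ x) (c : Cv A k x) (P : E → k[X])
    (hP : ∀ e, (P e).degree < (A.d e * c.m : ℕ)) (M : ℕ) :
    ∀ (Z : Fin (n + 1) → k[X]) (V : E → k[X]) (δ : c.ι → k),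
      (∀ s, (Z s).degree < (c.m + M : ℕ)) → (∀ e, (V e).degree < M) →
      (∀ e, c.Jac Z δ e + rootPoly c.β c.t e * V e = P e) →
      ∃ (Z : Fin (n + 1) → k[X]) (δ : c.ι → k), (∀ s, (Z s).degree < c.m) ∧
        ∀ e, c.Jac Z δ e = P e := by
  induction M with
  | zero =>
    intro Z V δ hZ hV h
    refine ⟨Z, δ, fun s => by simpa using hZ s, fun e => ?_⟩
    have h1 : V e = 0 := by
      have h2 := hV e
      rwa [Nat.cast_zero, ← not_le, zero_le_degree_iff, not_not] at h2
    rw [← h e, h1, mul_zero, add_zero]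
  | succ M ih =>
    intro Z V δ hZ hV h
    have hZ' : ∀ s, (Z s).natDegree ≤ c.m + M := fun s => by
      rw [natDegree_le_iff_degree_le]
      have h1 := hZ s
      rw [← add_assoc, Nat.cast_succ] at h1
      exact Order.lt_succ_iff.1 h1
    have hV' : ∀ e, (V e).natDegree ≤ M := fun e => by
      rw [natDegree_le_iff_degree_le]
      exact Order.lt_succ_iff.1 (hV e)
    obtain ⟨Z₁, δ₁, hZ₁, hZ₁c, hJ₁⟩ := lift_aux hx c (fun s => (Z s).coeff (c.m + M))
    -- the top coefficients
    have hu : ∀ e, (rootPoly c.β c.t e).Monic := fun e =>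
      monic_prod_of_monic _ _ fun i _ => (monic_X_sub_C _).pow _
    have hud : ∀ e, (rootPoly c.β c.t e).natDegree = A.d e * c.m := by
      intro e
      unfold rootPoly
      rw [natDegree_prod_of_monic _ _ fun i _ => (monic_X_sub_C _).pow _]
      rw [← Cv.sum_β hA hx c e]
      exact Finset.sum_congr rfl fun i _ => by
        rw [(monic_X_sub_C _).natDegree_pow, natDegree_X_sub_C, mul_one]
    have htop : ∀ e, ∑ s, MvPolynomial.aeval x (MvPolynomial.pderiv s (A.F e)) *
        (Z s).coeff (c.m + M) = - (V e).coeff M := by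
      intro e
      have h1 := congrArg (fun p => p.coeff (A.d e * c.m + M)) (h e)
      simp only [coeff_add] at h1
      rw [coeff_Jac hA hx c Z δ M hZ', coeff_mul_add_eq_of_natDegree_le (hud e).le (hV' e),
        coeff_eq_zero_of_degree_lt ((hP e).trans_le (by exact_mod_cast Nat.le_add_right _ _))] at h1
      have h2 : (rootPoly c.β c.t e).coeff (A.d e * c.m) = 1 := by
        rw [← hud e]
        exact hu e
      rw [h2, one_mul] at h1
      exact eq_neg_of_add_eq_zero_left h1
    choose q hq hq' using fun i => exists_pow_div (c.t i) M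
    refine ih (fun s => Z s - X ^ M * Z₁ s)
      (fun e => V e - X ^ M * C ((V e).coeff M) - C (MvPolynomial.aeval x (A.F e)) *
        ∑ i, C (δ₁ i * (c.β i e : k)) * q i) (fun i => δ i - δ₁ i * c.t i ^ M) ?_ ?_ ?_
    · intro s
      rw [degree_lt_iff_coeff_zero]
      intro N hN
      rw [coeff_sub, mul_comm, coeff_mul_X_pow']
      rw [if_pos (by omega)]
      rcases Nat.eq_or_lt_of_le hN with h1 | h1
      · rw [← h1, Nat.add_sub_cancel, hZ₁c, sub_self]
      · rw [coeff_eq_zero_of_natDegree_lt ((hZ' s).trans_lt h1),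
          coeff_eq_zero_of_natDegree_lt ((hZ₁ s).trans_lt (by omega)), sub_self]
    · intro e
      have h1 : (V e - X ^ M * C ((V e).coeff M)).degree < (M : WithBot ℕ) := by
        rw [degree_lt_iff_coeff_zero]
        intro N hN
        rw [coeff_sub, mul_comm, coeff_C_mul_X_pow]
        rcases Nat.eq_or_lt_of_le hN with h1 | h1
        · rw [← h1, if_pos rfl, sub_self]
        · rw [if_neg (by omega), coeff_eq_zero_of_natDegree_lt ((hV' e).trans_lt h1), sub_zero]
      have h2 : (C (MvPolynomial.aeval x (A.F e)) *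
          ∑ i, C (δ₁ i * (c.β i e : k)) * q i).degree < (M : WithBot ℕ) := by
        rw [← mem_degreeLT, ← smul_eq_C_mul]
        refine Submodule.smul_mem _ _ (Submodule.sum_mem _ fun i _ => ?_)
        rw [← smul_eq_C_mul]
        exact Submodule.smul_mem _ _ (mem_degreeLT.2 (hq i))
      rw [← mem_degreeLT] at h1 h2 ⊢
      exact Submodule.sub_mem _ h1 h2
    · intro e
      have h1 := hJ₁ e
      rw [htop e, C_neg] at h1
      rw [← h e]
      rw [Cv.Jac_eq] at h1 ⊢
      rw [Cv.Jac_eq]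
      have h2 : ∑ i, C (δ i - δ₁ i * c.t i ^ M) * uD c.β c.t e i =
          ∑ i, C (δ i) * uD c.β c.t e i - X ^ M * ∑ i, C (δ₁ i) * uD c.β c.t e i +
            rootPoly c.β c.t e * ∑ i, C (δ₁ i * (c.β i e : k)) * q i := by
        rw [Finset.mul_sum, Finset.mul_sum, ← Finset.sum_sub_distrib, ← Finset.sum_add_distrib]
        refine Finset.sum_congr rfl fun i _ => ?_
        have h3 := uD_X_pow c.β c.t e i M (q i) (hq' i)
        rw [C_sub, C_mul, C_mul]
        linear_combination (C (δ₁ i)) * h3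
      have h4 : ∑ s, MvPolynomial.aeval c.Y (MvPolynomial.pderiv s (A.F e)) *
          (Z s - X ^ M * Z₁ s) =
          ∑ s, MvPolynomial.aeval c.Y (MvPolynomial.pderiv s (A.F e)) * Z s - X ^ M *
            ∑ s, MvPolynomial.aeval c.Y (MvPolynomial.pderiv s (A.F e)) * Z₁ s := by
        rw [Finset.mul_sum, ← Finset.sum_sub_distrib]
        exact Finset.sum_congr rfl fun s _ => by ring
      rw [h2, h4]
      linear_combination (-(X : k[X]) ^ M) * h1

omit [Fintype E] in
theorem lift (_hA : A.Ok) (hx : AlgebraicIndependent ℂ x) (c : Cv A k x) (z : Fin (n + 1) → k) :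
    ∃ (Z : Fin (n + 1) → k[X]) (δ : c.ι → k), (∀ s, (Z s).natDegree ≤ c.m) ∧
      (∀ s, (Z s).coeff c.m = z s) ∧
      ∀ e, c.Jac Z δ e = C (∑ s, MvPolynomial.aeval x (MvPolynomial.pderiv s (A.F e)) * z s) *
        rootPoly c.β c.t e :=
  lift_aux hx c z

theorem free (hA : A.Ok) (hx : AlgebraicIndependent ℂ x) (c : Cv A k x) (P : E → k[X])
    (hP : ∀ e, (P e).degree < (A.d e * c.m : ℕ)) :
    ∃ (Z : Fin (n + 1) → k[X]) (δ : c.ι → k), (∀ s, (Z s).degree < c.m) ∧
      ∀ e, c.Jac Z δ e = P e := by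
  obtain ⟨Z, V, h⟩ := grad_onto hA c P
  refine free_step hA hx c P hP (∑ s, (Z s).natDegree + ∑ e, (V e).natDegree + 1) Z V 0 ?_ ?_ ?_
  · intro s
    refine degree_le_natDegree.trans_lt ?_
    have h1 := Finset.single_le_sum (f := fun s => (Z s).natDegree) (fun _ _ => Nat.zero_le _)
      (Finset.mem_univ s)
    exact_mod_cast (by omega : (Z s).natDegree <
      c.m + (∑ s, (Z s).natDegree + ∑ e, (V e).natDegree + 1))
  · intro e
    refine degree_le_natDegree.trans_lt ?_
    have h1 := Finset.single_le_sum (f := fun e => (V e).natDegree) (fun _ _ => Nat.zero_le _)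
      (Finset.mem_univ e)
    exact_mod_cast (by omega : (V e).natDegree <
      ∑ s, (Z s).natDegree + ∑ e, (V e).natDegree + 1)
  · intro e
    rw [Cv.Jac_eq, ← h e]
    simp only [Pi.zero_apply, C_0, zero_mul, Finset.sum_const_zero, mul_zero, add_zero]

/-- one column is not needed (translation: `∇F_e(Y)·Y' = c_e ∑ u^(i)_e`) -/
theorem free_zero (hA : A.Ok) (hx : AlgebraicIndependent ℂ x) (c : Cv A k x) (i₀ : c.ι)
    (P : E → k[X]) (hP : ∀ e, (P e).degree < (A.d e * c.m : ℕ)) :
    ∃ (Z : Fin (n + 1) → k[X]) (δ : c.ι → k), (∀ s, (Z s).degree < c.m) ∧ δ i₀ = 0 ∧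
      ∀ e, c.Jac Z δ e = P e := by
  obtain ⟨Z, δ, hZ, h⟩ := free hA hx c P hP
  refine ⟨fun s => Z s + C (δ i₀) * derivative (c.Y s), fun i => δ i - δ i₀, fun s => ?_,
    sub_self _, fun e => ?_⟩
  · have h1 : (derivative (c.Y s)).degree < (c.m : WithBot ℕ) := by
      rw [degree_lt_iff_coeff_zero]
      intro N hN
      rw [coeff_derivative, coeff_eq_zero_of_natDegree_lt ((c.deg s).trans_lt (by omega)), zero_mul]
    have h2 := hZ s
    change (Z s + C (δ i₀) * derivative (c.Y s)).degree < (c.m : WithBot ℕ)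
    rw [← smul_eq_C_mul]
    rw [← mem_degreeLT] at h1 h2 ⊢
    exact Submodule.add_mem _ h2 (Submodule.smul_mem _ _ h1)
  · rw [← h e, Cv.Jac_eq, Cv.Jac_eq]
    have h1 := derivation_aeval ((derivative' (R := k)).restrictScalars ℂ) (A.F e) c.Y
    rw [c.eqn e] at h1
    have h2 : ∀ p : k[X], ((derivative' (R := k)).restrictScalars ℂ : Derivation ℂ k[X] k[X]) p =
        derivative p := fun _ => rfl
    simp only [h2] at h1
    rw [derivative_C_mul, derivative_rootPoly] at h1
    simp only [mul_add, C_sub, sub_mul, Finset.sum_add_distrib, Finset.sum_sub_distrib,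
      ← Finset.mul_sum]
    have h3 : ∑ s, MvPolynomial.aeval c.Y (MvPolynomial.pderiv s (A.F e)) *
        (C (δ i₀) * derivative (c.Y s)) =
        C (δ i₀) * ∑ s, MvPolynomial.aeval c.Y (MvPolynomial.pderiv s (A.F e)) *
          derivative (c.Y s) := by
      rw [Finset.mul_sum]
      exact Finset.sum_congr rfl fun s _ => by ring
    rw [h3, ← h1]
    ring

end Pool.Agent.Work.RC
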