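import Mathlib
import Pool.Agent.Work.MP_4329d7_ag_rc.Pow

/-!
The new roots for the splitting: for every divisor `e` there are `b₀ e` roots with block `N e`.
-/

namespace Pool.Agent.Work.RC

open Polynomial
open Pool.Agent.Work.Uni (rootPoly)

variable {n : ℕ} {E : Type} [Fintype E] [DecidableEq E] {A : Arr n E}
  {k : Type} [Field k] [Algebra ℂ k] {x : Fin (n + 1) → k}

/-- the blocks of the new roots -/
def Cv.γN (c : Cv A k x) (N : ℕ) : (Σ e : E, Fin (c.b₀ e)) → E → ℕ :=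
  fun l e' => if e' = l.1 then N else 0

theorem Cv.sum_γN (c : Cv A k x) (N : ℕ) (e : E) : ∑ l, c.γN N l e = N * c.b₀ e := by
  unfold Cv.γN
  rw [Fintype.sum_sigma]
  simp only
  rw [Finset.sum_eq_single e]
  · simp only [if_true, Finset.sum_const, Finset.card_univ, Fintype.card_fin, smul_eq_mul]
    ring
  · intro e' _ he
    exact Finset.sum_eq_zero fun l _ => if_neg fun h => he h.symm
  · intro h
    exact absurd (Finset.mem_univ _) h

omit [Fintype E] [DecidableEq E] in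
theorem Cv.sum_βN (c : Cv A k x) (N : ℕ) (e : E) :
    ∑ i, c.βN N i e + N * c.b₀ e = N * ∑ i, c.β i e := by
  classical
  have h1 : ∑ i, c.βN N i e = N * ∑ i : {i : c.ι // c.t i ≠ 0}, c.β i.1 e := by
    have h2 : ∑ i, c.βN N i e =
        ∑ i : {i : c.ι // c.t i ≠ 0}, ∑ _l : Fin N, c.β i.1 e := by
      rw [← Fintype.sum_prod_type' (f := fun (i : {i : c.ι // c.t i ≠ 0}) (_ : Fin N) =>
        c.β i.1 e)]
      unfold Cv.βN
      exact Fintype.sum_congr _ _ fun p => rfl
    rw [h2, Finset.mul_sum]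
    refine Finset.sum_congr rfl fun i _ => ?_
    rw [Finset.sum_const, Finset.card_univ, Fintype.card_fin, smul_eq_mul]
  have h3 : ∑ i, c.β i e = c.b₀ e + ∑ i : {i : c.ι // c.t i ≠ 0}, c.β i.1 e := by
    have h4 : c.b₀ e = ∑ i with c.t i = 0, c.β i e := by
      unfold Cv.b₀
      exact Finset.sum_congr (by congr) fun _ _ => rfl
    have h5 : ∑ i with ¬ c.t i = 0, c.β i e = ∑ i : {i : c.ι // c.t i ≠ 0}, c.β i.1 e :=
      Finset.sum_subtype _ (fun i => by simp) _
    rw [h4, ← h5, Finset.sum_filter_add_sum_filter_not]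
  rw [h1, h3]
  ring

theorem Cv.sum_blocks (hA : A.Ok) (hx : AlgebraicIndependent ℂ x) (c : Cv A k x) (N : ℕ) (e : E) :
    ∑ i, c.βN N i e + ∑ l, c.γN N l e = A.d e * (N * c.m) := by
  rw [c.sum_γN N e, c.sum_βN N e, Cv.sum_β hA hx c e]
  ring

theorem Cv.rootPoly_γN (c : Cv A k x) (N : ℕ) {R : Type*} [CommRing R] (e : E) :
    rootPoly (c.γN N) (fun _ => (0 : R)) e = X ^ (N * c.b₀ e) := by
  unfold rootPoly
  simp only [C_0, sub_zero]
  rw [Finset.prod_pow_eq_pow_sum, c.sum_γN N e]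

omit [Fintype E] in
theorem Cv.γN_mem (hA : A.Ok) (c : Cv A k x) (l : Σ e : E, Fin (c.b₀ e)) :
    (fun e => (c.γN A.N l e : ℤ)) ∈ A.L := by
  have h : (fun e => (c.γN A.N l e : ℤ)) = Pi.single l.1 (A.N : ℤ) := by
    funext e
    unfold Cv.γN
    by_cases he : e = l.1
    · subst he
      rw [if_pos rfl, Pi.single_eq_same]
    · rw [if_neg he, Pi.single_eq_of_ne he, Nat.cast_zero]
  rw [h]
  exact hA.N_mem l.1

end Pool.Agent.Work.RC
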