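import Mathlib

/-!
Coprimality lifts from the residue field of a local ring (Nakayama).
-/

namespace Pool.Agent.Work.RC

open Polynomial

/-- Coprimality lifts from the residue field of a local ring `R`: `Y s ∈ R[X]` such that one of them
has a unit as leading coefficient and the reductions generate the unit ideal.  Proof: `R[X]` modulo
the `Y s` is a finite `R`-module `M` and `M = 𝔪 M`. -/
theorem cop_of_red {n : ℕ} {R κ : Type} [CommRing R] [IsLocalRing R] [Field κ] (ρ : R →+* κ)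
    (hρ : Function.Surjective ρ) (hunit : ∀ r, IsUnit r ↔ ρ r ≠ 0) (Y : Fin (n + 1) → R[X])
    (s₀ : Fin (n + 1)) (hlead : IsUnit (Y s₀).leadingCoeff) (V : Fin (n + 1) → κ[X])
    (hV : ∑ s, V s * (Y s).map ρ = 1) : ∃ V' : Fin (n + 1) → R[X], ∑ s, V' s * Y s = 1 := by
  classical
  let I : Ideal R[X] := Ideal.span (Set.range Y)
  suffices h : (1 : R[X]) ∈ I from Ideal.mem_span_range_iff_exists_fun.1 h
  obtain ⟨u, hu⟩ := hlead
  -- the monic multiple of `Y s₀`
  let g : R[X] := C ((u⁻¹ : Rˣ) : R) * Y s₀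
  have hg : g.Monic := by
    have h1 : ((u⁻¹ : Rˣ) : R) * (Y s₀).leadingCoeff = 1 := by rw [← hu]; exact u.inv_mul
    exact monic_C_mul_of_mul_leadingCoeff_eq_one h1
  have hgI : Ideal.span {g} ≤ I := by
    rw [Ideal.span_singleton_le_iff_mem]
    exact I.mul_mem_left _ (Ideal.subset_span ⟨s₀, rfl⟩)
  have hfin : Module.Finite R (R[X] ⧸ Ideal.span {g}) := hg.finite_quotient
  have hfin' : Module.Finite R (R[X] ⧸ I) :=
    Module.Finite.of_surjective (Ideal.Quotient.factorₐ R hgI).toLinearMap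
      (Ideal.Quotient.factor_surjective hgI)
  -- lift of the relation
  have hlift : ∀ P : κ[X], ∃ P' : R[X], P'.map ρ = P := fun P => Polynomial.map_surjective ρ hρ P
  choose W hW using fun s => hlift (V s)
  have hz : ((1 : R[X]) - ∑ s, W s * Y s).map ρ = 0 := by
    rw [Polynomial.map_sub, Polynomial.map_one, Polynomial.map_sum, ← hV]
    simp only [Polynomial.map_mul, hW, sub_self]
  have hmax : ∀ i, ((1 : R[X]) - ∑ s, W s * Y s).coeff i ∈ IsLocalRing.maximalIdeal R := by
    intro i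
    rw [IsLocalRing.mem_maximalIdeal, mem_nonunits_iff, hunit, not_not]
    have h1 : (((1 : R[X]) - ∑ s, W s * Y s).map ρ).coeff i = 0 := by rw [hz, coeff_zero]
    rwa [coeff_map] at h1
  have h1mem : (1 : R[X] ⧸ I) ∈ (IsLocalRing.maximalIdeal R) • (⊤ : Submodule R (R[X] ⧸ I)) := by
    have h1 : (Ideal.Quotient.mk I) (1 : R[X])
        = (Ideal.Quotient.mk I) ((1 : R[X]) - ∑ s, W s * Y s) := by
      rw [Ideal.Quotient.mk_eq_mk_iff_sub_mem]
      have h2 : (1 : R[X]) - (1 - ∑ s, W s * Y s) = ∑ s, W s * Y s := by ring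
      rw [h2]
      exact Ideal.sum_mem _ fun s _ => I.mul_mem_left _ (Ideal.subset_span ⟨s, rfl⟩)
    rw [← map_one (Ideal.Quotient.mk I), h1]
    rw [Polynomial.as_sum_range' ((1 : R[X]) - ∑ s, W s * Y s) _ (Nat.lt_succ_self _), map_sum]
    refine Submodule.sum_mem _ fun i _ => ?_
    rw [← C_mul_X_pow_eq_monomial, ← smul_eq_C_mul]
    have h3 : (Ideal.Quotient.mk I) (((1 : R[X]) - ∑ s, W s * Y s).coeff i • (X ^ i : R[X]))
        = ((1 : R[X]) - ∑ s, W s * Y s).coeff i • (Ideal.Quotient.mk I) (X ^ i : R[X]) := rfl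
    rw [h3]
    exact Submodule.smul_mem_smul (hmax i) Submodule.mem_top
  have htop : (⊤ : Submodule R (R[X] ⧸ I)) ≤
      (IsLocalRing.maximalIdeal R) • (⊤ : Submodule R (R[X] ⧸ I)) := by
    rintro x -
    obtain ⟨P, rfl⟩ := Ideal.Quotient.mk_surjective x
    -- multiplication by `P` is `R`-linear
    let φ : (R[X] ⧸ I) →ₗ[R] (R[X] ⧸ I) := LinearMap.mulLeft R ((Ideal.Quotient.mk I) P)
    have h2 : φ 1 = (Ideal.Quotient.mk I) P := by simp [φ]
    rw [← h2]
    have h3 := Submodule.mem_map_of_mem (f := φ) h1mem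
    rw [Submodule.map_smul''] at h3
    exact Submodule.smul_mono le_rfl le_top h3
  have hbot := Submodule.eq_bot_of_le_smul_of_le_jacobson_bot (IsLocalRing.maximalIdeal R)
    (⊤ : Submodule R (R[X] ⧸ I)) hfin'.fg_top htop (IsLocalRing.maximalIdeal_le_jacobson _)
  have h1 : (1 : R[X] ⧸ I) ∈ (⊥ : Submodule R (R[X] ⧸ I)) := by
    rw [← hbot]
    exact Submodule.mem_top
  rw [Submodule.mem_bot] at h1
  exact Ideal.Quotient.eq_zero_iff_mem.1 h1

end Pool.Agent.Work.RC
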