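import Mathlib
import Pool.Agent.Work.MP_4329d7_ag_rc.CopRed

/-!
Auxiliary statements for the splitting.
-/

namespace Pool.Agent.Work.RC

namespace SplitAux

open MvPolynomial in
/-- the coefficients of `Q(ε θ)` -/
theorem coeff_eval₂_smul {k F σ : Type} [Field k] [Field F] [Algebra k F] (θ : σ → F)
    (Q : MvPolynomial σ k) (r : ℕ) :
    PowerSeries.coeff r (eval₂ ((PowerSeries.C (R := F)).comp (algebraMap k F))
      (fun j => PowerSeries.X * PowerSeries.C (θ j)) Q) =
      aeval θ (homogeneousComponent r Q) := by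
  classical
  rw [eval₂_eq, homogeneousComponent_apply, map_sum, map_sum, Finset.sum_filter]
  refine Finset.sum_congr rfl fun d _ => ?_
  have h1 : ∏ i ∈ d.support, (PowerSeries.X * PowerSeries.C (θ i)) ^ d i =
      (PowerSeries.X : PowerSeries F) ^ (Finsupp.degree d) *
        PowerSeries.C (d.prod fun i k => θ i ^ k) := by
    simp only [mul_pow, Finset.prod_mul_distrib, Finset.prod_pow_eq_pow_sum]
    rw [Finsupp.prod, map_prod]
    simp only [map_pow]
    rfl
  rw [h1, RingHom.comp_apply, PowerSeries.coeff_C_mul, PowerSeries.coeff_X_pow_mul']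
  split_ifs with h2 h3 h3
  · rw [aeval_monomial, h3, Nat.sub_self, PowerSeries.coeff_zero_eq_constantCoeff_apply,
      PowerSeries.constantCoeff_C]
  · rw [PowerSeries.coeff_C, if_neg (by omega), mul_zero]
  · omega
  · rw [mul_zero]

open MvPolynomial in
/-- `ε θ` is algebraically independent -/
theorem eval₂_smul_ne {k F σ : Type} [Field k] [Field F] [Algebra k F] (θ : σ → F)
    (hθ : AlgebraicIndependent k θ) (Q : MvPolynomial σ k)
    (h : eval₂ ((PowerSeries.C (R := F)).comp (algebraMap k F))
      (fun j => PowerSeries.X * PowerSeries.C (θ j)) Q = 0) : Q = 0 := by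
  rw [← sum_homogeneousComponent Q]
  refine Finset.sum_eq_zero fun r _ => ?_
  refine (algebraicIndependent_iff.1 hθ) _ ?_
  rw [← coeff_eval₂_smul, h, map_zero]

open MvPolynomial in
/-- `w₀ + ε θ` is algebraically independent -/
theorem eval₂_shift_ne {k F σ : Type} [Field k] [Field F] [Algebra k F] (w₀ : σ → k) (θ : σ → F)
    (hθ : AlgebraicIndependent k θ) (Q : MvPolynomial σ k)
    (h : eval₂ ((PowerSeries.C (R := F)).comp (algebraMap k F))
      (fun j => PowerSeries.C (algebraMap k F (w₀ j)) + PowerSeries.X * PowerSeries.C (θ j)) Q = 0) :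
    Q = 0 := by
  set Q' : MvPolynomial σ k := aeval (fun j => X j + C (w₀ j)) Q with hQ'
  have h1 : eval₂ ((PowerSeries.C (R := F)).comp (algebraMap k F))
      (fun j => PowerSeries.X * PowerSeries.C (θ j)) Q' = 0 := by
    rw [← h, hQ', aeval_def, ← coe_eval₂Hom, ← coe_eval₂Hom, ← coe_eval₂Hom, ← RingHom.comp_apply]
    congr 1
    ext j
    · simp
    · simp [add_comm]
  have h2 := eval₂_smul_ne θ hθ Q' h1
  have h3 : aeval (fun j => X j - C (w₀ j)) Q' = Q := by
    rw [hQ', ← AlgHom.comp_apply]
    conv_rhs => rw [← AlgHom.id_apply (R := k) Q]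
    congr 1
    ext j
    simp
  rw [← h3, h2, map_zero]

end SplitAux

open Polynomial

/-- `x ∈ k` algebraically independent over `ℂ`, `w₀ ∈ k`, `θ` algebraically independent over `k`
(in `F`): then `x`, `w₀ + ε θ` (and `ε θ'`, the case `w₀ = 0`) are algebraically independent over
`ℂ` in every field containing `F⟦ε⟧`.  Proof: a polynomial `Q ≠ 0` over `k` with `Q(w₀ + ε θ) = 0`:
put `Q' (Z) = Q(w₀ + Z)`; the coefficient of `ε^r` in `Q'(ε θ)` is the homogeneous component of
degree `r` of `Q'` at `θ`. -/
theorem ai_shift {k F M σ ι : Type} [Field k] [Algebra ℂ k] [Field F] [Algebra k F] [Field M]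
    [Algebra ℂ M] (f : PowerSeries F →+* M) (hf : Function.Injective f)
    (hfC : ∀ z : ℂ, f (PowerSeries.C (algebraMap k F (algebraMap ℂ k z))) = algebraMap ℂ M z)
    (x : ι → k) (hx : AlgebraicIndependent ℂ x) (w₀ : σ → k) (θ : σ → F)
    (hθ : AlgebraicIndependent k θ) :
    AlgebraicIndependent ℂ (Sum.elim (fun i => f (PowerSeries.C (algebraMap k F (x i))))
      (fun j => f (PowerSeries.C (algebraMap k F (w₀ j)) +
        PowerSeries.X * PowerSeries.C (θ j)))) := by
  let _ : Algebra k M := (f.comp ((PowerSeries.C (R := F)).comp (algebraMap k F))).toAlgebra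
  have hal : ∀ z : k, algebraMap k M z = f (PowerSeries.C (algebraMap k F z)) := fun z => rfl
  have : IsScalarTower ℂ k M := IsScalarTower.of_algebraMap_eq fun z => by rw [hal, hfC]
  have hy : AlgebraicIndependent k (fun j => f (PowerSeries.C (algebraMap k F (w₀ j)) +
        PowerSeries.X * PowerSeries.C (θ j))) := by
    rw [algebraicIndependent_iff]
    intro Q hQ
    refine SplitAux.eval₂_shift_ne w₀ θ hθ Q (hf ?_)
    rw [map_zero, ← hQ, MvPolynomial.aeval_def, MvPolynomial.hom_eval₂]
    rfl
  have h1 := hx.sumElim_comp hy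
  have h2 := h1.comp Sum.swap Sum.swap_leftInverse.injective
  convert h2 using 1
  funext s
  rcases s with s | s <;> rfl

end Pool.Agent.Work.RC
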