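import Mathlib
import Pool.Agent.Work.MP_4329d7_ag_rc.Pow
import Pool.Agent.Work.MP_4329d7_ag_rc.IftFree
import Pool.Agent.Work.MP_4329d7_ag_rc.Deform
import Pool.Agent.Work.MP_4329d7_ag_rc.SplitAux
import Pool.Agent.Work.MP_4329d7_ag_rc.SplitAi

/-!
Splitting of the root `0` of a curve.  From `c : Cv A k x` (`k` algebraically closed) we construct a
curve `c'` of degree `N m` over `k'` = the algebraic closure of the fraction field of `R = F⟦ε⟧`,
`F = k(θ)`, with `Y' = Y(X ^ N)` modulo `ε`:
`F_e(Y') = F_e(x) ∏_(old) (X - T_(i,l))^(β i e) ∏_(l < b₀ e) (X - ε θ_(e,l)) ^ N`.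

Unknowns (`ift_free`): the values of `Y'` at the constants `a j = j + 1` (Lagrange; the coefficient
of `X^(N m)` is `x`) and the roots `T`; equations: the coefficients of degree `< d_e N m`.  The
Jacobian modulo `ε` is onto by `pow_free`.  Prescribed: `w_j = w₀_j + ε θ_j` for `j ∈ S₀`; the free
parameters of `c'` are `S₀` and the new roots.  `x`, `w_j` (`j ∈ S₀`), `ε θ_(e,l)` are algebraically
independent: a polynomial `Q ≠ 0` over `k` with `Q(w₀ + ε θ, ε θ) = 0`: look at the coefficients of
the powers of `ε`.  `cop`: the ideal of the `Y'` in `R[X]` is everything: a maximal ideal over it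
contains `ε` (integrality: `Y'_0` has a unit as top coefficient) and `Y(X^N)` is coprime.
Distinctness of the roots: modulo `ε`, and for the new ones by the `θ`.
-/

namespace Pool.Agent.Work.RC

open Polynomial
open Pool.Agent.Work.Uni (rootPoly)

variable {n : ℕ} {E : Type} [Fintype E] [DecidableEq E] {A : Arr n E}

/-- the result of the splitting construction -/
structure SplitData (A : Arr n E) {k : Type} [Field k] [Algebra ℂ k] {x : Fin (n + 1) → k}
    (c : Cv A k x) : Type 1 where
  /-- the local ring -/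
  R : Type
  [cR : CommRing R]
  [dR : IsDomain R]
  [aR : Algebra ℂ R]
  /-- the big field -/
  k' : Type
  [fk' : Field k']
  [ck' : IsAlgClosed k']
  [ak' : Algebra ℂ k']
  [aRk' : Algebra R k']
  [tower : IsScalarTower ℂ R k']
  /-- the residue field -/
  κ : Type
  [fκ : Field κ]
  [aκ : Algebra ℂ κ]
  /-- the inclusion of the old field in the residue field -/
  j : k →ₐ[ℂ] κ
  /-- the residue map -/
  ρ : R →ₐ[ℂ] κ
  xR : Fin (n + 1) → R
  YR : Fin (n + 1) → R[X]
  c' : Cv A k' (fun s => algebraMap R k' (xR s))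
  a : Fin c'.m → ℂ
  S : Set ((Fin (n + 1) × Fin c'.m) ⊕ c'.ι)
  inj : Function.Injective (algebraMap R k')
  unit_iff : ∀ r, IsUnit r ↔ ρ r ≠ 0
  x_red : ∀ s, ρ (xR s) = j (x s)
  Y_map : ∀ s, c'.Y s = (YR s).map (algebraMap R k')
  Y_red : ∀ s, (YR s).map (ρ : R →+* κ) = ((c.Y s).comp (X ^ A.N)).map (j : k →+* κ)
  m_eq : c'.m = A.N * c.m
  Y_deg : ∀ s, (YR s).natDegree ≤ c'.m
  Y_lead : ∀ s, (YR s).coeff c'.m = xR s
  rig : Rig c' a S
  a_ne : ∀ l, a l ≠ 0
  t_cases : ∀ i, (∃ r : R, IsUnit r ∧ c'.t i = algebraMap R k' r) ∨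
    (Sum.inr i ∈ S ∧ ∃ e₁, ∀ e, e ≠ e₁ → c'.β i e = 0)

attribute [instance] SplitData.cR SplitData.dR SplitData.aR SplitData.fk' SplitData.ck'
  SplitData.ak' SplitData.aRk' SplitData.tower SplitData.fκ SplitData.aκ

theorem rootPoly_sum {ι₁ ι₂ E R : Type} [Fintype ι₁] [Fintype ι₂] [CommRing R]
    (β : ι₁ → E → ℕ) (γ : ι₂ → E → ℕ) (t : ι₁ ⊕ ι₂ → R) (e : E) :
    rootPoly (Sum.elim β γ) t e =
      rootPoly γ (fun l => t (Sum.inr l)) e * rootPoly β (fun i => t (Sum.inl i)) e := by
  unfold rootPoly
  rw [Fintype.prod_sum_type, mul_comm]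
  rfl

theorem uD_sum {ι₁ ι₂ E R : Type} [Fintype ι₁] [Fintype ι₂] [CommRing R]
    (β : ι₁ → E → ℕ) (γ : ι₂ → E → ℕ) (t : ι₁ ⊕ ι₂ → R) (e : E) (i : ι₁) :
    uD (Sum.elim β γ) t e (Sum.inl i) =
      rootPoly γ (fun l => t (Sum.inr l)) e * uD β (fun i => t (Sum.inl i)) e i := by
  classical
  rw [uD_eq, uD_eq, mul_comm (∏ i' ∈ _, _), mul_comm (∏ i' ∈ Finset.univ.erase i, _)]
  unfold rootPoly
  have h1 : ∏ i' ∈ (Finset.univ : Finset (ι₁ ⊕ ι₂)).erase (Sum.inl i),
      (X - C (t i')) ^ Sum.elim β γ i' e =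
      (∏ l, (X - C (t (Sum.inr l))) ^ γ l e) *
        ∏ i' ∈ Finset.univ.erase i, (X - C (t (Sum.inl i'))) ^ β i' e := by
    have h2 : (Finset.univ : Finset (ι₁ ⊕ ι₂)).erase (Sum.inl i) =
        (Finset.univ.erase i).disjSum Finset.univ := by
      ext j
      rcases j with j | j
      · simp
      · simp
    rw [h2, Finset.prod_disjSum, mul_comm]
    rfl
  have h3 : ∏ i' ∈ (Finset.univ : Finset (ι₁ ⊕ ι₂)).erase (Sum.inl i),
      (X - C (t i')) ^ Sum.elim β γ i' e =
      (∏ l, (X - C (t (Sum.inr l))) ^ γ l e) *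
        ∏ i' ∈ Finset.univ.erase i, (X - C (t (Sum.inl i'))) ^ β i' e := h1
  rw [h3]
  simp only [Sum.elim_inl]
  rw [mul_left_comm]

theorem aeval_expand {k : Type} [Field k] [Algebra ℂ k] (N : ℕ)
    (G : MvPolynomial (Fin (n + 1)) ℂ) (Y : Fin (n + 1) → k[X]) :
    MvPolynomial.aeval (fun s => (Y s).comp (X ^ N)) G =
      (MvPolynomial.aeval Y G).comp (X ^ N) := by
  have h1 : ∀ p : k[X], p.comp (X ^ N) = ((expand k N).restrictScalars ℂ) p := fun p =>
    (expand_eq_comp_X_pow (R := k) N (f := p)).symm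
  have h2 : (fun s => (Y s).comp (X ^ N)) = fun s => ((expand k N).restrictScalars ℂ) (Y s) :=
    funext fun s => h1 _
  rw [h2, h1, ← AlgHom.comp_apply, MvPolynomial.comp_aeval]

/-- the Jacobian at `Y(X ^ N)` is onto over every extension field -/
theorem pow_free_ext (hA : A.Ok) {k : Type} [Field k] [Algebra ℂ k]
    {x : Fin (n + 1) → k} (hx : AlgebraicIndependent ℂ x) (c : Cv A k x) (N : ℕ) (hN : 0 < N)
    (s : {i : c.ι // c.t i ≠ 0} × Fin N → k)
    (hs : ∀ i, ∏ l, (X - C (s (i, l))) = X ^ N - C (c.t i.1)) (hinj : Function.Injective s)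
    {F : Type} [Field F] [Algebra ℂ F] (f : k →ₐ[ℂ] F)
    (P : E → F[X]) (hP : ∀ e, (P e).degree < (A.d e * (N * c.m) : ℕ)) :
    ∃ (Z : Fin (n + 1) → F[X]) (δ : {i : c.ι // c.t i ≠ 0} × Fin N → F),
      (∀ j, (Z j).degree < (N * c.m : ℕ)) ∧
      ∀ e, JacW A.F (fun s => f (x s)) (fun e => X ^ (N * c.b₀ e)) (c.βN N) (fun i => f (s i))
        (fun j => ((c.Y j).comp (X ^ N)).map (f : k →+* F)) Z δ e = P e := by
  classical
  have h1 : ∀ q : Σ e, Fin (A.d e * (N * c.m)), ∃ (Z : Fin (n + 1) → k[X])
      (δ : {i : c.ι // c.t i ≠ 0} × Fin N → k), (∀ j, (Z j).degree < (N * c.m : ℕ)) ∧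
      ∀ e, JacW A.F x (fun e => X ^ (N * c.b₀ e)) (c.βN N) s (fun j => (c.Y j).comp (X ^ N)) Z δ e
        = if e = q.1 then X ^ (q.2 : ℕ) else 0 := by
    intro q
    refine pow_free hA hx c N hN s hs hinj _ fun e => ?_
    split_ifs with he
    · subst he
      rw [degree_X_pow]
      exact_mod_cast q.2.2
    · rw [degree_zero]
      exact WithBot.bot_lt_coe _
  choose Z δ hZ hδ using h1
  refine ⟨fun j => ∑ q : Σ e, Fin (A.d e * (N * c.m)), C ((P q.1).coeff q.2) *
      (Z q j).map (f : k →+* F), fun i => ∑ q : Σ e, Fin (A.d e * (N * c.m)),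
      (P q.1).coeff q.2 * f (δ q i), fun j => ?_, fun e => ?_⟩
  · refine mem_degreeLT.1 (Submodule.sum_mem _ fun q _ => ?_)
    rw [← smul_eq_C_mul]
    exact Submodule.smul_mem _ _ (mem_degreeLT.2 (lt_of_le_of_lt degree_map_le (hZ q j)))
  · rw [← JacW_sum]
    have h2 : ∀ q : Σ e, Fin (A.d e * (N * c.m)),
        JacW A.F (fun s => f (x s)) (fun e => X ^ (N * c.b₀ e)) (c.βN N) (fun i => f (s i))
          (fun j => ((c.Y j).comp (X ^ N)).map (f : k →+* F))
          (fun j => (Z q j).map (f : k →+* F)) (fun i => f (δ q i)) e =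
        if e = q.1 then X ^ (q.2 : ℕ) else 0 := by
      intro q
      have h3 := congrArg (Polynomial.map (f : k →+* F)) (hδ q e)
      rw [JacW_map] at h3
      have h4 : (fun e : E => ((X : k[X]) ^ (N * c.b₀ e)).map (f : k →+* F)) =
          fun e => X ^ (N * c.b₀ e) := by
        funext e
        rw [Polynomial.map_pow, map_X]
      rw [h4] at h3
      rw [h3]
      split_ifs
      · rw [Polynomial.map_pow, map_X]
      · exact Polynomial.map_zero _
    rw [Finset.sum_congr rfl fun q _ => by rw [h2 q], Fintype.sum_sigma,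
      Finset.sum_eq_single e]
    · simp only [if_true]
      refine Polynomial.ext fun r => ?_
      rw [finsetSum_coeff]
      by_cases hr : r < A.d e * (N * c.m)
      · rw [Finset.sum_eq_single ⟨r, hr⟩]
        · rw [coeff_C_mul, coeff_X_pow, if_pos rfl, mul_one]
        · intro i _ hi
          rw [coeff_C_mul, coeff_X_pow, if_neg, mul_zero]
          intro h6
          exact hi (Fin.ext h6.symm)
        · intro h6
          exact absurd (Finset.mem_univ _) h6
      · rw [coeff_eq_zero_of_degree_lt (lt_of_lt_of_le (hP e) (by exact_mod_cast not_lt.1 hr))]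
        refine Finset.sum_eq_zero fun i _ => ?_
        rw [coeff_C_mul, coeff_X_pow, if_neg, mul_zero]
        have := i.2
        omega
    · intro e' _ he'
      refine Finset.sum_eq_zero fun i _ => ?_
      rw [if_neg (fun h => he' h.symm), mul_zero]
    · intro h6
      exact absurd (Finset.mem_univ _) h6

set_option maxHeartbeats 4000000 in
theorem split_core (hA : A.Ok) {k : Type} [Field k] [Algebra ℂ k]
    {x : Fin (n + 1) → k} (hx : AlgebraicIndependent ℂ x) (c : Cv A k x)
    (s : {i : c.ι // c.t i ≠ 0} × Fin A.N → k)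
    (hs : ∀ i, ∏ l, (X - C (s (i, l))) = X ^ A.N - C (c.t i.1)) (hinj : Function.Injective s)
    (hs0 : ∀ i, s i ≠ 0)
    {F : Type} [Field F] [Algebra ℂ F] [Algebra k F] [IsScalarTower ℂ k F] (M : ℕ)
    (hM : M = A.N * c.m)
    (θ : (Fin (n + 1) × Fin M) ⊕
      (({i : c.ι // c.t i ≠ 0} × Fin A.N) ⊕ (Σ e, Fin (c.b₀ e))) → F)
    (hθ : AlgebraicIndependent k θ)
    {k' : Type} [Field k'] [IsAlgClosed k'] [Algebra ℂ k'] [Algebra (PowerSeries F) k']
    [IsScalarTower ℂ (PowerSeries F) k']
    (hk' : Function.Injective (algebraMap (PowerSeries F) k')) : Nonempty (SplitData A c) := by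
  classical
  have hN := hA.N_pos
  set f : k →ₐ[ℂ] F := IsScalarTower.toAlgHom ℂ k F with hf
  set a : Fin M → ℂ := fun j => (j : ℂ) + 1 with ha
  have hainj : Function.Injective a := by
    intro i j hij
    rw [ha] at hij
    simp only [add_left_inj, Nat.cast_inj] at hij
    exact Fin.ext hij
  set Y₀ : Fin (n + 1) → F[X] := fun s => ((c.Y s).comp (X ^ A.N)).map (f : k →+* F) with hY₀
  set p : (Σ e, Fin (c.b₀ e)) → PowerSeries F := fun l =>
    PowerSeries.X * PowerSeries.C (θ (Sum.inr (Sum.inr l))) with hp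
  have hp0 : ∀ l, PowerSeries.constantCoeff (p l) = 0 := by
    intro l
    rw [hp]
    simp
  have hY₀deg : ∀ s, (Y₀ s).natDegree ≤ M := by
    intro s
    refine natDegree_map_le.trans ?_
    rw [natDegree_comp, natDegree_X_pow, hM, mul_comm]
    exact Nat.mul_le_mul_left _ (c.deg s)
  have hY₀lead : ∀ s, (Y₀ s).coeff M = f (x s) := by
    intro s
    rw [hY₀]
    simp only [coeff_map]
    rw [← expand_eq_comp_X_pow, hM, mul_comm, coeff_expand_mul hN, c.lead]
    rfl
  have hrp0 : ∀ e, rootPoly (c.γN A.N) (fun l => PowerSeries.constantCoeff (p l)) e =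
      (X : F[X]) ^ (A.N * c.b₀ e) := by
    intro e
    have h1 : (fun l => PowerSeries.constantCoeff (p l)) = fun _ => (0 : F) := funext hp0
    rw [h1, Cv.rootPoly_γN]
  obtain ⟨S₀, hS₀⟩ := deform A.F A.d hA.hom (fun s => f (x s)) M a hainj (c.βN A.N) (c.γN A.N)
    (fun e => by rw [hM]; exact Cv.sum_blocks hA hx c A.N e) Y₀ hY₀deg hY₀lead (fun i => f (s i)) p (by
      intro e
      rw [hrp0]
      have h1 : MvPolynomial.aeval Y₀ (A.F e) =
          ((MvPolynomial.aeval c.Y (A.F e)).comp (X ^ A.N)).map (f : k →+* F) := by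
        rw [← aeval_expand, aeval_map']
      rw [h1, c.eqn e, mul_comp, C_comp, rootPoly_comp_pow c A.N s hs, Polynomial.map_mul,
        Polynomial.map_mul, map_C, Polynomial.map_pow, map_X, rootPoly_map]
      have h2 := aeval_pt (A.F e) x f
      rw [← h2]
      rfl) (by
      intro P hP
      obtain ⟨Z, δ, hZ, hδ⟩ := pow_free_ext hA hx c A.N hN s hs hinj f P (by rwa [← hM])
      refine ⟨Z, δ, by rwa [hM], fun e => ?_⟩
      have h1 : rootPoly (c.γN A.N) (fun l => PowerSeries.constantCoeff (p l)) =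
          fun e => (X : F[X]) ^ (A.N * c.b₀ e) := funext hrp0
      rw [h1]
      exact hδ e)
  -- the prescribed values
  set w₀ : (Fin (n + 1) × Fin M) ⊕ (({i : c.ι // c.t i ≠ 0} × Fin A.N) ⊕ (Σ e, Fin (c.b₀ e))) →
      k := Sum.elim (fun q => ((c.Y q.1).comp (X ^ A.N)).eval (algebraMap ℂ k (a q.2)))
        (Sum.elim s 0) with hw₀
  set Θ : (Fin (n + 1) × Fin M) ⊕ (({i : c.ι // c.t i ≠ 0} × Fin A.N) ⊕ (Σ e, Fin (c.b₀ e))) →
      PowerSeries F := fun j => PowerSeries.C (f (w₀ j)) + PowerSeries.X * PowerSeries.C (θ j)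
    with hΘ
  have hΘc : ∀ j, PowerSeries.constantCoeff (Θ j) = f (w₀ j) := by
    intro j
    rw [hΘ]
    simp
  obtain ⟨Y, t, hYdeg, hYlead, hYred, htred, hYS, htS, heqn, hker⟩ :=
    hS₀ (Sum.elim (fun q => Θ (Sum.inl q)) (fun i => Θ (Sum.inr (Sum.inl i)))) (by
      intro s' j
      rw [Sum.elim_inl, hΘc, hw₀, Sum.elim_inl, hY₀]
      simp only
      rw [eval_map]
      have h1 : algebraMap ℂ F (a j) = (f : k →+* F) (algebraMap ℂ k (a j)) :=
        (f.commutes (a j)).symm
      rw [h1, eval₂_at_apply]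
      rfl) (by
      intro i
      rw [Sum.elim_inr, hΘc, hw₀, Sum.elim_inr, Sum.elim_inl])
  set g : PowerSeries F →ₐ[ℂ] k' := IsScalarTower.toAlgHom ℂ (PowerSeries F) k' with hg
  have hg' : ∀ r, g r = algebraMap (PowerSeries F) k' r := fun r => rfl
  have hgi : Function.Injective g := hk'
  set T : ({i : c.ι // c.t i ≠ 0} × Fin A.N) ⊕ (Σ e, Fin (c.b₀ e)) → PowerSeries F :=
    Sum.elim t p with hT
  have hTinj : Function.Injective T := by
    rintro (i | l) (i' | l') h
    · rw [hT, Sum.elim_inl, Sum.elim_inl] at h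
      have h1 := congrArg PowerSeries.constantCoeff h
      rw [htred, htred] at h1
      rw [hinj (f.injective h1)]
    · rw [hT, Sum.elim_inl, Sum.elim_inr] at h
      have h1 := congrArg PowerSeries.constantCoeff h
      rw [htred, hp0, map_eq_zero_iff f f.injective] at h1
      exact absurd h1 (hs0 i)
    · rw [hT, Sum.elim_inl, Sum.elim_inr] at h
      have h1 := congrArg PowerSeries.constantCoeff h
      rw [htred, hp0, eq_comm, map_eq_zero_iff f f.injective] at h1
      exact absurd h1 (hs0 i')
    · rw [hT, Sum.elim_inr, Sum.elim_inr] at h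
      have h1 : PowerSeries.C (θ (Sum.inr (Sum.inr l))) =
          PowerSeries.C (θ (Sum.inr (Sum.inr l'))) :=
        mul_left_cancel₀ PowerSeries.X_ne_zero h
      have h2 := congrArg PowerSeries.constantCoeff h1
      rw [PowerSeries.constantCoeff_C, PowerSeries.constantCoeff_C] at h2
      exact Sum.inr.inj (hθ.injective h2)
  have hunit : ∀ r : PowerSeries F, IsUnit r ↔ PowerSeries.constantCoeff r ≠ 0 := by
    intro r
    rw [PowerSeries.isUnit_iff_constantCoeff, isUnit_iff_ne_zero]
  have hcop : ∃ V : Fin (n + 1) → (PowerSeries F)[X], ∑ s, V s * Y s = 1 := by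
    obtain ⟨V, hV⟩ := c.cop
    refine cop_of_red (PowerSeries.constantCoeff (R := F)) PowerSeries.constantCoeff_surj hunit Y 0
      ?_ (fun s => ((V s).comp (X ^ A.N)).map (f : k →+* F)) ?_
    · have h1 : (Y 0).natDegree = M := by
        refine le_antisymm (hYdeg 0) (le_natDegree_of_ne_zero ?_)
        rw [hYlead]
        intro h2
        have h3 := congrArg PowerSeries.constantCoeff h2
        rw [PowerSeries.constantCoeff_C, map_zero, map_eq_zero_iff f f.injective] at h3
        exact hx.ne_zero 0 h3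
      rw [leadingCoeff, h1, hYlead, hunit, PowerSeries.constantCoeff_C]
      intro h3
      rw [map_eq_zero_iff f f.injective] at h3
      exact hx.ne_zero 0 h3
    · have h1 : ∀ s, ((V s).comp (X ^ A.N)).map (f : k →+* F) *
          (Y s).map PowerSeries.constantCoeff = ((V s * c.Y s).comp (X ^ A.N)).map
            (f : k →+* F) := by
        intro s
        rw [hYred, hY₀, mul_comp, Polynomial.map_mul]
      have h2 : ∑ s, (V s * c.Y s).comp (X ^ A.N) = 1 := by
        have h3 := congrArg (compRingHom (X ^ A.N : k[X])) hV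
        rw [map_sum, map_one] at h3
        exact h3
      rw [Finset.sum_congr rfl fun s _ => h1 s, ← Polynomial.map_sum, h2, Polynomial.map_one]
  have heqT : ∀ e, MvPolynomial.aeval (fun s => (Y s).map (g : PowerSeries F →+* k')) (A.F e) =
      C (MvPolynomial.aeval (fun s => g (PowerSeries.C (f (x s)))) (A.F e)) *
        rootPoly (Sum.elim (c.βN A.N) (c.γN A.N)) (fun i => g (T i)) e := by
    intro e
    rw [← aeval_map', heqn e, Polynomial.map_mul, Polynomial.map_mul, map_C, rootPoly_map,
      rootPoly_map, rootPoly_sum, ← aeval_pt]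
    rfl
  let c' : Cv A k' (fun s => algebraMap (PowerSeries F) k' (PowerSeries.C (f (x s)))) :=
    { m := M
      ι := ({i : c.ι // c.t i ≠ 0} × Fin A.N) ⊕ (Σ e, Fin (c.b₀ e))
      β := Sum.elim (c.βN A.N) (c.γN A.N)
      t := fun i => g (T i)
      Y := fun s => (Y s).map (algebraMap (PowerSeries F) k')
      m_pos := hM ▸ Nat.mul_pos hN c.m_pos
      mem := by
        rintro (i | l)
        · exact c.mem i.1.1
        · exact Cv.γN_mem hA c l
      inj := hgi.comp hTinj
      deg := fun s => natDegree_map_le.trans (hYdeg s)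
      lead := fun s => by rw [coeff_map, hYlead]
      cop := by
        obtain ⟨V, hV⟩ := hcop
        refine ⟨fun s => (V s).map (algebraMap (PowerSeries F) k'), ?_⟩
        rw [← Polynomial.map_one (algebraMap (PowerSeries F) k'), ← hV, Polynomial.map_sum]
        exact Finset.sum_congr rfl fun s _ => (Polynomial.map_mul _).symm
      eqn := heqT }
  set S : Set ((Fin (n + 1) × Fin M) ⊕
      (({i : c.ι // c.t i ≠ 0} × Fin A.N) ⊕ (Σ e, Fin (c.b₀ e)))) :=
    {j | Sum.elim (fun q => Sum.inl q ∈ S₀)
      (Sum.elim (fun i => Sum.inr i ∈ S₀) (fun _ => True)) j} with hS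
  have hrig : Rig c' a S := by
    refine ⟨hainj, ?_, ?_⟩
    · -- algebraic independence
      have h1 := ai_shift (k := k) (F := F) (algebraMap (PowerSeries F) k') hk' (by
        intro z
        have h2 : algebraMap k F (algebraMap ℂ k z) = algebraMap ℂ F z :=
          (IsScalarTower.algebraMap_apply ℂ k F z).symm
        rw [h2]
        have h3 : (PowerSeries.C (algebraMap ℂ F z) : PowerSeries F) =
            algebraMap ℂ (PowerSeries F) z := by rw [PowerSeries.algebraMap_apply]
        rw [h3, ← IsScalarTower.algebraMap_apply]) x hx (fun j : S => w₀ j.1)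
        (fun j : S => θ j.1) (hθ.comp _ Subtype.val_injective)
      have h2 : (Sum.elim (fun i => algebraMap (PowerSeries F) k' (PowerSeries.C (f (x i))))
          (fun j : S => c'.par a j.1)) = Sum.elim
          (fun i => algebraMap (PowerSeries F) k' (PowerSeries.C (algebraMap k F (x i))))
          (fun j : S => algebraMap (PowerSeries F) k' (PowerSeries.C (algebraMap k F (w₀ j.1)) +
            PowerSeries.X * PowerSeries.C (θ j.1))) := by
        funext j
        rcases j with i | ⟨j, hj⟩
        · rfl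
        · rw [Sum.elim_inr, Sum.elim_inr]
          rcases j with ⟨s', j⟩ | i | l
          · have h3 := hYS s' j hj
            rw [Sum.elim_inl] at h3
            change ((Y s').map (algebraMap (PowerSeries F) k')).eval (algebraMap ℂ k' (a j)) = _
            rw [IsScalarTower.algebraMap_apply ℂ (PowerSeries F) k', eval_map, eval₂_at_apply, h3]
            rfl
          · have h3 := htS i hj
            rw [Sum.elim_inr] at h3
            change algebraMap (PowerSeries F) k' (t i) = _
            rw [h3]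
            rfl
          · change algebraMap (PowerSeries F) k' (p l) = _
            congr 1
            change PowerSeries.X * PowerSeries.C (θ (Sum.inr (Sum.inr l))) =
              PowerSeries.C (algebraMap k F 0) + PowerSeries.X *
                PowerSeries.C (θ (Sum.inr (Sum.inr l)))
            rw [map_zero, map_zero, zero_add]
      exact h2 ▸ h1
    · intro Z δ hZ hJ hZS hδS
      have hδΛ : ∀ l, δ (Sum.inr l) = 0 := fun l => hδS _ trivial
      have h1 := hker k' g hgi Z (fun i => δ (Sum.inl i)) hZ (fun s' j hj => hZS s' j hj)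
        (fun i hi => hδS _ hi) (by
        intro e
        have h2 : c'.Jac Z δ e = 0 := hJ e
        rw [← h2]
        change JacW A.F _ _ (c.βN A.N) _ _ Z _ e = JacW A.F _ 1 (Sum.elim (c.βN A.N) (c.γN A.N))
          (fun i => g (T i)) _ Z δ e
        unfold JacW
        refine congrArg₂ (· + ·) rfl ?_
        rw [Pi.one_apply, mul_one, Fintype.sum_sum_type, mul_assoc, Finset.mul_sum]
        have h3 : ∑ l, C (δ (Sum.inr l)) * uD (Sum.elim (c.βN A.N) (c.γN A.N))
            (fun i => g (T i)) e (Sum.inr l) = 0 :=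
          Finset.sum_eq_zero fun l _ => by rw [hδΛ, C_0, zero_mul]
        rw [h3, add_zero]
        refine congrArg₂ (· * ·) rfl (Finset.sum_congr rfl fun i _ => ?_)
        have h4 : (rootPoly (c.γN A.N) p e).map (g : PowerSeries F →+* k') =
            rootPoly (c.γN A.N) (fun l => g (T (Sum.inr l))) e := rootPoly_map _ _ _ _
        rw [uD_sum, ← h4, mul_left_comm]
        rfl)
      refine ⟨h1.1, funext fun i => ?_⟩
      rcases i with i | l
      · exact congrFun h1.2 i
      · exact hδΛ l
  refine ⟨{ R := PowerSeries F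
            k' := k'
            κ := F
            j := f
            ρ := ccA F
            xR := fun s => PowerSeries.C (f (x s))
            YR := Y
            c' := c'
            a := a
            S := S
            inj := hk'
            unit_iff := hunit
            x_red := fun s => PowerSeries.constantCoeff_C _
            Y_map := fun s => rfl
            Y_red := fun s => hYred s
            m_eq := hM
            Y_deg := hYdeg
            Y_lead := hYlead
            rig := hrig
            a_ne := fun l => ?_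
            t_cases := ?_ }⟩
  · exact Nat.cast_add_one_ne_zero (Fin.val (n := M) l)
  · rintro (i | l)
    · left
      refine ⟨t i, (hunit _).2 ?_, rfl⟩
      rw [htred, Ne, map_eq_zero_iff f f.injective]
      exact hs0 i
    · right
      refine ⟨trivial, l.1, fun e he => ?_⟩
      exact if_neg he

theorem exists_split (hA : A.Ok) {k : Type} [Field k] [Algebra ℂ k] [IsAlgClosed k]
    {x : Fin (n + 1) → k} (hx : AlgebraicIndependent ℂ x) (c : Cv A k x) :
    Nonempty (SplitData A c) := by
  obtain ⟨s, hs, hinj, -, hs0⟩ := exists_pow_roots c A.N hA.N_pos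
  let σ := (Fin (n + 1) × Fin (A.N * c.m)) ⊕
    (({i : c.ι // c.t i ≠ 0} × Fin A.N) ⊕ (Σ e, Fin (c.b₀ e)))
  let F := FractionRing (MvPolynomial σ k)
  let θ : σ → F := fun j => algebraMap (MvPolynomial σ k) F (MvPolynomial.X j)
  have hθ : AlgebraicIndependent k θ := by
    have h1 : AlgebraicIndependent k (MvPolynomial.X : σ → MvPolynomial σ k) :=
      MvPolynomial.algebraicIndependent_X σ k
    exact h1.map' (f := IsScalarTower.toAlgHom k (MvPolynomial σ k) F)
      (IsFractionRing.injective (MvPolynomial σ k) F)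
  have hk' : Function.Injective (algebraMap (PowerSeries F)
      (AlgebraicClosure (FractionRing (PowerSeries F)))) := by
    rw [IsScalarTower.algebraMap_eq (PowerSeries F) (FractionRing (PowerSeries F))
      (AlgebraicClosure (FractionRing (PowerSeries F)))]
    exact (algebraMap (FractionRing (PowerSeries F)) _).injective.comp
      (IsFractionRing.injective (PowerSeries F) (FractionRing (PowerSeries F)))
  exact split_core hA hx c s hs hinj hs0 (A.N * c.m) rfl θ hθ hk'

end Pool.Agent.Work.RC
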