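import Mathlib
import Pool.Agent.Work.MP_4329d7_ag_rc.Defs

/-! The affine coordinates of a curve. -/

namespace Pool.Agent.Work.RC

open Polynomial

variable {n : ℕ} {E : Type} {A : Arr n E}

/-- the affine coordinates `Y_j / Y_0` of the curve -/
noncomputable def yy {k : Type} [Field k] [Algebra ℂ k] {x : Fin (n + 1) → k} (c : Cv A k x) :
    Fin n → RatFunc k := fun j =>
  algebraMap k[X] (RatFunc k) (c.Y j.succ) / algebraMap k[X] (RatFunc k) (c.Y 0)

end Pool.Agent.Work.RC
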