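import Mathlib
import Pool.Agent.Work.MP_4329d7_ag_rc.RCKdef
import Pool.Agent.Work.MP_4329d7_ag_rc.Basic
import Pool.Agent.Work.MP_4329d7_ag_uni.CurveExt
import Pool.Agent.Work.MP_4329d7_ag_sq.RC
import Pool.Agent.Work.MP_4329d7_ag_sq.Reduce

/-!
The homomorphism from the cover to the rational functions on a curve.
-/

namespace Pool.Agent.Work.RC

open Polynomial
open Pool.Agent.Work.Uni (rootPoly)
open Pool.Agent.Work.MP_4329d7_ag.FF

variable {n : ℕ} {E : Type} [Fintype E] {A : Arr n E}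

/-- the coordinates are a transcendence basis of the cover -/
theorem Cover.tb (hN : 0 < A.N) {K : Type} [Field K] [Algebra ℂ K]
    {x : Fin n → K} {S : Set (K × (E → ℕ))} (hK : Cover A K x S) : IsTranscendenceBasis ℂ x := by
  rw [hK.alg_indep.isTranscendenceBasis_iff_isAlgebraic]
  refine MP_4329d7_ag_sq.isAlgebraic_adjoin _ ?_
  have hmem : ∀ j, x j ∈ IntermediateField.adjoin ℂ (Set.range x) := fun j =>
    IntermediateField.subset_adjoin ℂ _ ⟨j, rfl⟩
  have hal : ∀ y ∈ IntermediateField.adjoin ℂ (Set.range x),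
      IsAlgebraic (IntermediateField.adjoin ℂ (Set.range x)) y := by
    intro y hy
    have : y = algebraMap (IntermediateField.adjoin ℂ (Set.range x)) K ⟨y, hy⟩ := rfl
    rw [this]
    exact isAlgebraic_algebraMap _
  have hhom : ∀ s, (Fin.cons 1 x : Fin (n + 1) → K) s ∈
      IntermediateField.adjoin ℂ (Set.range x) := by
    intro s
    refine Fin.cases ?_ (fun j => ?_) s
    · rw [Fin.cons_zero]
      exact one_mem _
    · rw [Fin.cons_succ]
      exact hmem j
  refine MP_4329d7_ag_sq.alg_of_gen _ hK.gen fun t ht => ?_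
  rcases ht with ⟨p, rfl⟩ | ⟨c, hc⟩
  · exact hal _ (hmem _)
  · refine IsAlgebraic.of_pow hN ?_
    rw [hK.rad t c hc]
    refine hal _ (prod_mem fun e _ => pow_mem ?_ _)
    rw [MvPolynomial.aeval_def, MvPolynomial.eval₂_eq']
    refine sum_mem fun μ _ => mul_mem (IntermediateField.algebraMap_mem _ _) ?_
    exact prod_mem fun s _ => pow_mem (hhom s) _

theorem aeval_scale_aux {R : Type*} [CommRing R] [Algebra ℂ R] {G : MvPolynomial (Fin (n + 1)) ℂ}
    {d : ℕ} (hG : G.IsHomogeneous d) (r : R) (Y : Fin (n + 1) → R) :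
    MvPolynomial.aeval (fun s => r * Y s) G = r ^ d * MvPolynomial.aeval Y G := by
  rw [MvPolynomial.aeval_def, MvPolynomial.aeval_def, MvPolynomial.eval₂_eq',
    MvPolynomial.eval₂_eq', Finset.mul_sum]
  refine Finset.sum_congr rfl fun μ hμ => ?_
  have h1 : ∑ i, μ i = d := by
    have h2 := hG (MvPolynomial.mem_support_iff.1 hμ)
    rw [← h2, Finsupp.weight_apply, Finsupp.sum_fintype]
    · simp
    · simp
  simp only [mul_pow, Finset.prod_mul_distrib, Finset.prod_pow_eq_pow_sum, h1]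
  ring

/-- `F(Y / Y_0) = F(Y) / Y_0 ^ d` -/
theorem aeval_cons_div {R : Type*} [Field R] [Algebra ℂ R] {G : MvPolynomial (Fin (n + 1)) ℂ}
    {d : ℕ} (hG : G.IsHomogeneous d) (Y : Fin (n + 1) → R) (h0 : Y 0 ≠ 0) :
    MvPolynomial.aeval (Fin.cons 1 (fun j : Fin n => Y j.succ / Y 0) : Fin (n + 1) → R) G =
      MvPolynomial.aeval Y G / Y 0 ^ d := by
  have h1 : (Fin.cons 1 (fun j : Fin n => Y j.succ / Y 0) : Fin (n + 1) → R) =
      fun s => (Y 0)⁻¹ * Y s := by
    funext s
    refine Fin.cases ?_ (fun j => ?_) s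
    · rw [Fin.cons_zero, inv_mul_cancel₀ h0]
    · rw [Fin.cons_succ, div_eq_inv_mul]
  rw [h1, aeval_scale_aux hG, inv_pow, div_eq_inv_mul]

/-- the affine form of `F_e` -/
theorem aeval_affine {R : Type*} [CommRing R] [Algebra ℂ R] (y : Fin n → R)
    (G : MvPolynomial (Fin (n + 1)) ℂ) :
    MvPolynomial.aeval y (MvPolynomial.aeval
      (Fin.cons 1 MvPolynomial.X : Fin (n + 1) → MvPolynomial (Fin n) ℂ) G) =
      MvPolynomial.aeval (Fin.cons 1 y : Fin (n + 1) → R) G := by
  have h1 : (fun s => MvPolynomial.aeval y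
      ((Fin.cons 1 MvPolynomial.X : Fin (n + 1) → MvPolynomial (Fin n) ℂ) s)) =
      (Fin.cons 1 y : Fin (n + 1) → R) := by
    funext s
    refine Fin.cases ?_ (fun j => ?_) s
    · simp
    · simp
  rw [← h1]
  exact (MvPolynomial.comp_aeval_apply _ _ _)

/-- The homomorphism from the cover. -/
theorem exists_hom (hA0 : 0 < A.N) (hom : ∀ e, (A.F e).IsHomogeneous (A.d e)) {K : Type} [Field K]
    [Algebra ℂ K] {x : Fin n → K} {S : Set (K × (E → ℕ))} (hK : Cover A K x S)
    {F : Type} [Field F] [Algebra ℂ F] [IsAlgClosed F] {x' : Fin (n + 1) → F} (c : Cv A F x')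
    (h0 : c.Y 0 ≠ 0) (hy : AlgebraicIndependent ℂ (yy c)) :
    ∃ φ : K →ₐ[ℂ] RatFunc F, ∀ j, φ (x j) = yy c j := by
  classical
  refine Pool.Agent.Work.Uni.exists_ext_kummer hK.alg_indep hy {z | ∃ c, (z, c) ∈ S} hA0 ?_ hK.gen
  rintro z ⟨cc, hz⟩
  refine ⟨∏ e, (MvPolynomial.aeval
      (Fin.cons 1 MvPolynomial.X : Fin (n + 1) → MvPolynomial (Fin n) ℂ) (A.F e)) ^ cc e, ?_, ?_⟩
  · rw [hK.rad z cc hz, map_prod]
    refine Finset.prod_congr rfl fun e _ => ?_
    rw [map_pow, aeval_affine]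
  · rw [map_prod]
    set al : F[X] →+* RatFunc F := algebraMap F[X] (RatFunc F) with hal
    have hY0 : al (c.Y 0) ≠ 0 := by
      rw [hal]
      exact (map_ne_zero_iff _ (IsFractionRing.injective F[X] (RatFunc F))).2 h0
    have hfac : ∀ e, MvPolynomial.aeval (yy c) (MvPolynomial.aeval
        (Fin.cons 1 MvPolynomial.X : Fin (n + 1) → MvPolynomial (Fin n) ℂ) (A.F e)) =
        al (C (MvPolynomial.aeval x' (A.F e)) * rootPoly c.β c.t e) / al (c.Y 0) ^ A.d e := by
      intro e
      rw [aeval_affine]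
      have h1 := aeval_cons_div (hom e) (fun s => al (c.Y s)) hY0
      rw [← c.eqn e]
      have h2 : al (MvPolynomial.aeval c.Y (A.F e)) =
          MvPolynomial.aeval (fun s => al (c.Y s)) (A.F e) :=
        (MvPolynomial.comp_aeval_apply (f := c.Y)
          (IsScalarTower.toAlgHom ℂ F[X] (RatFunc F)) (A.F e))
      rw [h2]
      exact h1
    -- the constant
    obtain ⟨α, hα⟩ := IsAlgClosed.exists_pow_nat_eq
      (∏ e, (MvPolynomial.aeval x' (A.F e)) ^ cc e) hA0
    -- the roots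
    have hroot : ∀ i, ∃ k : ℕ, ∑ e, c.β i e * cc e = k * A.N := by
      intro i
      have h1 := hK.blk z cc hz _ (c.mem i)
      have h2 : (A.N : ℤ) ∣ ((∑ e, c.β i e * cc e : ℕ) : ℤ) := by
        push_cast
        exact h1
      obtain ⟨k, hk⟩ := Int.natCast_dvd_natCast.1 h2
      exact ⟨k, by rw [hk, mul_comm]⟩
    choose k hk using hroot
    obtain ⟨l, hl⟩ := hK.deg z cc hz
    have hprod : ∏ e, (rootPoly c.β c.t e) ^ cc e = (∏ i, (X - C (c.t i)) ^ k i) ^ A.N := by
      unfold rootPoly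
      simp_rw [← Finset.prod_pow, ← pow_mul]
      rw [Finset.prod_comm]
      refine Finset.prod_congr rfl fun i _ => ?_
      rw [Finset.prod_pow_eq_pow_sum, hk i]
    refine ⟨al (C α * ∏ i, (X - C (c.t i)) ^ k i) / al (c.Y 0) ^ l, ?_⟩
    have hR : ∏ e, MvPolynomial.aeval (yy c) ((MvPolynomial.aeval
        (Fin.cons 1 MvPolynomial.X : Fin (n + 1) → MvPolynomial (Fin n) ℂ) (A.F e)) ^ cc e) =
        ∏ e, ((al (C (MvPolynomial.aeval x' (A.F e)) * rootPoly c.β c.t e)) ^ cc e /
          (al (c.Y 0) ^ A.d e) ^ cc e) :=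
      Finset.prod_congr rfl fun e _ => by rw [map_pow, hfac e, div_pow]
    rw [hR, Finset.prod_div_distrib, div_pow]
    congr 1
    · rw [← map_pow, mul_pow, ← hprod, ← C_pow, hα, map_prod C, ← Finset.prod_mul_distrib,
        map_prod al]
      refine Finset.prod_congr rfl fun e _ => ?_
      rw [← map_pow al, mul_pow, C_pow]
    · simp_rw [← pow_mul]
      rw [Finset.prod_pow_eq_pow_sum]
      congr 1
      rw [mul_comm, ← hl]
      exact Finset.sum_congr rfl fun e _ => mul_comm _ _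

/-- Rational connectedness from one curve over an algebraically closed field. -/
theorem rc_of_ai (hA0 : 0 < A.N) (hom : ∀ e, (A.F e).IsHomogeneous (A.d e)) {K : Type} [Field K]
    [Algebra ℂ K] [Algebra.EssFiniteType ℂ K] {x : Fin n → K} {S : Set (K × (E → ℕ))}
    (hK : Cover A K x S)
    {F : Type} [Field F] [Algebra ℂ F] [IsAlgClosed F] {x' : Fin (n + 1) → F} (c : Cv A F x')
    (h0 : c.Y 0 ≠ 0)
    (hai : AlgebraicIndependent ℂ (Sum.elim
      (fun j : Fin n => (RatFunc.C (yy c j) : RatFunc (RatFunc F)))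
      (fun j => Pool.Agent.Work.MP_4329d7_ag_sq.psi F (yy c j)))) : RationallyConnected K := by
  have hy : AlgebraicIndependent ℂ (yy c) := by
    have h1 : AlgebraicIndependent ℂ (fun j : Fin n => (RatFunc.C (yy c j) : RatFunc (RatFunc F))) := by
      have h2 := hai.comp (Sum.inl : Fin n → Fin n ⊕ Fin n) Sum.inl_injective
      exact h2
    have h3 : (fun j : Fin n => (RatFunc.C (yy c j) : RatFunc (RatFunc F))) =
        (MP_4329d7_ag_sq.CA F) ∘ (yy c) := rfl
    rw [h3] at h1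
    exact AlgebraicIndependent.of_comp _ h1
  obtain ⟨φ, hφ⟩ := exists_hom hA0 hom hK c h0 hy
  refine MP_4329d7_ag_sq.rc_of_good inferInstance ⟨F, inferInstance, inferInstance, inferInstance, φ,
    Fin n, inferInstance, x, Cover.tb hA0 hK, ?_⟩
  simp_rw [hφ]
  exact hai

end Pool.Agent.Work.RC
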