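import Mathlib
import Pool.Agent.Work.MP_4329d7_ag_rc.Defs

/-!
The case of simple normal crossing divisors of `ℙⁿ`: the branch data `sncArr` satisfy `Arr.Ok`
(helper44).
-/

namespace Pool.Agent.Work.RC

open MvPolynomial

section spec

variable {k : Type} [Field k] [Algebra ℂ k] {σ : Type}

/-- specialisation to a complex point -/
theorem exists_spec [Finite σ] (ξ : σ → k) (f : MvPolynomial σ ℂ) (hf : aeval ξ f ≠ 0) :
    ∃ P : σ → ℂ, (∀ g : MvPolynomial σ ℂ, aeval ξ g = 0 → eval P g = 0) ∧ eval P f ≠ 0 := by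
  have hker : (RingHom.ker (aeval ξ : MvPolynomial σ ℂ →ₐ[ℂ] k)).IsPrime := RingHom.ker_isPrime _
  have hf' : f ∉ vanishingIdeal ℂ (zeroLocus ℂ
      (RingHom.ker (aeval ξ : MvPolynomial σ ℂ →ₐ[ℂ] k))) := by
    rw [IsPrime.vanishingIdeal_zeroLocus]
    exact hf
  rw [mem_vanishingIdeal_iff] at hf'
  push Not at hf'
  obtain ⟨P, hP, hPf⟩ := hf'
  refine ⟨P, fun g hg => ?_, by rwa [aeval_eq_eval] at hPf⟩
  have := (mem_zeroLocus_iff.1 hP) g hg
  rwa [aeval_eq_eval] at this

end spec

/-- the branch data of a divisor; `L` = the vectors `b` with `N ∣ ∑ b c` for all radicals -/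
noncomputable def sncArr {K : Type} {n : ℕ} {E : Type} [Fintype E]
    (F : E → MvPolynomial (Fin (n + 1)) ℂ) (d : E → ℕ) (N : ℕ) (S : Set (K × (E → ℕ))) :
    Arr n E where
  F := F
  d := d
  L :=
    { carrier := {b | ∀ z c, (z, c) ∈ S → (N : ℤ) ∣ ∑ e, b e * (c e : ℤ)}
      zero_mem' := fun z c _ => by simp
      add_mem' := fun {u v} hu hv z c h => by
        have := dvd_add (hu z c h) (hv z c h)
        rw [← Finset.sum_add_distrib] at this
        simpa [add_mul] using this
      neg_mem' := fun {u} hu z c h => by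
        have := (dvd_neg (α := ℤ)).2 (hu z c h)
        rw [← Finset.sum_neg_distrib] at this
        simpa [neg_mul] using this }
  N := N

/-- The data of an abelian cover of `ℙⁿ` branched along a simple normal crossing divisor. -/
structure SncOne (K : Type) [Field K] [Algebra ℂ K] (n : ℕ) (E : Type) [Fintype E]
    (F : E → MvPolynomial (Fin (n + 1)) ℂ) (d : E → ℕ) (N : ℕ) (x : Fin n → K)
    (S : Set (K × (E → ℕ))) : Prop where
  N_pos : 0 < N
  n_pos : 0 < n
  hom : ∀ e, (F e).IsHomogeneous (d e)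
  d_pos : ∀ e, 0 < d e
  snc : ∀ P : Fin (n + 1) → ℂ, P ≠ 0 →
    LinearIndependent ℂ (fun e : {e // eval P (F e) = 0} => fun s => eval P (pderiv s (F e.1)))
  alg_indep : AlgebraicIndependent ℂ x
  rad : ∀ z c, (z, c) ∈ S → z ^ N = ∏ e, aeval (Fin.cons 1 x : Fin (n + 1) → K) (F e) ^ c e
  deg : ∀ z c, (z, c) ∈ S → N ∣ ∑ e, c e * d e
  gen : IntermediateField.adjoin ℂ (Set.range x ∪ {z | ∃ c, (z, c) ∈ S}) = ⊤
  branch : ∀ e, ∃ z c, (z, c) ∈ S ∧ ¬ N ∣ c e

/-- the gradients are independent over all fields -/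
theorem snc_base {n : ℕ} {E : Type} [Fintype E] {F : E → MvPolynomial (Fin (n + 1)) ℂ}
    (hsnc : ∀ P : Fin (n + 1) → ℂ, P ≠ 0 →
      LinearIndependent ℂ (fun e : {e // eval P (F e) = 0} => fun s => eval P (pderiv s (F e.1))))
    (k : Type) [Field k] [Algebra ℂ k] (P : Fin (n + 1) → k) (hP : P ≠ 0) :
    LinearIndependent k (fun (e : {e : E // aeval P (F e) = 0})
      (s : Fin (n + 1)) => aeval P (pderiv s (F e.1))) := by
  classical
  rw [Fintype.linearIndependent_iff]
  intro a ha e0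
  by_contra hne
  obtain ⟨j, hj⟩ := Function.ne_iff.1 hP
  let ξ : Fin (n + 1) ⊕ {e : E // aeval P (F e) = 0} → k := Sum.elim P a
  obtain ⟨p, hp, hpf⟩ := exists_spec ξ (X (Sum.inl j) * X (Sum.inr e0)) (by
    rw [map_mul, aeval_X, aeval_X]
    exact mul_ne_zero hj hne)
  rw [map_mul, eval_X, eval_X] at hpf
  let P' : Fin (n + 1) → ℂ := fun s => p (Sum.inl s)
  have h1 : ∀ G : MvPolynomial (Fin (n + 1)) ℂ, aeval ξ (rename Sum.inl G) = aeval P G := by
    intro G
    rw [aeval_rename]
    rfl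
  have h2 : ∀ G : MvPolynomial (Fin (n + 1)) ℂ, eval p (rename Sum.inl G) = eval P' G := by
    intro G
    rw [eval_rename]
    rfl
  have hP' : P' ≠ 0 := fun h0 => left_ne_zero_of_mul hpf (congrFun h0 j)
  have hz : ∀ e : {e : E // aeval P (F e) = 0}, eval P' (F e.1) = 0 := by
    intro e
    rw [← h2]
    exact hp _ (by rw [h1]; exact e.2)
  have hrel : ∀ s, ∑ e : {e : E // aeval P (F e) = 0},
      p (Sum.inr e) * eval P' (pderiv s (F e.1)) = 0 := by
    intro s
    have h3 := hp (∑ e : {e : E // aeval P (F e) = 0},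
      X (Sum.inr e) * rename Sum.inl (pderiv s (F e.1))) (by
        rw [map_sum]
        have h4 := congrFun ha s
        rw [Finset.sum_apply] at h4
        refine Eq.trans (Finset.sum_congr rfl fun e _ => ?_) h4
        rw [map_mul, aeval_X, h1]
        rfl)
    rw [map_sum] at h3
    rw [← h3]
    refine Finset.sum_congr rfl fun e _ => ?_
    rw [map_mul, eval_X, h2]
  have hli := (hsnc P' hP').comp (fun e : {e : E // aeval P (F e) = 0} =>
    (⟨e.1, hz e⟩ : {e // eval P' (F e) = 0}))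
    (fun e e' h => Subtype.ext (congrArg (fun z : {e // eval P' (F e) = 0} => z.1) h))
  rw [Fintype.linearIndependent_iff] at hli
  refine right_ne_zero_of_mul hpf (hli (fun e => p (Sum.inr e)) ?_ e0)
  funext s
  rw [Finset.sum_apply]
  exact hrel s

variable {K : Type} [Field K] [Algebra ℂ K] {n : ℕ} {E : Type} [Fintype E] [DecidableEq E]
  {F : E → MvPolynomial (Fin (n + 1)) ℂ} {d : E → ℕ} {N : ℕ} {x : Fin n → K}
  {S : Set (K × (E → ℕ))}

theorem snc_ok (D : SncOne K n E F d N x S) : (sncArr F d N S).Ok where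
  hom := D.hom
  d_pos := D.d_pos
  N_pos := D.N_pos
  N_mem e := by
    intro z c hz
    rw [Finset.sum_eq_single e]
    · rw [Pi.single_eq_same]
      exact dvd_mul_right _ _
    · intro e' _ h
      rw [Pi.single_eq_of_ne h, zero_mul]
    · intro h
      exact absurd (Finset.mem_univ e) h
  d_mem := by
    intro z c hz
    have h1 := D.deg z c hz
    have h2 : ∑ e, ((d e : ℕ) : ℤ) * (c e : ℤ) = ((∑ e, c e * d e : ℕ) : ℤ) := by
      push_cast
      exact Finset.sum_congr rfl fun e _ => mul_comm _ _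
    change (N : ℤ) ∣ ∑ e, ((d e : ℕ) : ℤ) * (c e : ℤ)
    rw [h2]
    exact_mod_cast h1
  snc k _ _ P hP := snc_base D.snc k P hP

omit [DecidableEq E] in
theorem snc_cover (D : SncOne K n E F d N x S) : Cover (sncArr F d N S) K x S where
  alg_indep := D.alg_indep
  rad z c hz := D.rad z c hz
  deg z c hz := D.deg z c hz
  blk z c hz _ hb := hb z c hz
  gen := D.gen

end Pool.Agent.Work.RC
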