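import Mathlib
import Pool.Agent.Work.MP_4329d7_ag_rc.Basic

/-!
Reduction: a curve without the conditions `inj`, `cop` becomes a curve after division by a common
factor `H`.

Proof: `T` = the set of the values of `t`, `v_τ = ∑_(t i = τ) β i`; `H` = the monic gcd of the `Y s`;
`H^(d e)` divides `F_e(Y) = c_e ∏_(τ ∈ T) (X - τ)^(v_τ e)` (`c_e ≠ 0`, `E` not empty), so
`H = ∏_(τ ∈ T) (X - τ)^(h τ)`; the new blocks are `v_τ - h τ • d ∈ L`.
-/

namespace Pool.Agent.Work.RC

open Polynomial
open Pool.Agent.Work.Uni (rootPoly)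

variable {n : ℕ} {E : Type} [DecidableEq E] {A : Arr n E}

omit [DecidableEq E] in
/-- collect the roots with the same value -/
theorem rootPoly_collect {ι R : Type*} [Fintype ι] [CommRing R] [DecidableEq R] (β : ι → E → ℕ)
    (t : ι → R) (e : E) :
    rootPoly β t e = ∏ τ ∈ Finset.univ.image t,
      (X - C τ) ^ (∑ i ∈ Finset.univ.filter (fun i => t i = τ), β i e) := by
  unfold rootPoly
  rw [← Finset.prod_fiberwise_of_maps_to (t := Finset.univ.image t) (g := t)
    (fun i _ => Finset.mem_image_of_mem t (Finset.mem_univ i))]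
  refine Finset.prod_congr rfl fun τ _ => ?_
  rw [← Finset.prod_pow_eq_pow_sum]
  refine Finset.prod_congr rfl fun i hi => ?_
  rw [(Finset.mem_filter.1 hi).2]

/-- a monic divisor of a power product of linear factors -/
theorem monic_dvd_eq {k : Type*} [Field k] [DecidableEq k] (T : Finset k) (v : k → ℕ)
    {H : k[X]} (hH : H.Monic) (hd : H ∣ ∏ τ ∈ T, (X - C τ) ^ v τ) :
    H = ∏ τ ∈ T, (X - C τ) ^ (H.rootMultiplicity τ) := by
  have hne : (∏ τ ∈ T, (X - C τ) ^ v τ : k[X]) ≠ 0 :=
    (monic_prod_of_monic _ _ fun τ _ => (monic_X_sub_C τ).pow _).ne_zero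
  have hs : (∏ τ ∈ T, (X - C τ) ^ v τ : k[X]).Splits :=
    Splits.prod fun τ _ => (Splits.X_sub_C τ).pow _
  have hHs : H.Splits := hs.of_dvd hne hd
  have h1 := hHs.eq_prod_roots_of_monic hH
  have h2 : (H.roots.map fun a => X - C a).prod =
      ∏ τ ∈ H.roots.toFinset, (X - C τ) ^ (H.rootMultiplicity τ) := by
    rw [Finset.prod_multiset_map_count]
    refine Finset.prod_congr rfl fun τ _ => ?_
    rw [count_roots]
  conv_lhs => rw [h1, h2]
  refine Finset.prod_subset ?_ ?_
  · intro τ hτ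
    have hr : H.IsRoot τ := isRoot_of_mem_roots (Multiset.mem_toFinset.1 hτ)
    have h3 : (∏ τ ∈ T, (X - C τ) ^ v τ : k[X]).IsRoot τ := hr.dvd hd
    rw [IsRoot.def, eval_prod, Finset.prod_eq_zero_iff] at h3
    obtain ⟨τ', hτ', h4⟩ := h3
    rw [eval_pow] at h4
    have h6 : (X - C τ' : k[X]).eval τ = 0 := by
      by_contra hc
      exact pow_ne_zero _ hc h4
    rw [eval_sub, eval_X, eval_C, sub_eq_zero] at h6
    rw [h6]
    exact hτ'
  · intro τ _ hτ
    have h3 : H.rootMultiplicity τ = 0 := by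
      rw [← count_roots]
      exact Multiset.count_eq_zero_of_notMem fun h => hτ (Multiset.mem_toFinset.2 h)
    rw [h3, pow_zero]

/-- the multiplicities of a divisor -/
theorem mult_le {k : Type*} [Field k] [DecidableEq k] (T : Finset k) (v : k → ℕ) {τ : k}
    (hτ : τ ∈ T) {c : k} (hc : c ≠ 0) {a : ℕ}
    (hd : (X - C τ) ^ a ∣ C c * ∏ τ ∈ T, (X - C τ) ^ v τ) : a ≤ v τ := by
  have hu : IsUnit (C c : k[X]) := isUnit_C.2 (isUnit_iff_ne_zero.2 hc)
  rw [hu.dvd_mul_left, ← Finset.mul_prod_erase T _ hτ] at hd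
  have hco : IsCoprime ((X - C τ : k[X]) ^ a) (∏ x ∈ T.erase τ, (X - C x) ^ v x) := by
    refine IsCoprime.prod_right fun τ' hτ' => ?_
    refine IsCoprime.pow ?_
    exact isCoprime_X_sub_C_of_isUnit_sub
      (isUnit_iff_ne_zero.2 (sub_ne_zero.2 (Finset.ne_of_mem_erase hτ').symm))
  have h1 := hco.dvd_of_dvd_mul_right hd
  exact (pow_dvd_pow_iff (X_sub_C_ne_zero τ) (not_isUnit_X_sub_C τ)).1 h1

theorem red (hA : A.Ok) [Nonempty E] {k : Type} [Field k] [Algebra ℂ k] {x : Fin (n + 1) → k}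
    (hx : AlgebraicIndependent ℂ x) (m : ℕ) (ι : Type) [Fintype ι] (β : ι → E → ℕ) (t : ι → k)
    (Y : Fin (n + 1) → k[X]) (mem : ∀ i, (fun e => (β i e : ℤ)) ∈ A.L)
    (deg : ∀ s, (Y s).natDegree ≤ m) (lead : ∀ s, (Y s).coeff m = x s)
    (eqn : ∀ e, MvPolynomial.aeval Y (A.F e) = C (MvPolynomial.aeval x (A.F e)) * rootPoly β t e)
    (hnc : ∃ s s', C (x s) * Y s' ≠ C (x s') * Y s) :
    ∃ (c : Cv A k x) (H : k[X]), H.Monic ∧ ∀ s, Y s = H * c.Y s := by
  classical
  -- the values of the roots and the total multiplicities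
  set T : Finset k := Finset.univ.image t with hT
  set v : k → E → ℕ := fun τ e => ∑ i ∈ Finset.univ.filter (fun i => t i = τ), β i e with hv
  have hvmem : ∀ τ, (fun e => (v τ e : ℤ)) ∈ A.L := by
    intro τ
    have h1 : (fun e => (v τ e : ℤ)) =
        ∑ i ∈ Finset.univ.filter (fun i => t i = τ), (fun e => (β i e : ℤ)) := by
      funext e
      rw [Finset.sum_apply, hv]
      push_cast
      rfl
    rw [h1]
    exact AddSubgroup.sum_mem _ fun i _ => mem i
  have hroot : ∀ e, rootPoly β t e = ∏ τ ∈ T, (X - C τ) ^ v τ e := fun e =>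
    rootPoly_collect β t e
  have hxne : ∀ s, x s ≠ 0 := fun s => hx.ne_zero s
  have hYne : ∀ s, Y s ≠ 0 := by
    intro s h
    refine hxne s ?_
    rw [← lead s, h, coeff_zero]
  -- the monic greatest common divisor
  obtain ⟨H, V, W, hH, hHV, hYW⟩ : ∃ (H : k[X]) (V W : Fin (n + 1) → k[X]), H.Monic ∧
      ∑ s, V s * Y s = H ∧ ∀ s, Y s = H * W s := by
    set I : Ideal k[X] := Ideal.span (Set.range Y) with hI
    set g : k[X] := Submodule.IsPrincipal.generator I with hg
    have hgI : Ideal.span {g} = I := Ideal.span_singleton_generator I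
    have hgdvd : ∀ s, g ∣ Y s := by
      intro s
      rw [← Ideal.mem_span_singleton, hgI]
      exact Ideal.subset_span (Set.mem_range_self s)
    have hg0 : g ≠ 0 := by
      intro h
      have := hgdvd 0
      rw [h, zero_dvd_iff] at this
      exact hYne 0 this
    have hgm : g ∈ I := by
      rw [← hgI]
      exact Ideal.mem_span_singleton_self g
    obtain ⟨V, hV⟩ := (Ideal.mem_span_range_iff_exists_fun).1 hgm
    have hlc : g.leadingCoeff ≠ 0 := leadingCoeff_ne_zero.2 hg0
    choose W hW using hgdvd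
    have hcc : C g.leadingCoeff⁻¹ * C g.leadingCoeff = (1 : k[X]) := by
      rw [← C_mul, inv_mul_cancel₀ hlc, C_1]
    refine ⟨g * C g.leadingCoeff⁻¹, fun s => C g.leadingCoeff⁻¹ * V s,
      fun s => C g.leadingCoeff * W s, monic_mul_leadingCoeff_inv hg0, ?_, ?_⟩
    · rw [← hV, Finset.sum_mul]
      refine Finset.sum_congr rfl fun s _ => ?_
      ring
    · intro s
      calc Y s = (C g.leadingCoeff⁻¹ * C g.leadingCoeff) * (g * W s) := by
            rw [hcc, one_mul, ← hW]
        _ = g * C g.leadingCoeff⁻¹ * (C g.leadingCoeff * W s) := by ring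
  have hH0 : H ≠ 0 := hH.ne_zero
  have hVW : ∑ s, V s * W s = 1 := by
    refine mul_left_cancel₀ hH0 ?_
    rw [mul_one, Finset.mul_sum]
    conv_rhs => rw [← hHV]
    refine Finset.sum_congr rfl fun s _ => ?_
    rw [hYW s]
    ring
  have hc : ∀ e, MvPolynomial.aeval x (A.F e) ≠ 0 := fun e => hA.aeval_ne_zero hx e
  -- the equation after division
  have heq : ∀ e, H ^ A.d e * MvPolynomial.aeval W (A.F e) =
      C (MvPolynomial.aeval x (A.F e)) * ∏ τ ∈ T, (X - C τ) ^ v τ e := by
    intro e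
    rw [← hroot e, ← eqn e, ← aeval_smul_form (hA.hom e)]
    congr 2
    funext s
    exact (hYW s).symm
  -- the factorization of `H`
  set h : k → ℕ := fun τ => H.rootMultiplicity τ with hh
  have hHprod : H = ∏ τ ∈ T, (X - C τ) ^ h τ := by
    obtain ⟨e⟩ := ‹Nonempty E›
    refine monic_dvd_eq T (fun τ => v τ e) hH ?_
    have h1 : H ^ A.d e ∣ C (MvPolynomial.aeval x (A.F e)) * ∏ τ ∈ T, (X - C τ) ^ v τ e :=
      Dvd.intro _ (heq e)
    rw [(isUnit_C.2 (isUnit_iff_ne_zero.2 (hc e))).dvd_mul_left] at h1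
    exact (dvd_pow_self H (hA.d_pos e).ne').trans h1
  have hle : ∀ τ ∈ T, ∀ e, h τ * A.d e ≤ v τ e := by
    intro τ hτ e
    refine mult_le T (fun τ => v τ e) hτ (hc e) ?_
    rw [← heq e, pow_mul]
    refine Dvd.dvd.mul_right ?_ _
    exact pow_dvd_pow_of_dvd (pow_rootMultiplicity_dvd H τ) _
  -- degrees
  have hHdeg : H.natDegree ≤ m :=
    (natDegree_le_of_dvd (Dvd.intro _ (hYW 0).symm) (hYne 0)).trans (deg 0)
  have hWdeg : ∀ s, (W s).natDegree ≤ m - H.natDegree := by
    intro s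
    have hW0 : W s ≠ 0 := by
      intro h0
      exact hYne s (by rw [hYW s, h0, mul_zero])
    have h1 := deg s
    rw [hYW s, natDegree_mul hH0 hW0] at h1
    omega
  have hWlead : ∀ s, (W s).coeff (m - H.natDegree) = x s := by
    intro s
    have h1 := lead s
    have h2 : m = H.natDegree + (m - H.natDegree) := by omega
    rw [hYW s, h2, coeff_mul_add_eq_of_natDegree_le le_rfl (hWdeg s)] at h1
    have h3 : H.coeff H.natDegree = 1 := hH
    rw [h3, one_mul] at h1
    exact h1
  have hmpos : 0 < m - H.natDegree := by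
    rcases Nat.eq_zero_or_pos (m - H.natDegree) with h0 | h0
    · exfalso
      obtain ⟨s, s', hss⟩ := hnc
      have h1 : ∀ s, W s = C (x s) := by
        intro s
        have h2 := hWdeg s
        rw [h0] at h2
        have h3 := eq_C_of_natDegree_le_zero h2
        rw [h3]
        congr 1
        rw [← hWlead s, h0]
      refine hss ?_
      rw [hYW s, hYW s', h1 s, h1 s']
      ring
    · exact h0
  refine ⟨{
    m := m - H.natDegree
    ι := T
    β := fun τ e => v τ e - h τ * A.d e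
    t := fun τ => τ
    Y := W
    m_pos := hmpos
    mem := ?_
    inj := Subtype.val_injective
    deg := hWdeg
    lead := hWlead
    cop := ⟨V, hVW⟩
    eqn := ?_ }, H, hH, hYW⟩
  · rintro ⟨τ, hτ⟩
    have h1 : (fun e => ((v τ e - h τ * A.d e : ℕ) : ℤ)) =
        (fun e => (v τ e : ℤ)) - (h τ) • (fun e => (A.d e : ℤ)) := by
      funext e
      rw [Nat.cast_sub (hle τ hτ e)]
      simp
    show (fun e => ((v τ e - h τ * A.d e : ℕ) : ℤ)) ∈ A.L
    rw [h1]
    exact AddSubgroup.sub_mem _ (hvmem τ) (AddSubgroup.nsmul_mem _ hA.d_mem _)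
  · intro e
    refine mul_left_cancel₀ (pow_ne_zero (A.d e) hH0) ?_
    rw [heq e]
    have h1 : H ^ A.d e = ∏ τ ∈ T, (X - C τ) ^ (h τ * A.d e) := by
      conv_lhs => rw [hHprod]
      rw [← Finset.prod_pow]
      refine Finset.prod_congr rfl fun τ _ => ?_
      rw [pow_mul]
    have h2 : rootPoly (fun (τ : T) e => v τ e - h τ * A.d e) (fun τ : T => (τ : k)) e =
        ∏ τ ∈ T, (X - C τ) ^ (v τ e - h τ * A.d e) := by
      unfold rootPoly
      exact Finset.prod_coe_sort T (fun τ => (X - C τ) ^ (v τ e - h τ * A.d e))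
    have h3 : (∏ τ ∈ T, (X - C τ) ^ v τ e : k[X]) = H ^ A.d e *
        rootPoly (fun (τ : T) e => v τ e - h τ * A.d e) (fun τ : T => (τ : k)) e := by
      rw [h1, h2, ← Finset.prod_mul_distrib]
      refine Finset.prod_congr rfl fun τ hτ => ?_
      rw [← pow_add]
      congr 1
      have := hle τ hτ e
      omega
    rw [h3]
    ring

end Pool.Agent.Work.RC
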