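import Mathlib
import Pool.Agent.Work.MP_4329d7_ag_rc.Basic

/-!
Transfer to the field `KK n` (Nullstellensatz): a relation over `ℂ` which fails for some curve over
some field fails for a curve over `KK n` through the generic point `gen n`.

Proof: embed `KK n` in the algebraic closure of `k` over `gen ↦ x`; the `KK n`-algebra generated by
the roots, the coefficients of the `Y s`, of the `V s` (`cop`), the inverses of `t i - t j` and of a
nonzero coefficient of `semi G x c.Y` has a homomorphism to `KK n`.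
-/

namespace Pool.Agent.Work.RC

open Polynomial
open Pool.Agent.Work.Uni (rootPoly)

variable {n : ℕ} {E : Type} [DecidableEq E] {A : Arr n E}

theorem gen_ai (n : ℕ) : AlgebraicIndependent ℂ (gen n) := by
  have h : AlgebraicIndependent ℂ (MvPolynomial.X : Fin (n + 1) → MvPolynomial (Fin (n + 1)) ℂ) :=
    MvPolynomial.algebraicIndependent_X _ _
  have h1 := h.map' (f := IsScalarTower.toAlgHom ℂ (MvPolynomial (Fin (n + 1)) ℂ)
    (FractionRing (MvPolynomial (Fin (n + 1)) ℂ))) (IsFractionRing.injective _ _)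
  have h2 := h1.map' (f := IsScalarTower.toAlgHom ℂ (FractionRing (MvPolynomial (Fin (n + 1)) ℂ))
    (KK n)) (FaithfulSMul.algebraMap_injective _ _)
  exact h2

theorem lift_fin (K F : Type) [Field K] [IsAlgClosed K] [Field F] [Algebra K F]
    [Module.Finite K F] : Nonempty (F →ₐ[K] K) := ⟨IsAlgClosed.lift⟩

/-- a weak form of the Nullstellensatz -/
theorem exists_hom_alg {K k : Type} [Field K] [IsAlgClosed K] [Field k] [Algebra K k]
    (T : Set k) (hT : T.Finite) :
    ∃ (R : Subalgebra K k) (_ : R →ₐ[K] K), T ⊆ (R : Set k) := by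
  have hft : Algebra.FiniteType K (Algebra.adjoin K T) :=
    (Subalgebra.fg_iff_finiteType _).1 ⟨hT.toFinset, by simp⟩
  obtain ⟨m, hm⟩ := Ideal.exists_maximal (Algebra.adjoin K T)
  let _ := Ideal.Quotient.field m
  have h1 : Algebra.FiniteType K (Algebra.adjoin K T ⧸ m) :=
    Algebra.FiniteType.of_surjective (Ideal.Quotient.mkₐ K m) (Ideal.Quotient.mkₐ_surjective K m)
  have h2 : Module.Finite K (Algebra.adjoin K T ⧸ m) := finite_of_finite_type_of_isJacobsonRing _ _
  obtain ⟨ψ⟩ := lift_fin K (Algebra.adjoin K T ⧸ m)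
  exact ⟨Algebra.adjoin K T, ψ.comp (Ideal.Quotient.mkₐ K m), Algebra.subset_adjoin⟩

theorem exists_lift {K k : Type} [Field K] [Field k] [Algebra K k] (R : Subalgebra K k)
    (p : k[X]) (h : ∀ i, p.coeff i ∈ R) : ∃ q : R[X], q.map (algebraMap R k) = p := by
  have h1 : p ∈ Polynomial.lifts (algebraMap R k) := by
    rw [Polynomial.lifts_iff_coeff_lifts]
    intro i
    exact ⟨⟨p.coeff i, h i⟩, rfl⟩
  exact (Polynomial.mem_lifts _).1 h1

theorem coeffs_finite {R : Type} [CommRing R] (p : R[X]) : (Set.range p.coeff).Finite := by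
  have : Set.range p.coeff ⊆ (p.coeff '' (p.support : Set ℕ)) ∪ {0} := by
    rintro _ ⟨i, rfl⟩
    by_cases h : p.coeff i = 0
    · right; exact h
    · left; exact ⟨i, by simpa using h, rfl⟩
  exact ((p.support.finite_toSet.image _).union (Set.finite_singleton _)).subset this

theorem semi_map {R S : Type} [CommRing R] [CommRing S] [Algebra ℂ R] [Algebra ℂ S]
    (f : R →ₐ[ℂ] S) (G : MvPolynomial (Fin (n + 1) ⊕ Fin (n + 1)) ℂ) (x : Fin (n + 1) → R)
    (Y : Fin (n + 1) → R[X]) :
    semi G (fun s => f (x s)) (fun s => (Y s).map (f : R →+* S)) =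
      (semi G x Y).map (f : R →+* S) := by
  unfold semi
  have h := MvPolynomial.comp_aeval_apply (R := ℂ)
    (Sum.elim (fun s => (C (x s) : R[X])) Y) (mapAlgHom f) G
  rw [coe_mapAlgHom] at h
  rw [← AlgHom.coe_toRingHom] at h
  refine Eq.trans ?_ h.symm
  congr 2
  ext1 (s | s)
  · simp
  · simp

omit [DecidableEq E] in
theorem transfer_aux {K k : Type} [Field K] [IsAlgClosed K] [Algebra ℂ K] [Field k] [Algebra ℂ k]
    [Algebra K k] [IsScalarTower ℂ K k] (y : Fin (n + 1) → K)
    (c : Cv A k (fun s => algebraMap K k (y s)))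
    (G : MvPolynomial (Fin (n + 1) ⊕ Fin (n + 1)) ℂ)
    (h : semi G (fun s => algebraMap K k (y s)) c.Y ≠ 0) :
    ∃ c' : Cv A K y, semi G y c'.Y ≠ 0 := by
  obtain ⟨V, hV⟩ := c.cop
  obtain ⟨j, hj⟩ : ∃ j, (semi G (fun s => algebraMap K k (y s)) c.Y).coeff j ≠ 0 := by
    by_contra hcon
    push Not at hcon
    exact h (Polynomial.ext fun i => by rw [hcon i, coeff_zero])
  set g : k := (semi G (fun s => algebraMap K k (y s)) c.Y).coeff j with hg
  obtain ⟨R, φ, hR⟩ := exists_hom_alg (K := K) (k := k)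
    (Set.range c.t ∪ (Set.range fun p : c.ι × c.ι => (c.t p.1 - c.t p.2)⁻¹) ∪
      (⋃ s, Set.range (c.Y s).coeff) ∪ (⋃ s, Set.range (V s).coeff) ∪ {g⁻¹})
    (by
      refine ((((Set.finite_range _).union (Set.finite_range _)).union ?_).union ?_).union
        (Set.finite_singleton _)
      · exact Set.finite_iUnion fun s => coeffs_finite _
      · exact Set.finite_iUnion fun s => coeffs_finite _)
  have ht : ∀ i, c.t i ∈ R := fun i => hR (by simp)
  have hti : ∀ i i', (c.t i - c.t i')⁻¹ ∈ R := fun i i' => hR (by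
    left; left; left; right
    exact ⟨(i, i'), rfl⟩)
  have hY : ∀ s i, (c.Y s).coeff i ∈ R := fun s i => hR (by
    left; left; right
    exact Set.mem_iUnion.2 ⟨s, i, rfl⟩)
  have hVR : ∀ s i, (V s).coeff i ∈ R := fun s i => hR (by
    left; right
    exact Set.mem_iUnion.2 ⟨s, i, rfl⟩)
  have hgR : g⁻¹ ∈ R := hR (by right; rfl)
  choose Y' hY' using fun s => exists_lift R (c.Y s) (hY s)
  choose V' hV' using fun s => exists_lift R (V s) (hVR s)
  let ιR : R →ₐ[ℂ] k := (R.val).restrictScalars ℂ
  have hιinj : Function.Injective (Polynomial.map (ιR : R →+* k)) :=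
    Polynomial.map_injective _ Subtype.val_injective
  let φC : R →ₐ[ℂ] K := φ.restrictScalars ℂ
  let y' : Fin (n + 1) → R := fun s => algebraMap K R (y s)
  have hy' : ∀ s, ιR (y' s) = algebraMap K k (y s) := fun s => rfl
  have hφy : ∀ s, φC (y' s) = y s := fun s => φ.commutes (y s)
  let t' : c.ι → R := fun i => ⟨c.t i, ht i⟩
  have hY'' : ∀ s, (Y' s).map (ιR : R →+* k) = c.Y s := hY'
  have hV'' : ∀ s, (V' s).map (ιR : R →+* k) = V s := hV'
  have eqn : ∀ e, MvPolynomial.aeval Y' (A.F e) =
      C (MvPolynomial.aeval y' (A.F e)) * rootPoly c.β t' e := by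
    intro e
    apply hιinj
    rw [← aeval_map_poly, Polynomial.map_mul, Polynomial.map_C, rootPoly_map]
    simp only [hY'']
    rw [c.eqn e]
    congr 2
    exact (MvPolynomial.comp_aeval_apply y' ιR (A.F e)).symm
  have cop : ∑ s, V' s * Y' s = 1 := by
    apply hιinj
    rw [Polynomial.map_sum, Polynomial.map_one, ← hV]
    refine Finset.sum_congr rfl fun s _ => ?_
    rw [Polynomial.map_mul, hY'', hV'']
  refine ⟨{ m := c.m
            ι := c.ι
            β := c.β
            t := fun i => φC (t' i)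
            Y := fun s => (Y' s).map (φC : R →+* K)
            m_pos := c.m_pos
            mem := c.mem
            inj := ?_
            deg := ?_
            lead := ?_
            cop := ?_
            eqn := ?_ }, ?_⟩
  · intro i i' hii
    by_contra hne
    have h0 : c.t i - c.t i' ≠ 0 := sub_ne_zero.2 fun h => hne (c.inj h)
    have h1 : (t' i - t' i') * ⟨(c.t i - c.t i')⁻¹, hti i i'⟩ = 1 := by
      apply Subtype.ext
      change (c.t i - c.t i') * (c.t i - c.t i')⁻¹ = 1
      exact mul_inv_cancel₀ h0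
    have h2 := congrArg φC h1
    rw [map_mul, map_sub, map_one] at h2
    have hii' : φC (t' i) = φC (t' i') := hii
    rw [hii', sub_self, zero_mul] at h2
    exact zero_ne_one h2
  · intro s
    refine natDegree_map_le.trans ?_
    have h1 : (Y' s).natDegree = (c.Y s).natDegree := by
      rw [← hY'' s]
      exact (natDegree_map_eq_of_injective Subtype.val_injective _).symm
    rw [h1]
    exact c.deg s
  · intro s
    rw [coeff_map]
    have h1 : (Y' s).coeff c.m = y' s := by
      apply Subtype.ext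
      have h2 := c.lead s
      rw [← hY'' s, coeff_map] at h2
      exact h2
    rw [h1]
    exact hφy s
  · refine ⟨fun s => (V' s).map (φC : R →+* K), ?_⟩
    have h1 := congrArg (Polynomial.map (φC : R →+* K)) cop
    rw [Polynomial.map_sum, Polynomial.map_one] at h1
    rw [← h1]
    refine Finset.sum_congr rfl fun s _ => ?_
    rw [Polynomial.map_mul]
  · intro e
    rw [aeval_map_poly, eqn, Polynomial.map_mul, Polynomial.map_C, rootPoly_map]
    congr 2
    have h1 := MvPolynomial.comp_aeval_apply y' φC (A.F e)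
    have h2 : (fun s => φC (y' s)) = y := funext hφy
    rw [h2] at h1
    exact h1
  · change semi G y (fun s => (Y' s).map (φC : R →+* K)) ≠ 0
    have h2 : (fun s => φC (y' s)) = y := funext hφy
    have h3 := semi_map φC G y' Y'
    rw [h2] at h3
    rw [h3]
    have h4 := semi_map ιR G y' Y'
    simp only [hY'', hy'] at h4
    intro h0
    have h5 := congrArg (fun p : K[X] => p.coeff j) h0
    simp only [coeff_map, coeff_zero] at h5
    have h6 : (semi G y' Y').coeff j * ⟨g⁻¹, hgR⟩ = 1 := by
      apply Subtype.ext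
      have h7 : ((semi G y' Y').coeff j : k) = g := by
        rw [hg, h4, coeff_map]
        rfl
      change ((semi G y' Y').coeff j : k) * g⁻¹ = 1
      rw [h7]
      exact mul_inv_cancel₀ hj
    have h8 := congrArg φC h6
    rw [map_mul, map_one] at h8
    have h9 : φC ((semi G y' Y').coeff j) = 0 := h5
    rw [h9, zero_mul] at h8
    exact zero_ne_one h8

theorem transfer {k : Type} [Field k] [Algebra ℂ k] {x : Fin (n + 1) → k}
    (hx : AlgebraicIndependent ℂ x) (c : Cv A k x)
    (G : MvPolynomial (Fin (n + 1) ⊕ Fin (n + 1)) ℂ) (h : semi G x c.Y ≠ 0) :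
    ∃ c' : Cv A (KK n) (gen n), semi G (gen n) c'.Y ≠ 0 := by
  let Ω := AlgebraicClosure k
  let f : k →ₐ[ℂ] Ω := IsScalarTower.toAlgHom ℂ k Ω
  have hf : Function.Injective f := f.injective
  have hx' : AlgebraicIndependent ℂ (fun s => f (x s)) := hx.map' hf
  let ψ0 : MvPolynomial (Fin (n + 1)) ℂ →ₐ[ℂ] Ω := MvPolynomial.aeval (fun s => f (x s))
  have hψ0 : Function.Injective ψ0 := hx'
  let ψ1 : FractionRing (MvPolynomial (Fin (n + 1)) ℂ) →ₐ[ℂ] Ω :=
    IsFractionRing.liftAlgHom (K := FractionRing (MvPolynomial (Fin (n + 1)) ℂ)) hψ0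
  let _ : Algebra (FractionRing (MvPolynomial (Fin (n + 1)) ℂ)) Ω := ψ1.toRingHom.toAlgebra
  let ψ2 : KK n →ₐ[FractionRing (MvPolynomial (Fin (n + 1)) ℂ)] Ω := IsAlgClosed.lift
  let _ : Algebra (KK n) Ω := ψ2.toRingHom.toAlgebra
  have : IsScalarTower ℂ (KK n) Ω := by
    refine IsScalarTower.of_algebraMap_eq fun a => ?_
    have h1 : algebraMap ℂ (KK n) a = algebraMap (FractionRing (MvPolynomial (Fin (n + 1)) ℂ))
        (KK n) (algebraMap ℂ _ a) := IsScalarTower.algebraMap_apply _ _ _ _
    rw [h1]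
    change _ = ψ2 _
    rw [ψ2.commutes]
    change _ = ψ1 _
    rw [ψ1.commutes]
  have hgen : (fun s => algebraMap (KK n) Ω (gen n s)) = fun s => f (x s) := by
    funext s
    change ψ2 (gen n s) = _
    unfold gen
    rw [ψ2.commutes]
    change ψ1 _ = _
    have hψ : ψ1 (algebraMap (MvPolynomial (Fin (n + 1)) ℂ) _ (MvPolynomial.X s)) =
        ψ0 (MvPolynomial.X s) := by
      exact IsFractionRing.lift_algebraMap (g := ψ0.toRingHom) hψ0 _
    rw [hψ]
    exact MvPolynomial.aeval_X _ _
  have key : ∀ (z : Fin (n + 1) → Ω) (_ : z = fun s => f (x s)),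
      ∃ c1 : Cv A Ω z, semi G z c1.Y ≠ 0 := by
    rintro z rfl
    refine ⟨c.map f, ?_⟩
    have h1 := semi_map f G x c.Y
    change semi G (fun s => f (x s)) (fun s => (c.Y s).map (f : k →+* Ω)) ≠ 0
    rw [h1]
    exact (Polynomial.map_ne_zero_iff hf).2 h
  obtain ⟨c1, hc1⟩ := key _ hgen
  exact transfer_aux (gen n) c1 G hc1

end Pool.Agent.Work.RC
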