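import Mathlib
import Pool.Agent.Work.MP_4329d7_ag_rc.SncDefs
import Pool.Agent.Work.MP_4329d7_ag_rc.Red
import Pool.Agent.Work.MP_4329d7_ag_rc.Transfer
import Pool.Agent.Work.MP_4329d7_ag_snc.Final

/-!
If the pluricanonical forms of the uniform order are zero then there is a curve over `KK n`
through the generic point (helper44).
-/

namespace Pool.Agent.Work.RC

open Polynomial
open Pool.Agent.Work.Uni Pool.Agent.Work.Snc
open Pool.Agent.Work.MP_4329d7_ag.FF

section general

variable {I : Type} [Fintype I] [DecidableEq I] {n : I → ℕ} {E : Type} [Fintype E]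
  {F : E → MvPolynomial (Co I n) ℂ} {d : E → I → ℕ} {N : ℕ} {K : Type}
  {S : Set (K × (E → ℕ))} {k : Type} [Field k] [Algebra ℂ k]

theorem blk_some {β : Pt F → ℕ} (h : BlkP F N S β) (e : E) (μ : (F e).support) :
    β (Sum.inl ⟨e, some μ⟩) = ∑ s, μ.1 s * β (Sum.inr s) := by
  rcases h with ⟨b, _, hb⟩ | ⟨s, hs⟩
  · rw [hb]
    simp [liftB]
  · rw [hs]
    simp [liftC]

omit [Algebra ℂ k] in
theorem rootPoly_some {ι : Type} [Fintype ι] {β : ι → Pt F → ℕ} (hβ : ∀ l, BlkP F N S (β l))
    (t : ι → k) (e : E) (μ : (F e).support) :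
    rootPoly β t (Sum.inl ⟨e, some μ⟩) = ∏ s, rootPoly β t (Sum.inr s) ^ μ.1 s := by
  simp only [rootPoly, ← Finset.prod_pow]
  rw [Finset.prod_comm]
  refine Finset.prod_congr rfl fun l _ => ?_
  rw [blk_some (hβ l), ← Finset.prod_pow_eq_pow_sum]
  refine Finset.prod_congr rfl fun s _ => ?_
  rw [← pow_mul, mul_comm (β l (Sum.inr s))]

theorem isSol_curve [DecidableEq E] {c : Co I n → k} {ι : Type} [Fintype ι] {β : ι → Pt F → ℕ}
    (hβ : ∀ l, BlkP F N S (β l)) {t : ι → k} (hsol : IsSol (coefP F c) β t) (e : E) :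
    MvPolynomial.aeval (fun s => C (c s) * rootPoly β t (Sum.inr s)) (F e) =
      C (MvPolynomial.aeval c (F e)) * rootPoly β t (Sum.inl ⟨e, none⟩) := by
  have h1 := hsol e
  rw [sum_pt, Finset.sum_eq_single e] at h1
  · simp only [coefP, Sum.elim_inl, Sum.elim_inr, if_true, Option.elim_none, Option.elim_some,
      C_0, zero_mul, Finset.sum_const_zero, add_zero, rootPoly_some hβ] at h1
    rw [Finset.sum_coe_sort (F e).support (fun μ => C (algebraMap ℂ k
      (MvPolynomial.coeff μ (F e)) * μ.prod fun s j => c s ^ j) *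
        ∏ s, rootPoly β t (Sum.inr s) ^ μ s)] at h1
    have h2 : MvPolynomial.aeval (fun s => C (c s) * rootPoly β t (Sum.inr s)) (F e) =
        ∑ μ ∈ (F e).support, C (algebraMap ℂ k
          (MvPolynomial.coeff μ (F e)) * μ.prod fun s j => c s ^ j) *
          ∏ s, rootPoly β t (Sum.inr s) ^ μ s := by
      rw [MvPolynomial.aeval_def, MvPolynomial.eval₂_eq']
      refine Finset.sum_congr rfl fun μ _ => ?_
      rw [Finsupp.prod_fintype _ _ (fun _ => pow_zero _)]
      simp only [mul_pow, Finset.prod_mul_distrib, C_mul, map_prod, map_pow,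
        Polynomial.algebraMap_apply]
      ring
    rw [← h2, C_neg] at h1
    linear_combination h1
  · intro e' _ he'
    simp [coefP, he']
  · intro h
    exact absurd (Finset.mem_univ e) h

theorem const_of_coord [DecidableEq E] (hom : ∀ e i, (F e).IsWeightedHomogeneous (wt i) (d e i))
    {c : Co I n → k} (hc : ∀ e, MvPolynomial.aeval c (F e) ≠ 0) {ι : Type} [Fintype ι]
    {β : ι → Pt F → ℕ} (hβ : ∀ l, BlkP F N S (β l)) {t : ι → k}
    (hsol : IsSol (coefP F c) β t)
    (hR : ∀ s, rootPoly β t (Sum.inr s) = rootPoly β t (Sum.inr ⟨s.1, 0⟩)) (p p' : Pt F)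
    (hpp : fac F p = fac F p') : rootPoly β t p = rootPoly β t p' := by
  have hnone : ∀ e, rootPoly β t (Sum.inl ⟨e, none⟩) =
      ∏ i, rootPoly β t (Sum.inr ⟨i, 0⟩) ^ d e i := by
    intro e
    have h1 := isSol_curve hβ hsol e
    have h2 : (fun s => C (c s) * rootPoly β t (Sum.inr s)) =
        fun s : Co I n => rootPoly β t (Sum.inr ⟨s.1, 0⟩) * C (c s) := by
      funext s
      rw [hR s, mul_comm]
    rw [h2, multihom_scale (hom e) (fun i => rootPoly β t (Sum.inr ⟨i, 0⟩))
      (fun s => C (c s))] at h1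
    have h3 : MvPolynomial.aeval (fun s => (C (c s) : k[X])) (F e) =
        C (MvPolynomial.aeval c (F e)) := by
      have h4 : (MvPolynomial.aeval (fun s => (C (c s) : k[X])) :
          MvPolynomial (Co I n) ℂ →ₐ[ℂ] k[X]) =
          (Polynomial.CAlgHom (R := ℂ) (A := k)).comp (MvPolynomial.aeval c) := by
        refine MvPolynomial.algHom_ext fun s => ?_
        rw [AlgHom.comp_apply, MvPolynomial.aeval_X, MvPolynomial.aeval_X]
        rfl
      rw [h4]
      rfl
    rw [h3, mul_comm] at h1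
    exact (mul_left_cancel₀ (C_ne_zero.2 (hc e)) h1).symm
  have hsome : ∀ e (μ : (F e).support), rootPoly β t (Sum.inl ⟨e, some μ⟩) =
      ∏ i, rootPoly β t (Sum.inr ⟨i, 0⟩) ^ d e i := by
    intro e μ
    rw [rootPoly_some hβ, Fintype.prod_sigma]
    refine Finset.prod_congr rfl fun i _ => ?_
    rw [← sum_monomial (hom e i) μ.2, ← Finset.prod_pow_eq_pow_sum]
    exact Finset.prod_congr rfl fun j _ => by rw [hR]
  rcases p with ⟨e, o⟩ | s <;> rcases p' with ⟨e', o'⟩ | s'
  · have he : e = e' := Sum.inl.inj hpp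
    subst he
    rcases o with _ | μ <;> rcases o' with _ | μ'
    · rfl
    · rw [hnone, hsome]
    · rw [hnone, hsome]
    · rw [hsome, hsome]
  · exact absurd hpp (by simp [fac])
  · exact absurd hpp (by simp [fac])
  · have hs : s.1 = s'.1 := Sum.inr.inj hpp
    rw [hR s, hR s', hs]

end general

section one

variable {n : ℕ}

/-- a form in one set of variables -/
noncomputable def toCo (G : MvPolynomial (Fin (n + 1)) ℂ) :
    MvPolynomial (Co Unit fun _ => n) ℂ :=
  MvPolynomial.rename (fun j => (⟨(), j⟩ : Co Unit fun _ => n)) G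

theorem co_inj : Function.Injective (fun j => (⟨(), j⟩ : Co Unit fun _ => n)) := by
  intro j j' h
  simpa using h

theorem aeval_toCo {R : Type*} [CommRing R] [Algebra ℂ R] (P : (Co Unit fun _ => n) → R)
    (G : MvPolynomial (Fin (n + 1)) ℂ) :
    MvPolynomial.aeval P (toCo G) = MvPolynomial.aeval (fun j => P ⟨(), j⟩) G := by
  rw [toCo, MvPolynomial.aeval_rename]
  rfl

theorem eval_toCo (P : (Co Unit fun _ => n) → ℂ) (G : MvPolynomial (Fin (n + 1)) ℂ) :
    MvPolynomial.eval P (toCo G) = MvPolynomial.eval (fun j => P ⟨(), j⟩) G := by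
  rw [toCo, MvPolynomial.eval_rename]
  rfl

theorem pderiv_toCo (j : Fin (n + 1)) (G : MvPolynomial (Fin (n + 1)) ℂ) :
    MvPolynomial.pderiv (⟨(), j⟩ : Co Unit fun _ => n) (toCo G) =
      toCo (MvPolynomial.pderiv j G) :=
  MvPolynomial.pderiv_rename co_inj j G

theorem toCo_hom {G : MvPolynomial (Fin (n + 1)) ℂ} {e : ℕ} (hG : G.IsHomogeneous e) (i : Unit) :
    (toCo G).IsWeightedHomogeneous (wt i) e := by
  have h1 : (toCo G).IsHomogeneous e := hG.rename_isHomogeneous
  have h2 : (wt i : (Co Unit fun _ => n) → ℕ) = 1 := by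
    funext s
    simp [wt]
  rw [h2]
  exact h1

/-- a form of positive degree has a zero in `ℙⁿ`, `n > 0` -/
theorem exists_zero {G : MvPolynomial (Fin (n + 1)) ℂ} {e : ℕ} (hG : G.IsHomogeneous e)
    (he : 0 < e) (hn : 0 < n) : ∃ P : Fin (n + 1) → ℂ, P ≠ 0 ∧ MvPolynomial.eval P G = 0 := by
  obtain ⟨n, rfl⟩ : ∃ m, n = m + 1 := ⟨n - 1, by omega⟩
  let Y : Fin (n + 1 + 1) → ℂ[X] := Fin.cons 1 (Fin.cons X 0)
  have hY : ∀ s, (Y s).natDegree ≤ 1 := by
    intro s
    refine Fin.cases ?_ (fun s => ?_) s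
    · simp [Y]
    · refine Fin.cases ?_ (fun s => ?_) s
      · simp [Y]
      · simp [Y]
  have hev : ∀ a : ℂ, (MvPolynomial.aeval Y G).eval a =
      MvPolynomial.eval (fun s => (Y s).eval a) G := by
    intro a
    have h1 : ((Polynomial.aeval a : ℂ[X] →ₐ[ℂ] ℂ).comp (MvPolynomial.aeval Y)) =
        MvPolynomial.aeval (fun s => (Y s).eval a) := by
      refine MvPolynomial.algHom_ext fun s => ?_
      rw [AlgHom.comp_apply, MvPolynomial.aeval_X, MvPolynomial.aeval_X,
        Polynomial.coe_aeval_eq_eval]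
    have h2 := congrArg (fun f => f G) h1
    simp only [AlgHom.comp_apply, Polynomial.coe_aeval_eq_eval] at h2
    rw [h2, MvPolynomial.aeval_eq_eval]
  by_cases hdeg : (MvPolynomial.aeval Y G).degree = 0
  · have h1 := coeff_aeval hG Y hY
    refine ⟨fun s => (Y s).coeff 1, ?_, ?_⟩
    · intro h0
      have := congrFun h0 1
      rw [show (1 : Fin (n + 1 + 1)) = Fin.succ 0 from rfl] at this
      simp [Y] at this
    · rw [← MvPolynomial.aeval_eq_eval]
      rw [← h1]
      refine coeff_eq_zero_of_natDegree_lt ?_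
      have h2 : (MvPolynomial.aeval Y G).natDegree = 0 :=
        natDegree_eq_zero_iff_degree_le_zero.2 hdeg.le
      rw [h2]
      omega
  · obtain ⟨a, ha⟩ := IsAlgClosed.exists_root _ hdeg
    refine ⟨fun s => (Y s).eval a, ?_, ?_⟩
    · intro h0
      have := congrFun h0 0
      simp [Y] at this
    · rw [← hev]
      exact ha

variable {K : Type} [Field K] [Algebra ℂ K] {E : Type} [Fintype E] [DecidableEq E]
  {F : E → MvPolynomial (Fin (n + 1)) ℂ} {d : E → ℕ} {N : ℕ} {x : Fin n → K}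
  {S : Set (K × (E → ℕ))}

omit [DecidableEq E] in
theorem sncData_of_one (D : SncOne K n E F d N x S) :
    SncData K Unit (fun _ => n) E (fun e => toCo (F e)) (fun e _ => d e) N (fun _ => x) S where
  N_pos := D.N_pos
  n_pos _ := D.n_pos
  hom e i := toCo_hom (D.hom e) i
  snc P hP := by
    have hP0 : (fun j => P ⟨(), j⟩) ≠ 0 := by
      obtain ⟨j, hj⟩ := hP ()
      intro h0
      exact hj (congrFun h0 j)
    have h1 := D.snc _ hP0
    have h2 : ∀ e, MvPolynomial.eval P (toCo (F e)) = 0 →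
        MvPolynomial.eval (fun j => P ⟨(), j⟩) (F e) = 0 := fun e he => by rw [← eval_toCo, he]
    have h3 := h1.comp (fun e : {e // MvPolynomial.eval P (toCo (F e)) = 0} =>
      (⟨e.1, h2 _ e.2⟩ : {e // MvPolynomial.eval (fun j => P ⟨(), j⟩) (F e) = 0}))
      (fun e e' h => Subtype.ext (congrArg (fun z :
        {e // MvPolynomial.eval (fun j => P ⟨(), j⟩) (F e) = 0} => z.1) h))
    let f : ((Co Unit fun _ => n) → ℂ) →ₗ[ℂ] (Fin (n + 1) → ℂ) :=
      LinearMap.funLeft ℂ ℂ (fun j => (⟨(), j⟩ : Co Unit fun _ => n))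
    refine LinearIndependent.of_comp f ?_
    convert h3 using 1
    funext e j
    simp only [Function.comp_apply, f, LinearMap.funLeft_apply]
    rw [pderiv_toCo, eval_toCo]
  nonempty e := by
    obtain ⟨P, hP, hPe⟩ := exists_zero (D.hom e) (D.d_pos e) D.n_pos
    refine ⟨fun s => P s.2, fun i => Function.ne_iff.1 hP, ?_⟩
    rw [eval_toCo]
    exact hPe
  alg_indep := by
    have h1 := D.alg_indep
    exact h1.comp (fun p : Σ _ : Unit, Fin n => p.2) (by
      rintro ⟨⟨⟩, j⟩ ⟨⟨⟩, j'⟩ h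
      simpa using h)
  rad z c hz := by
    refine (D.rad z c hz).trans (Finset.prod_congr rfl fun e _ => ?_)
    rw [aeval_toCo]
    rfl
  deg z c hz _ := D.deg z c hz
  gen := by
    rw [← D.gen]
    congr 2
    ext y
    constructor
    · rintro ⟨p, rfl⟩
      exact ⟨p.2, rfl⟩
    · rintro ⟨j, rfl⟩
      exact ⟨⟨(), j⟩, rfl⟩
  branch := D.branch

omit [DecidableEq E] in
theorem sncOne_ne_zero (D : SncOne K n E F d N x S) (e : E) : F e ≠ 0 := by
  intro h0
  obtain ⟨P, hP, hPe⟩ := exists_zero (D.hom e) (D.d_pos e) D.n_pos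
  refine (D.snc P hP).ne_zero ⟨e, hPe⟩ ?_
  funext s
  simp [h0]

theorem snc_monic_rootPoly {k ι Pt : Type} [Field k] [Fintype ι] (β : ι → Pt → ℕ) (t : ι → k)
    (p : Pt) : (rootPoly β t p).Monic := by
  unfold rootPoly
  exact monic_prod_of_monic _ _ fun i _ => (monic_X_sub_C _).pow _

theorem snc_natDegree_rootPoly {k ι Pt : Type} [Field k] [Fintype ι] (β : ι → Pt → ℕ) (t : ι → k)
    (p : Pt) : (rootPoly β t p).natDegree = ∑ i, β i p := by
  unfold rootPoly
  rw [natDegree_prod_of_monic _ _ fun i _ => (monic_X_sub_C _).pow _]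
  refine Finset.sum_congr rfl fun i _ => ?_
  rw [(monic_X_sub_C _).natDegree_pow, natDegree_X_sub_C, mul_one]

/-- a nonconstant solution of the root system gives a curve -/
theorem curve_of_not_starP (D : SncOne K n E F d N x S) [Nonempty E]
    (h : ¬ StarP (BlkP (fun e => toCo (F e)) N S) (fac fun e => toCo (F e))
      (coefP (fun e => toCo (F e)) (fun s => gen n s.2))) :
    Nonempty (Cv (sncArr F d N S) (KK n) (gen n)) := by
  classical
  by_contra hno
  apply h
  intro ι _ β m hβ hpack t hsol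
  have hc : ∀ e, MvPolynomial.aeval (fun s : Co Unit fun _ => n => gen n s.2) (toCo (F e)) ≠ 0 := by
    intro e h0
    rw [aeval_toCo] at h0
    exact sncOne_ne_zero D e ((injective_iff_map_eq_zero _).1 (gen_ai n) _ h0)
  have hg : ∀ j, gen n j ≠ 0 := fun j => (gen_ai n).ne_zero j
  refine const_of_coord (d := fun e _ => d e) (fun e i => toCo_hom (D.hom e) i) hc hβ hsol ?_
  intro s
  by_contra hne
  obtain ⟨⟨⟩, j⟩ := s
  have hdeg : ∀ j', (rootPoly β t (Sum.inr ⟨(), j'⟩)).natDegree = m (Sum.inr ()) := by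
    intro j'
    rw [snc_natDegree_rootPoly, hpack]
    rfl
  obtain ⟨c, -⟩ := red (snc_ok D) (gen_ai n) (m (Sum.inr ())) ι
    (fun i e => β i (Sum.inl ⟨e, none⟩)) t
    (fun j' => C (gen n j') * rootPoly β t (Sum.inr ⟨(), j'⟩))
    (by
      intro i z c' hz
      rcases hβ i with ⟨b, hb, hbl⟩ | ⟨s, hs⟩
      · have h1 := hb.2.1 z c' hz
        have h2 : ∑ e, ((β i (Sum.inl ⟨e, none⟩) : ℕ) : ℤ) * (c' e : ℤ) =
            ((∑ e, b e * c' e : ℕ) : ℤ) := by
          push_cast
          rw [hbl]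
          rfl
        change (N : ℤ) ∣ ∑ e, ((β i (Sum.inl ⟨e, none⟩) : ℕ) : ℤ) * (c' e : ℤ)
        rw [h2]
        exact_mod_cast h1
      · have h2 : ∑ e, ((β i (Sum.inl ⟨e, none⟩) : ℕ) : ℤ) * (c' e : ℤ) = 0 := by
          refine Finset.sum_eq_zero fun e _ => ?_
          rw [hs]
          simp [liftC]
        change (N : ℤ) ∣ ∑ e, ((β i (Sum.inl ⟨e, none⟩) : ℕ) : ℤ) * (c' e : ℤ)
        rw [h2]
        exact dvd_zero _)
    (by
      intro j'
      exact (natDegree_C_mul_le _ _).trans (hdeg j').le)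
    (by
      intro j'
      have h1 := (snc_monic_rootPoly β t (Sum.inr (⟨(), j'⟩ : Co Unit fun _ => n))).coeff_natDegree
      rw [hdeg] at h1
      rw [coeff_C_mul, h1, mul_one])
    (by
      intro e
      have h1 := isSol_curve hβ hsol e
      rw [aeval_toCo, aeval_toCo] at h1
      exact h1)
    (by
      refine ⟨j, 0, fun h1 => hne ?_⟩
      have h2 : C (gen n j) * C (gen n 0) * rootPoly β t (Sum.inr ⟨(), 0⟩) =
          C (gen n j) * C (gen n 0) * rootPoly β t (Sum.inr ⟨(), j⟩) := by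
        linear_combination h1
      exact (mul_left_cancel₀ (mul_ne_zero (C_ne_zero.2 (hg j)) (C_ne_zero.2 (hg 0))) h2).symm)
  exact hno ⟨c⟩

/-- if the pluricanonical forms of the uniform order are zero then there is a curve -/
theorem snc_curve (n : ℕ) : ∃ M : ℕ, 0 < M ∧
    ∀ (K : Type) [Field K] [Algebra ℂ K]
    (E : Type) [Fintype E] [DecidableEq E] [Nonempty E]
    (F : E → MvPolynomial (Fin (n + 1)) ℂ) (d : E → ℕ) (N : ℕ) (x : Fin n → K)
    (S : Set (K × (E → ℕ))), SncOne K n E F d N x S →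
    (∀ T : TensorForm K (M * n), IsPluricanonical M n T → IsRegular T → T = 0) →
      Nonempty (Cv (sncArr F d N S) (KK n) (gen n)) := by
  obtain ⟨M, hM, h⟩ := not_starP n
  refine ⟨M, hM, fun K _ _ E _ _ _ F d N x S D hT => curve_of_not_starP D ?_⟩
  exact h K Unit (fun _ => n) E _ _ N _ S (sncData_of_one D) (by simp) hT (KK n) _

end one

end Pool.Agent.Work.RC
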