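import Mathlib
import Pool.Agent.Work.MP_4329d7_ag_rc.Transfer

/-!
The coefficients of a form with minimal support among the forms over `KK n` which vanish on all
curves through the generic point are in `ℂ(x)`: the automorphisms of `KK n` over `ℂ(x)` act on the
curves.
-/

namespace Pool.Agent.Work.RC

open Polynomial
open Pool.Agent.Work.Uni (rootPoly)

variable {n : ℕ} {E : Type} {A : Arr n E}

/-- base change of the base point along an equality -/
theorem exists_cv_of_eq {k : Type} [Field k] [Algebra ℂ k] {x x' : Fin (n + 1) → k} (h : x = x')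
    (c : Cv A k x) : ∃ c' : Cv A k x', c'.Y = c.Y := by
  subst h
  exact ⟨c, rfl⟩

/-- the conjugate form vanishes on all curves through the generic point -/
theorem aeval_map_eq_zero (P : MvPolynomial (Fin (n + 1)) (KK n))
    (hvan : ∀ c : Cv A (KK n) (gen n), MvPolynomial.aeval c.Y P = 0)
    (σ : KK n ≃ₐ[FractionRing (MvPolynomial (Fin (n + 1)) ℂ)] KK n)
    (c : Cv A (KK n) (gen n)) :
    MvPolynomial.aeval c.Y (MvPolynomial.map (σ : KK n →+* KK n) P) = 0 := by
  classical
  let τ : KK n →ₐ[ℂ] KK n := (σ.symm.restrictScalars ℂ : KK n ≃ₐ[ℂ] KK n)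
  have hx : (fun s => τ (gen n s)) = gen n := by
    funext s
    change σ.symm (gen n s) = gen n s
    unfold gen
    exact σ.symm.commutes _
  obtain ⟨c', hc'⟩ := exists_cv_of_eq hx (c.map τ)
  have h0 := hvan c'
  rw [hc'] at h0
  have hY : (c.map τ).Y = fun s => (c.Y s).map (τ : KK n →+* KK n) := rfl
  have key : Polynomial.mapRingHom (σ : KK n →+* KK n)
      (MvPolynomial.aeval (c.map τ).Y P) =
        MvPolynomial.aeval c.Y (MvPolynomial.map (σ : KK n →+* KK n) P) := by
    rw [MvPolynomial.aeval_def, MvPolynomial.aeval_def, MvPolynomial.eval₂_map,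
      ← MvPolynomial.coe_eval₂Hom, ← RingHom.comp_apply, MvPolynomial.comp_eval₂Hom]
    have e1 : (Polynomial.mapRingHom (σ : KK n →+* KK n)).comp
        (algebraMap (KK n) (Polynomial (KK n))) =
          (algebraMap (KK n) (Polynomial (KK n))).comp (σ : KK n →+* KK n) := by
      refine RingHom.ext fun a => ?_
      simp
    have e2 : (fun i => Polynomial.mapRingHom (σ : KK n →+* KK n) ((c.map τ).Y i)) = c.Y := by
      funext s
      simp only [hY, Polynomial.coe_mapRingHom, Polynomial.map_map]
      have : (σ : KK n →+* KK n).comp (τ : KK n →+* KK n) = RingHom.id _ := by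
        refine RingHom.ext fun a => ?_
        simp [τ]
      rw [this, Polynomial.map_id]
    rw [e1, e2]
    rfl
  rw [← key, h0, map_zero]

/-- the coefficients of a form with minimal support are rational functions of `x` -/
theorem coeff_rational (P : MvPolynomial (Fin (n + 1)) (KK n)) (r : ℕ) (hP : P.IsHomogeneous r)
    (hP0 : P ≠ 0) (hvan : ∀ c : Cv A (KK n) (gen n), MvPolynomial.aeval c.Y P = 0)
    (hmin : ∀ P' : MvPolynomial (Fin (n + 1)) (KK n), P'.IsHomogeneous r → P' ≠ 0 →
      (∀ c : Cv A (KK n) (gen n), MvPolynomial.aeval c.Y P' = 0) →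
        P.support.card ≤ P'.support.card)
    (α₀ : Fin (n + 1) →₀ ℕ) (h1 : P.coeff α₀ = 1) (α : Fin (n + 1) →₀ ℕ) :
    ∃ q : FractionRing (MvPolynomial (Fin (n + 1)) ℂ), P.coeff α = algebraMap _ (KK n) q := by
  classical
  have hfix : ∀ σ : KK n ≃ₐ[FractionRing (MvPolynomial (Fin (n + 1)) ℂ)] KK n,
      MvPolynomial.map (σ : KK n →+* KK n) P = P := by
    intro σ
    by_contra hne
    set P' := MvPolynomial.map (σ : KK n →+* KK n) P - P with hP'
    have hP'0 : P' ≠ 0 := sub_ne_zero.2 hne
    have hhom : P'.IsHomogeneous r := (hP.map _).sub hP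
    have hvan' : ∀ c : Cv A (KK n) (gen n), MvPolynomial.aeval c.Y P' = 0 := by
      intro c
      rw [hP', map_sub, aeval_map_eq_zero P hvan σ c, hvan c, sub_zero]
    have hsub : P'.support ⊆ P.support.erase α₀ := by
      intro β hβ
      rw [MvPolynomial.mem_support_iff] at hβ
      rw [Finset.mem_erase, MvPolynomial.mem_support_iff]
      constructor
      · rintro rfl
        apply hβ
        rw [hP', MvPolynomial.coeff_sub, MvPolynomial.coeff_map, h1, map_one, sub_self]
      · intro h0
        apply hβ
        rw [hP', MvPolynomial.coeff_sub, MvPolynomial.coeff_map, h0, map_zero, sub_zero]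
    have hmem : α₀ ∈ P.support := by
      rw [MvPolynomial.mem_support_iff, h1]
      exact one_ne_zero
    have h2 := hmin P' hhom hP'0 hvan'
    have h3 := Finset.card_le_card hsub
    have h4 := Finset.card_erase_lt_of_mem hmem
    omega
  have hσ : ∀ σ : KK n ≃ₐ[FractionRing (MvPolynomial (Fin (n + 1)) ℂ)] KK n,
      σ (P.coeff α) = P.coeff α := by
    intro σ
    have := congrArg (MvPolynomial.coeff α) (hfix σ)
    rwa [MvPolynomial.coeff_map] at this
  have hmem : P.coeff α ∈ (⊥ : IntermediateField (FractionRing (MvPolynomial (Fin (n + 1)) ℂ))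
      (KK n)) := by
    rw [InfiniteGalois.mem_bot_iff_fixed]
    exact hσ
  obtain ⟨q, hq⟩ := IntermediateField.mem_bot.1 hmem
  exact ⟨q, hq.symm⟩

end Pool.Agent.Work.RC
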