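import Mathlib
import Pool.Agent.Work.MP_4329d7_ag_rc.IFTDual
import Pool.Agent.Work.MP_4329d7_ag_uni.Defs

/-!
R7, gluing: root solutions `t j` of types `β j` with surjective Jacobians are glued to a root
solution over `k[[ε]]` of the sum of the types, with roots `τ j + ε t j i + O(ε ^ 2)`.
-/

namespace Pool.Agent.Work.RC

open Polynomial Pool.Agent.Work.Uni TrivSqZeroExt

/-- minus the derivative of `rootPoly β · p` at `t` in the direction `δ` -/
noncomputable def dRoot {ι Pt k : Type*} [Fintype ι] [CommRing k] (β : ι → Pt → ℕ)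
    (t δ : ι → k) (p : Pt) : k[X] :=
  open Classical in
  ∑ i, C (δ i) * ((β i p : k[X]) * (X - C (t i)) ^ (β i p - 1) *
    ∏ i' ∈ Finset.univ.erase i, (X - C (t i')) ^ β i' p)

/-- the Jacobian of the system at `t` is onto -/
def FreeAt {ι Pt Q k : Type*} [Fintype ι] [Fintype Pt] [CommRing k]
    (a : Q → Pt → k) (β : ι → Pt → ℕ) (m : Q → ℕ) (t : ι → k) : Prop :=
  ∀ R : Q → k[X], (∀ q, (R q).degree < m q) → ∃ δ : ι → k,
    ∀ q, ∑ p, C (a q p) * dRoot β t δ p = R q

section Sys

variable {k J Pt Q : Type} [Field k] [Fintype J] [DecidableEq J] [Fintype Pt]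
  {ι : J → Type} [∀ j, Fintype (ι j)]

/-- the factors after the substitution `X = τ j + ε X'` -/
noncomputable def glueL (τ : J → k) (j : J) (s : Σ j, ι j) :
    Polynomial (MvPolynomial (Σ j, ι j) (PowerSeries k)) :=
  if s.1 = j then X - C (MvPolynomial.X s)
  else C (MvPolynomial.C (PowerSeries.C (τ j - τ s.1))) +
    C (MvPolynomial.C PowerSeries.X) * (X - C (MvPolynomial.X s))

/-- the system after the substitution `X = τ j + ε X'` -/
noncomputable def glueG (a : Q → Pt → k) (β : ∀ j, ι j → Pt → ℕ) (τ : J → k) (j : J) (q : Q) :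
    Polynomial (MvPolynomial (Σ j, ι j) (PowerSeries k)) :=
  ∑ p, C (MvPolynomial.C (PowerSeries.C (a q p))) * ∏ s : Σ j, ι j, glueL τ j s ^ β s.1 s.2 p

omit [Fintype J] [∀ j, Fintype (ι j)] in
theorem glueL_map {S : Type} [CommRing S] (φ : PowerSeries k →+* S) (z : (Σ j, ι j) → S)
    (τ : J → k) (j : J) (s : Σ j, ι j) :
    (glueL τ j s).map (MvPolynomial.eval₂Hom φ z) =
      if s.1 = j then X - C (z s)
      else C (φ (PowerSeries.C (τ j - τ s.1))) + C (φ PowerSeries.X) * (X - C (z s)) := by
  unfold glueL
  split_ifs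
  · rw [Polynomial.map_sub, map_X, map_C, MvPolynomial.eval₂Hom_X']
  · rw [Polynomial.map_add, map_C, Polynomial.map_mul, map_C, Polynomial.map_sub, map_X, map_C,
      MvPolynomial.eval₂Hom_X', MvPolynomial.eval₂Hom_C, MvPolynomial.eval₂Hom_C]

theorem glueG_map {S : Type} [CommRing S] (φ : PowerSeries k →+* S) (z : (Σ j, ι j) → S)
    (a : Q → Pt → k) (β : ∀ j, ι j → Pt → ℕ) (τ : J → k) (j : J) (q : Q) :
    (glueG a β τ j q).map (MvPolynomial.eval₂Hom φ z) =
      ∑ p, C (φ (PowerSeries.C (a q p))) * ∏ s : Σ j, ι j,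
        (if s.1 = j then X - C (z s)
          else C (φ (PowerSeries.C (τ j - τ s.1))) + C (φ PowerSeries.X) * (X - C (z s))) ^
            β s.1 s.2 p := by
  unfold glueG
  rw [Polynomial.map_sum]
  refine Finset.sum_congr rfl fun p _ => ?_
  rw [Polynomial.map_mul, map_C, MvPolynomial.eval₂Hom_C, Polynomial.map_prod]
  congr 1
  refine Finset.prod_congr rfl fun s _ => ?_
  rw [Polynomial.map_pow, glueL_map]

end Sys

/-- the dual numbers computation for one tooth -/
theorem rootPoly_dual {ι Pt k : Type} [Fintype ι] [Field k] (β : ι → Pt → ℕ) (t δ : ι → k)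
    (p : Pt) :
    ∏ i, (X - C (inl (t i) + inr (δ i) : DualNumber k)) ^ β i p =
      (rootPoly β t p).map (algebraMap k (DualNumber k)) -
        C (inr 1 : DualNumber k) * (dRoot β t δ p).map (algebraMap k (DualNumber k)) := by
  classical
  set η : Polynomial (DualNumber k) := C (inr 1 : DualNumber k) with hη
  have hηη : η * η = 0 := by
    rw [hη, ← C_mul, inr_mul_inr, C_0]
  have h1 : ∀ i, (X - C (inl (t i) + inr (δ i) : DualNumber k)) =
      (X - C (inl (t i))) + η * (-C (inl (δ i))) := by
    intro i
    have h2 : (inr (δ i) : DualNumber k) = inr 1 * inl (δ i) := by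
      rw [mul_comm, inl_mul_inr, smul_eq_mul, mul_one]
    rw [h2, hη]
    simp only [C_add, C_mul]
    ring
  simp only [h1, pow_add_sq_zero η hηη]
  rw [prod_add_sq_zero Finset.univ η hηη]
  have h3 : ∀ c : k, (algebraMap k (DualNumber k)) c = inl c := fun c => rfl
  have h5 : (rootPoly β t p).map (algebraMap k (DualNumber k)) =
      ∏ i, (X - C (inl (t i) : DualNumber k)) ^ β i p := by
    rw [rootPoly, Polynomial.map_prod]
    refine Finset.prod_congr rfl fun i _ => ?_
    rw [Polynomial.map_pow, Polynomial.map_sub, map_X, map_C, h3]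
  have h6 : (dRoot β t δ p).map (algebraMap k (DualNumber k)) =
      -∑ i, (β i p : Polynomial (DualNumber k)) * (X - C (inl (t i))) ^ (β i p - 1) *
        -C (inl (δ i)) * ∏ i' ∈ Finset.univ.erase i, (X - C (inl (t i'))) ^ β i' p := by
    rw [dRoot, Polynomial.map_sum, ← Finset.sum_neg_distrib]
    refine Finset.sum_congr rfl fun i _ => ?_
    rw [Polynomial.map_mul, Polynomial.map_mul, Polynomial.map_mul, Polynomial.map_prod, map_C,
      Polynomial.map_natCast, Polynomial.map_pow, Polynomial.map_sub, map_X, map_C, h3, h3]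
    have h4 : ∀ i', ((X - C (t i')) ^ β i' p).map (algebraMap k (DualNumber k)) =
        (X - C (inl (t i') : DualNumber k)) ^ β i' p := by
      intro i'
      rw [Polynomial.map_pow, Polynomial.map_sub, map_X, map_C, h3]
    simp only [h4]
    ring
  rw [h5, h6]
  ring

/-- the leading coefficients cancel -/
theorem sol_degree_lt {A Pt Q S : Type*} [CommRing A] [Fintype Pt] [Fintype S]
    (a : Q → Pt → A) (β : S → Pt → ℕ) (T : S → A) (q : Q) (M : ℕ)
    (hM : ∀ p, a q p ≠ 0 → ∑ s, β s p = M) (hsum : ∑ p, a q p = 0) :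
    (∑ p, C (a q p) * rootPoly β T p).degree < M := by
  classical
  nontriviality A
  rw [degree_lt_iff_coeff_zero]
  intro n hn
  rw [finsetSum_coeff]
  have h1 : ∀ p, (C (a q p) * rootPoly β T p).coeff n = a q p * (if n = M then 1 else 0) := by
    intro p
    rw [coeff_C_mul]
    by_cases h0 : a q p = 0
    · rw [h0, zero_mul, zero_mul]
    · have hmon : (rootPoly β T p).Monic :=
        monic_prod_of_monic _ _ fun s _ => (monic_X_sub_C _).pow _
      have hdeg : (rootPoly β T p).natDegree = M := by
        rw [rootPoly, natDegree_prod_of_monic _ _ fun s _ => (monic_X_sub_C _).pow _, ← hM p h0]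
        refine Finset.sum_congr rfl fun s _ => ?_
        rw [(monic_X_sub_C _).natDegree_pow, natDegree_X_sub_C, mul_one]
      split_ifs with hnM
      · rw [hnM]
        congr 1
        have := hmon.coeff_natDegree
        rwa [hdeg] at this
      · congr 1
        exact coeff_eq_zero_of_natDegree_lt (by omega)
  simp only [h1, ← Finset.sum_mul, hsum, zero_mul]

/-- Gluing of root solutions. -/
theorem glue {k J Pt Q I : Type} [Field k] [Fintype J] [Fintype Pt] [Fintype Q]
    {ι : J → Type} [∀ j, Fintype (ι j)] (f : Pt → I) (g : Q → I) (a : Q → Pt → k)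
    (ha : Coef f g a) (β : ∀ j, ι j → Pt → ℕ) (m : J → I → ℕ)
    (hm : ∀ j p, ∑ i, β j i p = m j (f p)) (t : ∀ j, ι j → k)
    (ht : ∀ j, IsSol a (β j) (t j)) (hfree : ∀ j, FreeAt a (β j) (fun q => m j (g q)) (t j))
    (τ : J → k) (hτ : Function.Injective τ) :
    ∃ z : (Σ j, ι j) → PowerSeries k, (∀ s, PowerSeries.constantCoeff (z s) = t s.1 s.2) ∧
      IsSol (fun q p => PowerSeries.C (a q p)) (fun s : Σ j, ι j => β s.1 s.2)
        (fun s => PowerSeries.C (τ s.1) + PowerSeries.X * z s) := by
  classical
  -- the constants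
  let c : J → I → k := fun j i => ∏ j' ∈ Finset.univ.erase j, (τ j - τ j') ^ m j' i
  have hc : ∀ j i, c j i ≠ 0 := fun j i => Finset.prod_ne_zero_iff.2 fun j' hj' =>
    pow_ne_zero _ (sub_ne_zero.2 fun h => (Finset.mem_erase.1 hj').1 (hτ h).symm)
  -- the unknowns and the equations
  let M : Type := Σ (j : J) (q : Q), Fin (m j (g q))
  let P : M → MvPolynomial (Σ j, ι j) (PowerSeries k) := fun s => (glueG a β τ s.1 s.2.1).coeff s.2.2
  obtain ⟨z, hz0, hz⟩ := ift_dual P (fun s => t s.1 s.2) (by
    intro w
    let W : J → Q → k[X] := fun j q => ∑ l : Fin (m j (g q)), C (w ⟨j, q, l⟩) * X ^ (l : ℕ)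
    have hW : ∀ j q, (W j q).degree < m j (g q) := by
      intro j q
      rw [degree_lt_iff_coeff_zero]
      intro n hn
      rw [finsetSum_coeff]
      refine Finset.sum_eq_zero fun l _ => ?_
      rw [coeff_C_mul, coeff_X_pow, if_neg, mul_zero]
      have := l.2
      omega
    have hWc : ∀ j q (l : Fin (m j (g q))), (W j q).coeff l = w ⟨j, q, l⟩ := by
      intro j q l
      rw [finsetSum_coeff, Finset.sum_eq_single l]
      · rw [coeff_C_mul, coeff_X_pow, if_pos rfl, mul_one]
      · intro l' _ hl'
        rw [coeff_C_mul, coeff_X_pow, if_neg, mul_zero]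
        exact fun h => hl' (Fin.ext h.symm)
      · intro h
        exact absurd (Finset.mem_univ _) h
    choose δ hδ using fun j => hfree j (fun q => C (-(c j (g q))⁻¹) * W j q)
      (fun q => by
        rw [degree_C_mul (neg_ne_zero.2 (inv_ne_zero (hc j (g q))))]
        exact hW j q)
    refine ⟨fun s => δ s.1 s.2, fun ⟨j, q, l⟩ => ?_⟩
    have h1 : MvPolynomial.eval₂ (dualRed k) (fun s : Σ j, ι j => inl (t s.1 s.2) +
        inr (δ s.1 s.2)) (P ⟨j, q, l⟩) = ((glueG a β τ j q).map (MvPolynomial.eval₂Hom (dualRed k)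
          (fun s : Σ j, ι j => inl (t s.1 s.2) + inr (δ s.1 s.2)))).coeff l := by
      rw [coeff_map]
      rfl
    rw [h1, glueG_map]
    have hred : ∀ y : k, dualRed k (PowerSeries.C y) = algebraMap k (DualNumber k) y := by
      intro y
      rw [dualRed_apply, PowerSeries.constantCoeff_C]
      rfl
    have hredX : dualRed k PowerSeries.X = 0 := by
      rw [dualRed_apply, PowerSeries.constantCoeff_X, inl_zero]
    simp only [hred, hredX, C_0, zero_mul, add_zero]
    have h2 : ∀ p, C (algebraMap k (DualNumber k) (a q p)) * ∏ s : Σ j, ι j,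
        (if s.1 = j then X - C (inl (t s.1 s.2) + inr (δ s.1 s.2) : DualNumber k)
          else C (algebraMap k (DualNumber k) (τ j - τ s.1))) ^ β s.1 s.2 p =
        (C (c j (g q)) * (C (a q p) * rootPoly (β j) (t j) p)).map (algebraMap k (DualNumber k)) -
          C (inr 1) * (C (c j (g q)) * (C (a q p) * dRoot (β j) (t j) (δ j) p)).map
            (algebraMap k (DualNumber k)) := by
      intro p
      by_cases h0 : a q p = 0
      · rw [h0]
        simp
      · have hfp : f p = g q := ha.fac q p h0
        rw [Fintype.prod_sigma, ← Finset.mul_prod_erase Finset.univ _ (Finset.mem_univ j)]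
        have h3 : ∏ i, (if (⟨j, i⟩ : Σ j, ι j).1 = j then X - C (inl (t j i) + inr (δ j i) :
            DualNumber k) else C (algebraMap k (DualNumber k) (τ j - τ j))) ^ β j i p =
            ∏ i, (X - C (inl (t j i) + inr (δ j i) : DualNumber k)) ^ β j i p := by
          refine Finset.prod_congr rfl fun i _ => ?_
          rw [if_pos rfl]
        have h4 : ∏ j' ∈ Finset.univ.erase j, ∏ i, (if (⟨j', i⟩ : Σ j, ι j).1 = j then
            X - C (inl (t j' i) + inr (δ j' i) : DualNumber k) else
              C (algebraMap k (DualNumber k) (τ j - τ j'))) ^ β j' i p =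
            C (algebraMap k (DualNumber k) (c j (g q))) := by
          have h5 : ∀ j' ∈ Finset.univ.erase j, ∏ i, (if (⟨j', i⟩ : Σ j, ι j).1 = j then
              X - C (inl (t j' i) + inr (δ j' i) : DualNumber k) else
                C (algebraMap k (DualNumber k) (τ j - τ j'))) ^ β j' i p =
              C (algebraMap k (DualNumber k) ((τ j - τ j') ^ m j' (g q))) := by
            intro j' hj'
            have h6 : ∀ i : ι j', (if (⟨j', i⟩ : Σ j, ι j).1 = j then
              X - C (inl (t j' i) + inr (δ j' i) : DualNumber k) else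
                C (algebraMap k (DualNumber k) (τ j - τ j'))) =
                C (algebraMap k (DualNumber k) (τ j - τ j')) :=
              fun i => if_neg (Finset.mem_erase.1 hj').1
            simp only [h6]
            rw [Finset.prod_pow_eq_pow_sum, hm j' p, hfp, map_pow, C_pow]
          rw [Finset.prod_congr rfl h5, ← map_prod, ← map_prod]
        simp only at h3 h4 ⊢
        rw [h3, h4, rootPoly_dual]
        simp only [Polynomial.map_mul, map_C]
        ring
    rw [Finset.sum_congr rfl fun p _ => h2 p, Finset.sum_sub_distrib, ← Finset.mul_sum,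
      ← Polynomial.map_sum, ← Polynomial.map_sum, ← Finset.mul_sum, ← Finset.mul_sum, ht j q,
      hδ j q, mul_zero, Polynomial.map_zero, zero_sub, ← mul_assoc, ← C_mul, mul_neg,
      mul_inv_cancel₀ (hc j (g q)), Polynomial.map_mul, map_C, map_neg, map_one, C_neg, C_1]
    have h7 : -(C (inr 1 : DualNumber k) * (-1 * (W j q).map (algebraMap k (DualNumber k)))) =
        C (inr 1 : DualNumber k) * (W j q).map (algebraMap k (DualNumber k)) := by
      ring
    rw [h7, coeff_C_mul, coeff_map, hWc]
    have h6 : (algebraMap k (DualNumber k)) (w ⟨j, q, l⟩) = inl (w ⟨j, q, l⟩) := rfl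
    rw [h6, mul_comm, inl_mul_inr, smul_eq_mul, mul_one])
  refine ⟨z, hz0, fun q => ?_⟩
  -- the polynomial to be shown to vanish
  set T : (Σ j, ι j) → PowerSeries k := fun s => PowerSeries.C (τ s.1) + PowerSeries.X * z s with hT
  set F : Polynomial (PowerSeries k) := ∑ p, C (PowerSeries.C (a q p)) *
    rootPoly (fun s : Σ j, ι j => β s.1 s.2) T p with hF
  have hdeg : F.degree < (∑ j, m j (g q) : ℕ) := by
    refine sol_degree_lt (fun q p => PowerSeries.C (a q p)) _ T q _ (fun p hp => ?_) ?_
    · have h0 : a q p ≠ 0 := fun h => hp (by simp only [h, map_zero])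
      rw [Fintype.sum_sigma]
      refine Finset.sum_congr rfl fun j _ => ?_
      rw [hm j p, ha.fac q p h0]
    · rw [← map_sum, ha.sum q, map_zero]
  -- the local computation
  have hloc : ∀ j, (X - C (PowerSeries.C (τ j))) ^ m j (g q) ∣ F := by
    intro j
    rw [X_sub_C_pow_dvd_iff, X_pow_dvd_iff]
    intro l hl
    have h1 : (F.comp (X + C (PowerSeries.C (τ j)))).comp (C PowerSeries.X * X) =
        C (PowerSeries.X ^ m j (g q)) * (glueG a β τ j q).map (MvPolynomial.eval₂Hom
          (RingHom.id _) z) := by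
      rw [glueG_map, comp_assoc, hF, Finset.mul_sum]
      have h2 : ∀ G : Polynomial (PowerSeries k), G.comp ((X + C (PowerSeries.C (τ j))).comp
          (C PowerSeries.X * X)) = compRingHom ((X + C (PowerSeries.C (τ j))).comp
            (C PowerSeries.X * X)) G := fun G => rfl
      rw [h2, map_sum]
      refine Finset.sum_congr rfl fun p _ => ?_
      rw [map_mul, rootPoly, map_prod]
      by_cases h0 : a q p = 0
      · rw [h0]
        simp
      · have hfp : f p = g q := ha.fac q p h0
        have h3 : ∀ s : Σ j, ι j, compRingHom ((X + C (PowerSeries.C (τ j))).comp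
            (C PowerSeries.X * X)) ((X - C (T s)) ^ β s.1 s.2 p) =
            C ((if s.1 = j then PowerSeries.X else 1) ^ β s.1 s.2 p) *
            (if s.1 = j then X - C (z s) else C (RingHom.id _ (PowerSeries.C (τ j - τ s.1))) +
              C (RingHom.id _ PowerSeries.X) * (X - C (z s))) ^ β s.1 s.2 p := by
          intro s
          rw [map_pow, C_pow, ← mul_pow]
          congr 1
          rw [coe_compRingHom_apply, sub_comp, X_comp, C_comp, add_comp, X_comp, C_comp, hT]
          simp only [RingHom.id_apply]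
          split_ifs with hs
          · rw [hs]
            simp only [C_add, C_mul]
            ring
          · simp only [C_add, C_mul, map_sub, C_1]
            ring
        have h4 : ∏ s : Σ j, ι j, (if s.1 = j then (PowerSeries.X : PowerSeries k) else 1) ^
            β s.1 s.2 p = PowerSeries.X ^ m j (g q) := by
          rw [Fintype.prod_sigma, Finset.prod_eq_single j]
          · simp only [if_true]
            rw [Finset.prod_pow_eq_pow_sum, hm j p, hfp]
          · intro j' _ hj'
            refine Finset.prod_eq_one fun i _ => ?_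
            simp only
            rw [if_neg hj', one_pow]
          · intro h
            exact absurd (Finset.mem_univ _) h
        rw [Finset.prod_congr rfl fun s _ => h3 s, Finset.prod_mul_distrib, ← map_prod, h4,
          coe_compRingHom_apply, C_comp]
        simp only [RingHom.id_apply]
        ring
    have h2 : ((F.comp (X + C (PowerSeries.C (τ j)))).comp (C PowerSeries.X * X)).coeff l =
        (F.comp (X + C (PowerSeries.C (τ j)))).coeff l * PowerSeries.X ^ l := by
      rw [comp_C_mul_X_coeff]
    have h3 : ((glueG a β τ j q).map (MvPolynomial.eval₂Hom (RingHom.id _) z)).coeff l = 0 := by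
      rw [coeff_map]
      exact hz ⟨j, q, ⟨l, hl⟩⟩
    rw [h1, coeff_C_mul, h3, mul_zero] at h2
    exact (mul_eq_zero.1 h2.symm).resolve_right (pow_ne_zero _ PowerSeries.X_ne_zero)
  have hprod : ∏ j, (X - C (PowerSeries.C (τ j))) ^ m j (g q) ∣ F := by
    refine Finset.prod_dvd_of_coprime (fun j _ j' _ hjj' => ?_) fun j _ => hloc j
    refine IsCoprime.pow ?_
    refine isCoprime_X_sub_C_of_isUnit_sub ?_
    rw [← map_sub]
    exact (IsUnit.mk0 _ (sub_ne_zero.2 fun h => hjj' (hτ h))).map PowerSeries.C
  refine eq_zero_of_dvd_of_degree_lt hprod ?_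
  refine hdeg.trans_le (le_of_eq ?_)
  rw [degree_prod_of_monic _ _ fun j _ => (monic_X_sub_C _).pow _]
  push_cast
  refine Finset.sum_congr rfl fun j _ => ?_
  rw [degree_pow, degree_X_sub_C, nsmul_eq_mul, mul_one]

end Pool.Agent.Work.RC
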