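import Mathlib
import Pool.Agent.Work.MP_4329d7_ag_rc.IFTDual
import Pool.Agent.Work.MP_4329d7_ag_rc.Glue

/-!
Gluing of two curves `Y1`, `Y2` through the same point `x` (value at infinity) with
`F e (Y) = F e (x) * ∏ i, (X - t i) ^ β i e`.
-/

namespace Pool.Agent.Work.RC

open Polynomial TrivSqZeroExt

/-- homogeneous polynomials: scaling of the arguments -/
theorem eval₂_smul_hom {R S ν : Type*} [CommRing R] [CommRing S] (f : R →+* S)
    {p : MvPolynomial ν R} {d : ℕ} (hp : p.IsHomogeneous d) (r : S) (y : ν → S) :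
    MvPolynomial.eval₂ f (fun k => r * y k) p = r ^ d * MvPolynomial.eval₂ f y p := by
  classical
  rw [MvPolynomial.eval₂_eq, MvPolynomial.eval₂_eq, Finset.mul_sum]
  refine Finset.sum_congr rfl fun s hs => ?_
  simp only [mul_pow, Finset.prod_mul_distrib]
  have h1 : ∏ i ∈ s.support, r ^ s i = r ^ d := by
    rw [Finset.prod_pow_eq_pow_sum]
    congr 1
    have h2 := MvPolynomial.IsHomogeneous.degree_eq_sum_deg_support hp hs
    exact h2.symm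
  rw [h1]
  ring

/-- first order expansion with a square zero element -/
theorem eval₂_add_sq_zero {R S ν : Type*} [CommRing R] [CommRing S] [Fintype ν] (f : R →+* S)
    (η : S) (hη : η * η = 0) (y z : ν → S) (p : MvPolynomial ν R) :
    MvPolynomial.eval₂ f (fun k => y k + η * z k) p = MvPolynomial.eval₂ f y p +
      η * ∑ k, MvPolynomial.eval₂ f y (MvPolynomial.pderiv k p) * z k := by
  classical
  induction p using MvPolynomial.induction_on with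
  | C a => simp
  | add p q hp hq =>
    simp only [MvPolynomial.eval₂_add, hp, hq, map_add, add_mul, Finset.sum_add_distrib]
    ring
  | mul_X p n hp =>
    rw [MvPolynomial.eval₂_mul, MvPolynomial.eval₂_X, hp, MvPolynomial.eval₂_mul,
      MvPolynomial.eval₂_X]
    have h2 : ∀ k, MvPolynomial.eval₂ f y (MvPolynomial.pderiv k (p * MvPolynomial.X n)) * z k =
        (if k = n then MvPolynomial.eval₂ f y p * z k else 0) +
          y n * (MvPolynomial.eval₂ f y (MvPolynomial.pderiv k p) * z k) := by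
      intro k
      rw [MvPolynomial.pderiv_mul, MvPolynomial.eval₂_add, MvPolynomial.eval₂_mul,
        MvPolynomial.eval₂_mul, MvPolynomial.eval₂_X, MvPolynomial.pderiv_X]
      by_cases hk : k = n
      · subst hk
        rw [if_pos rfl, Pi.single_eq_same, MvPolynomial.eval₂_one]
        ring
      · rw [if_neg hk, Pi.single_eq_of_ne (fun h => hk h.symm), MvPolynomial.eval₂_zero]
        ring
    simp only [h2, Finset.sum_add_distrib, Finset.sum_ite_eq', Finset.mem_univ, if_true,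
      ← Finset.mul_sum]
    linear_combination ((∑ k, MvPolynomial.eval₂ f y (MvPolynomial.pderiv k p) * z k) * z n) * hη

theorem map_eval₂_poly {R S S' ν : Type*} [CommRing R] [CommRing S] [CommRing S'] (ψ : S →+* S')
    (f : R →+* S[X]) (g : ν → S[X]) (p : MvPolynomial ν R) :
    (MvPolynomial.eval₂ f g p).map ψ =
      MvPolynomial.eval₂ ((mapRingHom ψ).comp f) (fun k => (g k).map ψ) p := by
  have h1 := MvPolynomial.eval₂_comp_left (mapRingHom ψ) f g p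
  rw [coe_mapRingHom] at h1
  exact h1

section Fam

variable {F ν E ι₁ ι₂ S : Type} [Field F] [Fintype ι₁] [Fintype ι₂] [CommRing S]

/-- the constants -/
noncomputable def cst (φ : PowerSeries F →+* S) : F →+* S :=
  φ.comp (PowerSeries.C (R := F))

/-- the part of lower degree of the curve -/
noncomputable def curU {m : ℕ} (z : ν × Fin m ⊕ ι₁ → S) (k : ν) : S[X] :=
  ∑ l : Fin m, C (z (Sum.inl (k, l))) * X ^ (l : ℕ)

/-- the distance to the other tooth -/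
noncomputable def curA (φ : PowerSeries F →+* S) (τ₁ τ₂ : F) : S[X] :=
  C (cst φ (τ₁ - τ₂)) + C (φ PowerSeries.X) * X

/-- the other tooth -/
noncomputable def curH (φ : PowerSeries F →+* S) (τ₁ τ₂ : F) {m₂ : ℕ}
    (z₂ : ν × Fin m₂ ⊕ ι₂ → S) (k : ν) : S[X] :=
  ∑ l : Fin m₂, C (z₂ (Sum.inl (k, l)) * φ PowerSeries.X ^ (m₂ - l)) * curA φ τ₁ τ₂ ^ (l : ℕ)

/-- the curve near the first tooth -/
noncomputable def curY (φ : PowerSeries F →+* S) (τ₁ τ₂ : F) (x : ν → F) {m₁ m₂ : ℕ}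
    (z₁ : ν × Fin m₁ ⊕ ι₁ → S) (z₂ : ν × Fin m₂ ⊕ ι₂ → S) (k : ν) : S[X] :=
  curA φ τ₁ τ₂ ^ m₂ * (C (cst φ (x k)) * X ^ m₁ + curU z₁ k) + X ^ m₁ * curH φ τ₁ τ₂ z₂ k

/-- the roots near the first tooth -/
noncomputable def curR (φ : PowerSeries F →+* S) (τ₁ τ₂ : F) (β₁ : ι₁ → E → ℕ)
    (β₂ : ι₂ → E → ℕ) {m₁ m₂ : ℕ}
    (z₁ : ν × Fin m₁ ⊕ ι₁ → S) (z₂ : ν × Fin m₂ ⊕ ι₂ → S) (e : E) : S[X] :=
  (∏ i, (X - C (z₁ (Sum.inr i))) ^ β₁ i e) *
    ∏ i, (C (cst φ (τ₁ - τ₂)) + C (φ PowerSeries.X) * (X - C (z₂ (Sum.inr i)))) ^ β₂ i e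

/-- the equations near the first tooth -/
noncomputable def curG (φ : PowerSeries F →+* S) (Fe : E → MvPolynomial ν F) (τ₁ τ₂ : F)
    (x : ν → F) (c : E → F) (β₁ : ι₁ → E → ℕ) (β₂ : ι₂ → E → ℕ) {m₁ m₂ : ℕ}
    (z₁ : ν × Fin m₁ ⊕ ι₁ → S) (z₂ : ν × Fin m₂ ⊕ ι₂ → S) (e : E) : S[X] :=
  MvPolynomial.eval₂ (C.comp (cst φ)) (curY φ τ₁ τ₂ x z₁ z₂) (Fe e) -
    C (cst φ (c e)) * curR φ τ₁ τ₂ β₁ β₂ z₁ z₂ e

variable {S' : Type} [CommRing S'] (ψ : S →+* S')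

theorem cst_apply (φ : PowerSeries F →+* S) (y : F) : cst φ y = φ (PowerSeries.C y) := rfl

omit [Fintype ι₁] in
theorem curU_map {m : ℕ} (z : ν × Fin m ⊕ ι₁ → S) (k : ν) :
    (curU z k).map ψ = curU (ψ ∘ z) k := by
  simp only [curU, Polynomial.map_sum, Polynomial.map_mul, map_C, Polynomial.map_pow, map_X,
    Function.comp]

theorem curA_map (φ : PowerSeries F →+* S) (τ₁ τ₂ : F) :
    (curA φ τ₁ τ₂).map ψ = curA (ψ.comp φ) τ₁ τ₂ := by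
  simp only [curA, Polynomial.map_add, Polynomial.map_mul, map_C, map_X, cst_apply,
    RingHom.comp_apply]

omit [Fintype ι₂] in
theorem curH_map (φ : PowerSeries F →+* S) (τ₁ τ₂ : F) {m₂ : ℕ}
    (z₂ : ν × Fin m₂ ⊕ ι₂ → S) (k : ν) :
    (curH φ τ₁ τ₂ z₂ k).map ψ = curH (ψ.comp φ) τ₁ τ₂ (ψ ∘ z₂) k := by
  simp only [curH, Polynomial.map_sum, Polynomial.map_mul, map_C, Polynomial.map_pow, curA_map,
    map_mul, map_pow]
  rfl

omit [Fintype ι₁] [Fintype ι₂] in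
theorem curY_map (φ : PowerSeries F →+* S) (τ₁ τ₂ : F) (x : ν → F) {m₁ m₂ : ℕ}
    (z₁ : ν × Fin m₁ ⊕ ι₁ → S) (z₂ : ν × Fin m₂ ⊕ ι₂ → S) (k : ν) :
    (curY φ τ₁ τ₂ x z₁ z₂ k).map ψ = curY (ψ.comp φ) τ₁ τ₂ x (ψ ∘ z₁) (ψ ∘ z₂) k := by
  simp only [curY, Polynomial.map_add, Polynomial.map_mul, map_C, Polynomial.map_pow, curA_map,
    curU_map, curH_map, map_X, cst_apply, RingHom.comp_apply]

theorem curR_map (φ : PowerSeries F →+* S) (τ₁ τ₂ : F) (β₁ : ι₁ → E → ℕ)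
    (β₂ : ι₂ → E → ℕ) {m₁ m₂ : ℕ}
    (z₁ : ν × Fin m₁ ⊕ ι₁ → S) (z₂ : ν × Fin m₂ ⊕ ι₂ → S) (e : E) :
    (curR φ τ₁ τ₂ β₁ β₂ z₁ z₂ e).map ψ = curR (ψ.comp φ) τ₁ τ₂ β₁ β₂ (ψ ∘ z₁) (ψ ∘ z₂) e := by
  simp only [curR, Polynomial.map_mul, Polynomial.map_prod, Polynomial.map_pow,
    Polynomial.map_sub, Polynomial.map_add, map_C, map_X, cst_apply, RingHom.comp_apply,
    Function.comp]

theorem curG_map (φ : PowerSeries F →+* S) (Fe : E → MvPolynomial ν F) (τ₁ τ₂ : F)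
    (x : ν → F) (c : E → F) (β₁ : ι₁ → E → ℕ) (β₂ : ι₂ → E → ℕ) {m₁ m₂ : ℕ}
    (z₁ : ν × Fin m₁ ⊕ ι₁ → S) (z₂ : ν × Fin m₂ ⊕ ι₂ → S) (e : E) :
    (curG φ Fe τ₁ τ₂ x c β₁ β₂ z₁ z₂ e).map ψ =
      curG (ψ.comp φ) Fe τ₁ τ₂ x c β₁ β₂ (ψ ∘ z₁) (ψ ∘ z₂) e := by
  rw [curG, curG, Polynomial.map_sub, Polynomial.map_mul, map_C, curR_map]
  congr 1
  rw [map_eval₂_poly]
  congr 1
  · ext y
    simp only [RingHom.comp_apply, coe_mapRingHom, map_C, cst_apply]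
  · funext k
    exact curY_map ψ φ τ₁ τ₂ x z₁ z₂ k

/-- the coefficients of the equations as polynomials in the unknowns -/
theorem curG_eval₂ {σ : Type} (Fe : E → MvPolynomial ν F) (τ₁ τ₂ : F)
    (x : ν → F) (c : E → F) (β₁ : ι₁ → E → ℕ) (β₂ : ι₂ → E → ℕ) {m₁ m₂ : ℕ}
    (g₁ : ν × Fin m₁ ⊕ ι₁ → σ) (g₂ : ν × Fin m₂ ⊕ ι₂ → σ) (e : E) (f : PowerSeries F →+* S)
    (z : σ → S) (l : ℕ) :
    MvPolynomial.eval₂ f z ((curG (MvPolynomial.C : PowerSeries F →+* _) Fe τ₁ τ₂ x c β₁ β₂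
      (fun s => MvPolynomial.X (g₁ s)) (fun s => MvPolynomial.X (g₂ s)) e).coeff l) =
        (curG f Fe τ₁ τ₂ x c β₁ β₂ (fun s => z (g₁ s)) (fun s => z (g₂ s)) e).coeff l := by
  have h1 := curG_map (MvPolynomial.eval₂Hom f z) (MvPolynomial.C : PowerSeries F →+* _) Fe
    τ₁ τ₂ x c β₁ β₂ (fun s => MvPolynomial.X (g₁ s)) (fun s => MvPolynomial.X (g₂ s)) e
  have h2 : (MvPolynomial.eval₂Hom f z).comp (MvPolynomial.C : PowerSeries F →+* _) = f :=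
    RingHom.ext fun y => MvPolynomial.eval₂_C _ _ _
  have h3 : ∀ {α : Type} (g : α → σ), (⇑(MvPolynomial.eval₂Hom f z) ∘
      fun s => (MvPolynomial.X (g s) : MvPolynomial σ (PowerSeries F))) = fun s => z (g s) :=
    fun g => funext fun s => MvPolynomial.eval₂_X _ _ _
  rw [h2, h3, h3] at h1
  rw [← h1, coeff_map]
  rfl

end Fam

section Dual

variable {F ν E ι₁ ι₂ : Type} [Field F] [Fintype ν] [Fintype ι₁] [Fintype ι₂]

/-- the linearised equations -/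
noncomputable def curJ (Fe : E → MvPolynomial ν F) (c : E → F) (β : ι₁ → E → ℕ) (Y : ν → F[X])
    (t : ι₁ → F) (Z : ν → F[X]) (δ : ι₁ → F) (e : E) : F[X] :=
  ∑ k, MvPolynomial.eval₂ C Y (MvPolynomial.pderiv k (Fe e)) * Z k + C (c e) * dRoot β t δ e

/-- the equations at first order -/
theorem curG_dual (Fe : E → MvPolynomial ν F) (τ₁ τ₂ : F) (x : ν → F) (c : E → F)
    (β₁ : ι₁ → E → ℕ) (β₂ : ι₂ → E → ℕ) {m₁ m₂ : ℕ} (a₁ v₁ : ν × Fin m₁ ⊕ ι₁ → F)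
    (z₂ : ν × Fin m₂ ⊕ ι₂ → DualNumber F) (e : E) {d : ℕ} (hFe : (Fe e).IsHomogeneous d)
    (hβ₂ : ∑ i, β₂ i e = d * m₂) (Y : ν → F[X]) (hY : ∀ k, Y k = C (x k) * X ^ m₁ + curU a₁ k)
    (hsol : MvPolynomial.eval₂ C Y (Fe e) =
      C (c e) * Uni.rootPoly β₁ (fun i => a₁ (Sum.inr i)) e) :
    curG (dualRed F) Fe τ₁ τ₂ x c β₁ β₂ (fun s => inl (a₁ s) + inr (v₁ s)) z₂ e =
      C (inr 1 : DualNumber F) * (C ((τ₁ - τ₂) ^ (d * m₂)) * curJ Fe c β₁ Y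
        (fun i => a₁ (Sum.inr i)) (curU v₁) (fun i => v₁ (Sum.inr i)) e).map
          (algebraMap F (DualNumber F)) := by
  classical
  set κ := algebraMap F (DualNumber F) with hκ
  set η : Polynomial (DualNumber F) := C (inr 1 : DualNumber F) with hη
  have hηη : η * η = 0 := by
    rw [hη, ← C_mul, inr_mul_inr, C_0]
  have hcst : ∀ y, cst (dualRed F) y = κ y := by
    intro y
    rw [cst_apply, dualRed_apply, PowerSeries.constantCoeff_C]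
    rfl
  have hredX : dualRed F PowerSeries.X = 0 := by
    rw [dualRed_apply, PowerSeries.constantCoeff_X, inl_zero]
  have hA : curA (dualRed F) τ₁ τ₂ = C (κ (τ₁ - τ₂)) := by
    rw [curA, hredX, C_0, zero_mul, add_zero, hcst]
  have hH : ∀ k, curH (dualRed F) τ₁ τ₂ z₂ k = 0 := by
    intro k
    refine Finset.sum_eq_zero fun l _ => ?_
    rw [hredX, zero_pow (by have := l.2; omega), mul_zero, C_0, zero_mul]
  have hU : ∀ k, curU (fun s => inl (a₁ s) + inr (v₁ s) : _ → DualNumber F) k =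
      (curU a₁ k).map κ + η * (curU v₁ k).map κ := by
    intro k
    rw [curU_map, curU_map, curU, curU, curU, Finset.mul_sum, ← Finset.sum_add_distrib]
    refine Finset.sum_congr rfl fun l _ => ?_
    have h2 : ∀ y : F, (inr y : DualNumber F) = inr 1 * inl y := by
      intro y
      rw [mul_comm, inl_mul_inr, smul_eq_mul, mul_one]
    have h3 : ∀ y : F, κ y = inl y := fun y => rfl
    rw [h2, hη]
    simp only [C_add, C_mul, Function.comp, h3]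
    ring
  have hYd : curY (dualRed F) τ₁ τ₂ x (fun s => inl (a₁ s) + inr (v₁ s)) z₂ =
      fun k => C (κ ((τ₁ - τ₂) ^ m₂)) * ((Y k).map κ + η * (curU v₁ k).map κ) := by
    funext k
    rw [curY, hA, hH, hU, mul_zero, add_zero, hcst, hY, Polynomial.map_add, Polynomial.map_mul,
      map_C, Polynomial.map_pow, map_X]
    simp only [map_pow]
    ring
  have hf : (C.comp (cst (dualRed F)) : F →+* Polynomial (DualNumber F)) =
      (mapRingHom κ).comp C := by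
    refine RingHom.ext fun y => ?_
    rw [RingHom.comp_apply, RingHom.comp_apply, coe_mapRingHom, map_C, hcst]
  have hmap : ∀ p : MvPolynomial ν F, MvPolynomial.eval₂ ((mapRingHom κ).comp C)
      (fun k => (Y k).map κ) p = (MvPolynomial.eval₂ C Y p).map κ := by
    intro p
    exact (map_eval₂_poly κ C Y p).symm
  have hR : curR (dualRed F) τ₁ τ₂ β₁ β₂ (fun s => inl (a₁ s) + inr (v₁ s)) z₂ e =
      C (κ ((τ₁ - τ₂) ^ (d * m₂))) * ((Uni.rootPoly β₁ (fun i => a₁ (Sum.inr i)) e).map κ -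
        η * (dRoot β₁ (fun i => a₁ (Sum.inr i)) (fun i => v₁ (Sum.inr i)) e).map κ) := by
    rw [curR, rootPoly_dual, hredX, C_0]
    simp only [zero_mul, add_zero, hcst]
    rw [Finset.prod_pow_eq_pow_sum, hβ₂, ← C_pow, ← map_pow]
    ring
  rw [curG, hYd, eval₂_smul_hom _ hFe, hf, eval₂_add_sq_zero _ η hηη, hR, hmap, hsol, hcst,
    curJ]
  simp only [hmap, Polynomial.map_mul, Polynomial.map_add, Polynomial.map_sum, map_C]
  rw [← C_pow, ← map_pow, ← pow_mul, mul_comm m₂ d]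
  ring

end Dual

section Global

variable {F ν E ι₁ ι₂ : Type} [Field F] [Fintype ι₁] [Fintype ι₂]

/-- one tooth of the glued curve -/
noncomputable def gloH (τ : F) {m : ℕ} (z : ν × Fin m ⊕ ι₁ → PowerSeries F) (k : ν) :
    (PowerSeries F)[X] :=
  ∑ l : Fin m, C (z (Sum.inl (k, l)) * PowerSeries.X ^ (m - l)) *
    (X - C (PowerSeries.C τ)) ^ (l : ℕ)

/-- the glued curve -/
noncomputable def gloY (τ₁ τ₂ : F) (x : ν → F) {m₁ m₂ : ℕ}
    (z₁ : ν × Fin m₁ ⊕ ι₁ → PowerSeries F) (z₂ : ν × Fin m₂ ⊕ ι₂ → PowerSeries F) (k : ν) :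
    (PowerSeries F)[X] :=
  C (PowerSeries.C (x k)) * (X - C (PowerSeries.C τ₁)) ^ m₁ * (X - C (PowerSeries.C τ₂)) ^ m₂ +
    (X - C (PowerSeries.C τ₂)) ^ m₂ * gloH τ₁ z₁ k + (X - C (PowerSeries.C τ₁)) ^ m₁ * gloH τ₂ z₂ k

/-- the roots of the glued curve -/
noncomputable def gloR (τ₁ τ₂ : F) (β₁ : ι₁ → E → ℕ) (β₂ : ι₂ → E → ℕ)
    (T₁ : ι₁ → PowerSeries F) (T₂ : ι₂ → PowerSeries F) (e : E) : (PowerSeries F)[X] :=
  (∏ i, (X - C (PowerSeries.C τ₁ + PowerSeries.X * T₁ i)) ^ β₁ i e) *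
    ∏ i, (X - C (PowerSeries.C τ₂ + PowerSeries.X * T₂ i)) ^ β₂ i e

omit [Fintype ι₁] [Fintype ι₂] in
theorem gloY_symm (τ₁ τ₂ : F) (x : ν → F) {m₁ m₂ : ℕ}
    (z₁ : ν × Fin m₁ ⊕ ι₁ → PowerSeries F) (z₂ : ν × Fin m₂ ⊕ ι₂ → PowerSeries F) (k : ν) :
    gloY τ₁ τ₂ x z₁ z₂ k = gloY τ₂ τ₁ x z₂ z₁ k := by
  unfold gloY
  ring

theorem gloR_symm (τ₁ τ₂ : F) (β₁ : ι₁ → E → ℕ) (β₂ : ι₂ → E → ℕ)
    (T₁ : ι₁ → PowerSeries F) (T₂ : ι₂ → PowerSeries F) (e : E) :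
    gloR τ₁ τ₂ β₁ β₂ T₁ T₂ e = gloR τ₂ τ₁ β₂ β₁ T₂ T₁ e := by
  unfold gloR
  ring

omit [Fintype ι₁] [Fintype ι₂] in
theorem gloY_comp (τ₁ τ₂ : F) (x : ν → F) {m₁ m₂ : ℕ}
    (z₁ : ν × Fin m₁ ⊕ ι₁ → PowerSeries F) (z₂ : ν × Fin m₂ ⊕ ι₂ → PowerSeries F) (k : ν) :
    (gloY τ₁ τ₂ x z₁ z₂ k).comp (C (PowerSeries.C τ₁) + C PowerSeries.X * X) =
      C (PowerSeries.X ^ m₁) * curY (RingHom.id _) τ₁ τ₂ x z₁ z₂ k := by
  set L : (PowerSeries F)[X] := C (PowerSeries.C τ₁) + C PowerSeries.X * X with hL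
  have h0 : ∀ p : (PowerSeries F)[X], p.comp L = compRingHom L p := fun p => rfl
  have h1 : (X - C (PowerSeries.C τ₁)).comp L = C PowerSeries.X * X := by
    rw [sub_comp, X_comp, C_comp, hL]
    ring
  have h2 : (X - C (PowerSeries.C τ₂)).comp L = curA (RingHom.id _) τ₁ τ₂ := by
    rw [sub_comp, X_comp, C_comp, hL, curA, cst_apply, map_sub]
    simp only [RingHom.id_apply, C_sub]
    ring
  have h3 : (gloH τ₁ z₁ k).comp L = C (PowerSeries.X ^ m₁) * curU z₁ k := by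
    rw [gloH, h0, map_sum, curU, Finset.mul_sum]
    refine Finset.sum_congr rfl fun l _ => ?_
    rw [← h0, mul_comp, C_comp, pow_comp, h1, mul_pow, ← C_pow]
    have h4 : (PowerSeries.X : PowerSeries F) ^ m₁ =
        PowerSeries.X ^ (m₁ - (l : ℕ)) * PowerSeries.X ^ (l : ℕ) := by
      rw [← pow_add]
      congr 1
      have := l.2
      omega
    rw [h4]
    simp only [C_mul]
    ring
  have h4 : (gloH τ₂ z₂ k).comp L = curH (RingHom.id _) τ₁ τ₂ z₂ k := by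
    rw [gloH, h0, map_sum, curH]
    refine Finset.sum_congr rfl fun l _ => ?_
    rw [← h0, mul_comp, C_comp, pow_comp, h2]
    rfl
  rw [gloY, add_comp, add_comp, mul_comp, mul_comp, mul_comp, mul_comp, pow_comp, pow_comp, C_comp,
    h1, h2, h3, h4, curY, cst_apply, RingHom.id_apply, mul_pow, ← C_pow]
  ring

theorem gloR_comp (τ₁ τ₂ : F) (β₁ : ι₁ → E → ℕ) (β₂ : ι₂ → E → ℕ) {m₁ m₂ : ℕ}
    (z₁ : ν × Fin m₁ ⊕ ι₁ → PowerSeries F) (z₂ : ν × Fin m₂ ⊕ ι₂ → PowerSeries F) (e : E) :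
    (gloR τ₁ τ₂ β₁ β₂ (fun i => z₁ (Sum.inr i)) (fun i => z₂ (Sum.inr i)) e).comp
        (C (PowerSeries.C τ₁) + C PowerSeries.X * X) =
      C (PowerSeries.X ^ ∑ i, β₁ i e) * curR (RingHom.id _) τ₁ τ₂ β₁ β₂ z₁ z₂ e := by
  set L : (PowerSeries F)[X] := C (PowerSeries.C τ₁) + C PowerSeries.X * X with hL
  have h1 : ∀ T : PowerSeries F, (X - C (PowerSeries.C τ₁ + PowerSeries.X * T)).comp L =
      C PowerSeries.X * (X - C T) := by
    intro T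
    rw [sub_comp, X_comp, C_comp, hL]
    simp only [C_add, C_mul]
    ring
  have h2 : ∀ T : PowerSeries F, (X - C (PowerSeries.C τ₂ + PowerSeries.X * T)).comp L =
      C (cst (RingHom.id _) (τ₁ - τ₂)) + C (RingHom.id _ PowerSeries.X) * (X - C T) := by
    intro T
    rw [sub_comp, X_comp, C_comp, hL, cst_apply, map_sub]
    simp only [RingHom.id_apply, C_add, C_mul, C_sub]
    ring
  have h3 : ∀ p : (PowerSeries F)[X], p.comp L = compRingHom L p := fun p => rfl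
  rw [gloR, mul_comp, h3 (∏ i, (X - C (PowerSeries.C τ₁ + PowerSeries.X * z₁ (Sum.inr i))) ^ _),
    h3 (∏ i, (X - C (PowerSeries.C τ₂ + PowerSeries.X * z₂ (Sum.inr i))) ^ _), map_prod, map_prod]
  simp only [map_pow, coe_compRingHom_apply, h1, h2, mul_pow, Finset.prod_mul_distrib]
  rw [Finset.prod_pow_eq_pow_sum, curR, ← C_pow]
  ring

/-- the value of a homogeneous form: leading coefficient -/
theorem eval₂_hom_coeff {R S ν : Type*} [CommRing R] [CommRing S] (f : R →+* S)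
    {p : MvPolynomial ν R} {d : ℕ} (hp : p.IsHomogeneous d) (m : ℕ) (Y : ν → S[X])
    (hY : ∀ k, (Y k).natDegree ≤ m) :
    (MvPolynomial.eval₂ (C.comp f) Y p).natDegree ≤ d * m ∧
      (MvPolynomial.eval₂ (C.comp f) Y p).coeff (d * m) =
        MvPolynomial.eval₂ f (fun k => (Y k).coeff m) p := by
  classical
  rw [MvPolynomial.eval₂_eq, MvPolynomial.eval₂_eq]
  have h0 : ∀ s ∈ p.support, ∀ k, (Y k ^ s k).natDegree ≤ s k * m :=
    fun s _ k => (natDegree_pow_le_of_le _ (hY k))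
  have h1 : ∀ s ∈ p.support, ∑ k ∈ s.support, s k * m = d * m := by
    intro s hs
    rw [← Finset.sum_mul]
    congr 1
    exact (MvPolynomial.IsHomogeneous.degree_eq_sum_deg_support hp hs).symm
  have h2 : ∀ s ∈ p.support, (∏ k ∈ s.support, Y k ^ s k).natDegree ≤ d * m := by
    intro s hs
    rw [← h1 s hs]
    exact (natDegree_prod_le _ _).trans (Finset.sum_le_sum fun k _ => h0 s hs k)
  constructor
  · refine natDegree_sum_le_of_forall_le _ _ fun s hs => ?_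
    rw [RingHom.comp_apply]
    exact (natDegree_C_mul_le _ _).trans (h2 s hs)
  · rw [finsetSum_coeff]
    refine Finset.sum_congr rfl fun s hs => ?_
    rw [RingHom.comp_apply, coeff_C_mul]
    congr 1
    rw [← h1 s hs]
    have h3 : (∏ k ∈ s.support, Y k ^ s k).coeff (∑ k ∈ s.support, s k * m) =
        ∏ k ∈ s.support, (Y k ^ s k).coeff (s k * m) := by
      have : ∀ u : Finset ν, (∏ k ∈ u, Y k ^ s k).coeff (∑ k ∈ u, s k * m) =
          ∏ k ∈ u, (Y k ^ s k).coeff (s k * m) := by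
        intro u
        induction u using Finset.induction_on with
        | empty => simp
        | insert k u hk ih =>
          rw [Finset.prod_insert hk, Finset.sum_insert hk, Finset.prod_insert hk, ← ih]
          exact coeff_mul_add_eq_of_natDegree_le (h0 s hs k)
            ((natDegree_prod_le _ _).trans (Finset.sum_le_sum fun k _ => h0 s hs k))
      exact this _
    rw [h3]
    refine Finset.prod_congr rfl fun k _ => ?_
    exact coeff_pow_of_natDegree_le (hY k)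

omit [Fintype ι₁] in
theorem gloH_degree (τ : F) {m : ℕ} (z : ν × Fin m ⊕ ι₁ → PowerSeries F) (k : ν) :
    (gloH τ z k).degree < m := by
  refine (degree_sum_le _ _).trans_lt ((Finset.sup_lt_iff (WithBot.bot_lt_coe m)).2 fun l _ => ?_)
  rw [← smul_eq_C_mul]
  refine (degree_smul_le _ _).trans_lt ?_
  rw [degree_pow, degree_X_sub_C, nsmul_eq_mul, mul_one]
  exact Nat.cast_lt.2 l.2

omit [Fintype ι₁] [Fintype ι₂] in
theorem gloY_degree (τ₁ τ₂ : F) (x : ν → F) {m₁ m₂ : ℕ}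
    (z₁ : ν × Fin m₁ ⊕ ι₁ → PowerSeries F) (z₂ : ν × Fin m₂ ⊕ ι₂ → PowerSeries F) (k : ν) :
    (gloY τ₁ τ₂ x z₁ z₂ k).natDegree ≤ m₁ + m₂ ∧
      (gloY τ₁ τ₂ x z₁ z₂ k).coeff (m₁ + m₂) = PowerSeries.C (x k) := by
  classical
  set A₁ : (PowerSeries F)[X] := (X - C (PowerSeries.C τ₁)) ^ m₁ with hA₁
  set A₂ : (PowerSeries F)[X] := (X - C (PowerSeries.C τ₂)) ^ m₂ with hA₂
  have d₁ : A₁.degree = m₁ := by
    rw [hA₁, degree_pow, degree_X_sub_C, nsmul_eq_mul, mul_one]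
  have d₂ : A₂.degree = m₂ := by
    rw [hA₂, degree_pow, degree_X_sub_C, nsmul_eq_mul, mul_one]
  have hm : (A₁ * A₂).Monic := ((monic_X_sub_C _).pow _).mul ((monic_X_sub_C _).pow _)
  have hmd : (A₁ * A₂).natDegree = m₁ + m₂ := by
    refine natDegree_eq_of_degree_eq_some ?_
    rw [degree_mul, d₁, d₂]
    rfl
  have h1 : (A₂ * gloH τ₁ z₁ k).degree < ((m₁ + m₂ : ℕ) : WithBot ℕ) := by
    rw [degree_mul, d₂, add_comm m₁ m₂, Nat.cast_add]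
    exact WithBot.add_lt_add_left (WithBot.coe_ne_bot) (gloH_degree τ₁ z₁ k)
  have h2 : (A₁ * gloH τ₂ z₂ k).degree < ((m₁ + m₂ : ℕ) : WithBot ℕ) := by
    rw [degree_mul, d₁, Nat.cast_add]
    exact WithBot.add_lt_add_left (WithBot.coe_ne_bot) (gloH_degree τ₂ z₂ k)
  have h3 : gloY τ₁ τ₂ x z₁ z₂ k = C (PowerSeries.C (x k)) * (A₁ * A₂) +
      (A₂ * gloH τ₁ z₁ k + A₁ * gloH τ₂ z₂ k) := by
    rw [gloY]
    ring
  have h5 : (A₂ * gloH τ₁ z₁ k + A₁ * gloH τ₂ z₂ k).degree < ((m₁ + m₂ : ℕ) : WithBot ℕ) :=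
    (degree_add_le _ _).trans_lt (max_lt h1 h2)
  constructor
  · rw [h3, natDegree_le_iff_degree_le]
    refine (degree_add_le _ _).trans (max_le ?_ h5.le)
    rw [← smul_eq_C_mul]
    refine (degree_smul_le _ _).trans ?_
    rw [degree_eq_natDegree hm.ne_zero, hmd]
  · rw [h3, coeff_add, coeff_C_mul, coeff_eq_zero_of_degree_lt h5, add_zero]
    have h6 := hm.coeff_natDegree
    rw [hmd] at h6
    rw [h6, mul_one]

/-- the equations near the first tooth imply divisibility -/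
theorem glue_dvd (Fe : E → MvPolynomial ν F) (τ₁ τ₂ : F) (x : ν → F) (c : E → F)
    (β₁ : ι₁ → E → ℕ) (β₂ : ι₂ → E → ℕ) {m₁ m₂ : ℕ}
    (z₁ : ν × Fin m₁ ⊕ ι₁ → PowerSeries F) (z₂ : ν × Fin m₂ ⊕ ι₂ → PowerSeries F) (e : E) {d : ℕ}
    (hFe : (Fe e).IsHomogeneous d) (hβ₁ : ∑ i, β₁ i e = d * m₁)
    (h : ∀ l < d * m₁, (curG (RingHom.id _) Fe τ₁ τ₂ x c β₁ β₂ z₁ z₂ e).coeff l = 0) :
    (X - C (PowerSeries.C τ₁)) ^ (d * m₁) ∣
      MvPolynomial.eval₂ (C.comp (PowerSeries.C (R := F))) (gloY τ₁ τ₂ x z₁ z₂) (Fe e) -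
        C (PowerSeries.C (c e)) *
          gloR τ₁ τ₂ β₁ β₂ (fun i => z₁ (Sum.inr i)) (fun i => z₂ (Sum.inr i)) e := by
  set D := MvPolynomial.eval₂ (C.comp (PowerSeries.C (R := F))) (gloY τ₁ τ₂ x z₁ z₂) (Fe e) -
        C (PowerSeries.C (c e)) *
          gloR τ₁ τ₂ β₁ β₂ (fun i => z₁ (Sum.inr i)) (fun i => z₂ (Sum.inr i)) e with hD
  rw [X_sub_C_pow_dvd_iff, X_pow_dvd_iff]
  intro l hl
  set L : (PowerSeries F)[X] := C (PowerSeries.C τ₁) + C PowerSeries.X * X with hL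
  have h1 : D.comp L = C (PowerSeries.X ^ (d * m₁)) *
      curG (RingHom.id _) Fe τ₁ τ₂ x c β₁ β₂ z₁ z₂ e := by
    have h2 : (MvPolynomial.eval₂ (C.comp (PowerSeries.C (R := F))) (gloY τ₁ τ₂ x z₁ z₂)
        (Fe e)).comp L = C (PowerSeries.X ^ (d * m₁)) * MvPolynomial.eval₂
          (C.comp (cst (RingHom.id _))) (curY (RingHom.id _) τ₁ τ₂ x z₁ z₂) (Fe e) := by
      have h3 := MvPolynomial.eval₂_comp_left (compRingHom L) (C.comp (PowerSeries.C (R := F)))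
        (gloY τ₁ τ₂ x z₁ z₂) (Fe e)
      rw [coe_compRingHom] at h3
      simp only at h3
      rw [h3]
      have h4 : ((fun q : (PowerSeries F)[X] => q.comp L) ∘ gloY τ₁ τ₂ x z₁ z₂) =
          fun k => C (PowerSeries.X ^ m₁) * curY (RingHom.id _) τ₁ τ₂ x z₁ z₂ k := by
        funext k
        exact gloY_comp τ₁ τ₂ x z₁ z₂ k
      rw [h4, eval₂_smul_hom _ hFe, ← C_pow, ← pow_mul, mul_comm m₁ d]
      congr 2
      refine RingHom.ext fun y => ?_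
      rw [RingHom.comp_apply, RingHom.comp_apply, RingHom.comp_apply, coe_compRingHom_apply,
        C_comp]
      rfl
    rw [hD, sub_comp, mul_comp, C_comp, h2, gloR_comp, hβ₁, curG, cst_apply, RingHom.id_apply]
    ring
  have h2 : (D.comp (X + C (PowerSeries.C τ₁))).comp (C PowerSeries.X * X) = D.comp L := by
    rw [comp_assoc, add_comp, X_comp, C_comp, hL, add_comm]
  have h3 : ((D.comp (X + C (PowerSeries.C τ₁))).comp (C PowerSeries.X * X)).coeff l =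
      (D.comp (X + C (PowerSeries.C τ₁))).coeff l * PowerSeries.X ^ l := by
    rw [comp_C_mul_X_coeff]
  rw [h2, h1, coeff_C_mul, h l hl, mul_zero] at h3
  exact (mul_eq_zero.1 h3.symm).resolve_right (pow_ne_zero _ PowerSeries.X_ne_zero)

/-- polynomials from their coefficients -/
theorem poly_of_coeff {F : Type} [Field F] (m : ℕ) (p : F[X]) (hp : p.degree < m) :
    ∑ l : Fin m, C (p.coeff l) * X ^ (l : ℕ) = p := by
  rw [Fin.sum_univ_eq_sum_range (fun l => C (p.coeff l) * X ^ l) m]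
  rcases Nat.eq_zero_or_pos m with h0 | h0
  · subst h0
    have : p = 0 := by
      by_contra hne
      rw [degree_eq_natDegree hne] at hp
      exact absurd hp (by simp)
    rw [this]
    simp
  · refine (p.as_sum_range_C_mul_X_pow' ?_).symm
    by_cases hne : p = 0
    · rw [hne, natDegree_zero]
      exact h0
    · exact (natDegree_lt_iff_degree_lt hne).2 hp

theorem curve_of_coeff {F ν κ : Type} [Field F] (m : ℕ) (Y : ν → F[X])
    (hY : ∀ k, (Y k).natDegree ≤ m) (t : κ → F) (k : ν) :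
    Y k = C ((Y k).coeff m) * X ^ m +
      curU (Sum.elim (fun p : ν × Fin m => (Y p.1).coeff p.2) t) k := by
  have h1 := (Y k).as_sum_range_C_mul_X_pow' (n := m + 1) (Nat.lt_succ_of_le (hY k))
  rw [Finset.sum_range_succ, add_comm] at h1
  rw [curU]
  simp only [Sum.elim_inl]
  rw [Fin.sum_univ_eq_sum_range (fun l => C ((Y k).coeff l) * X ^ l) m]
  exact h1

/-- the Jacobian is onto: one tooth -/
theorem glue_one {F ν E κ₁ κ₂ : Type} [Field F] [Fintype ν] [Fintype κ₁] [Fintype κ₂]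
    (Fe : E → MvPolynomial ν F) (d : E → ℕ) (hFe : ∀ e, (Fe e).IsHomogeneous (d e)) (x : ν → F)
    (c : E → F) {μ₁ μ₂ : ℕ} (b₁ : κ₁ → E → ℕ) (b₂ : κ₂ → E → ℕ)
    (hb₂ : ∀ e, ∑ i, b₂ i e = d e * μ₂) (Y : ν → F[X])
    (hY : ∀ k, (Y k).natDegree ≤ μ₁) (hYx : ∀ k, (Y k).coeff μ₁ = x k) (t : κ₁ → F)
    (hsol : ∀ e, MvPolynomial.eval₂ C Y (Fe e) = C (c e) * Uni.rootPoly b₁ t e)
    (hfree : ∀ P : E → F[X], (∀ e, (P e).degree < (d e * μ₁ : ℕ)) →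
      ∃ (Z : ν → F[X]) (δ : κ₁ → F), (∀ k, (Z k).degree < μ₁) ∧
        ∀ e, curJ Fe c b₁ Y t Z δ e = P e) (σ₁ σ₂ : F) (hσ : σ₁ ≠ σ₂)
    (w : ∀ e, Fin (d e * μ₁) → F) : ∃ v : ν × Fin μ₁ ⊕ κ₁ → F,
      ∀ (z₂ : ν × Fin μ₂ ⊕ κ₂ → DualNumber F) (e : E) (l : Fin (d e * μ₁)),
        (curG (dualRed F) Fe σ₁ σ₂ x c b₁ b₂ (fun s => inl ((Sum.elim
          (fun p : ν × Fin μ₁ => (Y p.1).coeff p.2) t : _ → F) s) + inr (v s)) z₂ e).coeff l =
            inr (w e l) := by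
  classical
  let W : E → F[X] := fun e => ∑ l : Fin (d e * μ₁), C (w e l) * X ^ (l : ℕ)
  have hW : ∀ e, (W e).degree < (d e * μ₁ : ℕ) := fun e => degree_sum_fin_lt _
  have hWc : ∀ e (l : Fin (d e * μ₁)), (W e).coeff l = w e l := by
    intro e l
    rw [finsetSum_coeff, Finset.sum_eq_single l]
    · rw [coeff_C_mul, coeff_X_pow, if_pos rfl, mul_one]
    · intro l' _ hl'
      rw [coeff_C_mul, coeff_X_pow, if_neg, mul_zero]
      exact fun h => hl' (Fin.ext h.symm)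
    · intro h
      exact absurd (Finset.mem_univ _) h
  have hne : ∀ e, (σ₁ - σ₂) ^ (d e * μ₂) ≠ 0 := fun e => pow_ne_zero _ (sub_ne_zero.2 hσ)
  obtain ⟨Z, δ, hZ, hJ⟩ := hfree (fun e => C ((σ₁ - σ₂) ^ (d e * μ₂))⁻¹ * W e) (fun e => by
    rw [degree_C_mul (inv_ne_zero (hne e))]
    exact hW e)
  refine ⟨Sum.elim (fun p => (Z p.1).coeff p.2) δ, fun z₂ e l => ?_⟩
  have hZU : curU (Sum.elim (fun p : ν × Fin μ₁ => (Z p.1).coeff p.2) δ) = Z := by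
    funext k
    rw [curU]
    simp only [Sum.elim_inl]
    exact poly_of_coeff μ₁ (Z k) (hZ k)
  have h1 := curG_dual Fe σ₁ σ₂ x c b₁ b₂ (Sum.elim (fun p : ν × Fin μ₁ => (Y p.1).coeff p.2) t)
    (Sum.elim (fun p : ν × Fin μ₁ => (Z p.1).coeff p.2) δ) z₂ e (hFe e) (hb₂ e) Y (fun k => by
      rw [← hYx k]
      exact curve_of_coeff μ₁ Y hY t k) (hsol e)
  rw [hZU] at h1
  have h2 : curJ Fe c b₁ Y (fun i => (Sum.elim (fun p : ν × Fin μ₁ => (Y p.1).coeff p.2) t : _ → F)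
      (Sum.inr i)) Z (fun i => (Sum.elim (fun p : ν × Fin μ₁ => (Z p.1).coeff p.2) δ : _ → F)
        (Sum.inr i)) e = C ((σ₁ - σ₂) ^ (d e * μ₂))⁻¹ * W e := hJ e
  rw [h2, ← mul_assoc, ← C_mul, mul_inv_cancel₀ (hne e), C_1, one_mul] at h1
  rw [h1, coeff_C_mul, coeff_map, hWc]
  have h6 : (algebraMap F (DualNumber F)) (w e l) = inl (w e l) := rfl
  rw [h6, mul_comm, inl_mul_inr, smul_eq_mul, mul_one]

/-- Gluing of curves. -/
theorem glueC {F ν E ι₁ ι₂ : Type} [Field F] [Fintype ν] [Fintype E] [Fintype ι₁] [Fintype ι₂]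
    (Fe : E → MvPolynomial ν F) (d : E → ℕ) (hFe : ∀ e, (Fe e).IsHomogeneous (d e)) (x : ν → F)
    (c : E → F) (hc : ∀ e, c e = MvPolynomial.eval x (Fe e)) {m₁ m₂ : ℕ}
    (β₁ : ι₁ → E → ℕ) (β₂ : ι₂ → E → ℕ) (hβ₁ : ∀ e, ∑ i, β₁ i e = d e * m₁)
    (hβ₂ : ∀ e, ∑ i, β₂ i e = d e * m₂) (Y₁ Y₂ : ν → F[X])
    (hY₁ : ∀ k, (Y₁ k).natDegree ≤ m₁) (hY₁x : ∀ k, (Y₁ k).coeff m₁ = x k)
    (hY₂ : ∀ k, (Y₂ k).natDegree ≤ m₂) (hY₂x : ∀ k, (Y₂ k).coeff m₂ = x k)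
    (t₁ : ι₁ → F) (t₂ : ι₂ → F)
    (hsol₁ : ∀ e, MvPolynomial.eval₂ C Y₁ (Fe e) = C (c e) * Uni.rootPoly β₁ t₁ e)
    (hsol₂ : ∀ e, MvPolynomial.eval₂ C Y₂ (Fe e) = C (c e) * Uni.rootPoly β₂ t₂ e)
    (hfree₁ : ∀ P : E → F[X], (∀ e, (P e).degree < (d e * m₁ : ℕ)) → ∃ (Z : ν → F[X]) (δ : ι₁ → F),
      (∀ k, (Z k).degree < m₁) ∧ ∀ e, curJ Fe c β₁ Y₁ t₁ Z δ e = P e)
    (hfree₂ : ∀ P : E → F[X], (∀ e, (P e).degree < (d e * m₂ : ℕ)) → ∃ (Z : ν → F[X]) (δ : ι₂ → F),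
      (∀ k, (Z k).degree < m₂) ∧ ∀ e, curJ Fe c β₂ Y₂ t₂ Z δ e = P e)
    (τ₁ τ₂ : F) (hτ : τ₁ ≠ τ₂) :
    ∃ (Y : ν → (PowerSeries F)[X]) (T₁ : ι₁ → PowerSeries F) (T₂ : ι₂ → PowerSeries F),
      (∀ i, PowerSeries.constantCoeff (T₁ i) = t₁ i) ∧
      (∀ i, PowerSeries.constantCoeff (T₂ i) = t₂ i) ∧
      (∀ k, (Y k).natDegree ≤ m₁ + m₂) ∧
      (∀ k, (Y k).coeff (m₁ + m₂) = PowerSeries.C (x k)) ∧
      (∀ e, MvPolynomial.eval₂ (C.comp (PowerSeries.C (R := F))) Y (Fe e) =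
        C (PowerSeries.C (c e)) * gloR τ₁ τ₂ β₁ β₂ T₁ T₂ e) ∧
      (∃ W : ν → (PowerSeries F)[X], ∀ k,
        (Y k).comp (C (PowerSeries.C τ₁) + C PowerSeries.X * X) =
          C (PowerSeries.X ^ m₁) * W k ∧
        (W k).map PowerSeries.constantCoeff = C ((τ₁ - τ₂) ^ m₂) * Y₁ k) ∧
      (∃ W : ν → (PowerSeries F)[X], ∀ k,
        (Y k).comp (C (PowerSeries.C τ₂) + C PowerSeries.X * X) =
          C (PowerSeries.X ^ m₂) * W k ∧
        (W k).map PowerSeries.constantCoeff = C ((τ₂ - τ₁) ^ m₁) * Y₂ k) := by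
  classical
  -- the starting point
  let a₁ : ν × Fin m₁ ⊕ ι₁ → F := Sum.elim (fun p => (Y₁ p.1).coeff p.2) t₁
  let a₂ : ν × Fin m₂ ⊕ ι₂ → F := Sum.elim (fun p => (Y₂ p.1).coeff p.2) t₂
  -- the unknowns and the equations
  let σ : Type := (ν × Fin m₁ ⊕ ι₁) ⊕ (ν × Fin m₂ ⊕ ι₂)
  let φ : PowerSeries F →+* MvPolynomial σ (PowerSeries F) := MvPolynomial.C
  let Z₁ : ν × Fin m₁ ⊕ ι₁ → MvPolynomial σ (PowerSeries F) := fun s => MvPolynomial.X (Sum.inl s)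
  let Z₂ : ν × Fin m₂ ⊕ ι₂ → MvPolynomial σ (PowerSeries F) := fun s => MvPolynomial.X (Sum.inr s)
  let M : Type := (Σ e, Fin (d e * m₁)) ⊕ (Σ e, Fin (d e * m₂))
  let P : M → MvPolynomial σ (PowerSeries F) := Sum.elim
    (fun s => (curG φ Fe τ₁ τ₂ x c β₁ β₂ Z₁ Z₂ s.1).coeff s.2)
    (fun s => (curG φ Fe τ₂ τ₁ x c β₂ β₁ Z₂ Z₁ s.1).coeff s.2)
  -- base change of the equations
  have hP₁ : ∀ {S : Type} [CommRing S] (f : PowerSeries F →+* S) (z : σ → S) (e : E)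
      (l : Fin (d e * m₁)), MvPolynomial.eval₂ f z (P (Sum.inl ⟨e, l⟩)) =
        (curG f Fe τ₁ τ₂ x c β₁ β₂ (fun s => z (Sum.inl s)) (fun s => z (Sum.inr s)) e).coeff l := by
    intro S _ f z e l
    exact curG_eval₂ Fe τ₁ τ₂ x c β₁ β₂ Sum.inl Sum.inr e f z l
  have hP₂ : ∀ {S : Type} [CommRing S] (f : PowerSeries F →+* S) (z : σ → S) (e : E)
      (l : Fin (d e * m₂)), MvPolynomial.eval₂ f z (P (Sum.inr ⟨e, l⟩)) =
        (curG f Fe τ₂ τ₁ x c β₂ β₁ (fun s => z (Sum.inr s)) (fun s => z (Sum.inl s)) e).coeff l := by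
    intro S _ f z e l
    exact curG_eval₂ Fe τ₂ τ₁ x c β₂ β₁ Sum.inr Sum.inl e f z l
  obtain ⟨z, hz0, hz⟩ := ift_dual P (Sum.elim a₁ a₂) (by
    intro w
    obtain ⟨v₁, hv₁⟩ := glue_one Fe d hFe x c β₁ β₂ hβ₂ Y₁ hY₁ hY₁x t₁ hsol₁ hfree₁ τ₁ τ₂ hτ
      (fun e l => w (Sum.inl ⟨e, l⟩))
    obtain ⟨v₂, hv₂⟩ := glue_one Fe d hFe x c β₂ β₁ hβ₁ Y₂ hY₂ hY₂x t₂ hsol₂ hfree₂ τ₂ τ₁ hτ.symm
      (fun e l => w (Sum.inr ⟨e, l⟩))
    refine ⟨Sum.elim v₁ v₂, ?_⟩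
    rintro (⟨e, l⟩ | ⟨e, l⟩)
    · rw [hP₁]
      exact hv₁ _ e l
    · rw [hP₂]
      exact hv₂ _ e l)
  let z₁ : ν × Fin m₁ ⊕ ι₁ → PowerSeries F := fun s => z (Sum.inl s)
  let z₂ : ν × Fin m₂ ⊕ ι₂ → PowerSeries F := fun s => z (Sum.inr s)
  have hzz : ∀ i, MvPolynomial.eval₂ (RingHom.id (PowerSeries F)) z (P i) = 0 := hz
  have hG₁ : ∀ e, ∀ l < d e * m₁,
      (curG (RingHom.id _) Fe τ₁ τ₂ x c β₁ β₂ z₁ z₂ e).coeff l = 0 := by
    intro e l hl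
    have h1 := hzz (Sum.inl ⟨e, ⟨l, hl⟩⟩)
    rw [hP₁] at h1
    exact h1
  have hG₂ : ∀ e, ∀ l < d e * m₂,
      (curG (RingHom.id _) Fe τ₂ τ₁ x c β₂ β₁ z₂ z₁ e).coeff l = 0 := by
    intro e l hl
    have h1 := hzz (Sum.inr ⟨e, ⟨l, hl⟩⟩)
    rw [hP₂] at h1
    exact h1
  have hred : ∀ {κ₁ κ₂ : Type} {μ₁ μ₂ : ℕ} (Y : ν → F[X])
      (_ : ∀ k, (Y k).natDegree ≤ μ₁) (_ : ∀ k, (Y k).coeff μ₁ = x k) (t : κ₁ → F)
      (ζ₁ : ν × Fin μ₁ ⊕ κ₁ → PowerSeries F) (ζ₂ : ν × Fin μ₂ ⊕ κ₂ → PowerSeries F)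
      (_ : ∀ s, PowerSeries.constantCoeff (ζ₁ s) = Sum.elim
        (fun p : ν × Fin μ₁ => (Y p.1).coeff p.2) t s) (σ₁ σ₂ : F) (k : ν),
      (curY (RingHom.id _) σ₁ σ₂ x ζ₁ ζ₂ k).map PowerSeries.constantCoeff =
        C ((σ₁ - σ₂) ^ μ₂) * Y k := by
    intro κ₁ κ₂ μ₁ μ₂ Y hY hYx t ζ₁ ζ₂ hζ₁ σ₁ σ₂ k
    rw [curY_map, RingHom.comp_id]
    have h1 : (PowerSeries.constantCoeff (R := F)) ∘ ζ₁ = Sum.elim
        (fun p : ν × Fin μ₁ => (Y p.1).coeff p.2) t := funext hζ₁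
    have h2 : curA (PowerSeries.constantCoeff (R := F)) σ₁ σ₂ = C (σ₁ - σ₂) := by
      rw [curA, cst_apply, PowerSeries.constantCoeff_C, PowerSeries.constantCoeff_X, C_0,
        zero_mul, add_zero]
    have h3 : ∀ ζ : ν × Fin μ₂ ⊕ κ₂ → F,
        curH (PowerSeries.constantCoeff (R := F)) σ₁ σ₂ ζ k = 0 := by
      intro ζ
      refine Finset.sum_eq_zero fun l _ => ?_
      rw [PowerSeries.constantCoeff_X, zero_pow (by have := l.2; omega), mul_zero, C_0, zero_mul]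
    rw [h1, curY, h2, h3, mul_zero, add_zero, cst_apply, PowerSeries.constantCoeff_C, ← C_pow,
      ← hYx k, ← curve_of_coeff μ₁ Y hY t k]
  refine ⟨gloY τ₁ τ₂ x z₁ z₂, fun i => z₁ (Sum.inr i), fun i => z₂ (Sum.inr i),
    fun i => hz0 (Sum.inl (Sum.inr i)), fun i => hz0 (Sum.inr (Sum.inr i)),
    fun k => (gloY_degree τ₁ τ₂ x z₁ z₂ k).1, fun k => (gloY_degree τ₁ τ₂ x z₁ z₂ k).2,
    fun e => ?_, ⟨curY (RingHom.id _) τ₁ τ₂ x z₁ z₂, fun k => ⟨gloY_comp τ₁ τ₂ x z₁ z₂ k,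
      hred Y₁ hY₁ hY₁x t₁ z₁ z₂ (fun s => hz0 (Sum.inl s)) τ₁ τ₂ k⟩⟩,
    ⟨curY (RingHom.id _) τ₂ τ₁ x z₂ z₁, fun k => ⟨by
      rw [gloY_symm]
      exact gloY_comp τ₂ τ₁ x z₂ z₁ k,
      hred Y₂ hY₂ hY₂x t₂ z₂ z₁ (fun s => hz0 (Sum.inr s)) τ₂ τ₁ k⟩⟩⟩
  -- the equation
  set D := MvPolynomial.eval₂ (C.comp (PowerSeries.C (R := F))) (gloY τ₁ τ₂ x z₁ z₂) (Fe e) -
        C (PowerSeries.C (c e)) *
          gloR τ₁ τ₂ β₁ β₂ (fun i => z₁ (Sum.inr i)) (fun i => z₂ (Sum.inr i)) e with hD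
  have hd₁ : (X - C (PowerSeries.C τ₁)) ^ (d e * m₁) ∣ D :=
    glue_dvd Fe τ₁ τ₂ x c β₁ β₂ z₁ z₂ e (hFe e) (hβ₁ e) (hG₁ e)
  have hd₂ : (X - C (PowerSeries.C τ₂)) ^ (d e * m₂) ∣ D := by
    have h1 := glue_dvd Fe τ₂ τ₁ x c β₂ β₁ z₂ z₁ e (hFe e) (hβ₂ e) (hG₂ e)
    have h2 : gloY τ₂ τ₁ x z₂ z₁ = gloY τ₁ τ₂ x z₁ z₂ := by
      funext k
      rw [gloY_symm]
    rw [h2, gloR_symm] at h1
    exact h1
  have hcop : IsCoprime ((X - C (PowerSeries.C τ₁)) ^ (d e * m₁) : (PowerSeries F)[X])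
      ((X - C (PowerSeries.C τ₂)) ^ (d e * m₂)) := by
    refine IsCoprime.pow ?_
    refine isCoprime_X_sub_C_of_isUnit_sub ?_
    rw [← map_sub]
    exact (IsUnit.mk0 _ (sub_ne_zero.2 hτ)).map PowerSeries.C
  have hdvd := hcop.mul_dvd hd₁ hd₂
  have hzero : D = 0 := by
    refine eq_zero_of_dvd_of_degree_lt hdvd ?_
    rw [degree_mul, degree_pow, degree_pow, degree_X_sub_C, degree_X_sub_C, nsmul_eq_mul,
      nsmul_eq_mul, mul_one, mul_one, ← Nat.cast_add, ← mul_add, degree_lt_iff_coeff_zero]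
    intro l hl
    obtain ⟨h1, h2⟩ := eval₂_hom_coeff (PowerSeries.C (R := F)) (hFe e) (m₁ + m₂)
      (gloY τ₁ τ₂ x z₁ z₂) (fun k => (gloY_degree τ₁ τ₂ x z₁ z₂ k).1)
    have hRm : (gloR τ₁ τ₂ β₁ β₂ (fun i => z₁ (Sum.inr i)) (fun i => z₂ (Sum.inr i)) e).Monic :=
      (monic_prod_of_monic _ _ fun i _ => (monic_X_sub_C _).pow _).mul
        (monic_prod_of_monic _ _ fun i _ => (monic_X_sub_C _).pow _)
    have hRd : (gloR τ₁ τ₂ β₁ β₂ (fun i => z₁ (Sum.inr i)) (fun i => z₂ (Sum.inr i)) e).natDegree =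
        d e * (m₁ + m₂) := by
      rw [gloR, Monic.natDegree_mul (monic_prod_of_monic _ _ fun i _ => (monic_X_sub_C _).pow _)
        (monic_prod_of_monic _ _ fun i _ => (monic_X_sub_C _).pow _),
        natDegree_prod_of_monic _ _ fun i _ => (monic_X_sub_C _).pow _,
        natDegree_prod_of_monic _ _ fun i _ => (monic_X_sub_C _).pow _, mul_add, ← hβ₁ e, ← hβ₂ e]
      congr 1
      · refine Finset.sum_congr rfl fun i _ => ?_
        rw [(monic_X_sub_C _).natDegree_pow, natDegree_X_sub_C, mul_one]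
      · refine Finset.sum_congr rfl fun i _ => ?_
        rw [(monic_X_sub_C _).natDegree_pow, natDegree_X_sub_C, mul_one]
    rw [hD, coeff_sub, coeff_C_mul]
    rcases hl.eq_or_lt with hl | hl
    · rw [← hl, h2]
      have h3 := hRm.coeff_natDegree
      rw [hRd] at h3
      rw [h3, mul_one, sub_eq_zero, hc e]
      have h4 : (fun k => (gloY τ₁ τ₂ x z₁ z₂ k).coeff (m₁ + m₂)) =
          (PowerSeries.C (R := F)) ∘ x := by
        funext k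
        exact (gloY_degree τ₁ τ₂ x z₁ z₂ k).2
      rw [h4]
      exact (MvPolynomial.eval₂_comp _ _ _).symm
    · rw [coeff_eq_zero_of_natDegree_lt (h1.trans_lt hl), coeff_eq_zero_of_natDegree_lt
        (hRd.le.trans_lt hl), mul_zero, sub_zero]
  exact sub_eq_zero.1 hzero

end Global

end Pool.Agent.Work.RC
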