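import Mathlib
import Pool.Agent.Work.MP_4329d7_ag_rc.Free
import Pool.Agent.Work.MP_4329d7_ag_rc.Red
import Pool.Agent.Work.MP_4329d7_ag_rc.IFTDual
import Pool.Agent.Work.MP_4329d7_ag_rc.GlueC

/-!
Gluing of two curves through `x` (over `k⟦ε⟧`), in homogeneous coordinates (compare `Glue.lean` for
the version with linear relations):
`Y'' = x A₁ A₂ + A₂ H₁ + A₁ H₂`, `A_j = (X - τ_j)^(m_j)`, `H_j = ε^(m_j) U_j((X - τ_j)/ε)` with
unknown polynomials `U_j` of degree `< m_j` and roots `τ_j + ε T_(j,i)` (`τ₁ = 0`, `τ₂ = 1`);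
modulo `ε`: `Y''(τ_j + ε X')/ε^(m_j) = λ_j Y_j(X')` with `λ_j = (τ_j - τ_j')^(m_j')`.
The curve `Y''` is constructed in `GlueC.lean` (`glueC`).
`red` gives `inj` and `cop` (`H` divides `Y''`; it does not matter for `G = 0`).
Finally `G(Y''(s₁), Y''(s₂)) = 0`, `s₁ = τ₁ + ε s₁'`, `s₂ = τ₂ + ε s₂'`, divide by
`ε^(a m₁ + b m₂)`, put `ε = 0`.
-/

namespace Pool.Agent.Work.RC

open Polynomial
open Pool.Agent.Work.Uni (rootPoly)

section Bi

variable {n : ℕ} {l R : Type} [CommRing l] [CommRing R] [Algebra l R]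

/-- scaling -/
theorem bi_scale {a b : ℕ} {G : MvPolynomial (Fin (n + 1) ⊕ Fin (n + 1)) l} (hG : BiHom a b G)
    (p q : R[X]) (Y₁ Y₂ : Fin (n + 1) → R[X]) :
    bi G (fun s => p * Y₁ s) (fun s => q * Y₂ s) =
      C p ^ a * (q.map C) ^ b * bi G Y₁ Y₂ := by
  classical
  rw [bi, bi, MvPolynomial.aeval_def, MvPolynomial.aeval_def, MvPolynomial.eval₂_eq',
    MvPolynomial.eval₂_eq', Finset.mul_sum]
  refine Finset.sum_congr rfl fun u hu => ?_
  rw [MvPolynomial.mem_support_iff] at hu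
  have ha : ∑ s, u (Sum.inl s) = a := by
    have h1 := hG.1 hu
    rw [Finsupp.weight_apply, Finsupp.sum_fintype _ _ (fun i => by simp), Fintype.sum_sum_type] at h1
    simpa using h1
  have hb : ∑ s, u (Sum.inr s) = b := by
    have h1 := hG.2 hu
    rw [Finsupp.weight_apply, Finsupp.sum_fintype _ _ (fun i => by simp), Fintype.sum_sum_type] at h1
    simpa using h1
  rw [Fintype.prod_sum_type, Fintype.prod_sum_type]
  simp only [Sum.elim_inl, Sum.elim_inr, C_mul, Polynomial.map_mul, mul_pow,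
    Finset.prod_mul_distrib, Finset.prod_pow_eq_pow_sum, ha, hb]
  ring

/-- a ring homomorphism of `R[X][X]` which respects the two embeddings -/
theorem bi_hom {R' : Type} [CommRing R'] [Algebra l R'] (Θ : R[X][X] →+* R'[X][X])
    (hΘ : ∀ y : l, Θ (algebraMap l _ y) = algebraMap l _ y)
    (G : MvPolynomial (Fin (n + 1) ⊕ Fin (n + 1)) l) (Y₁ Y₂ : Fin (n + 1) → R[X])
    (Z₁ Z₂ : Fin (n + 1) → R'[X]) (h₁ : ∀ s, Θ (C (Y₁ s)) = C (Z₁ s))
    (h₂ : ∀ s, Θ ((Y₂ s).map C) = (Z₂ s).map C) : Θ (bi G Y₁ Y₂) = bi G Z₁ Z₂ := by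
  rw [bi, bi, MvPolynomial.aeval_def, MvPolynomial.aeval_def, MvPolynomial.eval₂_comp_left]
  congr 1
  · exact RingHom.ext hΘ
  · funext s
    rcases s with s | s
    · exact h₁ s
    · exact h₂ s

end Bi

section Conv

variable {n : ℕ} {E : Type} {A : Arr n E} {k : Type} [Field k] [Algebra ℂ k]
  {x : Fin (n + 1) → k}

theorem eval₂_C_map (Y : Fin (n + 1) → k[X]) (p : MvPolynomial (Fin (n + 1)) ℂ) :
    MvPolynomial.eval₂ C Y (MvPolynomial.map (algebraMap ℂ k) p) = MvPolynomial.aeval Y p := by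
  rw [MvPolynomial.eval₂_map, MvPolynomial.aeval_def]
  rfl

omit [Algebra ℂ k] in
theorem dRoot_eq {ι : Type} [Fintype ι] (β : ι → E → ℕ) (t δ : ι → k) (e : E) :
    dRoot β t δ e = ∑ i, C (δ i) * uD β t e i := by
  rw [dRoot]
  refine Finset.sum_congr rfl fun i _ => ?_
  rw [uD, map_natCast]

theorem curJ_eq (c : Cv A k x) (Z : Fin (n + 1) → k[X]) (δ : c.ι → k) (e : E) :
    curJ (fun e => MvPolynomial.map (algebraMap ℂ k) (A.F e))
      (fun e => MvPolynomial.aeval x (A.F e)) c.β c.Y c.t Z δ e = c.Jac Z δ e := by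
  have h1 : ∀ s, MvPolynomial.eval₂ C c.Y (MvPolynomial.pderiv s
      (MvPolynomial.map (algebraMap ℂ k) (A.F e))) =
        MvPolynomial.aeval c.Y (MvPolynomial.pderiv s (A.F e)) := by
    intro s
    rw [MvPolynomial.pderiv_map, eval₂_C_map]
  unfold curJ Cv.Jac JacW
  simp only [h1, dRoot_eq, Pi.one_apply, mul_one]

/-- a curve is not constant -/
theorem Cv.not_const (hx : AlgebraicIndependent ℂ x) (c : Cv A k x)
    (h : ∀ s s', C (x s) * c.Y s' = C (x s') * c.Y s) : False := by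
  have hx0 : x 0 ≠ 0 := hx.ne_zero 0
  obtain ⟨V, hV⟩ := c.cop
  have h1 : C (x 0) = c.Y 0 * ∑ s, V s * C (x s) := by
    have h2 : C (x 0) * ∑ s, V s * c.Y s = C (x 0) := by rw [hV, mul_one]
    rw [← h2, Finset.mul_sum, Finset.mul_sum]
    refine Finset.sum_congr rfl fun s _ => ?_
    rw [mul_left_comm, h 0 s]
    ring
  have hY0 : c.Y 0 ≠ 0 := by
    intro h0
    rw [h0, zero_mul] at h1
    exact hx0 (C_eq_zero.1 h1)
  have hV0 : (∑ s, V s * C (x s)) ≠ 0 := by
    intro h0
    rw [h0, mul_zero] at h1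
    exact hx0 (C_eq_zero.1 h1)
  have h3 : (c.Y 0).natDegree = 0 := by
    have h4 := congrArg natDegree h1
    rw [natDegree_C, natDegree_mul hY0 hV0] at h4
    omega
  have h5 : (c.Y 0).coeff c.m = 0 := coeff_eq_zero_of_natDegree_lt (by rw [h3]; exact c.m_pos)
  rw [c.lead] at h5
  exact hx0 h5

end Conv

variable {n : ℕ} {E : Type} [Fintype E] [DecidableEq E] {A : Arr n E}

theorem glueY (hA : A.Ok) [Nonempty E] {k : Type} [Field k] [Algebra ℂ k] {x : Fin (n + 1) → k}
    (hx : AlgebraicIndependent ℂ x) (c₁ c₂ : Cv A k x) :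
    ∃ (k' : Type) (_ : Field k') (_ : Algebra ℂ k') (_ : Algebra k k') (_ : IsScalarTower ℂ k k')
      (c : Cv A k' (fun s => algebraMap k k' (x s))),
      ∀ (a b : ℕ) (G : MvPolynomial (Fin (n + 1) ⊕ Fin (n + 1)) k), BiHom a b G →
        bi G c.Y c.Y = 0 → bi G c₁.Y c₂.Y = 0 := by
  classical
  have hfree : ∀ c : Cv A k x, ∀ P : E → k[X], (∀ e, (P e).degree < (A.d e * c.m : ℕ)) →
      ∃ (Z : Fin (n + 1) → k[X]) (δ : c.ι → k), (∀ s, (Z s).degree < c.m) ∧
        ∀ e, curJ (fun e => MvPolynomial.map (algebraMap ℂ k) (A.F e))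
          (fun e => MvPolynomial.aeval x (A.F e)) c.β c.Y c.t Z δ e = P e := by
    intro c P hP
    obtain ⟨Z, δ, h1, h2⟩ := free hA hx c P hP
    exact ⟨Z, δ, h1, fun e => by rw [curJ_eq, h2]⟩
  obtain ⟨Y, T₁, T₂, -, -, hYd, hYx, hYF, ⟨W₁, hW₁⟩, ⟨W₂, hW₂⟩⟩ := glueC
    (fun e => MvPolynomial.map (algebraMap ℂ k) (A.F e)) A.d (fun e => (hA.hom e).map _) x
    (fun e => MvPolynomial.aeval x (A.F e))
    (fun e => by rw [MvPolynomial.eval_map, MvPolynomial.aeval_def]) c₁.β c₂.β
    (c₁.sum_β hA hx) (c₂.sum_β hA hx) c₁.Y c₂.Y c₁.deg c₁.lead c₂.deg c₂.lead c₁.t c₂.t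
    (fun e => by rw [eval₂_C_map]; exact c₁.eqn e)
    (fun e => by rw [eval₂_C_map]; exact c₂.eqn e) (hfree c₁) (hfree c₂) 0 1 zero_ne_one
  let R : Type := PowerSeries k
  let k' : Type := FractionRing (PowerSeries k)
  let ψ : PowerSeries k →+* k' := algebraMap (PowerSeries k) k'
  have hψ : Function.Injective ψ := IsFractionRing.injective (PowerSeries k) k'
  have hψk : ∀ y : k, ψ (PowerSeries.C y) = algebraMap k k' y := fun y =>
    (IsScalarTower.algebraMap_apply k (PowerSeries k) k' y).symm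
  have hx' : AlgebraicIndependent ℂ (fun s => algebraMap k k' (x s)) :=
    hx.map' (f := IsScalarTower.toAlgHom ℂ k k') (algebraMap k k').injective
  -- the values of homogeneous forms
  have haev : ∀ e, MvPolynomial.aeval (fun s => algebraMap k k' (x s)) (A.F e) =
      ψ (PowerSeries.C (MvPolynomial.aeval x (A.F e))) := by
    intro e
    rw [hψk]
    exact (MvPolynomial.aeval_algebraMap_apply k' x (A.F e))
  -- the curve over `k'`
  let t : c₁.ι ⊕ c₂.ι → k' := Sum.elim
    (fun i => ψ (PowerSeries.C (0 : k) + PowerSeries.X * T₁ i))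
    (fun i => ψ (PowerSeries.C (1 : k) + PowerSeries.X * T₂ i))
  have heqn : ∀ e, MvPolynomial.aeval (fun s => (Y s).map ψ) (A.F e) =
      C (MvPolynomial.aeval (fun s => algebraMap k k' (x s)) (A.F e)) *
        rootPoly (Sum.elim c₁.β c₂.β) t e := by
    intro e
    have h1 := congrArg (Polynomial.map ψ) (hYF e)
    rw [map_eval₂_poly, MvPolynomial.eval₂_map, Polynomial.map_mul, map_C, ← haev] at h1
    have h2 : ((mapRingHom ψ).comp (C.comp (PowerSeries.C (R := k)))).comp (algebraMap ℂ k) =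
        algebraMap ℂ k'[X] := by
      refine RingHom.ext fun y => ?_
      rw [RingHom.comp_apply, RingHom.comp_apply, RingHom.comp_apply, coe_mapRingHom, map_C, hψk,
        ← IsScalarTower.algebraMap_apply ℂ k k']
      rfl
    rw [h2] at h1
    rw [MvPolynomial.aeval_def, h1]
    congr 1
    rw [gloR, rootPoly, Fintype.prod_sum_type, Polynomial.map_mul, Polynomial.map_prod,
      Polynomial.map_prod]
    congr 1
    · refine Finset.prod_congr rfl fun i _ => ?_
      rw [Polynomial.map_pow, Polynomial.map_sub, map_X, map_C]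
      rfl
    · refine Finset.prod_congr rfl fun i _ => ?_
      rw [Polynomial.map_pow, Polynomial.map_sub, map_X, map_C]
      rfl
  -- substitutions
  let L₁ : (PowerSeries k)[X] := C (PowerSeries.C (0 : k)) + C PowerSeries.X * X
  let L₂ : (PowerSeries k)[X] := C (PowerSeries.C (1 : k)) + C PowerSeries.X * X
  have hXne : ∀ m : ℕ, (PowerSeries.X : PowerSeries k) ^ m ≠ 0 :=
    fun m => pow_ne_zero _ PowerSeries.X_ne_zero
  have hγ₁ : ((0 : k) - 1) ^ c₂.m ≠ 0 := pow_ne_zero _ (by simp)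
  have hγ₂ : ((1 : k) - 0) ^ c₁.m ≠ 0 := pow_ne_zero _ (by simp)
  -- not constant
  have hnc : ∃ s s', C (algebraMap k k' (x s)) * (Y s').map ψ ≠
      C (algebraMap k k' (x s')) * (Y s).map ψ := by
    by_contra hcon
    push Not at hcon
    refine c₁.not_const hx fun s s' => ?_
    have h1 : C (PowerSeries.C (x s)) * Y s' = C (PowerSeries.C (x s')) * Y s := by
      refine map_injective ψ hψ ?_
      rw [Polynomial.map_mul, Polynomial.map_mul, map_C, map_C, hψk, hψk]
      exact hcon s s'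
    have h2 := congrArg (fun p => p.comp L₁) h1
    simp only [mul_comp, C_comp] at h2
    rw [(hW₁ s).1, (hW₁ s').1, mul_left_comm, mul_left_comm (C (PowerSeries.C (x s')))] at h2
    have h3 := mul_left_cancel₀ (C_ne_zero.2 (hXne c₁.m)) h2
    have h4 := congrArg (Polynomial.map PowerSeries.constantCoeff) h3
    rw [Polynomial.map_mul, Polynomial.map_mul, map_C, map_C, (hW₁ s).2, (hW₁ s').2,
      PowerSeries.constantCoeff_C, PowerSeries.constantCoeff_C, mul_left_comm,
      mul_left_comm (C (x s'))] at h4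
    exact mul_left_cancel₀ (C_ne_zero.2 hγ₁) h4
  obtain ⟨c, H, hH, hYH⟩ := red hA hx' (c₁.m + c₂.m) (c₁.ι ⊕ c₂.ι) (Sum.elim c₁.β c₂.β) t
    (fun s => (Y s).map ψ) (by
      rintro (i | i)
      · exact c₁.mem i
      · exact c₂.mem i)
    (fun s => natDegree_map_le.trans (hYd s)) (fun s => by rw [coeff_map, hYx, hψk]) heqn hnc
  refine ⟨k', inferInstance, inferInstance, inferInstance, inferInstance, c, ?_⟩
  intro a b G hG h0
  -- over the fraction field
  have h1 : bi G (fun s => (Y s).map ψ) (fun s => (Y s).map ψ) = 0 := by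
    have h2 : (fun s => (Y s).map ψ) = fun s => H * c.Y s := funext hYH
    rw [h2, bi_scale hG, h0, mul_zero]
  -- over the power series
  have h2 : bi G Y Y = 0 := by
    have h3 : mapRingHom (mapRingHom ψ) (bi G Y Y) =
        bi G (fun s => (Y s).map ψ) (fun s => (Y s).map ψ) := by
      refine bi_hom _ (fun y => ?_) G _ _ _ _ (fun s => ?_) (fun s => ?_)
      · rw [coe_mapRingHom]
        change Polynomial.map (mapRingHom ψ) (C (C (PowerSeries.C y))) = _
        rw [map_C, coe_mapRingHom, map_C, hψk]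
        rfl
      · rw [coe_mapRingHom, map_C, coe_mapRingHom]
      · rw [coe_mapRingHom, Polynomial.map_map, Polynomial.map_map]
        congr 1
        refine RingHom.ext fun y => ?_
        rw [RingHom.comp_apply, RingHom.comp_apply, coe_mapRingHom, map_C]
    rw [h1] at h3
    refine map_injective (mapRingHom ψ) ?_ ?_
    · rw [coe_mapRingHom]
      exact map_injective ψ hψ
    · rw [Polynomial.map_zero]
      exact h3
  -- after the substitution
  have h3 : bi G W₁ W₂ = 0 := by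
    let Θ : (PowerSeries k)[X][X] →+* (PowerSeries k)[X][X] :=
      (compRingHom (L₂.map C)).comp (mapRingHom (compRingHom L₁))
    have h4 : Θ (bi G Y Y) = bi G (fun s => C (PowerSeries.X ^ c₁.m) * W₁ s)
        (fun s => C (PowerSeries.X ^ c₂.m) * W₂ s) := by
      refine bi_hom Θ (fun y => ?_) G _ _ _ _ (fun s => ?_) (fun s => ?_)
      · change Θ (C (C (PowerSeries.C y))) = C (C (PowerSeries.C y))
        rw [RingHom.comp_apply, coe_mapRingHom, map_C, coe_compRingHom_apply, C_comp,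
          coe_compRingHom_apply, C_comp]
      · rw [RingHom.comp_apply, coe_mapRingHom, map_C, coe_compRingHom_apply, C_comp,
          coe_compRingHom_apply, (hW₁ s).1]
      · rw [RingHom.comp_apply, coe_mapRingHom, Polynomial.map_map, coe_compRingHom_apply]
        have h5 : (compRingHom L₁).comp (C : PowerSeries k →+* _) = C := by
          refine RingHom.ext fun y => ?_
          rw [RingHom.comp_apply, coe_compRingHom_apply, C_comp]
        rw [h5, ← Polynomial.map_comp, (hW₂ s).1]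
    rw [h2, map_zero, bi_scale hG] at h4
    refine (mul_eq_zero.1 h4.symm).resolve_left (mul_ne_zero (pow_ne_zero _ ?_)
      (pow_ne_zero _ ?_))
    · exact C_ne_zero.2 (C_ne_zero.2 (hXne _))
    · rw [map_C]
      exact C_ne_zero.2 (C_ne_zero.2 (hXne _))
  -- modulo `ε`
  have h4 : mapRingHom (mapRingHom PowerSeries.constantCoeff) (bi G W₁ W₂) =
      bi G (fun s => C (((0 : k) - 1) ^ c₂.m) * c₁.Y s)
        (fun s => C (((1 : k) - 0) ^ c₁.m) * c₂.Y s) := by
    refine bi_hom _ (fun y => ?_) G _ _ _ _ (fun s => ?_) (fun s => ?_)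
    · rw [coe_mapRingHom]
      change Polynomial.map _ (C (C (PowerSeries.C y))) = _
      rw [map_C, coe_mapRingHom, map_C, PowerSeries.constantCoeff_C]
      rfl
    · rw [coe_mapRingHom, map_C, coe_mapRingHom, (hW₁ s).2]
    · rw [coe_mapRingHom, Polynomial.map_map, ← (hW₂ s).2, Polynomial.map_map]
      congr 1
      refine RingHom.ext fun y => ?_
      rw [RingHom.comp_apply, RingHom.comp_apply, coe_mapRingHom, map_C]
  rw [h3, map_zero, bi_scale hG] at h4
  refine (mul_eq_zero.1 h4.symm).resolve_left (mul_ne_zero (pow_ne_zero _ ?_)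
    (pow_ne_zero _ ?_))
  · exact C_ne_zero.2 (C_ne_zero.2 hγ₁)
  · rw [map_C]
    exact C_ne_zero.2 (C_ne_zero.2 hγ₂)

end Pool.Agent.Work.RC
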