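import Mathlib
import Pool.Agent.Work.MP_4329d7_ag_rc.Basic

/-!
Change of the base point: the curve `c` seen from its point `Y(s₁)`, `s₁` a variable:
`Y'(X) = X^m Y(s₁ + 1/X)` over `k(s₁)`, roots `1/(t_i - s₁)`.
`G(Y(s₁), Y'(X)) = 0` gives `G(Y(s₁), Y(s₁ + 1/X)) = 0`, so `G(Y(s₁), Y(s₂)) = 0`.
-/

namespace Pool.Agent.Work.RC

open Polynomial
open Pool.Agent.Work.Uni (rootPoly)

section aux

variable {R : Type} [Field R]

theorem mo_eval_reflect {p : R[X]} {m : ℕ} (hp : p.natDegree ≤ m) {z : R} (hz : z ≠ 0) :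
    (reflect m p).eval z = z ^ m * p.eval z⁻¹ := by
  have : Invertible (z⁻¹) := invertibleOfNonzero (inv_ne_zero hz)
  have h := eval₂_reflect_mul_pow (RingHom.id R) z⁻¹ m p hp
  rw [invOf_eq_inv, inv_inv] at h
  change eval z _ * _ = eval z⁻¹ _ at h
  rw [← h, inv_pow, mul_comm, mul_assoc, inv_mul_cancel₀ (pow_ne_zero _ hz), mul_one]

theorem mo_scale {σ S : Type*} [CommRing S] [Algebra ℂ S] {w : σ → ℕ} {G : MvPolynomial σ ℂ}
    {b : ℕ} (hG : G.IsWeightedHomogeneous w b) (l : S) (y : σ → S) :
    MvPolynomial.aeval (fun j => l ^ w j * y j) G = l ^ b * MvPolynomial.aeval y G := by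
  rw [MvPolynomial.aeval_def, MvPolynomial.aeval_def, MvPolynomial.eval₂_eq,
    MvPolynomial.eval₂_eq, Finset.mul_sum]
  refine Finset.sum_congr rfl fun μ hμ => ?_
  have h1 : Finsupp.weight w μ = b := hG (MvPolynomial.mem_support_iff.1 hμ)
  rw [Finsupp.weight_apply, Finsupp.sum] at h1
  have h2 : ∏ i ∈ μ.support, (l ^ w i * y i) ^ μ i = l ^ b * ∏ i ∈ μ.support, y i ^ μ i := by
    rw [← h1, ← Finset.prod_pow_eq_pow_sum, ← Finset.prod_mul_distrib]
    refine Finset.prod_congr rfl fun i _ => ?_
    rw [mul_pow, ← pow_mul, smul_eq_mul, mul_comm (w i)]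
  rw [h2]
  ring

/-- the evaluation as an algebra map -/
noncomputable def moEv [Algebra ℂ R] (z : R) : R[X] →ₐ[ℂ] R :=
  (Polynomial.aeval z).restrictScalars ℂ

theorem moEv_apply [Algebra ℂ R] (z : R) (p : R[X]) : moEv z p = p.eval z := by
  change Polynomial.aeval z p = _
  rw [Polynomial.coe_aeval_eq_eval]

theorem mo_eval_aeval [Algebra ℂ R] {σ : Type*} (G : MvPolynomial σ ℂ) (Y : σ → R[X]) (z : R) :
    (MvPolynomial.aeval Y G).eval z = MvPolynomial.aeval (fun s => (Y s).eval z) G := by
  rw [← moEv_apply, MvPolynomial.comp_aeval_apply]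
  rfl

theorem mo_reflect_sum {ι : Type} (N : ℕ) (s : Finset ι) (f : ι → R[X]) :
    reflect N (∑ i ∈ s, f i) = ∑ i ∈ s, reflect N (f i) := by
  classical
  induction s using Finset.induction_on with
  | empty => simp
  | insert i s hi ih => rw [Finset.sum_insert hi, Finset.sum_insert hi, reflect_add, ih]

theorem mo_ext [Infinite R] {p q : R[X]} (a : R) (h : ∀ z, z ≠ a → p.eval z = q.eval z) :
    p = q := by
  refine eq_of_infinite_eval_eq p q ?_
  refine Set.Infinite.mono (s := {z | z ≠ a}) (fun z hz => h z hz) ?_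
  have h1 : {z : R | z ≠ a} = ({a} : Set R)ᶜ := by
    ext z
    simp
  rw [h1]
  exact (Set.finite_singleton a).infinite_compl

end aux

variable {n : ℕ} {E : Type} [DecidableEq E] {A : Arr n E}

/-- the inversion of a curve at a point `a` which is not a root -/
theorem mo_inv (hA : A.Ok) {R : Type} [Field R] [Algebra ℂ R] [Infinite R]
    {x : Fin (n + 1) → R} (c : Cv A R x) (hx : x 0 ≠ 0)
    (hsum : ∀ e, ∑ i, c.β i e = A.d e * c.m) (a : R) (ha : ∀ i, c.t i ≠ a) :
    ∃ c' : Cv A R (fun s => (c.Y s).eval a), c'.Y = fun s => reflect c.m (taylor a (c.Y s)) := by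
  have hdeg : ∀ s, (taylor a (c.Y s)).natDegree ≤ c.m := fun s => by
    rw [natDegree_taylor]
    exact c.deg s
  have hev : ∀ s (z : R), z ≠ 0 →
      (reflect c.m (taylor a (c.Y s))).eval z = z ^ c.m * (c.Y s).eval (z⁻¹ + a) := by
    intro s z hz
    rw [mo_eval_reflect (hdeg s) hz, taylor_eval]
  refine ⟨{ m := c.m, ι := c.ι, β := c.β, t := fun i => (c.t i - a)⁻¹,
            Y := fun s => reflect c.m (taylor a (c.Y s)), m_pos := c.m_pos, mem := c.mem,
            inj := ?_, deg := ?_, lead := ?_, cop := ?_, eqn := ?_ }, rfl⟩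
  · intro i j hij
    exact c.inj (sub_left_injective (inv_injective hij))
  · intro s
    refine natDegree_reflect_le.trans ?_
    exact max_le le_rfl (hdeg s)
  · intro s
    rw [coeff_reflect, revAt_le le_rfl, Nat.sub_self, taylor_coeff_zero]
  · -- no common zero
    obtain ⟨V, hV⟩ := c.cop
    let D : ℕ := Finset.univ.sup fun s => (taylor a (V s)).natDegree
    have hVD : ∀ s, (taylor a (V s)).natDegree ≤ D := fun s =>
      Finset.le_sup (f := fun s => (taylor a (V s)).natDegree) (Finset.mem_univ s)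
    have h1 : ∑ s, reflect D (taylor a (V s)) * reflect c.m (taylor a (c.Y s)) =
        X ^ (D + c.m) := by
      have h2 := congrArg (fun p => reflect (D + c.m) (taylor a p)) hV
      simp only [map_sum, taylor_mul, taylor_one, C_1] at h2
      rw [mo_reflect_sum, reflect_one] at h2
      rw [← h2]
      refine Finset.sum_congr rfl fun s _ => ?_
      rw [reflect_mul _ _ (hVD s) (hdeg s)]
    have h0 : (reflect c.m (taylor a (c.Y 0))).coeff 0 ≠ 0 := by
      have hn : (c.Y 0).natDegree = c.m := by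
        refine le_antisymm (c.deg 0) (le_natDegree_of_ne_zero ?_)
        rw [c.lead]
        exact hx
      rw [coeff_reflect, revAt_le (Nat.zero_le _), Nat.sub_zero]
      nth_rewrite 1 [← hn]
      rw [coeff_taylor_natDegree, leadingCoeff, hn, c.lead]
      exact hx
    have h3 : IsCoprime (X ^ (D + c.m) : R[X]) (reflect c.m (taylor a (c.Y 0))) := by
      refine IsCoprime.pow_left ?_
      refine (Polynomial.irreducible_X.coprime_iff_not_dvd).2 ?_
      rw [X_dvd_iff]
      exact h0
    obtain ⟨u, v, huv⟩ := h3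
    refine ⟨fun s => u * reflect D (taylor a (V s)) + if s = 0 then v else 0, ?_⟩
    rw [← huv, ← h1, Finset.mul_sum]
    simp only [add_mul, Finset.sum_add_distrib, ite_mul, zero_mul, Finset.sum_ite_eq',
      Finset.mem_univ, if_true, mul_assoc]
  · intro e
    refine mo_ext 0 fun z hz => ?_
    have hhom : ∀ (l : R) (y : Fin (n + 1) → R),
        MvPolynomial.aeval (fun j => l * y j) (A.F e) =
          l ^ A.d e * MvPolynomial.aeval y (A.F e) := by
      intro l y
      have := mo_scale (w := 1) (hA.hom e) l y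
      simpa using this
    rw [mo_eval_aeval]
    simp only [hev _ z hz]
    rw [hhom, ← mo_eval_aeval, c.eqn, ← mo_eval_aeval, c.eqn]
    simp only [eval_mul, eval_C, rootPoly, eval_prod, eval_pow, eval_sub, eval_X]
    have h1 : z ^ (A.d e * c.m) * ∏ i, (z⁻¹ + a - c.t i) ^ c.β i e =
        (∏ i, (a - c.t i) ^ c.β i e) * ∏ i, (z - (c.t i - a)⁻¹) ^ c.β i e := by
      rw [← hsum e, ← Finset.prod_pow_eq_pow_sum, ← Finset.prod_mul_distrib,
        ← Finset.prod_mul_distrib]
      refine Finset.prod_congr rfl fun i _ => ?_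
      rw [← mul_pow, ← mul_pow]
      congr 1
      have h2 : c.t i - a ≠ 0 := sub_ne_zero.2 (ha i)
      field_simp
      ring
    rw [← pow_mul, mul_comm c.m]
    calc z ^ (A.d e * c.m) * (MvPolynomial.aeval x (A.F e) * ∏ i, (z⁻¹ + a - c.t i) ^ c.β i e)
        = MvPolynomial.aeval x (A.F e) *
          (z ^ (A.d e * c.m) * ∏ i, (z⁻¹ + a - c.t i) ^ c.β i e) := by ring
      _ = _ := by rw [h1]; ring

omit [DecidableEq E] in
/-- the coordinates of a curve through a generic point are algebraically independent -/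
theorem mo_algInd {k : Type} [Field k] [Algebra ℂ k] {x : Fin (n + 1) → k}
    (hx : AlgebraicIndependent ℂ x) (c : Cv A k x) : AlgebraicIndependent ℂ c.Y := by
  rw [algebraicIndependent_iff]
  intro P hP
  by_contra hne
  have h1 := coeff_aeval' P c.m_pos c.Y c.deg
  rw [hP, coeff_zero] at h1
  have h2 : (fun s => (c.Y s).coeff c.m) = x := funext c.lead
  rw [h2] at h1
  have h3 := (algebraicIndependent_iff.1 hx) _ h1.symm
  obtain ⟨μ, hμ, hdeg⟩ := Finset.exists_mem_eq_sup P.support
    (MvPolynomial.support_nonempty.2 hne) (fun μ => μ.sum fun _ e => e)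
  have h4 := congrArg (MvPolynomial.coeff μ) h3
  rw [MvPolynomial.coeff_homogeneousComponent, MvPolynomial.coeff_zero, if_pos] at h4
  · exact (MvPolynomial.mem_support_iff.1 hμ) h4
  · rw [MvPolynomial.totalDegree, hdeg]
    rfl

theorem moebius (hA : A.Ok) {k : Type} [Field k] [Algebra ℂ k] {x : Fin (n + 1) → k}
    (hx : AlgebraicIndependent ℂ x) (c : Cv A k x) :
    ∃ (x' : Fin (n + 1) → RatFunc k), AlgebraicIndependent ℂ x' ∧ ∃ c' : Cv A (RatFunc k) x',
      ∀ (b : ℕ) (G : MvPolynomial (Fin (n + 1) ⊕ Fin (n + 1)) ℂ),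
        G.IsWeightedHomogeneous (Sum.elim (fun _ => 0) (fun _ => 1) : _ → ℕ) b →
          semi G x' c'.Y = 0 → bi G c.Y c.Y = 0 := by
  classical
  let f : k →ₐ[ℂ] RatFunc k := IsScalarTower.toAlgHom ℂ k (RatFunc k)
  let g : k[X] →ₐ[ℂ] RatFunc k := IsScalarTower.toAlgHom ℂ k[X] (RatFunc k)
  have hg : Function.Injective g := IsFractionRing.injective k[X] (RatFunc k)
  let c₁ := c.map f
  have : Infinite k := by
    have : CharZero k := charZero_of_injective_algebraMap (algebraMap ℂ k).injective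
    infer_instance
  have : Infinite (RatFunc k) := Infinite.of_injective _ f.injective
  have hev : ∀ s, (c₁.Y s).eval RatFunc.X = g (c.Y s) := by
    intro s
    change ((c.Y s).map (algebraMap k (RatFunc k))).eval RatFunc.X = algebraMap k[X] (RatFunc k) _
    rw [← RatFunc.aeval_X_left_eq_algebraMap, eval_map, aeval_def]
  obtain ⟨c', hc'⟩ := mo_inv hA c₁ (by
    change f (x 0) ≠ 0
    rw [_root_.map_ne_zero]
    exact hx.ne_zero 0) (fun e => c.sum_β hA hx e) RatFunc.X (by
    intro i hi
    have h1 : algebraMap k[X] (RatFunc k) (C (c.t i)) = algebraMap k[X] (RatFunc k) X := by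
      rw [RatFunc.algebraMap_C, RatFunc.algebraMap_X, ← RatFunc.algebraMap_eq_C]
      exact hi
    have h2 := hg h1
    have h3 := congrArg natDegree h2
    rw [natDegree_C, natDegree_X] at h3
    exact absurd h3 (by norm_num))
  refine ⟨_, ?_, c', fun b G hG h => ?_⟩
  · have h1 : (fun s => (c₁.Y s).eval RatFunc.X) = g ∘ c.Y := funext hev
    rw [h1]
    exact (mo_algInd hx c).map' hg
  · -- `G (Y(s₁), Y(s₂)) = 0` over the field `k(s₁)`
    have hdeg : ∀ s, (taylor RatFunc.X (c₁.Y s)).natDegree ≤ c₁.m := fun s => by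
      rw [natDegree_taylor]
      exact c₁.deg s
    have key : semi G (fun s => (c₁.Y s).eval RatFunc.X) c₁.Y = 0 := by
      refine mo_ext RatFunc.X fun z hz => ?_
      have hz' : z - RatFunc.X ≠ 0 := sub_ne_zero.2 hz
      have h2 := congrArg (eval (z - RatFunc.X)⁻¹) h
      rw [hc', semi, mo_eval_aeval, eval_zero] at h2
      rw [semi, mo_eval_aeval, eval_zero]
      have h3 := mo_scale hG ((z - RatFunc.X)⁻¹ ^ c₁.m)
        (Sum.elim (fun s => (c₁.Y s).eval RatFunc.X) fun s => (c₁.Y s).eval z)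
      have h4 : (fun s => eval (z - RatFunc.X)⁻¹
          ((Sum.elim (fun s => (C ((c₁.Y s).eval RatFunc.X) : (RatFunc k)[X]))
            fun s => reflect c₁.m (taylor RatFunc.X (c₁.Y s))) s)) =
          fun j => ((z - RatFunc.X)⁻¹ ^ c₁.m) ^ (Sum.elim (fun _ => 0) (fun _ => 1) :
            Fin (n + 1) ⊕ Fin (n + 1) → ℕ) j *
            (Sum.elim (fun s => (c₁.Y s).eval RatFunc.X) fun s => (c₁.Y s).eval z) j := by
        funext j
        rcases j with j | j
        · simp
        · simp only [Sum.elim_inr, pow_one]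
          rw [mo_eval_reflect (hdeg j) (inv_ne_zero hz'), taylor_eval, inv_inv, sub_add_cancel]
      rw [h4, h3] at h2
      have h5 := (mul_eq_zero.1 h2).resolve_left
        (pow_ne_zero _ (pow_ne_zero _ (inv_ne_zero hz')))
      rw [← h5]
      congr 2
      funext j
      rcases j with j | j
      · simp
      · simp
    -- go back to `k[s₁][s₂]`
    have hinj : Function.Injective (Polynomial.map (g : k[X] →+* RatFunc k)) :=
      Polynomial.map_injective _ hg
    refine hinj ?_
    rw [Polynomial.map_zero, ← key]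
    let G' : k[X][X] →ₐ[ℂ] (RatFunc k)[X] :=
      (Polynomial.mapAlgHom g)
    have h6 : ∀ p : k[X][X], Polynomial.map (g : k[X] →+* RatFunc k) p = G' p := fun p => rfl
    rw [h6, bi, semi, MvPolynomial.comp_aeval_apply]
    congr 2
    funext j
    rcases j with j | j
    · change Polynomial.map (g : k[X] →+* RatFunc k) (C (c.Y j)) = C _
      rw [Polynomial.map_C, hev]
      rfl
    · change Polynomial.map (g : k[X] →+* RatFunc k) ((c.Y j).map C) =
        (c.Y j).map (f : k →+* RatFunc k)
      rw [Polynomial.map_map]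
      congr 1

end Pool.Agent.Work.RC
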