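import Mathlib
import Pool.Agent.Work.MP_4329d7_ag_rc.GlueY
import Pool.Agent.Work.MP_4329d7_ag_rc.Moebius
import Pool.Agent.Work.MP_4329d7_ag_rc.Transfer
import Pool.Agent.Work.MP_4329d7_ag_rc.CircuitGal

/-!
Universal relations: if a nonzero form `P` over `KK n` vanishes on all curves over `KK n` through the
generic point then there are relatively prime `Q₁`, `Q₂` over `ℂ`, not both constant, with
`Q₁(x) Q₂(Y) = Q₂(x) Q₁(Y)` for all curves over all fields.

Proof.  Choose `P` with minimal support, coefficient `1` at `α₀`.  The automorphisms of `KK n` over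
`K₀ = ℂ(x)` act on the curves, so the coefficients of `P` are in `K₀`: `P = ∑ F_α(x)/F_(α₀)(x) Y^α`,
`G = ∑ F_α(X) Y^α`.  By `transfer` `semi G x c.Y = 0` for all curves over all fields.  Scaling
(`Cv.scale`, `l` transcendental): the homogeneous components of `G` in `X` have the same property;
replace `G` by a component with `F_(α₀) ≠ 0`, so `BiHom a r G`; by minimality its coefficients at
`x = gen n` are proportional to those of `P`.  `moebius` and `glueY`: `bi G c₁.Y c₂.Y = 0` for all
`c₁`, `c₂` over `KK n`.  Evaluate the inner variable at `s`: by minimality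
`F_α(c₁.Y(s)) F_(α₀)(x) = F_(α₀)(c₁.Y(s)) F_α(x)` for all `s` in `KK n`, so
`F_α(c₁.Y) F_(α₀)(x) = F_(α₀)(c₁.Y) F_α(x)`.  If all `F_α` are multiples of `F_(α₀)` then
`P ∈ ℂ[Y]` and the top coefficient of `P(Y)` is `P(x) ≠ 0`, contradiction (there is a curve).
Otherwise divide `F_α`, `F_(α₀)` by their gcd, and use `transfer` again for all fields.
-/

namespace Pool.Agent.Work.RC

open Polynomial
open Pool.Agent.Work.Uni (rootPoly)

variable {n : ℕ} {E : Type} [Fintype E] [DecidableEq E] {A : Arr n E}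

/-- the form `∑ F_α(X) Y^α` -/
noncomputable def mkG (S : Finset (Fin (n + 1) →₀ ℕ))
    (F : (Fin (n + 1) →₀ ℕ) → MvPolynomial (Fin (n + 1)) ℂ) :
    MvPolynomial (Fin (n + 1) ⊕ Fin (n + 1)) ℂ :=
  ∑ α ∈ S, MvPolynomial.rename Sum.inl (F α) *
    MvPolynomial.rename Sum.inr (MvPolynomial.monomial α (1 : ℂ))

theorem semi_mkG {k : Type*} [CommRing k] [Algebra ℂ k] (S : Finset (Fin (n + 1) →₀ ℕ))
    (F : (Fin (n + 1) →₀ ℕ) → MvPolynomial (Fin (n + 1)) ℂ) (x : Fin (n + 1) → k)
    (Y : Fin (n + 1) → k[X]) :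
    semi (mkG S F) x Y = ∑ α ∈ S, C (MvPolynomial.aeval x (F α)) *
      MvPolynomial.aeval Y (MvPolynomial.monomial α (1 : ℂ)) := by
  unfold semi mkG
  rw [map_sum]
  refine Finset.sum_congr rfl fun α _ => ?_
  rw [map_mul, MvPolynomial.aeval_rename, MvPolynomial.aeval_rename]
  congr 1
  have : (Sum.elim (fun s => (C (x s) : k[X])) Y ∘ Sum.inl) =
      algebraMap k k[X] ∘ x := by
    ext1 s
    simp
  rw [this, MvPolynomial.aeval_algebraMap_apply]
  rfl

theorem biHom_mkG (S : Finset (Fin (n + 1) →₀ ℕ))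
    (F : (Fin (n + 1) →₀ ℕ) → MvPolynomial (Fin (n + 1)) ℂ) (d r : ℕ)
    (hF : ∀ α ∈ S, (F α).IsHomogeneous d) (hS : ∀ α ∈ S, α.degree = r) :
    BiHom d r (mkG S F) := by
  have key : ∀ (w : Fin (n + 1) ⊕ Fin (n + 1) → ℕ) (a b : ℕ),
      (∀ s, w (Sum.inl s) = a) → (∀ s, w (Sum.inr s) = b) →
      (mkG S F).IsWeightedHomogeneous w (d * a + r * b) := by
    intro w a b ha hb
    unfold mkG
    refine MvPolynomial.IsWeightedHomogeneous.sum _ _ _ fun α hα => ?_
    refine MvPolynomial.IsWeightedHomogeneous.mul ?_ ?_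
    · rw [(F α).as_sum, map_sum]
      refine MvPolynomial.IsWeightedHomogeneous.sum _ _ _ fun β hβ => ?_
      rw [MvPolynomial.rename_monomial]
      refine MvPolynomial.isWeightedHomogeneous_monomial _ _ _ ?_
      have h1 : β.degree = d := by
        have := hF α hα (MvPolynomial.mem_support_iff.1 hβ)
        rw [Finsupp.degree_eq_weight_one]
        exact this
      rw [Finsupp.weight_apply, Finsupp.sum_mapDomain_index (by simp) (by intros; simp [add_mul])]
      simp only [ha, smul_eq_mul]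
      rw [← h1, Finsupp.degree_eq_sum, Finset.sum_mul, Finsupp.sum_fintype _ _ (by simp)]
    · rw [MvPolynomial.rename_monomial]
      refine MvPolynomial.isWeightedHomogeneous_monomial _ _ _ ?_
      rw [Finsupp.weight_apply, Finsupp.sum_mapDomain_index (by simp) (by intros; simp [add_mul])]
      simp only [hb, smul_eq_mul]
      rw [← hS α hα, Finsupp.degree_eq_sum, Finset.sum_mul, Finsupp.sum_fintype _ _ (by simp)]
  constructor
  · have := key (Sum.elim (fun _ => 1) (fun _ => 0)) 1 0 (fun _ => rfl) (fun _ => rfl)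
    simpa using this
  · have := key (Sum.elim (fun _ => 0) (fun _ => 1)) 0 1 (fun _ => rfl) (fun _ => rfl)
    simpa using this

theorem aeval_eq_sum {k : Type*} [CommRing k] [Algebra ℂ k]
    (P : MvPolynomial (Fin (n + 1)) k) (S : Finset (Fin (n + 1) →₀ ℕ)) (hS : P.support ⊆ S)
    (Y : Fin (n + 1) → k[X]) :
    MvPolynomial.aeval Y P = ∑ α ∈ S, C (P.coeff α) *
      MvPolynomial.aeval Y (MvPolynomial.monomial α (1 : ℂ)) := by
  rw [MvPolynomial.aeval_def, MvPolynomial.eval₂_eq']
  rw [Finset.sum_subset hS]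
  · refine Finset.sum_congr rfl fun α _ => ?_
    rw [MvPolynomial.aeval_monomial, map_one, one_mul, Finsupp.prod_fintype _ _ (by simp)]
    rfl
  · intro α _ hα
    rw [MvPolynomial.notMem_support_iff.1 hα]
    simp

/-- evaluation of the inner variable -/
theorem bi_eval {k : Type*} [CommRing k] [Algebra ℂ k]
    (G : MvPolynomial (Fin (n + 1) ⊕ Fin (n + 1)) ℂ) (Y₁ Y₂ : Fin (n + 1) → k[X]) (s : k) :
    (bi G Y₁ Y₂).map (evalRingHom s) = semi G (fun i => (Y₁ i).eval s) Y₂ := by
  unfold bi semi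
  have h : ∀ p : k[X][X], p.map (evalRingHom s) =
      (mapAlgHom ((aeval s : k[X] →ₐ[k] k).restrictScalars ℂ)) p := by
    intro p
    rfl
  rw [h]
  rw [MvPolynomial.comp_aeval_apply]
  congr 2
  funext i
  rcases i with i | i
  · simp
  · simp only [Sum.elim_inr]
    change ((Y₂ i).map C).map _ = _
    rw [Polynomial.map_map]
    convert Polynomial.map_id
    ext a
    simp



/-- base change of `bi` -/
theorem bi_map {l k : Type*} [CommRing l] [CommRing k] [Algebra ℂ l] [Algebra ℂ k] [Algebra l k]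
    [IsScalarTower ℂ l k] (G : MvPolynomial (Fin (n + 1) ⊕ Fin (n + 1)) ℂ)
    (Y₁ Y₂ : Fin (n + 1) → k[X]) :
    bi (G.map (algebraMap ℂ l)) Y₁ Y₂ = bi G Y₁ Y₂ := by
  unfold bi
  rw [MvPolynomial.aeval_map_algebraMap]

theorem BiHom.map {k l : Type*} [CommRing k] [CommRing l] (f : k →+* l) {a b : ℕ}
    {G : MvPolynomial (Fin (n + 1) ⊕ Fin (n + 1)) k} (hG : BiHom a b G) :
    BiHom a b (G.map f) := by
  constructor
  · intro d hd
    refine hG.1 (fun h0 => hd ?_)
    rw [MvPolynomial.coeff_map, h0, map_zero]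
  · intro d hd
    refine hG.2 (fun h0 => hd ?_)
    rw [MvPolynomial.coeff_map, h0, map_zero]

/-- the bihomogeneous universal relation -/
theorem pair_relation (hA : A.Ok) [Nonempty E] (a b : ℕ)
    (G : MvPolynomial (Fin (n + 1) ⊕ Fin (n + 1)) ℂ) (hG : BiHom a b G)
    (h : ∀ c : Cv A (KK n) (gen n), semi G (gen n) c.Y = 0) (c₁ c₂ : Cv A (KK n) (gen n)) :
    bi G c₁.Y c₂.Y = 0 := by
  obtain ⟨k', _, _, _, _, c, hc⟩ := glueY hA (gen_ai n) c₁ c₂
  have hx' : AlgebraicIndependent ℂ (fun s => algebraMap (KK n) k' (gen n s)) :=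
    (gen_ai n).map' (f := IsScalarTower.toAlgHom ℂ (KK n) k')
      (RingHom.injective (algebraMap (KK n) k'))
  obtain ⟨x', hx'', c', hm⟩ := moebius hA hx' c
  have h1 : semi G x' c'.Y = 0 := by
    by_contra hne
    obtain ⟨c'', hc''⟩ := transfer hx'' c' G hne
    exact hc'' (h c'')
  have h2 : bi G c.Y c.Y = 0 := hm b G hG.2 h1
  have h3 := hc a b (G.map (algebraMap ℂ (KK n))) (hG.map _)
    (by rw [bi_map, h2])
  rwa [bi_map] at h3


/-- scaling of an algebraically independent family by a constant -/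
theorem ai_scale {k : Type*} [CommRing k] [Algebra ℂ k] {x : Fin (n + 1) → k}
    (hx : AlgebraicIndependent ℂ x) {l : ℂ} (hl : l ≠ 0) :
    AlgebraicIndependent ℂ (fun s => algebraMap ℂ k l * x s) := by
  rw [algebraicIndependent_iff] at hx ⊢
  intro p hp
  have h1 : MvPolynomial.aeval (fun s => algebraMap ℂ k l * x s) p =
      MvPolynomial.aeval x (MvPolynomial.aeval
        (fun s => (MvPolynomial.C l * MvPolynomial.X s : MvPolynomial (Fin (n + 1)) ℂ)) p) := by
    rw [MvPolynomial.comp_aeval_apply]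
    congr 2
    funext s
    rw [map_mul, MvPolynomial.aeval_X, MvPolynomial.aeval_C]
  rw [h1] at hp
  have h2 := hx _ hp
  have h3 : MvPolynomial.aeval
      (fun s => (MvPolynomial.C l⁻¹ * MvPolynomial.X s : MvPolynomial (Fin (n + 1)) ℂ))
      (MvPolynomial.aeval
        (fun s => (MvPolynomial.C l * MvPolynomial.X s : MvPolynomial (Fin (n + 1)) ℂ)) p) = p := by
    rw [MvPolynomial.comp_aeval_apply]
    have : (fun i => MvPolynomial.aeval
        (fun s => (MvPolynomial.C l⁻¹ * MvPolynomial.X s : MvPolynomial (Fin (n + 1)) ℂ))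
        (MvPolynomial.C l * MvPolynomial.X i)) = MvPolynomial.X := by
      funext i
      rw [map_mul, MvPolynomial.aeval_X, MvPolynomial.aeval_C, ← mul_assoc,
        MvPolynomial.algebraMap_eq, ← MvPolynomial.C_mul, mul_inv_cancel₀ hl, MvPolynomial.C_1,
        one_mul]
    rw [this, MvPolynomial.aeval_X_left_apply]
  rw [h2, map_zero] at h3
  exact h3.symm

theorem aeval_scale_hom {k : Type*} [CommRing k] [Algebra ℂ k] (x : Fin (n + 1) → k) (l : k)
    (p : MvPolynomial (Fin (n + 1)) ℂ) (N : ℕ) (hN : p.totalDegree < N) :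
    MvPolynomial.aeval (fun s => l * x s) p =
      ∑ d ∈ Finset.range N, l ^ d * MvPolynomial.aeval x (p.homogeneousComponent d) := by
  have h1 : p = ∑ d ∈ Finset.range N, p.homogeneousComponent d := by
    conv_lhs => rw [← p.sum_homogeneousComponent]
    refine Finset.sum_subset (Finset.range_subset_range.2 hN) ?_
    intro d _ hd
    rw [Finset.mem_range, not_lt] at hd
    exact MvPolynomial.homogeneousComponent_eq_zero _ _ (by omega)
  conv_lhs => rw [h1]
  rw [map_sum]
  refine Finset.sum_congr rfl fun d _ => ?_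
  have h2 := MvPolynomial.homogeneousComponent_isHomogeneous d p
  generalize p.homogeneousComponent d = q at h2
  rw [q.as_sum, map_sum, map_sum, Finset.mul_sum]
  refine Finset.sum_congr rfl fun β hβ => ?_
  rw [MvPolynomial.aeval_monomial, MvPolynomial.aeval_monomial,
    Finsupp.prod_fintype _ _ (by simp), Finsupp.prod_fintype _ _ (by simp)]
  simp only [mul_pow]
  rw [Finset.prod_mul_distrib, Finset.prod_pow_eq_pow_sum]
  have h3 : ∑ i, β i = d := by
    have := h2 (MvPolynomial.mem_support_iff.1 hβ)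
    rw [← Finsupp.degree_eq_sum, Finsupp.degree_eq_weight_one]
    exact this
  rw [h3]
  ring

/-- all homogeneous components in `X` of a universal relation are universal relations -/
theorem comp_relation (hA : A.Ok) (S : Finset (Fin (n + 1) →₀ ℕ))
    (F : (Fin (n + 1) →₀ ℕ) → MvPolynomial (Fin (n + 1)) ℂ) (r : ℕ) (hS : ∀ α ∈ S, α.degree = r)
    (h : ∀ c : Cv A (KK n) (gen n), semi (mkG S F) (gen n) c.Y = 0) (d : ℕ)
    (c : Cv A (KK n) (gen n)) :
    semi (mkG S (fun α => (F α).homogeneousComponent d)) (gen n) c.Y = 0 := by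
  classical
  obtain ⟨N, hdN, hN⟩ : ∃ N, d < N ∧ ∀ α ∈ S, (F α).totalDegree < N :=
    ⟨d + (S.sup fun α => (F α).totalDegree) + 1, by omega, fun α hα => by
      have := Finset.le_sup (f := fun α => (F α).totalDegree) hα
      omega⟩
  let G : ℕ → (KK n)[X] := fun d =>
    semi (mkG S (fun α => (F α).homogeneousComponent d)) (gen n) c.Y
  let p : (KK n)[X][X] := ∑ d ∈ Finset.range N, monomial d (G d)
  have hp : p = 0 := by
    refine Polynomial.eq_zero_of_infinite_isRoot p ?_
    have hinf : Set.Infinite (algebraMap ℂ (KK n)[X] '' {l : ℂ | l ≠ 0}) := by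
      refine Set.Infinite.image (FaithfulSMul.algebraMap_injective ℂ (KK n)[X]).injOn ?_
      exact (Set.finite_singleton (0 : ℂ)).infinite_compl
    refine hinf.mono ?_
    rintro _ ⟨l, hl, rfl⟩
    have hl' : algebraMap ℂ (KK n) l ≠ 0 :=
      (map_ne_zero_iff _ (FaithfulSMul.algebraMap_injective ℂ (KK n))).2 hl
    have h1 : semi (mkG S F) (fun s => algebraMap ℂ (KK n) l * gen n s)
        (c.scale hA (algebraMap ℂ (KK n) l) hl').Y = 0 := by
      by_contra hne
      obtain ⟨c'', hc''⟩ := transfer (ai_scale (gen_ai n) hl) _ _ hne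
      exact hc'' (h c'')
    change semi (mkG S F) (fun s => algebraMap ℂ (KK n) l * gen n s)
        (fun s => C (algebraMap ℂ (KK n) l) * c.Y s) = 0 at h1
    rw [semi_mkG] at h1
    have h2 : ∀ α ∈ S, C (MvPolynomial.aeval (fun s => algebraMap ℂ (KK n) l * gen n s) (F α)) *
        MvPolynomial.aeval (fun s => C (algebraMap ℂ (KK n) l) * c.Y s)
          (MvPolynomial.monomial α (1 : ℂ)) =
        C (algebraMap ℂ (KK n) l) ^ r * ∑ d ∈ Finset.range N,
          (C (MvPolynomial.aeval (gen n) ((F α).homogeneousComponent d)) *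
            MvPolynomial.aeval c.Y (MvPolynomial.monomial α (1 : ℂ))) *
              (algebraMap ℂ (KK n)[X] l) ^ d := by
      intro α hα
      rw [aeval_scale_hom _ _ _ N (hN α hα), MvPolynomial.aeval_monomial,
        MvPolynomial.aeval_monomial, Finsupp.prod_fintype _ _ (by simp),
        Finsupp.prod_fintype _ _ (by simp)]
      simp only [mul_pow]
      rw [Finset.prod_mul_distrib, Finset.prod_pow_eq_pow_sum, ← Finsupp.degree_eq_sum, hS α hα,
        map_sum, Finset.sum_mul, Finset.mul_sum]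
      refine Finset.sum_congr rfl fun d _ => ?_
      rw [C_mul, C_pow, IsScalarTower.algebraMap_apply ℂ (KK n) (KK n)[X] l,
        Polynomial.algebraMap_eq]
      ring
    rw [Finset.sum_congr rfl h2, ← Finset.mul_sum] at h1
    have h3 := (mul_eq_zero.1 h1).resolve_left (pow_ne_zero _ (C_ne_zero.2 hl'))
    rw [Finset.sum_comm] at h3
    change p.eval _ = 0
    rw [← h3]
    simp only [p, G]
    rw [eval_finsetSum]
    refine Finset.sum_congr rfl fun d _ => ?_
    rw [eval_monomial, semi_mkG, Finset.sum_mul]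
  have h4 : p.coeff d = G d := by
    simp only [p]
    rw [finsetSum_coeff, Finset.sum_eq_single d]
    · rw [coeff_monomial, if_pos rfl]
    · intro b _ hb
      rw [coeff_monomial, if_neg hb]
    · intro hd
      exact absurd (Finset.mem_range.2 hdN) hd
  change G d = 0
  rw [← h4, hp, coeff_zero]

theorem gen_aeval (p : MvPolynomial (Fin (n + 1)) ℂ) :
    MvPolynomial.aeval (gen n) p =
      algebraMap (FractionRing (MvPolynomial (Fin (n + 1)) ℂ)) (KK n)
        (algebraMap (MvPolynomial (Fin (n + 1)) ℂ) _ p) := by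
  have h : (MvPolynomial.aeval (gen n) : MvPolynomial (Fin (n + 1)) ℂ →ₐ[ℂ] KK n) =
      (IsScalarTower.toAlgHom ℂ (FractionRing (MvPolynomial (Fin (n + 1)) ℂ)) (KK n)).comp
        (IsScalarTower.toAlgHom ℂ (MvPolynomial (Fin (n + 1)) ℂ) _) := by
    ext i
    simp [gen]
  rw [h]
  rfl


/-- two relations with the support of a form with minimal support are proportional -/
theorem min_prop (P : MvPolynomial (Fin (n + 1)) (KK n)) (r : ℕ) (hP : P.IsHomogeneous r)
    (hvan : ∀ c : Cv A (KK n) (gen n), MvPolynomial.aeval c.Y P = 0)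
    (hmin : ∀ P' : MvPolynomial (Fin (n + 1)) (KK n), P'.IsHomogeneous r → P' ≠ 0 →
      (∀ c : Cv A (KK n) (gen n), MvPolynomial.aeval c.Y P' = 0) →
        P.support.card ≤ P'.support.card)
    (α₀ : Fin (n + 1) →₀ ℕ) (h1 : P.coeff α₀ = 1) (h : (Fin (n + 1) →₀ ℕ) → KK n)
    (hh : ∀ c : Cv A (KK n) (gen n), ∑ α ∈ P.support, C (h α) *
      MvPolynomial.aeval c.Y (MvPolynomial.monomial α (1 : ℂ)) = 0)
    (α : Fin (n + 1) →₀ ℕ) (hα : α ∈ P.support) : h α = h α₀ * P.coeff α := by
  classical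
  have hα₀ : α₀ ∈ P.support := by
    rw [MvPolynomial.mem_support_iff, h1]
    exact one_ne_zero
  let P' : MvPolynomial (Fin (n + 1)) (KK n) :=
    ∑ β ∈ P.support, MvPolynomial.monomial β (h β - h α₀ * P.coeff β)
  have hco : ∀ β, P'.coeff β = if β ∈ P.support then h β - h α₀ * P.coeff β else 0 := by
    intro β
    simp only [P']
    rw [MvPolynomial.coeff_sum]
    simp only [MvPolynomial.coeff_monomial]
    rw [Finset.sum_ite_eq' P.support β]
  have hsub : P'.support ⊆ P.support.erase α₀ := by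
    intro β hβ
    rw [MvPolynomial.mem_support_iff, hco] at hβ
    rw [Finset.mem_erase]
    constructor
    · rintro rfl
      rw [if_pos hα₀, h1, mul_one, sub_self] at hβ
      exact hβ rfl
    · by_contra hn
      rw [if_neg hn] at hβ
      exact hβ rfl
  have hhom : P'.IsHomogeneous r := by
    refine MvPolynomial.IsHomogeneous.sum _ _ _ fun β hβ => ?_
    refine MvPolynomial.isHomogeneous_monomial _ ?_
    have := hP (MvPolynomial.mem_support_iff.1 hβ)
    rw [Finsupp.degree_eq_weight_one]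
    exact this
  have hvan' : ∀ c : Cv A (KK n) (gen n), MvPolynomial.aeval c.Y P' = 0 := by
    intro c
    rw [aeval_eq_sum P' P.support (hsub.trans (Finset.erase_subset _ _))]
    have e1 : ∀ β ∈ P.support, C (P'.coeff β) *
        MvPolynomial.aeval c.Y (MvPolynomial.monomial β (1 : ℂ)) =
        C (h β) * MvPolynomial.aeval c.Y (MvPolynomial.monomial β (1 : ℂ)) -
          C (h α₀) * (C (P.coeff β) *
            MvPolynomial.aeval c.Y (MvPolynomial.monomial β (1 : ℂ))) := by
      intro β hβ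
      rw [hco, if_pos hβ, C_sub, C_mul]
      ring
    rw [Finset.sum_congr rfl e1, Finset.sum_sub_distrib, hh c, ← Finset.mul_sum,
      ← aeval_eq_sum P P.support subset_rfl, hvan c, mul_zero, sub_zero]
  have h0 : P' = 0 := by
    by_contra hne
    have h2 := hmin P' hhom hne hvan'
    have h3 := Finset.card_le_card hsub
    rw [Finset.card_erase_of_mem hα₀] at h3
    have h4 : 0 < P.support.card := Finset.card_pos.2 ⟨_, hα₀⟩
    omega
  have h5 := hco α
  rw [h0, if_pos hα, MvPolynomial.coeff_zero] at h5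
  exact (sub_eq_zero.1 h5.symm)

theorem aeval_curve_ne_zero (c : Cv A (KK n) (gen n)) (g : MvPolynomial (Fin (n + 1)) ℂ)
    (hg : g ≠ 0) : MvPolynomial.aeval c.Y g ≠ 0 := by
  intro h0
  have h1 := coeff_aeval' g c.m_pos c.Y c.deg
  rw [h0, coeff_zero] at h1
  have h2 : (fun s => (c.Y s).coeff c.m) = gen n := by
    funext s
    exact c.lead s
  rw [h2] at h1
  have h3 := (algebraicIndependent_iff.1 (gen_ai n)) _ h1.symm
  have hne : g.support.Nonempty := by
    rw [Finset.nonempty_iff_ne_empty, Ne, MvPolynomial.support_eq_empty]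
    exact hg
  obtain ⟨β, hβ, hd⟩ := Finset.exists_mem_eq_sup g.support hne (fun s => s.sum fun _ e => e)
  have h4 : (MvPolynomial.homogeneousComponent g.totalDegree g).coeff β = g.coeff β := by
    rw [MvPolynomial.coeff_homogeneousComponent, if_pos]
    rw [MvPolynomial.totalDegree, hd, Finsupp.degree_apply]
    rfl
  rw [h3, MvPolynomial.coeff_zero] at h4
  exact MvPolynomial.mem_support_iff.1 hβ h4.symm

theorem circuit (hA : A.Ok) [Nonempty E] (hne : Nonempty (Cv A (KK n) (gen n))) (r : ℕ)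
    (P : MvPolynomial (Fin (n + 1)) (KK n)) (hP : P.IsHomogeneous r) (hP0 : P ≠ 0)
    (hvan : ∀ c : Cv A (KK n) (gen n), MvPolynomial.aeval c.Y P = 0) :
    ∃ Q₁ Q₂ : MvPolynomial (Fin (n + 1)) ℂ, IsRelPrime Q₁ Q₂ ∧
      ¬ (Q₁.totalDegree = 0 ∧ Q₂.totalDegree = 0) ∧
      ∀ (k' : Type) [Field k'] [Algebra ℂ k'] (x' : Fin (n + 1) → k'),
        AlgebraicIndependent ℂ x' → ∀ c' : Cv A k' x',
          C (MvPolynomial.aeval x' Q₁) * MvPolynomial.aeval c'.Y Q₂ =
            C (MvPolynomial.aeval x' Q₂) * MvPolynomial.aeval c'.Y Q₁ := by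
  classical
  -- minimal support
  obtain ⟨P₀, ⟨hP₀, hP₀0, hP₀v⟩, hP₀min⟩ :
      ∃ P₀ : MvPolynomial (Fin (n + 1)) (KK n), (P₀.IsHomogeneous r ∧ P₀ ≠ 0 ∧
        ∀ c : Cv A (KK n) (gen n), MvPolynomial.aeval c.Y P₀ = 0) ∧
        ∀ P' : MvPolynomial (Fin (n + 1)) (KK n), P'.IsHomogeneous r → P' ≠ 0 →
          (∀ c : Cv A (KK n) (gen n), MvPolynomial.aeval c.Y P' = 0) →
            P₀.support.card ≤ P'.support.card := by
    have hex : ∃ N : ℕ, ∃ P' : MvPolynomial (Fin (n + 1)) (KK n), P'.support.card = N ∧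
        P'.IsHomogeneous r ∧ P' ≠ 0 ∧
        ∀ c : Cv A (KK n) (gen n), MvPolynomial.aeval c.Y P' = 0 := ⟨_, P, rfl, hP, hP0, hvan⟩
    obtain ⟨P₀, h1, h2, h3, h4⟩ := Nat.find_spec hex
    refine ⟨P₀, ⟨h2, h3, h4⟩, fun P' a b c => ?_⟩
    rw [h1]
    exact Nat.find_min' hex ⟨P', rfl, a, b, c⟩
  obtain ⟨α₀, hα₀⟩ : ∃ α₀, α₀ ∈ P₀.support := by
    by_contra hcon
    push Not at hcon
    exact hP₀0 (MvPolynomial.support_eq_empty.1 (Finset.eq_empty_of_forall_notMem hcon))
  have hc0 : P₀.coeff α₀ ≠ 0 := MvPolynomial.mem_support_iff.1 hα₀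
  -- normalise
  obtain ⟨P, hP, hPv, hPmin, hP1⟩ : ∃ P : MvPolynomial (Fin (n + 1)) (KK n), P.IsHomogeneous r ∧
      (∀ c : Cv A (KK n) (gen n), MvPolynomial.aeval c.Y P = 0) ∧
      (∀ P' : MvPolynomial (Fin (n + 1)) (KK n), P'.IsHomogeneous r → P' ≠ 0 →
        (∀ c : Cv A (KK n) (gen n), MvPolynomial.aeval c.Y P' = 0) →
          P.support.card ≤ P'.support.card) ∧ P.coeff α₀ = 1 := by
    have hsup : (MvPolynomial.C (P₀.coeff α₀)⁻¹ * P₀).support = P₀.support := by
      ext β
      rw [MvPolynomial.mem_support_iff, MvPolynomial.mem_support_iff, MvPolynomial.coeff_C_mul]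
      constructor
      · intro h h'
        rw [h', mul_zero] at h
        exact h rfl
      · intro h h'
        exact h ((mul_eq_zero.1 h').resolve_left (inv_ne_zero hc0))
    refine ⟨MvPolynomial.C (P₀.coeff α₀)⁻¹ * P₀, ?_, ?_, ?_, ?_⟩
    · have := (MvPolynomial.isHomogeneous_C (Fin (n + 1)) (P₀.coeff α₀)⁻¹).mul hP₀
      rwa [zero_add] at this
    · intro c
      rw [map_mul, hP₀v c, mul_zero]
    · intro P' a b c
      rw [hsup]
      exact hP₀min P' a b c
    · rw [MvPolynomial.coeff_C_mul, inv_mul_cancel₀ hc0]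
  have hPne : P ≠ 0 := by
    rintro rfl
    rw [MvPolynomial.coeff_zero] at hP1
    exact zero_ne_one hP1
  have hα₀ : α₀ ∈ P.support := by
    rw [MvPolynomial.mem_support_iff, hP1]
    exact one_ne_zero
  have hdeg : ∀ α ∈ P.support, α.degree = r := by
    intro α hα
    have := hP (MvPolynomial.mem_support_iff.1 hα)
    rw [Finsupp.degree_eq_weight_one]
    exact this
  -- the coefficients are rational functions
  choose q hq using coeff_rational P r hP hPne hPv hPmin α₀ hP1
  obtain ⟨b, hb⟩ := IsLocalization.exist_integer_multiples_of_finset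
    (nonZeroDivisors (MvPolynomial (Fin (n + 1)) ℂ)) (P.support.image q)
  have hb' : ∀ α, ∃ f : MvPolynomial (Fin (n + 1)) ℂ, α ∈ P.support →
      MvPolynomial.aeval (gen n) f = MvPolynomial.aeval (gen n) (b : MvPolynomial _ ℂ) *
        P.coeff α := by
    intro α
    by_cases hα : α ∈ P.support
    · obtain ⟨f, hf⟩ := hb (q α) (Finset.mem_image_of_mem _ hα)
      refine ⟨f, fun _ => ?_⟩
      rw [gen_aeval, gen_aeval, hf, hq α, ← map_mul]
      congr 1
      rw [Algebra.smul_def]
    · exact ⟨0, fun h => absurd h hα⟩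
  choose F hF using hb'
  have hb0 : (b : MvPolynomial (Fin (n + 1)) ℂ) ≠ 0 := nonZeroDivisors.ne_zero b.2
  have hrel : ∀ c : Cv A (KK n) (gen n), semi (mkG P.support F) (gen n) c.Y = 0 := by
    intro c
    rw [semi_mkG]
    have e1 : ∀ α ∈ P.support, C (MvPolynomial.aeval (gen n) (F α)) *
        MvPolynomial.aeval c.Y (MvPolynomial.monomial α (1 : ℂ)) =
        C (MvPolynomial.aeval (gen n) (b : MvPolynomial _ ℂ)) * (C (P.coeff α) *
          MvPolynomial.aeval c.Y (MvPolynomial.monomial α (1 : ℂ))) := by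
      intro α hα
      rw [hF α hα, C_mul, mul_assoc]
    rw [Finset.sum_congr rfl e1, ← Finset.mul_sum, ← aeval_eq_sum P P.support subset_rfl, hPv c,
      mul_zero]
  have hinj := algebraicIndependent_iff.1 (gen_ai n)
  have hFb : F α₀ = b := by
    have h1 := hF α₀ hα₀
    rw [hP1, mul_one] at h1
    have h2 := hinj (F α₀ - b) (by rw [map_sub, h1, sub_self])
    exact sub_eq_zero.1 h2
  obtain ⟨d, hd⟩ : ∃ d, (F α₀).homogeneousComponent d ≠ 0 := by
    by_contra hcon
    push Not at hcon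
    apply hb0
    rw [← hFb, ← (F α₀).sum_homogeneousComponent]
    exact Finset.sum_eq_zero fun i _ => hcon i
  let H : (Fin (n + 1) →₀ ℕ) → MvPolynomial (Fin (n + 1)) ℂ :=
    fun α => (F α).homogeneousComponent d
  have hH : ∀ c : Cv A (KK n) (gen n), semi (mkG P.support H) (gen n) c.Y = 0 :=
    comp_relation hA P.support F r hdeg hrel d
  have hbi : BiHom d r (mkG P.support H) :=
    biHom_mkG _ _ _ _ (fun α _ => MvPolynomial.homogeneousComponent_isHomogeneous _ _) hdeg
  have hH0 : H α₀ ≠ 0 := hd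
  have hHx : MvPolynomial.aeval (gen n) (H α₀) ≠ 0 := fun h => hH0 (hinj _ h)
  -- proportionality at `x`
  have hprop : ∀ α ∈ P.support, MvPolynomial.aeval (gen n) (H α) =
      MvPolynomial.aeval (gen n) (H α₀) * P.coeff α := by
    intro α hα
    refine min_prop P r hP hPv hPmin α₀ hP1 (fun α => MvPolynomial.aeval (gen n) (H α)) ?_ α hα
    intro c
    rw [← semi_mkG]
    exact hH c
  -- proportionality at the points of the curves
  have hcur : ∀ (c : Cv A (KK n) (gen n)), ∀ α ∈ P.support,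
      C (MvPolynomial.aeval (gen n) (H α₀)) * MvPolynomial.aeval c.Y (H α) =
        C (MvPolynomial.aeval (gen n) (H α)) * MvPolynomial.aeval c.Y (H α₀) := by
    intro c α hα
    refine Polynomial.funext fun s => ?_
    have hev : ∀ f : MvPolynomial (Fin (n + 1)) ℂ, (MvPolynomial.aeval c.Y f).eval s =
        MvPolynomial.aeval (fun i => (c.Y i).eval s) f := by
      intro f
      have := MvPolynomial.comp_aeval_apply (R := ℂ) c.Y
        ((Polynomial.aeval s : (KK n)[X] →ₐ[KK n] KK n).restrictScalars ℂ) f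
      exact this
    have h1 := min_prop P r hP hPv hPmin α₀ hP1
      (fun α => MvPolynomial.aeval (fun i => (c.Y i).eval s) (H α)) (fun c₂ => by
        rw [← semi_mkG, ← bi_eval, pair_relation hA d r _ hbi hH c c₂, Polynomial.map_zero]) α hα
    rw [eval_mul, eval_mul, eval_C, eval_C, hev, hev, h1, hprop α hα]
    ring
  -- some coefficient is not constant
  obtain ⟨α₁, hα₁, hα₁'⟩ : ∃ α ∈ P.support, ∀ a : ℂ, H α ≠ MvPolynomial.C a * H α₀ := by
    by_contra hcon
    push Not at hcon
    have hc : ∀ α, ∃ a : ℂ, P.coeff α = algebraMap ℂ (KK n) a := by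
      intro α
      by_cases hα : α ∈ P.support
      · obtain ⟨a, ha⟩ := hcon α hα
        refine ⟨a, ?_⟩
        have h1 := hprop α hα
        rw [ha, map_mul, MvPolynomial.aeval_C, mul_comm] at h1
        exact (mul_left_cancel₀ hHx h1).symm
      · exact ⟨0, by rw [MvPolynomial.notMem_support_iff.1 hα, map_zero]⟩
    choose a ha using hc
    let P' : MvPolynomial (Fin (n + 1)) ℂ :=
      ∑ α ∈ P.support, MvPolynomial.monomial α (a α)
    have hP' : P'.map (algebraMap ℂ (KK n)) = P := by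
      simp only [P']
      conv_rhs => rw [P.as_sum]
      rw [map_sum]
      refine Finset.sum_congr rfl fun α _ => ?_
      rw [MvPolynomial.map_monomial, ha]
    have hP'0 : P' ≠ 0 := by
      intro h0
      rw [h0, map_zero] at hP'
      exact hPne hP'.symm
    obtain ⟨c⟩ := hne
    refine aeval_curve_ne_zero c P' hP'0 ?_
    rw [← hPv c, ← hP', MvPolynomial.aeval_map_algebraMap]
  -- divide by the greatest common divisor
  obtain ⟨Q₁, Q₂, g, hg0, hrp, hg1, hg2⟩ : ∃ Q₁ Q₂ g : MvPolynomial (Fin (n + 1)) ℂ, g ≠ 0 ∧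
      IsRelPrime Q₁ Q₂ ∧ H α₁ = g * Q₁ ∧ H α₀ = g * Q₂ := by
    obtain ⟨Q₁, Q₂, g, h1, h2, h3⟩ :=
      UniqueFactorizationMonoid.exists_reduced_factors' (H α₁) (H α₀) hH0
    refine ⟨Q₁, Q₂, g, ?_, h1, h2.symm, h3.symm⟩
    rintro rfl
    rw [zero_mul] at h3
    exact hH0 h3.symm
  refine ⟨Q₁, Q₂, hrp, ?_, ?_⟩
  · rintro ⟨h1, h2⟩
    rw [MvPolynomial.totalDegree_eq_zero_iff_eq_C] at h1 h2
    have h3 : Q₂.coeff 0 ≠ 0 := by
      intro h0
      rw [h0, MvPolynomial.C_0] at h2
      rw [h2, mul_zero] at hg2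
      exact hH0 hg2
    refine hα₁' (Q₁.coeff 0 / Q₂.coeff 0) ?_
    have h4 : (MvPolynomial.C (Q₁.coeff 0 / Q₂.coeff 0) * MvPolynomial.C (Q₂.coeff 0) :
        MvPolynomial (Fin (n + 1)) ℂ) = MvPolynomial.C (Q₁.coeff 0) := by
      rw [← MvPolynomial.C_mul, div_mul_cancel₀ _ h3]
    rw [hg1, hg2]
    rw [← h2, ← h1] at h4
    linear_combination (-g) * h4
  · intro k' _ _ x' hx' c'
    by_contra hcon
    have hG : ∀ (k'' : Type) [Field k''] [Algebra ℂ k''] (x'' : Fin (n + 1) → k'')
        (Y'' : Fin (n + 1) → k''[X]),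
        semi (MvPolynomial.rename Sum.inl Q₁ * MvPolynomial.rename Sum.inr Q₂ -
          MvPolynomial.rename Sum.inl Q₂ * MvPolynomial.rename Sum.inr Q₁) x'' Y'' =
        C (MvPolynomial.aeval x'' Q₁) * MvPolynomial.aeval Y'' Q₂ -
          C (MvPolynomial.aeval x'' Q₂) * MvPolynomial.aeval Y'' Q₁ := by
      intro k'' _ _ x'' Y''
      unfold semi
      rw [map_sub, map_mul, map_mul, MvPolynomial.aeval_rename, MvPolynomial.aeval_rename,
        MvPolynomial.aeval_rename, MvPolynomial.aeval_rename]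
      have e1 : (Sum.elim (fun s => (C (x'' s) : k''[X])) Y'' ∘ Sum.inl) =
          algebraMap k'' k''[X] ∘ x'' := by
        ext1 s
        simp
      rw [e1, MvPolynomial.aeval_algebraMap_apply, MvPolynomial.aeval_algebraMap_apply]
      rfl
    obtain ⟨c'', hc''⟩ := transfer hx' c' (MvPolynomial.rename Sum.inl Q₁ *
      MvPolynomial.rename Sum.inr Q₂ - MvPolynomial.rename Sum.inl Q₂ *
        MvPolynomial.rename Sum.inr Q₁) (by
          rw [hG]
          exact sub_ne_zero.2 hcon)
    rw [hG] at hc''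
    apply hc''
    have h1 := hcur c'' α₁ hα₁
    rw [hg1, hg2] at h1
    simp only [map_mul] at h1
    have h2 : (C (MvPolynomial.aeval (gen n) g) * MvPolynomial.aeval c''.Y g : (KK n)[X]) ≠ 0 :=
      mul_ne_zero (C_ne_zero.2 fun h => hg0 (hinj _ h)) (aeval_curve_ne_zero c'' g hg0)
    rw [sub_eq_zero]
    refine (mul_left_cancel₀ h2 ?_).symm
    linear_combination h1

end Pool.Agent.Work.RC
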