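import Mathlib
import Pool.Agent.Work.MP_4329d7_ag_sq.RMap

/-!
If `x₁, …, xₙ` are algebraically independent then so are `λ, λ x₁, …, λ xₙ` (`λ` a variable).
-/

namespace Pool.Agent.Work.RC

open Polynomial

/-- a homogeneous polynomial which vanishes at `X₀ = 1` is zero -/
theorem eq_zero_of_dehom {n r : ℕ} {P : MvPolynomial (Fin (n + 1)) ℂ} (hP : P.IsHomogeneous r)
    (h : MvPolynomial.aeval (Fin.cons 1 MvPolynomial.X :
      Fin (n + 1) → MvPolynomial (Fin n) ℂ) P = 0) : P = 0 := by
  classical
  set q := MvPolynomial.finSuccEquiv ℂ n P with hq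
  have h1 : q.eval 1 = 0 := by
    rw [hq, ← h]
    have h2 : ((Polynomial.aeval (1 : MvPolynomial (Fin n) ℂ)).restrictScalars ℂ).comp
        (MvPolynomial.finSuccEquiv ℂ n).toAlgHom =
        MvPolynomial.aeval (Fin.cons 1 MvPolynomial.X : Fin (n + 1) → MvPolynomial (Fin n) ℂ) := by
      refine MvPolynomial.algHom_ext fun i => ?_
      refine Fin.cases ?_ (fun i => ?_) i
      · simp [MvPolynomial.finSuccEquiv_X_zero]
      · simp [MvPolynomial.finSuccEquiv_X_succ]
    rw [← h2]
    simp
  have h3 : ∀ i, q.coeff i = 0 := by
    intro i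
    by_cases hi : r < i
    · -- the degree
      by_contra hne
      have h4 : i ≤ q.natDegree := le_natDegree_of_ne_zero hne
      have h5 : q.natDegree ≤ r := by
        rw [hq, MvPolynomial.natDegree_finSuccEquiv]
        by_cases hP0 : P = 0
        · subst hP0; simp
        · exact (MvPolynomial.degreeOf_le_totalDegree P 0).trans hP.totalDegree_le
      omega
    · push Not at hi
      have h4 := congrArg (MvPolynomial.homogeneousComponent (r - i)) h1
      rw [map_zero, Polynomial.eval_eq_sum_range, map_sum] at h4
      have h5 : ∀ j ∈ Finset.range (q.natDegree + 1),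
          MvPolynomial.homogeneousComponent (r - i) (q.coeff j * 1 ^ j) =
            if j = i then q.coeff i else 0 := by
        intro j hj
        rw [one_pow, mul_one]
        have h6 : j ≤ r := by
          have h5 : q.natDegree ≤ r := by
            rw [hq, MvPolynomial.natDegree_finSuccEquiv]
            exact (MvPolynomial.degreeOf_le_totalDegree P 0).trans hP.totalDegree_le
          have := Finset.mem_range.1 hj
          omega
        have h7 : (q.coeff j).IsHomogeneous (r - j) :=
          hP.finSuccEquiv_coeff_isHomogeneous j (r - j) (by omega)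
        rw [MvPolynomial.homogeneousComponent_of_mem h7]
        by_cases hji : j = i
        · subst hji; simp
        · rw [if_neg hji, if_neg (by omega)]
      rw [Finset.sum_congr rfl h5, Finset.sum_ite_eq'] at h4
      by_cases hi' : i ∈ Finset.range (q.natDegree + 1)
      · rwa [if_pos hi'] at h4
      · rw [Finset.mem_range, not_lt] at hi'
        exact coeff_eq_zero_of_natDegree_lt (by omega)
  have h8 : q = 0 := Polynomial.ext fun i => by rw [h3 i, coeff_zero]
  exact (MvPolynomial.finSuccEquiv ℂ n).injective (by rw [← hq, h8, map_zero])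

theorem ai_cone {F : Type} [Field F] [Algebra ℂ F] {n : ℕ} {x : Fin n → F}
    (hx : AlgebraicIndependent ℂ x) :
    AlgebraicIndependent ℂ (fun s : Fin (n + 1) =>
      (RatFunc.X * RatFunc.C ((Fin.cons 1 x : Fin (n + 1) → F) s) : RatFunc F)) := by
  classical
  rw [algebraicIndependent_iff]
  intro P hP
  -- the identity in `F[X]`
  set xh : Fin (n + 1) → F := Fin.cons 1 x with hxh
  have h1 : ∀ Q : MvPolynomial (Fin (n + 1)) ℂ,
      MvPolynomial.aeval (fun s => (RatFunc.X * RatFunc.C (xh s) : RatFunc F)) Q =
        algebraMap F[X] (RatFunc F) (MvPolynomial.aeval (fun s => (X * C (xh s) : F[X])) Q) := by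
    intro Q
    induction Q using MvPolynomial.induction_on with
    | C a =>
      rw [MvPolynomial.aeval_C, MvPolynomial.aeval_C, ← IsScalarTower.algebraMap_apply]
    | add p q hp hq => rw [map_add, map_add, map_add, hp, hq]
    | mul_X p i hp =>
      rw [map_mul, map_mul, map_mul, hp, MvPolynomial.aeval_X, MvPolynomial.aeval_X, map_mul,
        RatFunc.algebraMap_X, RatFunc.algebraMap_C]
  rw [h1] at hP
  have h2 : MvPolynomial.aeval (fun s => (X * C (xh s) : F[X])) P = 0 :=
    IsFractionRing.injective F[X] (RatFunc F) (by rw [hP, map_zero])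
  -- the homogeneous components
  have h3 : ∀ r (Q : MvPolynomial (Fin (n + 1)) ℂ), Q.IsHomogeneous r →
      MvPolynomial.aeval (fun s => (X * C (xh s) : F[X])) Q = C (MvPolynomial.aeval xh Q) * X ^ r := by
    intro r Q hQ
    rw [MvPolynomial.aeval_def, MvPolynomial.eval₂_eq, MvPolynomial.aeval_def,
      MvPolynomial.eval₂_eq, map_sum, Finset.sum_mul]
    refine Finset.sum_congr rfl fun a ha => ?_
    have h4 : ∑ i ∈ a.support, a i = r := by
      have := hQ (MvPolynomial.mem_support_iff.1 ha)
      exact (DFunLike.congr_fun Finsupp.degree_eq_weight_one a).trans this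
    rw [map_mul, map_prod]
    simp only [mul_pow, Finset.prod_mul_distrib, Finset.prod_pow_eq_pow_sum, h4, map_pow]
    rw [Polynomial.algebraMap_apply]
    ring
  have h5 : ∀ r, MvPolynomial.homogeneousComponent r P = 0 := by
    intro r
    have h6 : MvPolynomial.aeval xh (MvPolynomial.homogeneousComponent r P) = 0 := by
      have h7 := congrArg (fun p => p.coeff r) h2
      rw [← MvPolynomial.sum_homogeneousComponent P, map_sum] at h7
      simp only [Polynomial.finsetSum_coeff, coeff_zero] at h7
      have h8 : ∀ i ∈ Finset.range (P.totalDegree + 1),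
          (MvPolynomial.aeval (fun s => (X * C (xh s) : F[X]))
            (MvPolynomial.homogeneousComponent i P)).coeff r =
          if i = r then MvPolynomial.aeval xh (MvPolynomial.homogeneousComponent r P) else 0 := by
        intro i _
        rw [h3 i _ (MvPolynomial.homogeneousComponent_isHomogeneous i P), coeff_C_mul, coeff_X_pow]
        by_cases hir : i = r
        · subst hir; simp
        · rw [if_neg (fun h => hir h.symm), if_neg hir, mul_zero]
      rw [Finset.sum_congr rfl h8, Finset.sum_ite_eq'] at h7
      by_cases hr : r ∈ Finset.range (P.totalDegree + 1)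
      · rwa [if_pos hr] at h7
      · rw [Finset.mem_range, not_lt] at hr
        rw [MvPolynomial.homogeneousComponent_eq_zero r P (by omega), map_zero]
    refine eq_zero_of_dehom (MvPolynomial.homogeneousComponent_isHomogeneous r P) ?_
    refine (algebraicIndependent_iff.1 hx) _ ?_
    rw [← h6]
    have h9 : ((MvPolynomial.aeval x).comp (MvPolynomial.aeval (Fin.cons 1 MvPolynomial.X :
        Fin (n + 1) → MvPolynomial (Fin n) ℂ)) : MvPolynomial (Fin (n + 1)) ℂ →ₐ[ℂ] F) =
        MvPolynomial.aeval xh := by
      refine MvPolynomial.algHom_ext fun i => ?_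
      refine Fin.cases ?_ (fun i => ?_) i
      · simp [hxh]
      · simp [hxh]
    rw [← h9]
    rfl
  rw [← MvPolynomial.sum_homogeneousComponent P]
  exact Finset.sum_eq_zero fun r _ => h5 r

end Pool.Agent.Work.RC
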