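import Mathlib
import Pool.Agent.Work.MP_4329d7_ag_w.EffB

/-!
Explicit exponents with degrees, part B: a fractional covering of the natural vector `d` with value
`< c` can be chosen with value `≤ c - 1 / (k! * ∏ N i)`, if `N i` bounds the `i`-th entries.
-/

namespace Pool.Agent.Work.GEff

open Finset Pool.Agent.Work.Uni Pool.Agent.Work.Eff

/-- covering, basic solutions -/
theorem covering_basic {k : ℕ} {ι : Type} [Fintype ι] (d : Fin k → ℕ) (m : ℕ)
    (b : ι → Fin k → ℕ) (N : Fin k → ℕ) (hN : ∀ i, 1 ≤ N i) (hb : ∀ j i, b j i ≤ N i)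
    (l₀ : ι → ℚ) (hl₀ : ∀ j, 0 ≤ l₀ j) (hcov : ∀ i, (d i : ℚ) ≤ ∑ j, l₀ j * b j i)
    (hlt : ∑ j, l₀ j < m) :
    ∃ l : ι → ℚ, (∀ j, 0 ≤ l j) ∧ (∀ i, (d i : ℚ) ≤ ∑ j, l j * b j i) ∧
      1 ≤ ((k.factorial * ∏ i, N i : ℕ) : ℚ) * (m - ∑ j, l j) := by
  classical
  let V : ι ⊕ Fin k → Fin k → ℤ := fun s => s.elim (fun j i => (b j i : ℤ)) fun i' => Pi.single i' (-1)
  let P : ℕ → Prop := fun n => ∃ c : ι ⊕ Fin k → ℚ, (∀ s, 0 ≤ c s) ∧
    (∀ i, ∑ s, c s * (V s i : ℚ) = d i) ∧ ∑ j, c (Sum.inl j) < m ∧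
    (univ.filter fun s => c s ≠ 0).card = n
  have hP : ∃ n, P n := by
    refine ⟨_, fun s => s.elim l₀ fun i => ∑ j, l₀ j * b j i - d i, ?_, ?_, hlt, rfl⟩
    · rintro (j | i)
      · exact hl₀ j
      · exact sub_nonneg.2 (hcov i)
    · intro i
      rw [Fintype.sum_sum_type]
      simp only [Sum.elim_inl, Sum.elim_inr, V]
      rw [Finset.sum_eq_single i]
      · simp
      · intro i' _ hi'
        simp [hi'.symm]
      · intro h
        exact absurd (mem_univ i) h
  obtain ⟨c, hc0, hc1, hclt, hcard⟩ := Nat.find_spec hP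
  set S := univ.filter fun s => c s ≠ 0 with hS
  -- the support is independent
  have hind : LinearIndependent ℚ fun s : S => fun i => (V s.1 i : ℚ) := by
    rw [Fintype.linearIndependent_iff]
    by_contra hcon
    push Not at hcon
    obtain ⟨g, hg, s₀, hs₀⟩ := hcon
    -- extend by zero, choose the sign
    obtain ⟨a, ha, hasupp, hapos, hacost⟩ : ∃ a : ι ⊕ Fin k → ℚ, (∀ i, ∑ s, a s * (V s i : ℚ) = 0) ∧
        (∀ s, s ∉ S → a s = 0) ∧ (∃ s, 0 < a s) ∧ 0 ≤ ∑ j, a (Sum.inl j) := by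
      let a₀ : ι ⊕ Fin k → ℚ := fun s => if h : s ∈ S then g ⟨s, h⟩ else 0
      have h1 : ∀ i, ∑ s, a₀ s * (V s i : ℚ) = 0 := by
        intro i
        have h2 := congrFun hg i
        rw [Finset.sum_apply] at h2
        simp only [Pi.smul_apply, smul_eq_mul, Pi.zero_apply] at h2
        rw [← h2, ← Finset.sum_subset (subset_univ S), ← Finset.sum_coe_sort S]
        · refine Finset.sum_congr rfl fun s _ => ?_
          simp only [a₀]
          rw [dif_pos s.2]
        · intro s _ hs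
          simp only [a₀]
          rw [dif_neg hs, zero_mul]
      have h2 : ∀ s, s ∉ S → a₀ s = 0 := fun s hs => dif_neg hs
      have h3 : a₀ s₀.1 ≠ 0 := by
        simp only [a₀]
        rw [dif_pos s₀.2]
        exact hs₀
      by_cases hpos : 0 < ∑ j, a₀ (Sum.inl j)
      · refine ⟨a₀, h1, h2, ?_, hpos.le⟩
        obtain ⟨j, _, hj⟩ := Finset.exists_lt_of_sum_lt (s := univ)
          (f := fun _ : ι => (0 : ℚ)) (g := fun j => a₀ (Sum.inl j)) (by simpa using hpos)
        exact ⟨_, hj⟩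
      · by_cases hneg : ∑ j, a₀ (Sum.inl j) < 0
        · refine ⟨fun s => - a₀ s, fun i => ?_, fun s hs => neg_eq_zero.2 (h2 s hs), ?_, ?_⟩
          · simp only [neg_mul, Finset.sum_neg_distrib, h1 i, neg_zero]
          · obtain ⟨j, _, hj⟩ := Finset.exists_lt_of_sum_lt (s := univ)
              (f := fun j => a₀ (Sum.inl j)) (g := fun _ : ι => (0 : ℚ)) (by simpa using hneg)
            exact ⟨Sum.inl j, neg_pos.2 hj⟩
          · rw [Finset.sum_neg_distrib]
            linarith
        · have h0 : ∑ j, a₀ (Sum.inl j) = 0 := by linarith [not_lt.1 hpos, not_lt.1 hneg]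
          rcases lt_or_gt_of_ne h3 with h | h
          · refine ⟨fun s => - a₀ s, fun i => ?_, fun s hs => neg_eq_zero.2 (h2 s hs),
              ⟨s₀.1, neg_pos.2 h⟩, ?_⟩
            · simp only [neg_mul, Finset.sum_neg_distrib, h1 i, neg_zero]
            · rw [Finset.sum_neg_distrib, h0, neg_zero]
          · exact ⟨a₀, h1, h2, ⟨s₀.1, h⟩, h0.ge⟩
    -- the largest step
    obtain ⟨s₁, hs₁⟩ := hapos
    obtain ⟨s₂, hs₂, hmin⟩ := Finset.exists_min_image (univ.filter fun s => 0 < a s)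
      (fun s => c s / a s) ⟨s₁, mem_filter.2 ⟨mem_univ _, hs₁⟩⟩
    have ha₂ : 0 < a s₂ := (mem_filter.1 hs₂).2
    set t := c s₂ / a s₂ with ht
    have ht0 : 0 ≤ t := div_nonneg (hc0 _) ha₂.le
    have hnew : P (univ.filter fun s => c s - t * a s ≠ 0).card := by
      refine ⟨fun s => c s - t * a s, fun s => ?_, fun i => ?_, ?_, rfl⟩
      · by_cases hs : 0 < a s
        · have h1 := hmin s (mem_filter.2 ⟨mem_univ _, hs⟩)
          rw [le_div_iff₀ hs] at h1
          exact sub_nonneg.2 h1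
        · have h1 := mul_nonneg ht0 (neg_nonneg.2 (not_lt.1 hs))
          have h2 := hc0 s
          nlinarith
      · simp only [sub_mul, Finset.sum_sub_distrib, hc1 i, mul_assoc]
        rw [← Finset.mul_sum, ha i, mul_zero, sub_zero]
      · rw [Finset.sum_sub_distrib, ← Finset.mul_sum]
        nlinarith [mul_nonneg ht0 hacost]
    have hsmall : (univ.filter fun s => c s - t * a s ≠ 0).card < Nat.find hP := by
      rw [← hcard]
      refine Finset.card_lt_card ((Finset.ssubset_iff_of_subset ?_).2 ⟨s₂, ?_, ?_⟩)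
      · intro s hs
        rw [mem_filter] at hs ⊢
        refine ⟨mem_univ _, fun h0 => hs.2 ?_⟩
        have h1 : a s = 0 := hasupp s (by rw [hS, mem_filter]; exact fun h => h.2 h0)
        rw [h0, h1, mul_zero, sub_zero]
      · rw [mem_filter]
        refine ⟨mem_univ _, fun h0 => ha₂.ne' (hasupp s₂ ?_)⟩
        rw [hS, mem_filter]
        exact fun h => h.2 h0
      · rw [mem_filter]
        rintro ⟨_, h⟩
        apply h
        rw [ht, div_mul_cancel₀ _ ha₂.ne', sub_self]
    exact Nat.find_min hP hsmall hnew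
  -- Cramer
  obtain ⟨ρ, hρ, hdet, hden⟩ := cramer (F := ℚ) (S := S) (I := Fin k)
    (fun i s => V s.1 i) (fun s => c s.1) (fun i => d i) (rows_span (fun s : S => V s.1) hind) (by
      intro i
      rw [Int.cast_natCast, ← hc1 i, ← Finset.sum_subset (subset_univ S), ← Finset.sum_coe_sort S]
      · exact Finset.sum_congr rfl fun s _ => mul_comm _ _
      · intro s _ hs
        have : c s = 0 := by
          by_contra h
          exact hs (by rw [hS, mem_filter]; exact ⟨mem_univ _, h⟩)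
        rw [this, zero_mul])
  set Dt := (Matrix.of fun s t : S => V t.1 (ρ s)).det with hDt
  have hDle : |Dt| ≤ ((k.factorial * ∏ i, N i : ℕ) : ℤ) := by
    have h1 := det_le_row (Matrix.of fun s t : S => V t.1 (ρ s)) (fun s => N (ρ s)) (by
      intro s t
      rw [Matrix.of_apply]
      rcases t with ⟨(j | i), _⟩
      · show |((b j (ρ s) : ℕ) : ℤ)| ≤ _
        rw [Nat.abs_cast]
        exact_mod_cast hb j _
      · show |(Pi.single i (-1) : Fin k → ℤ) (ρ s)| ≤ _
        have h2 := hN (ρ s)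
        by_cases h3 : ρ s = i
        · rw [h3] at h2 ⊢
          rw [Pi.single_eq_same, abs_neg, abs_one]
          exact_mod_cast h2
        · rw [Pi.single_eq_of_ne h3, abs_zero]
          exact Int.natCast_nonneg _)
    refine h1.trans ?_
    have hcardS : Fintype.card S ≤ k := by
      have := Fintype.card_le_of_injective ρ hρ
      simpa using this
    have h2 : ∏ s, N (ρ s) ≤ ∏ i, N i := by
      rw [← Finset.prod_image (f := N) (s := univ) (g := ρ) (fun x _ y _ h => hρ h)]
      exact Finset.prod_le_prod_of_subset_of_one_le' (subset_univ _) fun i _ _ => hN i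
    have h3 : (Fintype.card S).factorial * ∏ s, N (ρ s) ≤ k.factorial * ∏ i, N i :=
      Nat.mul_le_mul (Nat.factorial_le hcardS) h2
    exact_mod_cast h3
  refine ⟨fun j => c (Sum.inl j), fun j => hc0 _, fun i => ?_, ?_⟩
  · have h1 := hc1 i
    rw [Fintype.sum_sum_type] at h1
    simp only [Sum.elim_inl, Sum.elim_inr, V] at h1
    rw [Finset.sum_eq_single i (f := fun x => c (Sum.inr x) *
      (((Pi.single x (-1) : Fin k → ℤ) i : ℤ) : ℚ))] at h1
    · have h2 := hc0 (Sum.inr i)
      simp only [Pi.single_eq_same, Int.cast_neg, Int.cast_one, Int.cast_natCast] at h1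
      linarith
    · intro i' _ hi'
      simp [hi'.symm]
    · intro h
      exact absurd (mem_univ i) h
  · have hint : ∀ s, ∃ z : ℤ, (z : ℚ) = (Dt : ℚ) * c s := by
      intro s
      by_cases hs : s ∈ S
      · exact hden ⟨s, hs⟩
      · have : c s = 0 := by
          by_contra h
          exact hs (by rw [hS, mem_filter]; exact ⟨mem_univ _, h⟩)
        exact ⟨0, by rw [this, mul_zero, Int.cast_zero]⟩
    choose z hz using hint
    have h1 : (((Dt * m - ∑ j, z (Sum.inl j) : ℤ)) : ℚ) = (Dt : ℚ) * (m - ∑ j, c (Sum.inl j)) := by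
      push_cast
      simp only [hz]
      rw [← Finset.mul_sum]
      ring
    have hpos : 0 < (m : ℚ) - ∑ j, c (Sum.inl j) := sub_pos.2 hclt
    have hDt0 : (Dt : ℚ) ≠ 0 := by exact_mod_cast hdet
    have h2 : (1 : ℚ) ≤ |(Dt : ℚ)| * (m - ∑ j, c (Sum.inl j)) := by
      have h3 : |((Dt * m - ∑ j, z (Sum.inl j) : ℤ) : ℚ)| =
          |(Dt : ℚ)| * (m - ∑ j, c (Sum.inl j)) := by
        rw [h1, abs_mul, abs_of_pos hpos]
      rw [← h3]
      have h4 : (Dt * m - ∑ j, z (Sum.inl j) : ℤ) ≠ 0 := by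
        intro h0
        rw [h0, Int.cast_zero] at h1
        rcases mul_eq_zero.1 h1.symm with h | h
        · exact hDt0 h
        · exact hpos.ne' h
      have h5 := Int.one_le_abs h4
      exact_mod_cast h5
    refine h2.trans (mul_le_mul_of_nonneg_right ?_ hpos.le)
    exact_mod_cast hDle

/-- fractional packing of value `≥ m`, or a covering of value `≤ m - 1 / (k! * ∏ N i)` -/
theorem covering {k : ℕ} {ι : Type} [Fintype ι] (d : Fin k → ℕ) (m : ℕ) (hm : 0 < m)
    (b : ι → Fin k → ℕ) (N : Fin k → ℕ) (hN : ∀ i, 1 ≤ N i) (hb : ∀ j i, b j i ≤ N i) :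
    (∃ z : Fin k → ℚ, (∀ i, 0 ≤ z i) ∧ (m : ℚ) ≤ ∑ i, (d i : ℚ) * z i ∧
      ∀ j, ∑ i, (b j i : ℚ) * z i ≤ 1) ∨
    ∃ l : ι → ℚ, (∀ j, 0 ≤ l j) ∧ (∀ i, (d i : ℚ) ≤ ∑ j, l j * b j i) ∧
      1 ≤ ((k.factorial * ∏ i, N i : ℕ) : ℚ) * (m - ∑ j, l j) := by
  classical
  by_cases h : ∃ x : (Fin k → ℚ) × ℚ, (∀ i, 0 ≤ x.1 i) ∧ m * x.2 ≤ ∑ i, (d i : ℚ) * x.1 i ∧
      (∀ j, ∑ i, (b j i : ℚ) * x.1 i ≤ x.2) ∧ 0 < x.2
  · left
    obtain ⟨⟨z, s⟩, h1, h2, h3, h4⟩ := h
    simp only at h1 h2 h3 h4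
    refine ⟨fun i => z i / s, fun i => div_nonneg (h1 i) h4.le, ?_, fun j => ?_⟩
    · have h5 : ∑ i, (d i : ℚ) * (z i / s) = (∑ i, (d i : ℚ) * z i) / s := by
        rw [Finset.sum_div]
        exact Finset.sum_congr rfl fun i _ => by ring
      rw [h5, le_div_iff₀ h4]
      exact h2
    · have h5 : ∑ i, (b j i : ℚ) * (z i / s) = (∑ i, (b j i : ℚ) * z i) / s := by
        rw [Finset.sum_div]
        exact Finset.sum_congr rfl fun i _ => by ring
      rw [h5, div_le_one h4]
      exact h3 j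
  · right
    let X : Fin k → ((Fin k → ℚ) × ℚ) →ₗ[ℚ] ℚ := fun i =>
      (LinearMap.proj i).comp (LinearMap.fst ℚ (Fin k → ℚ) ℚ)
    let s : ((Fin k → ℚ) × ℚ) →ₗ[ℚ] ℚ := LinearMap.snd ℚ (Fin k → ℚ) ℚ
    let A : Option (Fin k ⊕ ι) → ((Fin k → ℚ) × ℚ) →ₗ[ℚ] ℚ := fun o => o.elim
      ((m : ℚ) • s - ∑ i, (d i : ℚ) • X i)
      fun u => u.elim (fun i => - X i) fun j => (∑ i, (b j i : ℚ) • X i) - s
    obtain ⟨c, hc0, hc⟩ := farkasT A s (by
      rintro ⟨x, h1, h2⟩
      refine h ⟨x, fun i => ?_, ?_, fun j => ?_, h2⟩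
      · have := h1 (some (Sum.inl i))
        simpa [A, X] using this
      · have := h1 none
        simpa [A, X, s, LinearMap.sum_apply] using this
      · have := h1 (some (Sum.inr j))
        simpa [A, X, s, LinearMap.sum_apply] using this)
    have hev : ∀ x : (Fin k → ℚ) × ℚ, x.2 = c none * (m * x.2 - ∑ i, (d i : ℚ) * x.1 i) +
        (∑ i, c (some (Sum.inl i)) * (- x.1 i) +
          ∑ j, c (some (Sum.inr j)) * (∑ i, (b j i : ℚ) * x.1 i - x.2)) := by
      intro x
      have h1 := LinearMap.congr_fun hc x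
      rw [LinearMap.sum_apply, Fintype.sum_option, Fintype.sum_sum_type] at h1
      simpa [A, X, s, LinearMap.sum_apply] using h1
    have hm' : (0 : ℚ) < m := by exact_mod_cast hm
    have hν : 1 + ∑ j, c (some (Sum.inr j)) = c none * m := by
      have := hev (0, 1)
      simp at this
      linarith
    have hl0 : 0 ≤ ∑ j, c (some (Sum.inr j)) := Finset.sum_nonneg fun j _ => hc0 _
    have hν0 : 0 < c none := by
      by_contra hcon
      have := mul_nonneg (neg_nonneg.2 (not_lt.1 hcon)) hm'.le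
      nlinarith
    have hcov : ∀ i, c none * d i ≤ ∑ j, c (some (Sum.inr j)) * (b j i : ℚ) := by
      intro i
      have := hev (Pi.single i 1, 0)
      simp [Pi.single_apply] at this
      have h1 := hc0 (some (Sum.inl i))
      linarith
    refine covering_basic d m b N hN hb (fun j => c (some (Sum.inr j)) / c none)
      (fun j => div_nonneg (hc0 _) hν0.le) (fun i => ?_) ?_
    · have h5 : ∑ j, c (some (Sum.inr j)) / c none * (b j i : ℚ) =
          (∑ j, c (some (Sum.inr j)) * (b j i : ℚ)) / c none := by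
        rw [Finset.sum_div]
        exact Finset.sum_congr rfl fun i _ => by ring
      rw [h5, le_div_iff₀ hν0, mul_comm]
      exact hcov i
    · rw [← Finset.sum_div, div_lt_iff₀ hν0]
      linarith

end Pool.Agent.Work.GEff
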