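import Mathlib
import Pool.Agent.Work.MP_4329d7_ag_w.EffE
import Pool.Agent.Work.MP_4329d7_ag_rc.GEffB

/-!
Explicit exponents with degrees, part C: a weight vector with `∑ d i * A i ≤ c` can be replaced by
one whose `k`-th largest entry is at least `1 / nn V k` (doubly exponential), `∑ d i ≤ V`, keeping
all inequalities `∑ A i * b i ≥ 1`, `b` natural.
-/

namespace Pool.Agent.Work.GEff

open Finset Filter Topology Pool.Agent.Work.Eff

variable {v : ℕ}

/-- the vectors that satisfy all inequalities of `A` -/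
def PP (d : Fin v → ℕ) (c : ℕ) (A : Fin v → ℚ) : Set (Fin v → ℝ) :=
  {y | (∀ i, 0 ≤ y i) ∧ ∑ i, (d i : ℝ) * y i ≤ c ∧ ∀ b : Fin v → ℕ, 1 ≤ ∑ i, A i * (b i : ℚ) →
    1 ≤ ∑ i, y i * (b i : ℝ)}

theorem le_of_sum_le {d : Fin v → ℕ} (hd : ∀ i, 0 < d i) {c : ℝ} {y : Fin v → ℝ}
    (hy : ∀ i, 0 ≤ y i) (h : ∑ i, (d i : ℝ) * y i ≤ c) (i : Fin v) : y i ≤ c := by
  have h1 : (1 : ℝ) ≤ d i := by exact_mod_cast hd i
  calc y i ≤ (d i : ℝ) * y i := le_mul_of_one_le_left (hy i) h1
    _ ≤ ∑ j, (d j : ℝ) * y j := Finset.single_le_sum (f := fun j => (d j : ℝ) * y j)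
        (fun j _ => mul_nonneg (Nat.cast_nonneg _) (hy j)) (mem_univ i)
    _ ≤ c := h

theorem isCompact_PP (d : Fin v → ℕ) (hd : ∀ i, 0 < d i) (c : ℕ) (A : Fin v → ℚ) :
    IsCompact (PP d c A) := by
  refine (isCompact_Icc (a := (0 : Fin v → ℝ)) (b := fun _ => (c : ℝ))).of_isClosed_subset ?_ ?_
  · have h : PP d c A = (⋂ i, {y : Fin v → ℝ | 0 ≤ y i}) ∩
        ({y : Fin v → ℝ | ∑ i, (d i : ℝ) * y i ≤ c} ∩
        ⋂ b : {b : Fin v → ℕ // 1 ≤ ∑ i, A i * (b i : ℚ)},
          {y : Fin v → ℝ | 1 ≤ ∑ i, y i * (b.1 i : ℝ)}) := by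
      ext y
      simp only [PP, Set.mem_ofPred_eq, Set.mem_inter_iff, Set.mem_iInter, Subtype.forall]
    rw [h]
    refine (isClosed_iInter fun i => isClosed_le continuous_const (continuous_apply i)).inter
      ((isClosed_le (by fun_prop) continuous_const).inter
        (isClosed_iInter fun b => isClosed_le continuous_const (by fun_prop)))
  · intro y hy
    exact ⟨fun i => hy.1 i, fun i => le_of_sum_le hd hy.1 hy.2.1 i⟩

/-- a direction of improvement -/
theorem improve (d : Fin v → ℕ) (c : ℕ) (A : Fin v → ℚ) (y : Fin v → ℝ) (hy : y ∈ PP d c A)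
    (m : ℝ) (hm : 0 < m) (hmy : ∀ i, m ≤ y i) (u : Fin v → ℝ)
    (h1 : ∑ i, (d i : ℝ) * y i < c ∨ ∑ i, (d i : ℝ) * u i ≤ 0)
    (h2 : ∀ b : Fin v → ℕ, 1 ≤ ∑ i, A i * (b i : ℚ) → ∑ i, y i * (b i : ℝ) = 1 →
      0 ≤ ∑ i, u i * (b i : ℝ))
    (h3 : ∀ i, m < y i ∨ 0 < u i) : ∃ y' ∈ PP d c A, ∀ i, m < y' i := by
  classical
  have e1 : ∀ i, ∀ᶠ t : ℝ in 𝓝[>] 0, m < y i + t * u i := by
    intro i
    rcases h3 i with h | h
    · have hc : Tendsto (fun t : ℝ => y i + t * u i) (𝓝[>] 0) (𝓝 (y i + 0 * u i)) :=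
        (by fun_prop : Continuous fun t : ℝ => y i + t * u i).continuousAt.tendsto.mono_left
          nhdsWithin_le_nhds
      exact hc.eventually (lt_mem_nhds (by simpa using h))
    · filter_upwards [self_mem_nhdsWithin] with t ht
      have := mul_pos (Set.mem_Ioi.1 ht) h
      linarith [hmy i]
  have e2 : ∀ᶠ t : ℝ in 𝓝[>] 0, ∑ i, (d i : ℝ) * (y i + t * u i) ≤ c := by
    rcases h1 with h | h
    · have hc : Tendsto (fun t : ℝ => ∑ i, (d i : ℝ) * (y i + t * u i)) (𝓝[>] 0)
          (𝓝 (∑ i, (d i : ℝ) * (y i + 0 * u i))) :=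
        (by fun_prop : Continuous fun t : ℝ => ∑ i, (d i : ℝ) * (y i + t * u i)
          ).continuousAt.tendsto.mono_left nhdsWithin_le_nhds
      exact (hc.eventually (gt_mem_nhds (by simpa using h))).mono fun t ht => le_of_lt ht
    · filter_upwards [self_mem_nhdsWithin] with t ht
      have h5 : ∑ i, (d i : ℝ) * (y i + t * u i) =
          ∑ i, (d i : ℝ) * y i + t * ∑ i, (d i : ℝ) * u i := by
        rw [Finset.mul_sum, ← Finset.sum_add_distrib]
        exact Finset.sum_congr rfl fun i _ => by ring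
      rw [h5]
      have := mul_nonneg (le_of_lt (Set.mem_Ioi.1 ht)) (neg_nonneg.2 h)
      linarith [hy.2.1]
  have e3 : ∀ᶠ t : ℝ in 𝓝[>] 0, ∀ b ∈ Fintype.piFinset fun _ : Fin v => range (⌈1 / m⌉₊ + 1),
      1 ≤ ∑ i, A i * (b i : ℚ) → 1 ≤ ∑ i, (y i + t * u i) * (b i : ℝ) := by
    rw [Filter.eventually_all_finset]
    intro b _
    by_cases hb : 1 ≤ ∑ i, A i * (b i : ℚ)
    · have h4 := hy.2.2 b hb
      rcases h4.lt_or_eq with h | h
      · have hc : Tendsto (fun t : ℝ => ∑ i, (y i + t * u i) * (b i : ℝ)) (𝓝[>] 0)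
            (𝓝 (∑ i, (y i + 0 * u i) * (b i : ℝ))) :=
          (by fun_prop : Continuous fun t : ℝ => ∑ i, (y i + t * u i) * (b i : ℝ)
            ).continuousAt.tendsto.mono_left nhdsWithin_le_nhds
        exact (hc.eventually (lt_mem_nhds (by simpa using h))).mono fun t ht _ => le_of_lt ht
      · filter_upwards [self_mem_nhdsWithin] with t ht _
        have h5 := h2 b hb h.symm
        have h6 : ∑ i, (y i + t * u i) * (b i : ℝ) = 1 + t * ∑ i, u i * (b i : ℝ) := by
          rw [h, Finset.mul_sum, ← Finset.sum_add_distrib]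
          exact Finset.sum_congr rfl fun i _ => by ring
        rw [h6]
        have := mul_nonneg (le_of_lt (Set.mem_Ioi.1 ht)) h5
        linarith
    · exact Eventually.of_forall fun t h => absurd h hb
  obtain ⟨t, ht1, ht2, ht3⟩ := ((Filter.eventually_all.2 e1).and (e2.and e3)).exists
  refine ⟨fun i => y i + t * u i, ⟨fun i => (hm.trans (ht1 i)).le, ht2, fun b hb => ?_⟩, ht1⟩
  by_cases hbB : b ∈ Fintype.piFinset fun _ : Fin v => range (⌈1 / m⌉₊ + 1)
  · exact ht3 b hbB hb
  · rw [Fintype.mem_piFinset] at hbB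
    push Not at hbB
    obtain ⟨i, hi⟩ := hbB
    rw [mem_range, not_lt] at hi
    have h4 : 1 / m ≤ (b i : ℝ) := by
      refine (Nat.le_ceil _).trans ?_
      exact_mod_cast (Nat.le_succ _).trans hi
    have h5 : (1 : ℝ) ≤ (y i + t * u i) * (b i : ℝ) := by
      rw [div_le_iff₀ hm] at h4
      have h6 : (b i : ℝ) * m ≤ (y i + t * u i) * (b i : ℝ) := by
        rw [mul_comm]
        exact mul_le_mul_of_nonneg_right (ht1 i).le (Nat.cast_nonneg _)
      exact h4.trans h6
    refine h5.trans (Finset.single_le_sum (f := fun i => (y i + t * u i) * (b i : ℝ))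
      (fun j _ => mul_nonneg (hm.trans (ht1 j)).le (Nat.cast_nonneg _)) (mem_univ i))

theorem exists_large (V : ℕ) (d : Fin v → ℕ) (hd : ∀ i, 0 < d i) (hdV : ∑ i, d i ≤ V) (c : ℕ)
    (hv0 : 0 < v) (A : Fin v → ℚ) (hA : ∀ i, 0 < A i) (hA1 : ∑ i, (d i : ℚ) * A i ≤ c) :
    ∃ (σ : Equiv.Perm (Fin v)) (y : Fin v → ℝ), y ∈ PP d c A ∧
      ∀ k : Fin v, 1 / (nn V k : ℝ) ≤ y (σ k) := by
  classical
  have hne : (univ : Finset (Fin v)).Nonempty := ⟨⟨0, hv0⟩, mem_univ _⟩
  have hv : 0 < V := by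
    refine lt_of_lt_of_le (hd ⟨0, hv0⟩) (le_trans ?_ hdV)
    exact Finset.single_le_sum (fun _ _ => Nat.zero_le _) (mem_univ _)
  have hc : 0 < c := by
    have h1 : (0 : ℚ) < ∑ i, (d i : ℚ) * A i :=
      Finset.sum_pos (fun i _ => mul_pos (by exact_mod_cast hd i) (hA i)) hne
    exact_mod_cast h1.trans_le hA1
  have hAP : (fun i => (A i : ℝ)) ∈ PP d c A := by
    refine ⟨fun i => ?_, ?_, fun b hb => ?_⟩
    · show (0 : ℝ) ≤ (A i : ℝ)
      exact_mod_cast (hA i).le
    · show ∑ i, (d i : ℝ) * (A i : ℝ) ≤ c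
      exact_mod_cast hA1
    · show (1 : ℝ) ≤ ∑ i, (A i : ℝ) * (b i : ℝ)
      exact_mod_cast hb
  obtain ⟨y, hyP, hymax⟩ := (isCompact_PP d hd c A).exists_isMaxOn ⟨_, hAP⟩
    (f := fun y : Fin v → ℝ => univ.inf' hne y)
    (Continuous.finset_inf'_apply hne fun i _ => continuous_apply i).continuousOn
  set m := univ.inf' hne y with hm
  have hmy : ∀ i, m ≤ y i := fun i => Finset.inf'_le _ (mem_univ i)
  have hm0 : 0 < m := by
    refine lt_of_lt_of_le ?_ (hymax hAP)
    show 0 < univ.inf' hne fun i => (A i : ℝ)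
    rw [Finset.lt_inf'_iff]
    intro i _
    exact_mod_cast hA i
  have hno : ∀ u : Fin v → ℝ, (∑ i, (d i : ℝ) * y i < c ∨ ∑ i, (d i : ℝ) * u i ≤ 0) →
      (∀ b : Fin v → ℕ, 1 ≤ ∑ i, A i * (b i : ℚ) → ∑ i, y i * (b i : ℝ) = 1 →
        0 ≤ ∑ i, u i * (b i : ℝ)) → (∀ i, m < y i ∨ 0 < u i) → False := by
    intro u h1 h2 h3
    obtain ⟨y', hy', h4⟩ := improve d c A y hyP m hm0 hmy u h1 h2 h3
    have h5 := hymax hy'
    have h6 : m < univ.inf' hne y' := (Finset.lt_inf'_iff hne).2 fun i _ => h4 i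
    exact absurd h5 (not_le.2 h6)
  have hsum : ∑ i, (d i : ℝ) * y i = c := by
    by_contra h
    refine hno y (Or.inl (lt_of_le_of_ne hyP.2.1 h)) (fun b _ h1 => by rw [h1]; norm_num)
      fun i => Or.inr (hm0.trans_le (hmy i))
  let σ := Tuple.sort fun i => - y i
  have hanti : Antitone fun k => y (σ k) := by
    intro i j hij
    have := Tuple.monotone_sort (fun i => - y i) hij
    simpa using this
  refine ⟨σ, y, hyP, ?_⟩
  have key : ∀ k : ℕ, ∀ hk : k < v, 1 / (nn V k : ℝ) ≤ y (σ ⟨k, hk⟩) := by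
    intro k
    induction k using Nat.strong_induction_on with
    | _ k ih =>
      intro hk
      by_contra hcon
      rw [not_le] at hcon
      have hnk : (0 : ℝ) < nn V k := by exact_mod_cast nn_pos hv k
      -- the tail
      have htail : ∀ i : Fin v, k ≤ i → y (σ i) ≤ y (σ ⟨k, hk⟩) := fun i hi => hanti hi
      -- the tight vectors
      let J : Finset (Fin v → ℕ) := (Fintype.piFinset fun _ : Fin v => range (⌈1 / m⌉₊ + 1)).filter
        fun b => 1 ≤ ∑ i, A i * (b i : ℚ) ∧ ∑ i, y i * (b i : ℝ) = 1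
      have hJ : ∀ b : Fin v → ℕ, 1 ≤ ∑ i, A i * (b i : ℚ) → ∑ i, y i * (b i : ℝ) = 1 → b ∈ J := by
        intro b hb1 hb2
        refine mem_filter.2 ⟨Fintype.mem_piFinset.2 fun i => mem_range.2 ?_, hb1, hb2⟩
        have h1 : y i * (b i : ℝ) ≤ 1 := by
          rw [← hb2]
          exact Finset.single_le_sum (f := fun i => y i * (b i : ℝ))
            (fun j _ => mul_nonneg (hm0.le.trans (hmy j)) (Nat.cast_nonneg _)) (mem_univ i)
        have h2 : (b i : ℝ) ≤ 1 / m := by
          rw [le_div_iff₀ hm0]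
          have h3 := mul_le_mul_of_nonneg_right (hmy i) (Nat.cast_nonneg (α := ℝ) (b i))
          linarith
        have h3 : (b i : ℝ) ≤ ⌈1 / m⌉₊ := h2.trans (Nat.le_ceil _)
        have h4 : b i ≤ ⌈1 / m⌉₊ := by exact_mod_cast h3
        omega
      have hbN : ∀ (j : J) (i : Fin k), j.1 (σ ⟨i, i.2.trans hk⟩) ≤ nn V i := by
        intro j i
        have h1 : y (σ ⟨i, i.2.trans hk⟩) * (j.1 (σ ⟨i, i.2.trans hk⟩) : ℝ) ≤ 1 := by
          rw [← (mem_filter.1 j.2).2.2]
          exact Finset.single_le_sum (f := fun i => y i * (j.1 i : ℝ))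
            (fun j _ => mul_nonneg (hm0.le.trans (hmy j)) (Nat.cast_nonneg _)) (mem_univ _)
        have h2 := ih i i.2 (i.2.trans hk)
        have h3 : (0 : ℝ) < nn V i := by exact_mod_cast nn_pos hv i
        have h4 : 1 / (nn V i : ℝ) * (j.1 (σ ⟨i, i.2.trans hk⟩) : ℝ) ≤ 1 :=
          (mul_le_mul_of_nonneg_right h2 (Nat.cast_nonneg _)).trans h1
        rw [one_div, inv_mul_le_iff₀ h3, mul_one] at h4
        exact_mod_cast h4
      have hsplit : ∀ g : Fin v → ℝ, ∑ i, g (σ i) =
          ∑ i : Fin k, g (σ ⟨i, i.2.trans hk⟩) + ∑ i ∈ univ.filter fun i : Fin v => k ≤ i, g (σ i) := by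
        intro g
        rw [← Finset.sum_filter_add_sum_filter_not univ (fun i : Fin v => (i : ℕ) < k)]
        congr 1
        · symm
          refine Finset.sum_bij (fun i _ => (⟨i, i.2.trans hk⟩ : Fin v)) (fun i _ => ?_)
            (fun i _ j _ h => ?_) (fun i hi => ?_) fun i _ => rfl
          · exact mem_filter.2 ⟨mem_univ _, i.2⟩
          · exact Fin.ext (by simpa using congrArg Fin.val h)
          · exact ⟨⟨i, (mem_filter.1 hi).2⟩, mem_univ _, rfl⟩
        · refine Finset.sum_congr ?_ fun _ _ => rfl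
          ext i
          simp
      have hperm : ∀ g : Fin v → ℝ, ∑ i, g (σ i) = ∑ i, g i := fun g => Equiv.sum_comp σ g
      rcases covering (fun i : Fin k => d (σ ⟨i, i.2.trans hk⟩)) c hc
          (fun (j : J) (i : Fin k) => j.1 (σ ⟨i, i.2.trans hk⟩)) (fun i => nn V i)
          (fun i => nn_pos hv i) hbN with ⟨z, hz0, hz1, hz⟩ | ⟨l, hl0, hlc, hl⟩
      · -- improvement
        let Z : Fin v → ℝ := fun i => if h : ((σ.symm i : Fin v) : ℕ) < k then
          ((z ⟨_, h⟩ : ℚ) : ℝ) else 0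
        have hZ1 : ∀ i : Fin k, Z (σ ⟨i, i.2.trans hk⟩) = ((z i : ℚ) : ℝ) := by
          intro i
          simp only [Z, Equiv.symm_apply_apply]
          rw [dif_pos i.2]
        have hZ2 : ∀ i : Fin v, k ≤ i → Z (σ i) = 0 := by
          intro i hi
          simp only [Z, Equiv.symm_apply_apply]
          rw [dif_neg (not_lt.2 hi)]
        have hZsum : ∀ g : Fin v → ℝ, ∑ i, Z i * g i =
            ∑ i : Fin k, ((z i : ℚ) : ℝ) * g (σ ⟨i, i.2.trans hk⟩) := by
          intro g
          rw [← hperm fun i => Z i * g i, hsplit fun i => Z i * g i]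
          rw [Finset.sum_eq_zero (s := univ.filter fun i : Fin v => k ≤ i) fun i hi => by
            rw [hZ2 i (mem_filter.1 hi).2, zero_mul], add_zero]
          exact Finset.sum_congr rfl fun i _ => by rw [hZ1]
        refine hno (fun i => y i - Z i) (Or.inr ?_) (fun b hb1 hb2 => ?_) fun i => ?_
        · simp only [mul_sub, Finset.sum_sub_distrib]
          rw [hsum]
          have h1 := hZsum fun i => (d i : ℝ)
          have h2 : (c : ℝ) ≤ ∑ i : Fin k, (d (σ ⟨i, i.2.trans hk⟩) : ℝ) * ((z i : ℚ) : ℝ) := by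
            exact_mod_cast hz1
          have h3 : ∑ i, (d i : ℝ) * Z i = ∑ i, Z i * (d i : ℝ) :=
            Finset.sum_congr rfl fun i _ => mul_comm _ _
          have h4 : ∑ i : Fin k, ((z i : ℚ) : ℝ) * (d (σ ⟨i, i.2.trans hk⟩) : ℝ) =
              ∑ i : Fin k, (d (σ ⟨i, i.2.trans hk⟩) : ℝ) * ((z i : ℚ) : ℝ) :=
            Finset.sum_congr rfl fun i _ => mul_comm _ _
          rw [h3, h1, h4]
          linarith
        · have h1 := hZsum fun i => (b i : ℝ)
          simp only [sub_mul, Finset.sum_sub_distrib]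
          rw [hb2, h1]
          have h2 := hz ⟨b, hJ b hb1 hb2⟩
          have h3 : ∑ i : Fin k, (b (σ ⟨i, i.2.trans hk⟩) : ℝ) * ((z i : ℚ) : ℝ) ≤ 1 := by
            exact_mod_cast h2
          have h4 : ∑ i : Fin k, ((z i : ℚ) : ℝ) * (b (σ ⟨i, i.2.trans hk⟩) : ℝ) =
              ∑ i : Fin k, (b (σ ⟨i, i.2.trans hk⟩) : ℝ) * ((z i : ℚ) : ℝ) :=
            Finset.sum_congr rfl fun i _ => mul_comm _ _
          rw [h4]
          linarith
        · by_cases h : ((σ.symm i : Fin v) : ℕ) < k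
          · left
            have h1 := ih _ h (h.trans hk)
            rw [Fin.eta, Equiv.apply_symm_apply] at h1
            refine lt_of_lt_of_le ?_ h1
            refine (hmy (σ ⟨k, hk⟩)).trans_lt (hcon.trans_le ?_)
            refine one_div_le_one_div_of_le ?_ ?_
            · exact_mod_cast nn_pos hv _
            · exact_mod_cast nn_mono hv h
          · right
            have h1 : Z i = 0 := by
              simp only [Z]
              rw [dif_neg h]
            rw [h1, sub_zero]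
            exact hm0.trans_le (hmy i)
      · -- the covering is too good
        have hl' : (1 : ℝ) ≤ ((k.factorial * ∏ i : Fin k, nn V i : ℕ) : ℝ) *
            (c - ∑ j, ((l j : ℚ) : ℝ)) := by exact_mod_cast hl
        have h1 : ∑ i : Fin k, (d (σ ⟨i, i.2.trans hk⟩) : ℝ) * y (σ ⟨i, i.2.trans hk⟩) ≤
            ∑ j, ((l j : ℚ) : ℝ) := by
          have h2 : ∀ j : J, ∑ i : Fin k, y (σ ⟨i, i.2.trans hk⟩) *
              (j.1 (σ ⟨i, i.2.trans hk⟩) : ℝ) ≤ 1 := by
            intro j
            rw [← (mem_filter.1 j.2).2.2, ← hperm fun i => y i * (j.1 i : ℝ),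
              hsplit fun i => y i * (j.1 i : ℝ)]
            exact le_add_of_nonneg_right (Finset.sum_nonneg fun i _ =>
              mul_nonneg (hm0.le.trans (hmy _)) (Nat.cast_nonneg _))
          calc ∑ i : Fin k, (d (σ ⟨i, i.2.trans hk⟩) : ℝ) * y (σ ⟨i, i.2.trans hk⟩)
              ≤ ∑ i : Fin k, y (σ ⟨i, i.2.trans hk⟩) *
                ∑ j : J, ((l j : ℚ) : ℝ) * (j.1 (σ ⟨i, i.2.trans hk⟩) : ℝ) := by
                refine Finset.sum_le_sum fun i _ => ?_
                have h3 : (d (σ ⟨i, i.2.trans hk⟩) : ℝ) ≤ ∑ j : J, ((l j : ℚ) : ℝ) *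
                    (j.1 (σ ⟨i, i.2.trans hk⟩) : ℝ) := by exact_mod_cast hlc i
                rw [mul_comm]
                exact mul_le_mul_of_nonneg_left h3 (hm0.le.trans (hmy _))
            _ = ∑ j : J, ((l j : ℚ) : ℝ) * ∑ i : Fin k, y (σ ⟨i, i.2.trans hk⟩) *
                (j.1 (σ ⟨i, i.2.trans hk⟩) : ℝ) := by
                simp only [Finset.mul_sum]
                rw [Finset.sum_comm]
                exact Finset.sum_congr rfl fun j _ => Finset.sum_congr rfl fun i _ => by ring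
            _ ≤ ∑ j : J, ((l j : ℚ) : ℝ) := by
                refine Finset.sum_le_sum fun j _ => ?_
                exact mul_le_of_le_one_right (by exact_mod_cast hl0 j) (h2 j)
        have h2 : c - ∑ i : Fin k, (d (σ ⟨i, i.2.trans hk⟩) : ℝ) * y (σ ⟨i, i.2.trans hk⟩) <
            V / (nn V k : ℝ) := by
          have h3 := hsplit fun i => (d i : ℝ) * y i
          rw [hperm fun i => (d i : ℝ) * y i, hsum] at h3
          have h4 : ∑ i ∈ univ.filter (fun i : Fin v => k ≤ i), (d (σ i) : ℝ) * y (σ i) <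
              V / (nn V k : ℝ) := by
            calc ∑ i ∈ univ.filter (fun i : Fin v => k ≤ i), (d (σ i) : ℝ) * y (σ i)
                ≤ ∑ i ∈ univ.filter (fun i : Fin v => k ≤ i), (d (σ i) : ℝ) * y (σ ⟨k, hk⟩) :=
                  Finset.sum_le_sum fun i hi => mul_le_mul_of_nonneg_left
                    (htail i (mem_filter.1 hi).2) (Nat.cast_nonneg _)
              _ = (∑ i ∈ univ.filter (fun i : Fin v => k ≤ i), (d (σ i) : ℝ)) * y (σ ⟨k, hk⟩) := by
                  rw [Finset.sum_mul]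
              _ ≤ V * y (σ ⟨k, hk⟩) := by
                  refine mul_le_mul_of_nonneg_right ?_ (hm0.le.trans (hmy _))
                  have h5 : ∑ i ∈ univ.filter (fun i : Fin v => k ≤ i), d (σ i) ≤ V := by
                    refine (Finset.sum_le_sum_of_subset (Finset.filter_subset _ _)).trans ?_
                    rw [Equiv.sum_comp σ d]
                    exact hdV
                  exact_mod_cast h5
              _ < V * (1 / (nn V k : ℝ)) := by
                  refine mul_lt_mul_of_pos_left hcon ?_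
                  exact_mod_cast hv
              _ = V / (nn V k : ℝ) := by ring
          linarith
        have h3 : (c : ℝ) - ∑ j, ((l j : ℚ) : ℝ) < V / (nn V k : ℝ) := by linarith
        have hpos : (0 : ℝ) < ((k.factorial * ∏ i : Fin k, nn V i : ℕ) : ℝ) := by
          have : 0 < k.factorial * ∏ i : Fin k, nn V i :=
            Nat.mul_pos k.factorial_pos (Finset.prod_pos fun i _ => nn_pos hv i)
          exact_mod_cast this
        have h4 := mul_lt_mul_of_pos_left h3 hpos
        have h5 : ((k.factorial * ∏ i : Fin k, nn V i : ℕ) : ℝ) * (V / (nn V k : ℝ)) = 1 := by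
          have h6 : (nn V k : ℝ) = ((k.factorial * ∏ i : Fin k, nn V i : ℕ) : ℝ) * V := by
            have : nn V k = (k.factorial * ∏ i : Fin k, nn V i) * V := by
              rw [nn_eq]
              ring
            rw [this]
            push_cast
            ring
          rw [h6]
          have hv' : (V : ℝ) ≠ 0 := by exact_mod_cast hv.ne'
          field_simp
        rw [h5] at h4
        linarith
  exact fun k => key k k.2

end Pool.Agent.Work.GEff
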