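import Mathlib
import Pool.Agent.Work.MP_4329d7_ag_rc.GEffC

/-!
Explicit exponents with degrees, part D: natural weights `A'` with `∑ d i * A' i ≤ c * D`, all
inequalities `∑ A i * b i ≥ 1` giving `∑ A' i * b i ≥ D`, and `D ≤ v! * ∏ k < v, nn V k`.
-/

namespace Pool.Agent.Work.GEff

open Finset Filter Topology Pool.Agent.Work.Eff

theorem exists_den {v : ℕ} (V : ℕ) (d : Fin v → ℕ) (hd : ∀ i, 0 < d i) (hdV : ∑ i, d i ≤ V)
    (c : ℕ) (hv0 : 0 < v) (A : Fin v → ℚ) (hA : ∀ i, 0 < A i)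
    (hA1 : ∑ i, (d i : ℚ) * A i ≤ c) :
    ∃ (D : ℕ) (A' : Fin v → ℕ), 0 < D ∧ D ≤ v.factorial * ∏ k : Fin v, nn V k ∧
      ∑ i, d i * A' i ≤ c * D ∧
      ∀ b : Fin v → ℕ, 1 ≤ ∑ i, A i * (b i : ℚ) → D ≤ ∑ i, A' i * b i := by
  classical
  have hv : 0 < V := by
    refine lt_of_lt_of_le (hd ⟨0, hv0⟩) (le_trans ?_ hdV)
    exact Finset.single_le_sum (fun _ _ => Nat.zero_le _) (mem_univ _)
  obtain ⟨σ, y, hy, hyl⟩ := exists_large V d hd hdV c hv0 A hA hA1
  let N : Fin v → ℕ := fun i => nn V (σ.symm i)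
  have hN : ∀ i, 0 < N i := fun i => nn_pos hv _
  have hNy : ∀ i, 1 ≤ (N i : ℝ) * y i := by
    intro i
    have h1 := hyl (σ.symm i)
    rw [Equiv.apply_symm_apply] at h1
    have h2 : (0 : ℝ) < N i := by exact_mod_cast hN i
    rwa [div_le_iff₀' h2] at h1
  have hdN : ∀ t, d t ≤ N t := by
    intro t
    have h1 : d t ≤ V := (Finset.single_le_sum (fun _ _ => Nat.zero_le _) (mem_univ t)).trans hdV
    have h0 : nn V 0 = V := by
      rw [nn_eq]
      simp
    have h2 : nn V 0 ≤ nn V (σ.symm t) := by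
      rcases Nat.eq_zero_or_pos ((σ.symm t : Fin v) : ℕ) with h | h
      · rw [h]
      · exact nn_mono hv h
    rw [h0] at h2
    exact h1.trans h2
  let P : Set (Fin v → ℝ) := {x | (∀ i, 1 ≤ (N i : ℝ) * x i) ∧ ∑ i, (d i : ℝ) * x i ≤ c ∧
    ∀ b ∈ Fintype.piFinset fun i : Fin v => range (N i + 1), 1 ≤ ∑ i, A i * (b i : ℚ) →
      1 ≤ ∑ i, x i * (b i : ℝ)}
  have hyP : y ∈ P := ⟨hNy, hy.2.1, fun b _ hb => hy.2.2 b hb⟩
  have hxpos : ∀ x ∈ P, ∀ i, 0 < x i := by
    intro x hx i
    have h1 := hx.1 i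
    by_contra h
    have h2 : (N i : ℝ) * x i ≤ 0 := mul_nonpos_of_nonneg_of_nonpos (Nat.cast_nonneg _) (not_lt.1 h)
    linarith
  have hcomp : IsCompact P := by
    refine (isCompact_Icc (a := (0 : Fin v → ℝ)) (b := fun _ => (c : ℝ))).of_isClosed_subset ?_ ?_
    · have h : P = (⋂ i, {x : Fin v → ℝ | 1 ≤ (N i : ℝ) * x i}) ∩
          ({x : Fin v → ℝ | ∑ i, (d i : ℝ) * x i ≤ c} ∩
          ⋂ b : {b : Fin v → ℕ // b ∈ Fintype.piFinset (fun i : Fin v => range (N i + 1)) ∧
            1 ≤ ∑ i, A i * (b i : ℚ)}, {x : Fin v → ℝ | 1 ≤ ∑ i, x i * (b.1 i : ℝ)}) := by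
        ext x
        simp only [P, Set.mem_ofPred_eq, Set.mem_inter_iff, Set.mem_iInter, Subtype.forall, and_imp]
      rw [h]
      refine (isClosed_iInter fun i => isClosed_le continuous_const (by fun_prop)).inter
        ((isClosed_le (by fun_prop) continuous_const).inter
          (isClosed_iInter fun b => isClosed_le continuous_const (by fun_prop)))
    · intro x hx
      exact ⟨fun i => (hxpos x hx i).le,
        fun i => le_of_sum_le hd (fun j => (hxpos x hx j).le) hx.2.1 i⟩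
  obtain ⟨x, hx⟩ := hcomp.extremePoints_nonempty ⟨y, hyP⟩
  rw [mem_extremePoints] at hx
  obtain ⟨hxP, hext⟩ := hx
  -- the tight rows
  let I := {r : Fin v → ℤ // (∀ t, |r t| ≤ N t) ∧ ∃ h : ℤ, ∑ t, (r t : ℝ) * x t = h}
  have hspan : Submodule.span ℝ (Set.range fun r : I => fun t => (r.1 t : ℝ)) = ⊤ := by
    by_contra hne
    obtain ⟨f, hf0, hf⟩ := Submodule.exists_le_ker_of_lt_top _ (lt_top_iff_ne_top.2 hne)
    apply hf0
    let u : Fin v → ℝ := fun t => f (Pi.single t 1)
    have hfe : ∀ z : Fin v → ℝ, f z = ∑ t, z t * u t := by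
      intro z
      have h1 : z = ∑ t, z t • (Pi.single t 1 : Fin v → ℝ) := by
        funext s
        rw [Finset.sum_apply]
        simp [Pi.single_apply]
      conv_lhs => rw [h1]
      rw [map_sum]
      exact Finset.sum_congr rfl fun t _ => by rw [map_smul, smul_eq_mul]
    have hr : ∀ r : Fin v → ℤ, (∀ t, |r t| ≤ N t) → (∃ h : ℤ, ∑ t, (r t : ℝ) * x t = h) →
        ∑ t, (r t : ℝ) * u t = 0 := by
      intro r h1 h2
      rw [← hfe]
      exact hf (Submodule.subset_span ⟨⟨r, h1, h2⟩, rfl⟩)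
    -- small steps in both directions
    have hstep : ∀ w : Fin v → ℝ, (∀ r : Fin v → ℤ, (∀ t, |r t| ≤ N t) →
        (∃ h : ℤ, ∑ t, (r t : ℝ) * x t = h) → ∑ t, (r t : ℝ) * w t = 0) →
        ∀ᶠ s : ℝ in 𝓝[>] 0, (fun t => x t + s * w t) ∈ P := by
      intro w hw
      have e0 : ∀ r : Fin v → ℤ, (∀ t, |r t| ≤ N t) → 1 ≤ ∑ t, (r t : ℝ) * x t →
          ∀ᶠ s : ℝ in 𝓝[>] 0, 1 ≤ ∑ t, (r t : ℝ) * (x t + s * w t) := by
        intro r hr1 hr2
        rcases hr2.lt_or_eq with h | h
        · have hc : Tendsto (fun s : ℝ => ∑ t, (r t : ℝ) * (x t + s * w t)) (𝓝[>] 0)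
              (𝓝 (∑ t, (r t : ℝ) * (x t + 0 * w t))) :=
            (by fun_prop : Continuous fun s : ℝ => ∑ t, (r t : ℝ) * (x t + s * w t)
              ).continuousAt.tendsto.mono_left nhdsWithin_le_nhds
          exact (hc.eventually (lt_mem_nhds (by simpa using h))).mono fun t ht => le_of_lt ht
        · refine Eventually.of_forall fun s => le_of_eq ?_
          have h1 := hw r hr1 ⟨1, by rw [← h, Int.cast_one]⟩
          have h2 : ∑ t, (r t : ℝ) * (x t + s * w t) =
              ∑ t, (r t : ℝ) * x t + s * ∑ t, (r t : ℝ) * w t := by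
            rw [Finset.mul_sum, ← Finset.sum_add_distrib]
            exact Finset.sum_congr rfl fun i _ => by ring
          rw [h2, h1, mul_zero, add_zero]
          exact h
      have e1 : ∀ i, ∀ᶠ s : ℝ in 𝓝[>] 0, 1 ≤ (N i : ℝ) * (x i + s * w i) := by
        intro i
        have h1 : ∀ z : Fin v → ℝ, ∑ t, (((Pi.single i (N i : ℤ) : Fin v → ℤ) t : ℤ) : ℝ) * z t =
            (N i : ℝ) * z i := by
          intro z
          rw [Finset.sum_eq_single i]
          · simp
          · intro t _ ht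
            rw [Pi.single_eq_of_ne ht]
            simp
          · intro h
            exact absurd (mem_univ i) h
        have h2 := e0 (Pi.single i (N i : ℤ)) (fun t => by
          by_cases ht : t = i
          · subst ht
            rw [Pi.single_eq_same, Nat.abs_cast]
          · rw [Pi.single_eq_of_ne ht, abs_zero]
            exact Int.natCast_nonneg _) (by rw [h1]; exact hxP.1 i)
        exact h2.mono fun s hs => by rwa [h1 fun t => x t + s * w t] at hs
      have e2 : ∀ᶠ s : ℝ in 𝓝[>] 0, ∑ i, (d i : ℝ) * (x i + s * w i) ≤ c := by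
        rcases hxP.2.1.lt_or_eq with h | h
        · have hc : Tendsto (fun s : ℝ => ∑ i, (d i : ℝ) * (x i + s * w i)) (𝓝[>] 0)
              (𝓝 (∑ i, (d i : ℝ) * (x i + 0 * w i))) :=
            (by fun_prop : Continuous fun s : ℝ => ∑ i, (d i : ℝ) * (x i + s * w i)
              ).continuousAt.tendsto.mono_left nhdsWithin_le_nhds
          exact (hc.eventually (gt_mem_nhds (by simpa using h))).mono fun t ht => le_of_lt ht
        · refine Eventually.of_forall fun s => le_of_eq ?_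
          have h1 := hw (fun i => (d i : ℤ)) (fun t => by
            rw [Nat.abs_cast]
            exact_mod_cast hdN t) ⟨c, by simpa using h⟩
          simp only [Int.cast_natCast] at h1
          have h2 : ∑ i, (d i : ℝ) * (x i + s * w i) =
              ∑ i, (d i : ℝ) * x i + s * ∑ i, (d i : ℝ) * w i := by
            rw [Finset.mul_sum, ← Finset.sum_add_distrib]
            exact Finset.sum_congr rfl fun i _ => by ring
          rw [h2, h1, mul_zero, add_zero, h]
      have e3 : ∀ᶠ s : ℝ in 𝓝[>] 0, ∀ b ∈ Fintype.piFinset fun i : Fin v => range (N i + 1),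
          1 ≤ ∑ i, A i * (b i : ℚ) → 1 ≤ ∑ i, (x i + s * w i) * (b i : ℝ) := by
        rw [Filter.eventually_all_finset]
        intro b hb
        by_cases hb1 : 1 ≤ ∑ i, A i * (b i : ℚ)
        · have h1 := hxP.2.2 b hb hb1
          have h2 : ∀ z : Fin v → ℝ, ∑ t, (((b t : ℕ) : ℤ) : ℝ) * z t = ∑ i, z i * (b i : ℝ) :=
            fun z => Finset.sum_congr rfl fun t _ => by rw [mul_comm, Int.cast_natCast]
          have h3 := e0 (fun t => (b t : ℤ)) (fun t => by
            rw [Nat.abs_cast]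
            have := Fintype.mem_piFinset.1 hb t
            rw [mem_range] at this
            exact_mod_cast Nat.lt_succ_iff.1 this) (by rw [h2]; exact h1)
          exact h3.mono fun s hs _ => by rwa [h2 fun t => x t + s * w t] at hs
        · exact Eventually.of_forall fun s h => absurd h hb1
      filter_upwards [Filter.eventually_all.2 e1, e2, e3] with s h1 h2 h3
      exact ⟨h1, h2, h3⟩
    obtain ⟨s, ⟨hs1, hs2⟩, hs0⟩ := (((hstep u hr).and (hstep (fun t => - u t) fun r h1 h2 => by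
      have := hr r h1 h2
      simp only [mul_neg, Finset.sum_neg_distrib, this, neg_zero])).and
        self_mem_nhdsWithin).exists
    have hs0' : (0 : ℝ) < s := hs0
    have h1 := hext _ hs1 _ hs2 ⟨1 / 2, 1 / 2, by norm_num, by norm_num, by norm_num, by
      funext t
      show (1 / 2 : ℝ) * (x t + s * u t) + (1 / 2 : ℝ) * (x t + s * (- u t)) = x t
      ring⟩
    have hu : ∀ t, u t = 0 := by
      intro t
      have h2 : x t + s * u t = x t := congrFun h1.1 t
      have h3 : s * u t = 0 := by linarith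
      rcases mul_eq_zero.1 h3 with h | h
      · exact absurd h hs0'.ne'
      · exact h
    ext t
    have h2 := hu t
    simp only [u] at h2
    simp [h2]
  obtain ⟨ρ, hρ, hdet, hden⟩ := cramer (F := ℝ) (fun r : I => r.1) x (fun r => r.2.2.choose)
    hspan fun r => r.2.2.choose_spec
  set Dt := (Matrix.of fun s t => (ρ s).1 t).det with hDt
  have hDle : |Dt| ≤ ((v.factorial * ∏ k : Fin v, nn V k : ℕ) : ℤ) := by
    have h1 := det_le_col (Matrix.of fun s t => (ρ s).1 t) N fun s t => (ρ s).2.1 t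
    rw [Fintype.card_fin] at h1
    refine h1.trans (le_of_eq ?_)
    push_cast
    congr 1
    exact Equiv.prod_comp σ.symm fun k : Fin v => (nn V k : ℤ)
  have hD0 : 0 < |Dt| := abs_pos.2 hdet
  have hDR : (0 : ℝ) < ((|Dt| : ℤ) : ℝ) := by exact_mod_cast hD0
  have hint : ∀ t, ∃ z : ℕ, (z : ℝ) = ((|Dt| : ℤ) : ℝ) * x t := by
    intro t
    obtain ⟨z, hz⟩ := hden t
    have h1 : ((|z| : ℤ) : ℝ) = ((|Dt| : ℤ) : ℝ) * x t := by
      rw [Int.cast_abs, hz, abs_mul, abs_of_pos (hxpos x hxP t), Int.cast_abs]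
    refine ⟨z.natAbs, ?_⟩
    rw [← h1, ← Int.natCast_natAbs, Int.cast_natCast]
  choose A' hA' using hint
  have hDn : ((Dt.natAbs : ℕ) : ℝ) = ((|Dt| : ℤ) : ℝ) := by
    rw [← Int.natCast_natAbs, Int.cast_natCast]
  refine ⟨Dt.natAbs, A', Int.natAbs_pos.2 hdet, ?_, ?_, fun b hb => ?_⟩
  · have h1 : ((Dt.natAbs : ℕ) : ℤ) ≤ ((v.factorial * ∏ k : Fin v, nn V k : ℕ) : ℤ) := by
      rw [Int.natCast_natAbs]
      exact hDle
    exact_mod_cast h1
  · have h1 : ((∑ i, d i * A' i : ℕ) : ℝ) ≤ ((c * Dt.natAbs : ℕ) : ℝ) := by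
      push_cast
      have h2 : ∑ i, (d i : ℝ) * (A' i : ℝ) = (∑ i, (d i : ℝ) * x i) * (Dt.natAbs : ℝ) := by
        rw [Finset.sum_mul]
        refine Finset.sum_congr rfl fun i _ => ?_
        rw [hA', hDn]
        ring
      have h3 : (((Dt.natAbs : ℕ) : ℝ)) = |(Dt : ℝ)| := by
        rw [hDn, Int.cast_abs]
      rw [h2]
      rw [h3] at *
      exact mul_le_mul_of_nonneg_right hxP.2.1 (abs_nonneg _)
    exact_mod_cast h1
  · have h0 : 1 ≤ ∑ i, x i * (b i : ℝ) := by
      by_cases hbB : b ∈ Fintype.piFinset fun i : Fin v => range (N i + 1)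
      · exact hxP.2.2 b hbB hb
      · rw [Fintype.mem_piFinset] at hbB
        push Not at hbB
        obtain ⟨i, hi⟩ := hbB
        rw [mem_range, not_lt] at hi
        have h4 : (N i : ℝ) ≤ (b i : ℝ) := by exact_mod_cast (Nat.le_succ _).trans hi
        have h5 : (1 : ℝ) ≤ x i * (b i : ℝ) := by
          have h6 := mul_le_mul_of_nonneg_left h4 (hxpos x hxP i).le
          have h7 := hxP.1 i
          linarith
        refine h5.trans (Finset.single_le_sum (f := fun i => x i * (b i : ℝ))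
          (fun j _ => mul_nonneg (hxpos x hxP j).le (Nat.cast_nonneg _)) (mem_univ i))
    have h1 : ((Dt.natAbs : ℕ) : ℝ) ≤ ((∑ i, A' i * b i : ℕ) : ℝ) := by
      push_cast
      simp only [hA', mul_assoc]
      rw [← Finset.mul_sum, hDn]
      exact le_mul_of_one_le_right hDR.le h0
    exact_mod_cast h1

end Pool.Agent.Work.GEff
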