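import Mathlib
import Pool.Agent.Work.MP_4329d7_ag_rc.GEffD
import Pool.Agent.Work.MP_4329d7_ag_snc.Final

/-!
Explicit exponents with degrees, part E: rational weights on the components of a divisor on `ℙⁿ`
can be replaced by weights with a denominator `M ≤ (2 * n + 1) ^ ((2 * n + 1) * 4 ^ n)`.
-/

namespace Pool.Agent.Work.GEff

open Finset Pool.Agent.Work.Eff Pool.Agent.Work.Snc

theorem den_le (v V : ℕ) (hv : v ≤ V + 1) :
    v.factorial * ∏ k : Fin v, nn (V + 1) k ≤ (V + 1) ^ ((V + 1) * 2 ^ V) := by
  refine le_trans ?_ (den_bound V)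
  refine Nat.mul_le_mul (Nat.factorial_le hv) ?_
  rw [Fin.prod_univ_eq_prod_range (fun k => nn (V + 1) k) v,
    Fin.prod_univ_eq_prod_range (fun k => nn (V + 1) k) (V + 1)]
  exact Finset.prod_le_prod_of_subset_of_one_le' (Finset.range_subset_range.2 hv)
    fun i _ _ => nn_pos (Nat.succ_pos V) i

theorem exists_den_type {V : ℕ} (S : Type*) [Fintype S] [Nonempty S] (d : S → ℕ)
    (hd : ∀ e, 0 < d e) (hdV : ∑ e, d e ≤ V + 1) (c : ℕ) (A : S → ℚ) (hA : ∀ e, 0 < A e)
    (hA1 : ∑ e, (d e : ℚ) * A e ≤ c) :
    ∃ (D : ℕ) (A' : S → ℕ), 0 < D ∧ D ≤ (V + 1) ^ ((V + 1) * 2 ^ V) ∧ (∀ e, A' e ≤ D) ∧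
      ∑ e, d e * A' e ≤ c * D ∧ ∀ b : S → ℕ, 1 ≤ ∑ e, A e * (b e : ℚ) → D ≤ ∑ e, A' e * b e := by
  classical
  let e := Fintype.equivFin S
  have hcard : Fintype.card S ≤ V + 1 := by
    refine le_trans ?_ hdV
    rw [Fintype.card_eq_sum_ones]
    exact Finset.sum_le_sum fun s _ => hd s
  obtain ⟨D, A', hD, hDle, hsum, h⟩ := exists_den (V + 1) (fun i => d (e.symm i)) (fun i => hd _)
    (by rw [Equiv.sum_comp e.symm d]; exact hdV) c Fintype.card_pos (fun i => A (e.symm i))
    (fun i => hA _) (by
      rw [Equiv.sum_comp e.symm fun s => (d s : ℚ) * A s]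
      exact hA1)
  refine ⟨D, fun s => min (A' (e s)) D, hD, hDle.trans (den_le _ V hcard),
    fun s => min_le_right _ _, ?_, fun b hb => ?_⟩
  · refine le_trans (Finset.sum_le_sum fun s _ => Nat.mul_le_mul_left _ (min_le_left _ _)) ?_
    rw [← Equiv.sum_comp e.symm]
    simpa using hsum
  · by_cases hall : ∀ s, b s ≠ 0 → A' (e s) ≤ D
    · have h1 := h (fun i => b (e.symm i)) (by
        rw [← Equiv.sum_comp e.symm fun i => A i * (b i : ℚ)] at hb
        exact hb)
      rw [← Equiv.sum_comp e fun i => A' i * b (e.symm i)] at h1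
      simp only [Equiv.symm_apply_apply] at h1
      refine h1.trans (le_of_eq (Finset.sum_congr rfl fun s _ => ?_))
      by_cases h0 : b s = 0
      · simp [h0]
      · show A' (e s) * b s = min (A' (e s)) D * b s
        rw [min_eq_left (hall s h0)]
    · push Not at hall
      obtain ⟨s, hs0, hs1⟩ := hall
      have h1 : D ≤ min (A' (e s)) D * b s := by
        rw [min_eq_right hs1.le]
        exact Nat.le_mul_of_pos_right _ (Nat.pos_of_ne_zero hs0)
      exact h1.trans (Finset.single_le_sum (f := fun s => min (A' (e s)) D * b s)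
        (fun _ _ => Nat.zero_le _) (mem_univ s))

theorem two_le_bound {n : ℕ} (hn : 0 < n) : 2 ≤ (2 * n + 1) ^ ((2 * n + 1) * 4 ^ n) := by
  have h1 : (2 * n + 1) ^ 1 ≤ (2 * n + 1) ^ ((2 * n + 1) * 4 ^ n) :=
    Nat.pow_le_pow_right (by omega) (Nat.mul_pos (by omega) (by positivity))
  rw [pow_one] at h1
  omega

theorem weights_eff (n : ℕ) (hn : 0 < n) {E : Type} [Fintype E] (d : E → ℕ) (hd : ∀ e, 0 < d e)
    (B : Set (E → ℕ)) (A : E → ℚ) (h : RatWtD (fun _ : Unit => n) (fun e _ => d e) B A) :
    ∃ M : ℕ, 0 < M ∧ M ≤ (2 * n + 1) ^ ((2 * n + 1) * 4 ^ n) ∧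
      ∃ A' : E → ℕ, NatWtD (fun _ : Unit => n) (fun e _ => d e) B M A' := by
  classical
  by_cases hbig : 2 * (n + 1) ≤ ∑ e ∈ univ.filter (fun e => A e < 1), d e
  · -- many components
    refine ⟨2, by norm_num, two_le_bound hn, fun e => if A e < 1 then 1 else 2,
      fun e => ?_, fun _ => ?_, fun b hb => ?_⟩
    · split_ifs <;> norm_num
    · have h1 : ∀ e, (2 - if A e < 1 then 1 else 2) * d e = if A e < 1 then d e else 0 := by
        intro e
        split_ifs <;> simp
      simp only [h1]
      rw [← Finset.sum_filter, mul_comm]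
      exact hbig
    · have h1 := h.blk b hb
      by_cases hout : ∃ e, ¬ A e < 1 ∧ b e ≠ 0
      · obtain ⟨e, he, hbe⟩ := hout
        have h2 : 2 ≤ (if A e < 1 then 1 else 2) * b e := by
          rw [if_neg he]
          exact Nat.le_mul_of_pos_right _ (Nat.pos_of_ne_zero hbe)
        exact h2.trans (Finset.single_le_sum (f := fun e => (if A e < 1 then 1 else 2) * b e)
          (fun _ _ => Nat.zero_le _) (mem_univ e))
      · push Not at hout
        have hA1 : ∀ e, b e ≠ 0 → A e < 1 := by
          intro e he
          by_contra hc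
          exact he (hout e (not_lt.1 hc))
        have hex : ∃ e, b e ≠ 0 := by
          by_contra hc
          push Not at hc
          simp only [hc, Nat.cast_zero, mul_zero, Finset.sum_const_zero] at h1
          exact absurd h1 (by norm_num)
        obtain ⟨e0, he0⟩ := hex
        have h2 : ∑ e, A e * (b e : ℚ) < ∑ e, (b e : ℚ) := by
          refine Finset.sum_lt_sum (fun e _ => ?_) ⟨e0, mem_univ _, ?_⟩
          · exact mul_le_of_le_one_left (Nat.cast_nonneg _) (h.box e).2
          · have h3 : (0 : ℚ) < b e0 := by exact_mod_cast Nat.pos_of_ne_zero he0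
            exact mul_lt_of_lt_one_left h3 (hA1 e0 he0)
        have h3 : 1 < ∑ e, b e := by exact_mod_cast h1.trans_lt h2
        refine le_trans (Nat.succ_le_of_lt h3) (Finset.sum_le_sum fun e _ => ?_)
        refine Nat.le_mul_of_pos_left _ ?_
        split_ifs <;> norm_num
  · rw [not_le] at hbig
    have hoff : ∀ e, ¬ A e < 1 → A e = 1 := fun e he => le_antisymm (h.box e).2 (not_lt.1 he)
    have hfac : ((n + 1 : ℕ) : ℚ) + ∑ e ∈ univ.filter (fun e => A e < 1), (d e : ℚ) * A e ≤
        ((∑ e ∈ univ.filter (fun e => A e < 1), d e : ℕ) : ℚ) := by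
      have h1 := h.fac ()
      have h2 : ∑ e, (1 - A e) * (d e : ℚ) =
          ∑ e ∈ univ.filter (fun e => A e < 1), (1 - A e) * (d e : ℚ) := by
        symm
        refine Finset.sum_subset (Finset.filter_subset _ _) fun e _ he => ?_
        rw [mem_filter, not_and] at he
        rw [hoff e (he (mem_univ _)), sub_self, zero_mul]
      rw [h2] at h1
      push_cast at h1 ⊢
      have h3 : ∑ e ∈ univ.filter (fun e => A e < 1), (1 - A e) * (d e : ℚ) =
          ∑ e ∈ univ.filter (fun e => A e < 1), (d e : ℚ) -
            ∑ e ∈ univ.filter (fun e => A e < 1), (d e : ℚ) * A e := by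
        rw [← Finset.sum_sub_distrib]
        exact Finset.sum_congr rfl fun e _ => by ring
      rw [h3] at h1
      linarith
    have hA0 : 0 ≤ ∑ e ∈ univ.filter (fun e => A e < 1), (d e : ℚ) * A e :=
      Finset.sum_nonneg fun e _ => mul_nonneg (Nat.cast_nonneg _) (h.box e).1
    have hge : n + 1 ≤ ∑ e ∈ univ.filter (fun e => A e < 1), d e := by
      have : ((n + 1 : ℕ) : ℚ) ≤ ((∑ e ∈ univ.filter (fun e => A e < 1), d e : ℕ) : ℚ) := by
        linarith
      exact_mod_cast this
    obtain ⟨c, hc⟩ := Nat.exists_eq_add_of_le hge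
    have hAc : ∑ e ∈ univ.filter (fun e => A e < 1), (d e : ℚ) * A e ≤ c := by
      rw [hc] at hfac
      push_cast at hfac
      linarith
    by_cases hS : ∃ e, 0 < A e ∧ A e < 1
    · let S := {e : E // 0 < A e ∧ A e < 1}
      have hne : Nonempty S := ⟨⟨hS.choose, hS.choose_spec⟩⟩
      have hsub : ∀ g : E → ℚ, (∀ e, 0 ≤ g e) →
          ∑ e : S, g e.1 ≤ ∑ e ∈ univ.filter (fun e => A e < 1), g e := by
        intro g hg
        have h1 : ∑ e : S, g e.1 = ∑ e ∈ univ.filter (fun e => 0 < A e ∧ A e < 1), g e := by
          rw [Finset.sum_subtype (univ.filter fun e => 0 < A e ∧ A e < 1) (p := fun e =>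
            0 < A e ∧ A e < 1) (by simp) g]
        rw [h1]
        refine Finset.sum_le_sum_of_subset_of_nonneg ?_ fun e _ _ => hg e
        intro e he
        rw [mem_filter] at he ⊢
        exact ⟨he.1, he.2.2⟩
      have hdV : ∑ e : S, d e.1 ≤ 2 * n + 1 := by
        have h1 := hsub (fun e => (d e : ℚ)) fun e => Nat.cast_nonneg _
        have h2 : ∑ e : S, d e.1 ≤ ∑ e ∈ univ.filter (fun e => A e < 1), d e := by
          exact_mod_cast h1
        omega
      obtain ⟨D, A', hD, hDle, hAD, hsum, hblk⟩ := exists_den_type (V := 2 * n) S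
        (fun e => d e.1) (fun e => hd _) hdV c (fun e => A e.1) (fun e => e.2.1)
        ((hsub (fun e => (d e : ℚ) * A e) fun e => mul_nonneg (Nat.cast_nonneg _)
          (h.box e).1).trans hAc)
      have h4 : 2 ^ (2 * n) = 4 ^ n := by rw [pow_mul]; norm_num
      rw [h4] at hDle
      let A'' : E → ℕ := fun e => if he : 0 < A e ∧ A e < 1 then A' ⟨e, he⟩ else
        if A e < 1 then 0 else D
      have hbox : ∀ e, A'' e ≤ D := by
        intro e
        simp only [A'']
        split_ifs
        · exact hAD _
        · exact Nat.zero_le _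
        · exact le_rfl
      refine ⟨D, hD, hDle, A'', hbox, fun _ => ?_, fun b hb => ?_⟩
      · have h1 : ∑ e ∈ univ.filter (fun e => A e < 1), (D - A'' e) * d e ≤
            ∑ e, (D - A'' e) * d e := Finset.sum_le_sum_of_subset (Finset.filter_subset _ _)
        refine le_trans ?_ h1
        have h2 : ∑ e ∈ univ.filter (fun e => A e < 1), (D - A'' e) * d e +
            ∑ e ∈ univ.filter (fun e => A e < 1), A'' e * d e =
            D * ∑ e ∈ univ.filter (fun e => A e < 1), d e := by
          rw [← Finset.sum_add_distrib, Finset.mul_sum]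
          refine Finset.sum_congr rfl fun e _ => ?_
          rw [← add_mul, Nat.sub_add_cancel (hbox e)]
        have h3 : ∑ e ∈ univ.filter (fun e => A e < 1), A'' e * d e = ∑ e : S, d e.1 * A' e := by
          have h5 : ∑ e ∈ univ.filter (fun e => A e < 1), A'' e * d e =
              ∑ e ∈ univ.filter (fun e => 0 < A e ∧ A e < 1), A'' e * d e := by
            symm
            refine Finset.sum_subset ?_ fun e he he' => ?_
            · intro e he
              rw [mem_filter] at he ⊢
              exact ⟨he.1, he.2.2⟩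
            · rw [mem_filter] at he he'
              have h6 : ¬ (0 < A e ∧ A e < 1) := fun hc => he' ⟨mem_univ _, hc⟩
              simp only [A'']
              rw [dif_neg h6, if_pos he.2, zero_mul]
          rw [h5, Finset.sum_subtype (univ.filter fun e => 0 < A e ∧ A e < 1) (p := fun e =>
            0 < A e ∧ A e < 1) (by simp) fun e => A'' e * d e]
          refine Finset.sum_congr rfl fun e _ => ?_
          simp only [A'']
          rw [dif_pos e.2, mul_comm]
        rw [h3, hc, mul_add] at h2
        have h6 : c * D = D * c := mul_comm _ _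
        have h7 : (n + 1) * D = D * (n + 1) := mul_comm _ _
        omega
      · have h1 := h.blk b hb
        by_cases hout : ∃ e, ¬ A e < 1 ∧ b e ≠ 0
        · obtain ⟨e, he, hbe⟩ := hout
          have h2 : D ≤ A'' e * b e := by
            have h3 : A'' e = D := by
              simp only [A'']
              rw [dif_neg (fun hc => he hc.2), if_neg he]
            rw [h3]
            exact Nat.le_mul_of_pos_right _ (Nat.pos_of_ne_zero hbe)
          exact h2.trans (Finset.single_le_sum (f := fun e => A'' e * b e)
            (fun _ _ => Nat.zero_le _) (mem_univ e))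
        · push Not at hout
          have hA1 : ∀ e, b e ≠ 0 → A e < 1 := by
            intro e he
            by_contra hc
            exact he (hout e (not_lt.1 hc))
          have h2 : ∑ e, A e * (b e : ℚ) = ∑ e : S, A e.1 * (b e.1 : ℚ) := by
            have h5 : ∑ e, A e * (b e : ℚ) =
                ∑ e ∈ univ.filter (fun e => 0 < A e ∧ A e < 1), A e * (b e : ℚ) := by
              symm
              refine Finset.sum_subset (Finset.filter_subset _ _) fun e _ he' => ?_
              rw [mem_filter] at he'
              by_cases hb0 : b e = 0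
              · rw [hb0, Nat.cast_zero, mul_zero]
              · have h7 : ¬ 0 < A e := fun hc => he' ⟨mem_univ _, hc, hA1 e hb0⟩
                rw [le_antisymm (not_lt.1 h7) (h.box e).1, zero_mul]
            rw [h5, Finset.sum_subtype (univ.filter fun e => 0 < A e ∧ A e < 1) (p := fun e =>
              0 < A e ∧ A e < 1) (by simp) fun e => A e * (b e : ℚ)]
          rw [h2] at h1
          refine (hblk (fun e => b e.1) h1).trans ?_
          have h3 : ∑ e : S, A' e * b e.1 =
              ∑ e ∈ univ.filter (fun e => 0 < A e ∧ A e < 1), A'' e * b e := by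
            rw [Finset.sum_subtype (univ.filter fun e => 0 < A e ∧ A e < 1) (p := fun e =>
              0 < A e ∧ A e < 1) (by simp) fun e => A'' e * b e]
            refine Finset.sum_congr rfl fun e _ => ?_
            simp only [A'']
            rw [dif_pos e.2]
          rw [h3]
          exact Finset.sum_le_sum_of_subset (Finset.filter_subset _ _)
    · push Not at hS
      refine ⟨1, one_pos, le_trans (by norm_num) (two_le_bound hn),
        fun e => if A e < 1 then 0 else 1, fun e => ?_, fun _ => ?_, fun b hb => ?_⟩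
      · split_ifs <;> norm_num
      · have h1 : ∀ e, (1 - if A e < 1 then 0 else 1) * d e = if A e < 1 then d e else 0 := by
          intro e
          split_ifs <;> simp
        simp only [h1]
        rw [← Finset.sum_filter, mul_one]
        exact hge
      · have h1 := h.blk b hb
        by_cases hout : ∃ e, ¬ A e < 1 ∧ b e ≠ 0
        · obtain ⟨e, he, hbe⟩ := hout
          have h2 : 1 ≤ (if A e < 1 then 0 else 1) * b e := by
            rw [if_neg he, one_mul]
            exact Nat.pos_of_ne_zero hbe
          exact h2.trans (Finset.single_le_sum (f := fun e => (if A e < 1 then 0 else 1) * b e)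
            (fun _ _ => Nat.zero_le _) (mem_univ e))
        · exfalso
          push Not at hout
          have h2 : ∑ e, A e * (b e : ℚ) = 0 := by
            refine Finset.sum_eq_zero fun e _ => ?_
            by_cases h3 : A e < 1
            · have h4 : A e = 0 := by
                refine le_antisymm ?_ (h.box e).1
                by_contra hc
                exact absurd h3 (not_lt.2 (hS e (not_le.1 hc)))
              rw [h4, zero_mul]
            · rw [hout e (not_lt.1 h3), Nat.cast_zero, mul_zero]
          rw [h2] at h1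
          exact absurd h1 (by norm_num)

end Pool.Agent.Work.GEff
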