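import Mathlib
import Pool.Agent.Work.MP_4329d7_ag_rc.GlueY

/-!
If no form over `KK n` vanishes on all curves over `KK n` through the generic point then there is a
curve (over a bigger field) on which no form over `KK n` vanishes.

Proof.  For a curve `c` over `k ⊇ KK n` consider the elements `λ Y_s(X)` of `k[X][λ]` (`λ` a new
variable); `P(λ Y) = ∑_r λ^r P_r(Y)`, so the kernel `ker c` of `P ↦ P(λ Y)` (a prime ideal of
`(KK n)[Y]`) is `0` iff no form over `KK n` vanishes on `c`.  If it is not `0`: let `P` be a form in it,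
`c_P` a curve over `KK n` with `P(Y_(c_P)) ≠ 0`, glue `c` and `c_P` (base changed); the result `c''`
has a strictly smaller kernel.  Induction on the height of the kernel.
-/

namespace Pool.Agent.Work.RC

open Polynomial
open Pool.Agent.Work.Uni (rootPoly)

variable {n : ℕ} {E : Type} [Fintype E] [DecidableEq E] {A : Arr n E}

section coneHom

variable {k₀ k : Type} [Field k₀] [Field k] [Algebra k₀ k]

/-- `P ↦ P(λ Y)` -/
noncomputable def coneHom (Y : Fin (n + 1) → k[X]) :
    MvPolynomial (Fin (n + 1)) k₀ →ₐ[k₀] k[X][X] :=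
  MvPolynomial.aeval fun s => X * C (Y s)

theorem coneHom_form (Y : Fin (n + 1) → k[X]) {r : ℕ} {P : MvPolynomial (Fin (n + 1)) k₀}
    (hP : P.IsHomogeneous r) : coneHom Y P = X ^ r * C (MvPolynomial.aeval Y P) := by
  classical
  unfold coneHom
  rw [MvPolynomial.aeval_def, MvPolynomial.aeval_def, MvPolynomial.eval₂_eq,
    MvPolynomial.eval₂_eq, map_sum, Finset.mul_sum]
  refine Finset.sum_congr rfl fun v hv => ?_
  have hd : ∑ s ∈ v.support, v s = r := by
    have := hP (MvPolynomial.mem_support_iff.1 hv)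
    rw [← this]
    simp [Finsupp.weight_apply, Finsupp.sum]
  have h1 : algebraMap k₀ k[X][X] (MvPolynomial.coeff v P)
      = C (algebraMap k₀ k[X] (MvPolynomial.coeff v P)) := rfl
  rw [h1, Finset.prod_congr rfl (fun s _ => mul_pow (X : k[X][X]) (C (Y s)) (v s)),
    Finset.prod_mul_distrib, Finset.prod_pow_eq_pow_sum, hd, map_mul, map_prod]
  simp only [map_pow]
  ring

theorem coneHom_eq_zero (Y : Fin (n + 1) → k[X]) {P : MvPolynomial (Fin (n + 1)) k₀} :
    coneHom Y P = 0 ↔
      ∀ r, MvPolynomial.aeval Y (MvPolynomial.homogeneousComponent r P) = 0 := by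
  classical
  have key : coneHom Y P = ∑ r ∈ Finset.range (P.totalDegree + 1),
      X ^ r * C (MvPolynomial.aeval Y (MvPolynomial.homogeneousComponent r P)) := by
    conv_lhs => rw [← MvPolynomial.sum_homogeneousComponent P]
    rw [map_sum]
    exact Finset.sum_congr rfl fun r _ =>
      coneHom_form Y (MvPolynomial.homogeneousComponent_isHomogeneous r P)
  constructor
  · intro h r
    by_cases hr : r < P.totalDegree + 1
    · have h1 := congrArg (fun q : k[X][X] => q.coeff r) (key.symm.trans h)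
      simp only [finsetSum_coeff, coeff_X_pow_mul', coeff_C, coeff_zero] at h1
      rw [Finset.sum_eq_single r] at h1
      · simpa using h1
      · intro b _ hb
        split_ifs with h2 h3
        · omega
        · rfl
        · rfl
      · intro h2
        exact absurd (Finset.mem_range.2 hr) h2
    · rw [MvPolynomial.homogeneousComponent_eq_zero r P (by omega), map_zero]
  · intro h
    rw [key]
    exact Finset.sum_eq_zero fun r _ => by rw [h r, C_0, mul_zero]

end coneHom

/-- a form on the first (second) curve -/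
theorem biHom_inl {k : Type} [Field k] {r : ℕ} {P : MvPolynomial (Fin (n + 1)) k}
    (hP : P.IsHomogeneous r) : BiHom r 0 (MvPolynomial.rename Sum.inl P :
      MvPolynomial (Fin (n + 1) ⊕ Fin (n + 1)) k) := by
  classical
  constructor
  · intro d hd
    obtain ⟨u, rfl, hu⟩ := MvPolynomial.coeff_rename_ne_zero _ _ _ hd
    have h1 := hP hu
    rw [Finsupp.weight_apply] at h1 ⊢
    rw [Finsupp.sum_mapDomain_index (by simp) (by intros; simp [add_mul])]
    rw [← h1]
    rfl
  · intro d hd
    obtain ⟨u, rfl, hu⟩ := MvPolynomial.coeff_rename_ne_zero _ _ _ hd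
    rw [Finsupp.weight_apply, Finsupp.sum_mapDomain_index (by simp) (by intros; simp [add_mul])]
    simp

theorem biHom_inr {k : Type} [Field k] {r : ℕ} {P : MvPolynomial (Fin (n + 1)) k}
    (hP : P.IsHomogeneous r) : BiHom 0 r (MvPolynomial.rename Sum.inr P :
      MvPolynomial (Fin (n + 1) ⊕ Fin (n + 1)) k) := by
  classical
  constructor
  · intro d hd
    obtain ⟨u, rfl, hu⟩ := MvPolynomial.coeff_rename_ne_zero _ _ _ hd
    rw [Finsupp.weight_apply, Finsupp.sum_mapDomain_index (by simp) (by intros; simp [add_mul])]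
    simp
  · intro d hd
    obtain ⟨u, rfl, hu⟩ := MvPolynomial.coeff_rename_ne_zero _ _ _ hd
    have h1 := hP hu
    rw [Finsupp.weight_apply] at h1 ⊢
    rw [Finsupp.sum_mapDomain_index (by simp) (by intros; simp [add_mul])]
    rw [← h1]
    rfl

theorem bi_inl {l k : Type} [Field l] [Field k] [Algebra l k] (P : MvPolynomial (Fin (n + 1)) l)
    (Y₁ Y₂ : Fin (n + 1) → k[X]) :
    bi (MvPolynomial.rename Sum.inl P) Y₁ Y₂ = C (MvPolynomial.aeval Y₁ P) := by
  unfold bi
  rw [MvPolynomial.aeval_rename]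
  have h : (Sum.elim (fun s => (C (Y₁ s) : k[X][X])) (fun s => (Y₂ s).map C)) ∘ Sum.inl
      = fun s => (CAlgHom (R := l) (Y₁ s) : k[X][X]) := rfl
  rw [h, ← MvPolynomial.comp_aeval_apply]
  rfl

theorem bi_inr {l k : Type} [Field l] [Field k] [Algebra l k] (P : MvPolynomial (Fin (n + 1)) l)
    (Y₁ Y₂ : Fin (n + 1) → k[X]) :
    bi (MvPolynomial.rename Sum.inr P) Y₁ Y₂ = (MvPolynomial.aeval Y₂ P).map C := by
  unfold bi
  rw [MvPolynomial.aeval_rename]
  have h : (Sum.elim (fun s => (C (Y₁ s) : k[X][X])) (fun s => (Y₂ s).map C)) ∘ Sum.inr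
      = fun s => (mapAlgHom (CAlgHom (R := l) (A := k)) (Y₂ s) : k[X][X]) := rfl
  rw [h, ← MvPolynomial.comp_aeval_apply]
  rfl

theorem generic_gen_ai (n : ℕ) : AlgebraicIndependent ℂ (gen n) := by
  have h0 : AlgebraicIndependent ℂ
      (fun s : Fin (n + 1) => (MvPolynomial.X s : MvPolynomial (Fin (n + 1)) ℂ)) :=
    MvPolynomial.algebraicIndependent_X _ _
  have h1 := h0.map' (f := IsScalarTower.toAlgHom ℂ (MvPolynomial (Fin (n + 1)) ℂ)
    (FractionRing (MvPolynomial (Fin (n + 1)) ℂ))) (IsFractionRing.injective _ _)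
  exact h1.map' (f := IsScalarTower.toAlgHom ℂ (FractionRing (MvPolynomial (Fin (n + 1)) ℂ))
    (KK n)) (algebraMap (FractionRing (MvPolynomial (Fin (n + 1)) ℂ)) (KK n)).injective

theorem generic_step (hA : A.Ok) [Nonempty E] {k : Type} [Field k] [Algebra ℂ k]
    [Algebra (KK n) k] [IsScalarTower ℂ (KK n) k]
    (c : Cv A k (fun s => algebraMap (KK n) k (gen n s))) (c₀ : Cv A (KK n) (gen n)) :
    ∃ (k' : Type) (_ : Field k') (_ : Algebra ℂ k') (_ : Algebra (KK n) k')
      (_ : IsScalarTower ℂ (KK n) k') (c' : Cv A k' (fun s => algebraMap (KK n) k' (gen n s))),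
      ∀ (r : ℕ) (P : MvPolynomial (Fin (n + 1)) (KK n)), P.IsHomogeneous r →
        MvPolynomial.aeval c'.Y P = 0 →
        MvPolynomial.aeval c.Y P = 0 ∧ MvPolynomial.aeval c₀.Y P = 0 := by
  let f : KK n →ₐ[ℂ] k := IsScalarTower.toAlgHom ℂ (KK n) k
  have hx : AlgebraicIndependent ℂ (fun s => algebraMap (KK n) k (gen n s)) :=
    (generic_gen_ai n).map' (f := f) f.injective
  let c₂ : Cv A k (fun s => algebraMap (KK n) k (gen n s)) := c₀.map f
  obtain ⟨k', _, _, _, _, c', hc'⟩ := glueY hA hx c c₂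
  let _ : Algebra (KK n) k' := ((algebraMap k k').comp (algebraMap (KK n) k)).toAlgebra
  have : IsScalarTower (KK n) k k' := IsScalarTower.of_algebraMap_eq fun _ => rfl
  have : IsScalarTower ℂ (KK n) k' := IsScalarTower.of_algebraMap_eq fun z => by
    rw [IsScalarTower.algebraMap_apply (KK n) k k', ← IsScalarTower.algebraMap_apply ℂ (KK n) k,
      ← IsScalarTower.algebraMap_apply ℂ k k']
  refine ⟨k', inferInstance, inferInstance, inferInstance, inferInstance, c', ?_⟩
  intro r P hP h0
  have hP' : (P.map (algebraMap (KK n) k)).IsHomogeneous r := hP.map _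
  have h1 : MvPolynomial.aeval c'.Y (P.map (algebraMap (KK n) k)) = 0 := by
    rw [MvPolynomial.aeval_map_algebraMap]
    exact h0
  constructor
  · have h2 := hc' r 0 _ (biHom_inl hP') (by rw [bi_inl, h1, C_0])
    rw [bi_inl, C_eq_zero, MvPolynomial.aeval_map_algebraMap] at h2
    exact h2
  · have h2 := hc' 0 r _ (biHom_inr hP') (by rw [bi_inr, h1, Polynomial.map_zero])
    rw [bi_inr] at h2
    have h3 : MvPolynomial.aeval c₂.Y (P.map (algebraMap (KK n) k)) = 0 :=
      Polynomial.map_injective C C_injective (by rw [h2, Polynomial.map_zero])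
    rw [MvPolynomial.aeval_map_algebraMap] at h3
    have h4 : MvPolynomial.aeval c₂.Y P = (MvPolynomial.aeval c₀.Y P).map (algebraMap (KK n) k) := by
      have h5 := MvPolynomial.comp_aeval_apply (R := KK n) c₀.Y
        (mapAlgHom (Algebra.ofId (KK n) k)) P
      exact h5.symm
    rw [h4] at h3
    exact Polynomial.map_injective _ (algebraMap (KK n) k).injective
      (by rw [h3, Polynomial.map_zero])

theorem generic (hA : A.Ok) [Nonempty E]
    (hdense : ∀ (r : ℕ) (P : MvPolynomial (Fin (n + 1)) (KK n)), P.IsHomogeneous r → P ≠ 0 →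
      ∃ c : Cv A (KK n) (gen n), MvPolynomial.aeval c.Y P ≠ 0) :
    ∃ (k : Type) (_ : Field k) (_ : Algebra ℂ k) (_ : Algebra (KK n) k)
      (_ : IsScalarTower ℂ (KK n) k) (c : Cv A k (fun s => algebraMap (KK n) k (gen n s))),
      ∀ (r : ℕ) (P : MvPolynomial (Fin (n + 1)) (KK n)), P.IsHomogeneous r → P ≠ 0 →
        MvPolynomial.aeval c.Y P ≠ 0 := by
  suffices H : ∀ (N : ℕ) (k : Type) (_ : Field k) (_ : Algebra ℂ k) (_ : Algebra (KK n) k)
      (_ : IsScalarTower ℂ (KK n) k) (c : Cv A k (fun s => algebraMap (KK n) k (gen n s))),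
      (RingHom.ker (coneHom (k₀ := KK n) c.Y)).height < (N : ℕ∞) →
      ∃ (k : Type) (_ : Field k) (_ : Algebra ℂ k) (_ : Algebra (KK n) k)
      (_ : IsScalarTower ℂ (KK n) k) (c : Cv A k (fun s => algebraMap (KK n) k (gen n s))),
      ∀ (r : ℕ) (P : MvPolynomial (Fin (n + 1)) (KK n)), P.IsHomogeneous r → P ≠ 0 →
        MvPolynomial.aeval c.Y P ≠ 0 by
    obtain ⟨c, -⟩ := hdense 0 1 (MvPolynomial.isHomogeneous_one _ _) one_ne_zero
    have hpr : (RingHom.ker (coneHom (k₀ := KK n) c.Y)).IsPrime := RingHom.ker_isPrime _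
    have hh : (RingHom.ker (coneHom (k₀ := KK n) c.Y)).height ≠ ⊤ :=
      Ideal.height_ne_top_of_isPrime
    obtain ⟨N, hN⟩ := ENat.ne_top_iff_exists.1 hh
    refine H (N + 1) (KK n) inferInstance inferInstance inferInstance inferInstance c ?_
    rw [← hN]
    exact_mod_cast Nat.lt_succ_self N
  intro N
  induction N with
  | zero =>
    intro k _ _ _ _ c h
    simp at h
  | succ N ih =>
    intro k _ _ _ _ c h
    by_cases hz : ∀ (r : ℕ) (P : MvPolynomial (Fin (n + 1)) (KK n)), P.IsHomogeneous r → P ≠ 0 →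
        MvPolynomial.aeval c.Y P ≠ 0
    · exact ⟨k, _, _, _, inferInstance, c, hz⟩
    · push Not at hz
      obtain ⟨r, P, hP, hP0, hPc⟩ := hz
      obtain ⟨c₀, hc₀⟩ := hdense r P hP hP0
      obtain ⟨k', _, _, _, _, c', hc'⟩ := generic_step hA c c₀
      refine ih k' inferInstance inferInstance inferInstance inferInstance c' ?_
      have hpr : (RingHom.ker (coneHom (k₀ := KK n) c.Y)).IsPrime := RingHom.ker_isPrime _
      have hpr' : (RingHom.ker (coneHom (k₀ := KK n) c'.Y)).IsPrime := RingHom.ker_isPrime _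
      have hlt : RingHom.ker (coneHom (k₀ := KK n) c'.Y) < RingHom.ker (coneHom (k₀ := KK n) c.Y) := by
        refine lt_of_le_of_ne ?_ ?_
        · intro Q hQ
          rw [RingHom.mem_ker] at hQ ⊢
          rw [coneHom_eq_zero] at hQ ⊢
          exact fun r => (hc' r _ (MvPolynomial.homogeneousComponent_isHomogeneous r Q) (hQ r)).1
        · intro heq
          have h1 : P ∈ RingHom.ker (coneHom (k₀ := KK n) c.Y) := by
            rw [RingHom.mem_ker, coneHom_form c.Y hP, hPc, C_0, mul_zero]
          rw [← heq, RingHom.mem_ker, coneHom_form c'.Y hP] at h1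
          have h2 : MvPolynomial.aeval c'.Y P = 0 := by
            have h3 := (mul_eq_zero.1 h1).resolve_left (pow_ne_zero r X_ne_zero)
            exact C_eq_zero.1 h3
          exact hc₀ (hc' r P hP h2).2
      have h3 := Ideal.height_strict_mono_of_isPrime hlt
      exact lt_of_lt_of_le h3 (Order.le_of_lt_add_one (by exact_mod_cast h))

end Pool.Agent.Work.RC
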