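import Mathlib
import Pool.Agent.Work.MP_4329d7_ag_rc.Defs
import Pool.Agent.Work.MP_4329d7_ag_uni.Defs

/-!
The case of hyperplanes in general position: the branch data `hypArr` satisfy `Arr.Ok`.
-/

namespace Pool.Agent.Work.RC

open Polynomial
open Pool.Agent.Work.Uni

/-- the branch data of an arrangement of hyperplanes; `L` = the vectors `b` with `N ∣ ∑ b c` for
all radicals -/
noncomputable def hypArr {K : Type} {n : ℕ} {E : Type} [Fintype E] (α : E → Fin (n + 1) → ℂ)
    (N : ℕ) (S : Set (K × (E → ℕ))) : Arr n E where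
  F e := ∑ j, MvPolynomial.C (α e j) * MvPolynomial.X j
  d _ := 1
  L :=
    { carrier := {b | ∀ z c, (z, c) ∈ S → (N : ℤ) ∣ ∑ e, b e * (c e : ℤ)}
      zero_mem' := fun z c _ => by simp
      add_mem' := fun {u v} hu hv z c h => by
        have := dvd_add (hu z c h) (hv z c h)
        rw [← Finset.sum_add_distrib] at this
        simpa [add_mul] using this
      neg_mem' := fun {u} hu z c h => by
        have := (dvd_neg (α := ℤ)).2 (hu z c h)
        rw [← Finset.sum_neg_distrib] at this
        simpa [neg_mul] using this }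
  N := N

/-- The data of an abelian cover of `ℙⁿ` branched at most along hyperplanes in general position. -/
structure HypBase (K : Type) [Field K] [Algebra ℂ K] (n : ℕ) (E : Type) [Fintype E]
    (α : E → Fin (n + 1) → ℂ) (N : ℕ) (x : Fin n → K) (S : Set (K × (E → ℕ))) : Prop where
  N_pos : 0 < N
  n_pos : 0 < n
  gen_pos : ∀ s : Finset E, s.card ≤ n + 1 → LinearIndependent ℂ (fun e : s => α e)
  alg_indep : AlgebraicIndependent ℂ x
  rad : ∀ z c, (z, c) ∈ S → z ^ N = ∏ e, lin (α e) x ^ c e
  deg : ∀ z c, (z, c) ∈ S → N ∣ ∑ e, c e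
  gen : IntermediateField.adjoin ℂ (Set.range x ∪ {z | ∃ c, (z, c) ∈ S}) = ⊤

/-- The data of an abelian cover of `ℙⁿ` branched along hyperplanes in general position (all of
them are branch divisors). -/
structure HypData (K : Type) [Field K] [Algebra ℂ K] (n : ℕ) (E : Type) [Fintype E]
    (α : E → Fin (n + 1) → ℂ) (N : ℕ) (x : Fin n → K) (S : Set (K × (E → ℕ))) : Prop
    extends HypBase K n E α N x S where
  branch : ∀ e, ∃ z c, (z, c) ∈ S ∧ ¬ N ∣ c e

/-- base change of linear independence -/
theorem li_base {k : Type} [Field k] [Algebra ℂ k] {ι : Type*} [Fintype ι] {m : ℕ}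
    {v : ι → Fin m → ℂ} (hv : LinearIndependent ℂ v) :
    LinearIndependent k (fun i j => algebraMap ℂ k (v i j)) := by
  classical
  obtain ⟨g, hg⟩ := LinearMap.exists_leftInverse_of_injective (Fintype.linearCombination ℂ v)
    (LinearMap.ker_eq_bot.2 (linearIndependent_iff_injective_fintypeLinearCombination.1 hv))
  have h1 : ∀ i i', ∑ j, v i' j * g (Pi.single j 1) i = if i' = i then 1 else 0 := by
    intro i i'
    have h2 := congrFun (congrArg (fun f => f (Pi.single i' 1)) hg) i
    simp only [LinearMap.comp_apply, LinearMap.id_apply, Fintype.linearCombination_apply_single,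
      one_smul] at h2
    have h3 : v i' = ∑ j, v i' j • (Pi.single j (1 : ℂ) : Fin m → ℂ) := by
      ext j
      simp [Finset.sum_apply, Pi.single_apply]
    rw [h3, map_sum, Finset.sum_apply] at h2
    simp only [map_smul, Pi.smul_apply, smul_eq_mul] at h2
    rw [Pi.single_apply] at h2
    rw [h2]
    by_cases h : i' = i
    · subst h; simp
    · rw [if_neg h, if_neg (fun h' => h h'.symm)]
  rw [Fintype.linearIndependent_iff]
  intro a ha i
  have h2 := congrArg (fun w : Fin m → k => ∑ j, w j * algebraMap ℂ k (g (Pi.single j 1) i)) ha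
  simp only [Finset.sum_apply, Pi.smul_apply, smul_eq_mul, Pi.zero_apply, zero_mul,
    Finset.sum_const_zero, Finset.sum_mul] at h2
  rw [Finset.sum_comm] at h2
  have h3 : ∀ i', ∑ j, a i' * algebraMap ℂ k (v i' j) * algebraMap ℂ k (g (Pi.single j 1) i) =
      if i' = i then a i else 0 := by
    intro i'
    have h4 := congrArg (algebraMap ℂ k) (h1 i i')
    rw [map_sum] at h4
    simp only [map_mul] at h4
    simp only [mul_assoc, ← Finset.mul_sum]
    rw [h4]
    by_cases h : i' = i
    · subst h; simp
    · rw [if_neg h, if_neg h, map_zero, mul_zero]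
  rw [Finset.sum_congr rfl fun i' _ => h3 i', Finset.sum_ite_eq' Finset.univ i] at h2
  simpa using h2

/-- `n + 1` independent forms have no common zero -/
theorem eq_zero_of_li {k : Type} [Field k] [Algebra ℂ k] {ι : Type*} [Fintype ι] {m : ℕ}
    {v : ι → Fin m → ℂ} (hv : LinearIndependent ℂ v) (hc : Fintype.card ι = m) (P : Fin m → k)
    (hP : ∀ i, ∑ j, algebraMap ℂ k (v i j) * P j = 0) : P = 0 := by
  classical
  rcases Nat.eq_zero_or_pos m with h0 | hm
  · subst h0
    funext j
    exact j.elim0
  have : Nonempty ι := Fintype.card_pos_iff.1 (by omega)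
  let b := basisOfLinearIndependentOfCardEqFinrank hv (by rw [hc, Module.finrank_fin_fun])
  have hb : ∀ i, b i = v i := fun i =>
    congrFun (coe_basisOfLinearIndependentOfCardEqFinrank hv _) i
  funext j
  have h1 := b.sum_repr (Pi.single j 1)
  have h2 : ∀ j', ∑ i, b.repr (Pi.single j 1) i * v i j' = (Pi.single j (1 : ℂ) : Fin m → ℂ) j' := by
    intro j'
    conv_rhs => rw [← h1, Finset.sum_apply]
    simp only [hb, Pi.smul_apply, smul_eq_mul]
  have h3 : P j = ∑ j', algebraMap ℂ k ((Pi.single j (1 : ℂ) : Fin m → ℂ) j') * P j' := by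
    rw [Finset.sum_eq_single j]
    · simp
    · intro j' _ h
      rw [Pi.single_eq_of_ne h, map_zero, zero_mul]
    · intro h
      exact absurd (Finset.mem_univ j) h
  rw [h3]
  simp only [← h2, map_sum, map_mul, Finset.sum_mul]
  rw [Finset.sum_comm, Pi.zero_apply]
  refine Finset.sum_eq_zero fun i _ => ?_
  have h4 := hP i
  have h5 : ∀ j', algebraMap ℂ k (b.repr (Pi.single j 1) i) * algebraMap ℂ k (v i j') * P j' =
      algebraMap ℂ k (b.repr (Pi.single j 1) i) * (algebraMap ℂ k (v i j') * P j') :=
    fun j' => mul_assoc _ _ _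
  rw [Finset.sum_congr rfl fun j' _ => h5 j', ← Finset.mul_sum, h4, mul_zero]

section

variable {K : Type} {n : ℕ} {E : Type} [Fintype E] {α : E → Fin (n + 1) → ℂ} {N : ℕ}
  {S : Set (K × (E → ℕ))}

theorem hyp_aeval {R : Type*} [CommRing R] [Algebra ℂ R] (P : Fin (n + 1) → R) (e : E) :
    MvPolynomial.aeval P ((hypArr (K := K) α N S).F e) = ∑ j, algebraMap ℂ R (α e j) * P j := by
  simp [hypArr, map_sum]

theorem hyp_pderiv (e : E) (s : Fin (n + 1)) :
    MvPolynomial.pderiv s ((hypArr (K := K) α N S).F e) = MvPolynomial.C (α e s) := by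
  classical
  simp only [hypArr, map_sum, Derivation.leibniz, MvPolynomial.pderiv_C, MvPolynomial.pderiv_X,
    smul_eq_mul]
  rw [Finset.sum_eq_single s]
  · simp
  · intro j _ hj
    rw [Pi.single_eq_of_ne hj, mul_zero, mul_zero, add_zero]
  · intro h
    exact absurd (Finset.mem_univ s) h

end

variable {K : Type} [Field K] [Algebra ℂ K] {n : ℕ} {E : Type} [Fintype E] [DecidableEq E]
  {α : E → Fin (n + 1) → ℂ} {N : ℕ} {x : Fin n → K} {S : Set (K × (E → ℕ))}

theorem hyp_ok (D : HypBase K n E α N x S) : (hypArr (K := K) α N S).Ok where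
  hom e := by
    refine MvPolynomial.IsHomogeneous.sum _ _ _ fun j _ => ?_
    have := (MvPolynomial.isHomogeneous_C (Fin (n + 1)) (α e j)).mul
      (MvPolynomial.isHomogeneous_X ℂ j)
    rwa [zero_add] at this
  d_pos _ := Nat.one_pos
  N_pos := D.N_pos
  N_mem e := by
    intro z c hz
    rw [Finset.sum_eq_single e]
    · rw [Pi.single_eq_same]
      exact dvd_mul_right _ _
    · intro e' _ h
      rw [Pi.single_eq_of_ne h, zero_mul]
    · intro h
      exact absurd (Finset.mem_univ e) h
  d_mem := by
    intro z c hz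
    have h1 := D.deg z c hz
    have h2 : ∑ e, (((hypArr (K := K) α N S).d e : ℕ) : ℤ) * (c e : ℤ) = ((∑ e, c e : ℕ) : ℤ) := by
      push_cast
      exact Finset.sum_congr rfl fun e _ => by simp [hypArr]
    rw [h2]
    exact_mod_cast h1
  snc k _ _ P hP := by
    classical
    have hz : ∀ e, MvPolynomial.aeval P ((hypArr (K := K) α N S).F e) = 0 →
        ∑ j, algebraMap ℂ k (α e j) * P j = 0 := fun e he => by rw [← he, hyp_aeval]
    set T : Finset E := Finset.univ.filter
      fun e => MvPolynomial.aeval P ((hypArr (K := K) α N S).F e) = 0 with hT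
    have hcard : T.card ≤ n := by
      by_contra hcon
      push Not at hcon
      obtain ⟨s, hs, hsc⟩ := Finset.exists_subset_card_eq (n := n + 1) (s := T) hcon
      refine hP (eq_zero_of_li (D.gen_pos s hsc.le) (by rw [Fintype.card_coe, hsc]) P fun e => ?_)
      exact hz e (Finset.mem_filter.1 (hs e.2)).2
    have h1 := li_base (k := k) (D.gen_pos T (hcard.trans (Nat.le_succ n)))
    have h2 : Function.Injective (fun e : {e : E // MvPolynomial.aeval P
        ((hypArr (K := K) α N S).F e) = 0} => (⟨e.1, Finset.mem_filter.2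
          ⟨Finset.mem_univ _, e.2⟩⟩ : T)) := by
      intro e e' h
      exact Subtype.ext (congrArg (fun z : T => z.1) h)
    have h3 := h1.comp _ h2
    convert h3 using 1
    funext e s
    rw [hyp_pderiv, MvPolynomial.aeval_C]
    rfl

omit [DecidableEq E] in
theorem hyp_cover (D : HypBase K n E α N x S) : Cover (hypArr (K := K) α N S) K x S where
  alg_indep := D.alg_indep
  rad z c hz := by
    refine (D.rad z c hz).trans (Finset.prod_congr rfl fun e _ => ?_)
    rw [hyp_aeval]
    rfl
  deg z c hz := by
    have h1 := D.deg z c hz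
    simpa [hypArr] using h1
  blk z c hz b hb := hb z c hz
  gen := D.gen

end Pool.Agent.Work.RC
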