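import Mathlib
import Pool.Agent.Work.MP_4329d7_ag_uni.Main

/-!
`Star` from the absence of nonconstant curves, and the weights from `Star` (the proofs are those of
`star_of_not_uniruled` and `weights_of_not_uniruled`, with the hypothesis `¬ Uniruled K` replaced).
-/

namespace Pool.Agent.Work.Uni

open Polynomial Pool.Agent.Work.MP_4329d7_ag.FF

theorem star_of_const {K : Type} [Field K] [Algebra ℂ K]
    {I : Type} [Fintype I] [DecidableEq I]
    {n : I → ℕ} {E : I → Type} [∀ i, Fintype (E i)] [∀ i, DecidableEq (E i)]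
    {α : (i : I) → E i → Fin (n i + 1) → ℂ} {N : ℕ} {x : (i : I) → Fin (n i) → K}
    {S : Set (K × ((i : I) → E i → ℕ))} (D : CoverData K I n E α N x S)
    (hconst : ∀ (ι : Type) [Fintype ι] (β : ι → (Σ i, E i) → ℕ) (m : I → ℕ)
      (_ : ∀ i, (coverBlocks (n := n) N S).IsBlock (β i)) (_ : ∀ p, ∑ i, β i p = m p.1)
      (t : ι → AlgebraicClosure K)
      (Y : (i : I) → Fin (n i + 1) → (AlgebraicClosure K)[X])
      (_ : ∀ i j, (Y i j).eval 0 =
        (Fin.cons 1 (fun j => algebraMap K (AlgebraicClosure K) (x i j)) :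
          Fin (n i + 1) → AlgebraicClosure K) j)
      (_ : ∀ i e, ∑ j, C (algebraMap ℂ (AlgebraicClosure K) (α i e j)) * Y i j =
        C (algebraMap K (AlgebraicClosure K) (lin (α i e) (x i))) * revPoly β t ⟨i, e⟩),
      ∀ i j, Y i j = C ((Fin.cons 1 (fun j => algebraMap K (AlgebraicClosure K) (x i j)) :
        Fin (n i + 1) → AlgebraicClosure K) j) * Y i 0) :
    ∃ (Q : Type) (_ : Fintype Q) (g : Q → I) (a : Q → (Σ i, E i) → AlgebraicClosure K),
      Coef Sigma.fst g a ∧
      (∀ i, (Finset.univ.filter fun q => g q = i).card = Fintype.card (E i) - (n i + 1)) ∧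
      Star (coverBlocks (n := n) N S) Sigma.fst a := by
  classical
  set F := AlgebraicClosure K with hF
  let h : K →ₐ[ℂ] F := IsScalarTower.toAlgHom ℂ K F
  have hBex : ∀ i, ∃ B : Finset (E i), B.card = n i + 1 := by
    intro i
    obtain ⟨B, _, hB⟩ := Finset.exists_subset_card_eq (s := (Finset.univ : Finset (E i)))
      (n := n i + 1) (by rw [Finset.card_univ]; exact D.card i)
    exact ⟨B, hB⟩
  choose B hB using hBex
  have hne : ∀ i, Nonempty (B i) := by
    intro i
    rw [← Fintype.card_pos_iff, Fintype.card_coe, hB i]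
    exact Nat.succ_pos _
  let b : (i : I) → Module.Basis (B i) ℂ (Fin (n i + 1) → ℂ) := fun i =>
    haveI := hne i
    basisOfLinearIndependentOfCardEqFinrank (D.gen_pos i (B i) (hB i))
      (by rw [Fintype.card_coe, hB i, Module.finrank_fin_fun])
  have hb : ∀ i (e : B i), b i e = α i e := by
    intro i e
    have := hne i
    exact congrFun (coe_basisOfLinearIndependentOfCardEqFinrank (D.gen_pos i (B i) (hB i)) _) e
  let l : (Σ i, E i) → F := fun p => h (lin (α p.1 p.2) (x p.1))
  have hl : ∀ p, l p ≠ 0 := by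
    intro p h0
    exact D.lin_ne_zero p.1 p.2 (h.injective (by rw [map_zero]; exact h0))
  let Q : Type := Σ i, {e : E i // e ∉ B i}
  let ρ : (q : Q) → B q.1 → F := fun q e' =>
    algebraMap ℂ F ((b q.1).repr (α q.1 q.2.1) e')
  let a : Q → (Σ i, E i) → F := fun q p =>
    (if p = ⟨q.1, q.2.1⟩ then l p else 0) -
      ∑ e' : B q.1, if p = ⟨q.1, e'.1⟩ then ρ q e' * l p else 0
  have hasum : ∀ (M : Type) [AddCommGroup M] [Module F M] (q : Q) (R : (Σ i, E i) → M),
      ∑ p, a q p • R p = l ⟨q.1, q.2.1⟩ • R ⟨q.1, q.2.1⟩ -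
        ∑ e' : B q.1, (ρ q e' * l ⟨q.1, e'.1⟩) • R ⟨q.1, e'.1⟩ := by
    intro M _ _ q R
    simp only [a, sub_smul, Finset.sum_sub_distrib, Finset.sum_smul, ite_smul, zero_smul]
    rw [Finset.sum_comm]
    simp
  have hbα : ∀ q : Q, α q.1 q.2.1 =
      ∑ e' : B q.1, (b q.1).repr (α q.1 q.2.1) e' • α q.1 e'.1 := by
    intro q
    conv_lhs => rw [← (b q.1).sum_repr (α q.1 q.2.1)]
    exact Finset.sum_congr rfl fun e' _ => by rw [hb]
  have hlq : ∀ q : Q, l ⟨q.1, q.2.1⟩ = ∑ e' : B q.1, ρ q e' * l ⟨q.1, e'.1⟩ := by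
    intro q
    simp only [l, ρ, ← linL_apply]
    conv_lhs => rw [hbα q]
    rw [map_sum, map_sum]
    refine Finset.sum_congr rfl fun e' _ => ?_
    rw [map_smul, map_smul, Algebra.smul_def]
  refine ⟨Q, inferInstance, Sigma.fst, a, ⟨?_, ?_⟩, ?_, ?_⟩
  · -- only the factor of `q`
    intro q p hqp
    by_contra hne
    apply hqp
    have h1 : ∀ e : E q.1, p ≠ ⟨q.1, e⟩ := by
      rintro e rfl
      exact hne rfl
    simp only [a, h1, if_false, Finset.sum_const_zero, sub_zero]
  · intro q
    have h1 := hasum F q (fun _ => 1)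
    simp only [smul_eq_mul, mul_one] at h1
    rw [h1, hlq q, sub_self]
  · intro i
    have h1 : (Finset.univ.filter fun q : Q => q.1 = i) =
        (Finset.univ : Finset {e : E i // e ∉ B i}).map
          ⟨Sigma.mk (β := fun i => {e : E i // e ∉ B i}) i, sigma_mk_injective⟩ := by
      ext ⟨i', e⟩
      simp only [Finset.mem_filter, Finset.mem_univ, true_and, Finset.mem_map,
        Function.Embedding.coeFn_mk]
      constructor
      · rintro rfl
        exact ⟨e, rfl⟩
      · rintro ⟨e', h⟩
        exact (congrArg Sigma.fst h).symm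
    rw [h1, Finset.card_map, Finset.card_univ, Fintype.card_subtype_compl, Fintype.card_coe, hB i]
  · intro ι _ β m hβ hpack t hsol p p' hpp'
    have hβ' : ∀ k z c, (z, c) ∈ S → N ∣ ∑ p : Σ i, E i, β k p * c p.1 p.2 := by
      intro k z c hzc
      have h1 := (hβ k).2.1 z c hzc
      simp only [← Nat.cast_mul, ← Nat.cast_sum] at h1
      exact Int.natCast_dvd_natCast.1 h1
    -- the reversed relations
    have hrev : ∀ q : Q, l ⟨q.1, q.2.1⟩ • revPoly β t ⟨q.1, q.2.1⟩ =
        ∑ e' : B q.1, (ρ q e' * l ⟨q.1, e'.1⟩) • revPoly β t ⟨q.1, e'.1⟩ := by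
      intro q
      have h1 := hasum F[X] q (rootPoly β t)
      have h2 := hsol q
      simp only [← smul_eq_C_mul] at h2
      rw [h2] at h1
      have h3 := congrArg (reflect (m q.1)) (sub_eq_zero.1 h1.symm)
      rw [smul_eq_C_mul, reflect_C_mul, reflect_sum'] at h3
      have h4 : ∀ e : E q.1, reflect (m q.1) (rootPoly β t ⟨q.1, e⟩) = revPoly β t ⟨q.1, e⟩ := by
        intro e
        rw [← reflect_rootPoly, hpack]
      rw [h4] at h3
      rw [smul_eq_C_mul, h3]
      refine Finset.sum_congr rfl fun e' _ => ?_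
      rw [smul_eq_C_mul, reflect_C_mul, h4, smul_eq_C_mul]
    have hfc : ∀ i, ∃ Y : Fin (n i + 1) → F[X],
        (∀ j, (Y j).eval 0 = (Fin.cons 1 (fun j => h (x i j)) : Fin (n i + 1) → F) j) ∧
        ∀ e, ∑ j, C (algebraMap ℂ F (α i e j)) * Y j =
          C (h (lin (α i e) (x i))) * revPoly β t ⟨i, e⟩ := by
      intro i
      refine factor_curve (b i) (hb i) (fun j => h (x i j))
        (fun e => C (h (lin (α i e) (x i))) * revPoly β t ⟨i, e⟩) (fun e => ?_) (fun e he => ?_)
      · rw [eval_mul, eval_C, eval_revPoly, mul_one, lin_hom]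
      · have h1 := hrev ⟨i, ⟨e, he⟩⟩
        simp only [smul_eq_C_mul, C_mul] at h1
        refine h1.trans (Finset.sum_congr rfl fun e' _ => ?_)
        rw [mul_assoc]
    choose Y hY0 hY using hfc
    have hc : ∀ i j, Y i j = C ((Fin.cons 1 (fun j => h (x i j)) : Fin (n i + 1) → F) j) * Y i 0 :=
      hconst ι β m hβ hpack t Y hY0 hY
    -- the forms on the curve are constant multiples of `Y i 0`
    have hV : ∀ i (e : E i), revPoly β t ⟨i, e⟩ = Y i 0 := by
      intro i e
      have h1 := hY i e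
      have h2 : ∑ j, C (algebraMap ℂ F (α i e j)) * Y i j =
          C (h (lin (α i e) (x i))) * Y i 0 := by
        rw [← lin_hom, lin, map_sum, Finset.sum_mul]
        refine Finset.sum_congr rfl fun j _ => ?_
        rw [hc i j, C_mul, mul_assoc]
      rw [h2] at h1
      exact (mul_left_cancel₀ (C_ne_zero.2 (hl ⟨i, e⟩)) h1).symm
    obtain ⟨i, e⟩ := p
    obtain ⟨i', e'⟩ := p'
    simp only at hpp'
    subst hpp'
    rw [← reflect_revPoly, ← reflect_revPoly, hpack, hpack, hV, hV]


/-- If `Star` holds then there are weights `A` (with denominator `M`) with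
`∑ e, A e ≤ κ M` on every factor and `A · b ≥ M` for all blocks `b`. -/
theorem weights_of_star {K : Type} [Field K] [Algebra ℂ K]
    {I : Type} [Fintype I] [DecidableEq I]
    {n : I → ℕ} {E : I → Type} [∀ i, Fintype (E i)] [∀ i, DecidableEq (E i)]
    {α : (i : I) → E i → Fin (n i + 1) → ℂ} {N : ℕ} {x : (i : I) → Fin (n i) → K}
    {S : Set (K × ((i : I) → E i → ℕ))} (D : CoverData K I n E α N x S)
    (hK : ∃ (Q : Type) (_ : Fintype Q) (g : Q → I) (a : Q → (Σ i, E i) → AlgebraicClosure K),
      Coef Sigma.fst g a ∧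
      (∀ i, (Finset.univ.filter fun q => g q = i).card = Fintype.card (E i) - (n i + 1)) ∧
      Star (coverBlocks (n := n) N S) Sigma.fst a) :
    ∃ (M : ℕ) (A : (Σ i, E i) → ℕ), 0 < M ∧
      (∀ i, ∑ e, A ⟨i, e⟩ ≤ (Fintype.card (E i) - (n i + 1)) * M) ∧
      ∀ b : (Σ i, E i) → ℕ, (coverBlocks (n := n) N S).IsBlock b → M ≤ ∑ p, A p * b p := by
  classical
  obtain ⟨Q, _, g, a, ha, hcardQ, hstar⟩ := hK
  have : CharZero K := charZero_of_injective_algebraMap (algebraMap ℂ K).injective
  have hcrit := crit_of_star (coverBlocks (n := n) N S) Sigma.fst g a ha hstar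
  have hfin := eq_case (coverBlocks (n := n) N S) Sigma.fst g a ha hstar hcrit
    (one_mem_L D) N D.N_pos single_mem_L_N (small_single D) (single_one_notMem_L D)
  set Bs : Finset ((Σ i, E i) → ℕ) :=
    (Fintype.piFinset fun _ => Finset.range (N + 1)).filter
      fun b => (coverBlocks (n := n) N S).IsBlock b with hBs
  have hmem : ∀ b, b ∈ Bs ↔ (∀ p, b p ≤ N) ∧ (coverBlocks (n := n) N S).IsBlock b := by
    intro b
    rw [hBs, Finset.mem_filter, Fintype.mem_piFinset]
    simp only [Finset.mem_range, Nat.lt_succ_iff]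
  have hsing : ∀ p, (Pi.single p N : (Σ i, E i) → ℕ) ∈ Bs := by
    intro p
    rw [hmem]
    refine ⟨fun p' => ?_, single_isBlock D p⟩
    by_cases hp : p' = p
    · subst hp
      rw [Pi.single_eq_same]
    · rw [Pi.single_eq_of_ne hp]
      exact Nat.zero_le _
  rcases weights_or_packing (Sigma.fst : (Σ i, E i) → I)
    (fun i => Fintype.card (E i) - (n i + 1)) Bs N D.N_pos hsing with
    ⟨M, A, hM, hA, hAb⟩ | ⟨lam, m, hpack, hdelta⟩
  · refine ⟨M, A, hM, fun i => ?_, fun b hb => ?_⟩
    · refine le_trans (le_of_eq ?_) (hA i)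
      rw [Finset.sum_filter, Fintype.sum_sigma, Finset.sum_eq_single i]
      · simp
      · intro i' _ hi
        refine Finset.sum_eq_zero fun e _ => ?_
        rw [if_neg hi]
      · intro h
        exact absurd (Finset.mem_univ i) h
    · by_cases hle : ∀ p, b p ≤ N
      · exact hAb b ((hmem b).2 ⟨hle, hb⟩)
      · push Not at hle
        obtain ⟨p, hp⟩ := hle
        have h1 := hAb _ (hsing p)
        rw [Finset.sum_eq_single p] at h1
        · rw [Pi.single_eq_same] at h1
          calc M ≤ A p * N := h1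
            _ ≤ A p * b p := Nat.mul_le_mul_left _ hp.le
            _ ≤ ∑ p, A p * b p :=
              Finset.single_le_sum (f := fun p => A p * b p) (fun _ _ => Nat.zero_le _)
                (Finset.mem_univ p)
        · intro p' _ hp'
          rw [Pi.single_eq_of_ne hp', mul_zero]
        · intro hp
          exact absurd (Finset.mem_univ p) hp
  · have hf : Function.Surjective (Sigma.fst : (Σ i, E i) → I) := by
      intro i
      have h1 := D.card i
      have : Nonempty (E i) := Fintype.card_pos_iff.1 (by omega)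
      exact ⟨⟨i, Classical.arbitrary _⟩, rfl⟩
    obtain ⟨Ty, _, b, lam', m', hb, hext, hlt⟩ := exists_ext
      (Sigma.fst : (Σ i, E i) → I) hf (fun i => Fintype.card (E i) - (n i + 1)) Bs
      (fun b hb => ((hmem b).1 hb).2.1) lam m hpack hdelta
    have h1 := hfin Ty b lam' m' (fun t => ((hmem _).1 (hb t)).2) hext
    have h2 : ∑ q, m' (g q) = ∑ i, (Fintype.card (E i) - (n i + 1)) * m' i := by
      rw [← Finset.sum_fiberwise (s := Finset.univ) (g := g) (f := fun q => m' (g q))]
      refine Finset.sum_congr rfl fun i _ => ?_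
      rw [← hcardQ i, Finset.sum_congr rfl (g := fun _ => m' i), Finset.sum_const, smul_eq_mul]
      intro q hq
      rw [(Finset.mem_filter.1 hq).2]
    rw [h2] at h1
    exact absurd hlt (not_lt.2 h1)


end Pool.Agent.Work.Uni
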