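import Mathlib
import Pool.Agent.Work.MP_4329d7_ag_rc.HypDefs
import Pool.Agent.Work.MP_4329d7_ag_rc.HypStar
import Pool.Agent.Work.MP_4329d7_ag_rc.Cone
import Pool.Agent.Work.MP_4329d7_ag_rc.Red

/-!
Hyperplanes in general position: if there is no curve at all then there are weights.
-/

namespace Pool.Agent.Work.RC

open Polynomial
open Pool.Agent.Work.Uni
open Pool.Agent.Work.MP_4329d7_ag.FF

/-- the radicals as data over `I = Unit` -/
def covS {K E : Type} (S : Set (K × (E → ℕ))) : Set (K × (Unit → E → ℕ)) :=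
  {p | (p.1, p.2 ()) ∈ S}

variable {K : Type} [Field K] [Algebra ℂ K] {n : ℕ} {E : Type} [Fintype E] [DecidableEq E]
  {α : E → Fin (n + 1) → ℂ} {N : ℕ} {x : Fin n → K} {S : Set (K × (E → ℕ))}

omit [DecidableEq E] in
theorem hyp_coverData (D : HypData K n E α N x S) (hc : n + 1 ≤ Fintype.card E) :
    CoverData K Unit (fun _ => n) (fun _ => E) (fun _ => α) N (fun _ => x) (covS S) where
  N_pos := D.N_pos
  n_pos _ := D.n_pos
  card _ := hc
  gen_pos _ s hs := D.gen_pos s hs.le
  alg_indep := by
    refine D.alg_indep.comp (fun p : Σ _ : Unit, Fin n => p.2) ?_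
    rintro ⟨_, j⟩ ⟨_, j'⟩ h
    simp only at h
    subst h
    rfl
  rad z c hz := by
    rw [D.rad z (c ()) hz]
    simp
  deg z c hz _ := D.deg z (c ()) hz
  gen := by
    have h1 : Set.range (fun p : Σ _ : Unit, Fin n => x p.2) = Set.range x := by
      ext y
      constructor
      · rintro ⟨p, rfl⟩
        exact ⟨p.2, rfl⟩
      · rintro ⟨j, rfl⟩
        exact ⟨⟨(), j⟩, rfl⟩
    have h2 : {z | ∃ c, (z, c) ∈ covS S} = {z | ∃ c, (z, c) ∈ S} := by
      ext z
      constructor
      · rintro ⟨c, hc⟩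
        exact ⟨c (), hc⟩
      · rintro ⟨c, hc⟩
        exact ⟨fun _ => c, hc⟩
    rw [h1, h2]
    exact D.gen
  branch _ e := by
    obtain ⟨z, c, hz, hN⟩ := D.branch e
    exact ⟨z, fun _ => c, hz, hN⟩

omit [Field K] [Algebra ℂ K] in
/-- a block of the cover is in the lattice -/
theorem mem_L_of_isBlock {b : (Σ _ : Unit, E) → ℕ}
    (hb : (coverBlocks (n := fun _ : Unit => n) N (covS S)).IsBlock b) :
    (fun e => (b ⟨(), e⟩ : ℤ)) ∈ (hypArr (K := K) (n := n) α N S).L := by
  classical
  intro z c hz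
  have h1 := hb.2.1 z (fun _ => c) hz
  rw [Fintype.sum_sigma] at h1
  simpa using h1

theorem reflect_natDegree_le {F : Type} [Field F] (m : ℕ) (p : F[X]) (hp : p.natDegree ≤ m) :
    (reflect m p).natDegree ≤ m := by
  rw [natDegree_le_iff_coeff_eq_zero]
  intro i hi
  rw [coeff_reflect, revAt_eq_self_of_lt hi]
  exact coeff_eq_zero_of_natDegree_lt (by omega)

/-- If there is no curve then all curves given by roots are constant. -/
theorem hyp_const (D : HypData K n E α N x S) (hc : n + 1 ≤ Fintype.card E)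
    (hno : ∀ (k : Type) [Field k] [Algebra ℂ k] (x' : Fin (n + 1) → k),
      AlgebraicIndependent ℂ x' → IsEmpty (Cv (hypArr (K := K) α N S) k x'))
    {F : Type} [Field F] [Algebra ℂ F] [Algebra K F] [IsScalarTower ℂ K F]
    (ι : Type) [Fintype ι] (β : ι → (Σ _ : Unit, E) → ℕ) (m : Unit → ℕ)
    (hβ : ∀ i, (coverBlocks (n := fun _ : Unit => n) N (covS S)).IsBlock (β i))
    (hm : ∀ p, ∑ i, β i p = m p.1) (t : ι → F) (Y : Unit → Fin (n + 1) → F[X])
    (hY0 : ∀ i j, (Y i j).eval 0 =
      (Fin.cons 1 (fun j => algebraMap K F (x j)) : Fin (n + 1) → F) j)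
    (hY : ∀ i e, ∑ j, C (algebraMap ℂ F (α e j)) * Y i j =
      C (algebraMap K F (lin (α e) x)) * revPoly β t ⟨i, e⟩) (i : Unit)
    (j : Fin (n + 1)) :
    Y i j = C ((Fin.cons 1 (fun j => algebraMap K F (x j)) : Fin (n + 1) → F) j) * Y i 0 := by
  classical
  by_contra hne
  set A := hypArr (K := K) (n := n) α N S with hA
  have hok : A.Ok := hyp_ok D.toHypBase
  have hE : Nonempty E := Fintype.card_pos_iff.1 (by omega)
  obtain ⟨M, hM⟩ : ∃ M, M = m () := ⟨_, rfl⟩
  set xh : Fin (n + 1) → F := Fin.cons 1 (fun j => algebraMap K F (x j)) with hxh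
  have hi : i = () := rfl
  subst hi
  -- the degree of `revPoly`
  have hrev : ∀ e : E, (revPoly β t (⟨(), e⟩ : Σ _ : Unit, E)).natDegree ≤ M := by
    intro e
    rw [hM, ← hm ⟨(), e⟩, ← reflect_rootPoly]
    refine reflect_natDegree_le _ _ ?_
    rw [rootPoly]
    refine (natDegree_prod_le _ _).trans (Finset.sum_le_sum fun i _ => ?_)
    exact natDegree_pow_le.trans (by rw [natDegree_X_sub_C, mul_one])
  -- the coordinates have degree at most `M`
  have hdeg : ∀ j, (Y () j).natDegree ≤ M := by
    intro j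
    obtain ⟨s, _, hs⟩ := Finset.exists_subset_card_eq (s := (Finset.univ : Finset E)) (n := n + 1)
      (by rw [Finset.card_univ]; exact hc)
    have hne' : Nonempty s := by
      rw [← Fintype.card_pos_iff, Fintype.card_coe, hs]
      exact Nat.succ_pos _
    let b := basisOfLinearIndependentOfCardEqFinrank (D.gen_pos s hs.le)
      (by rw [Fintype.card_coe, hs, Module.finrank_fin_fun])
    have hb : ∀ e : s, b e = α e := fun e =>
      congrFun (coe_basisOfLinearIndependentOfCardEqFinrank (D.gen_pos s hs.le) _) e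
    have h1 := b.sum_repr (Pi.single j 1)
    have h2 : ∀ j', ∑ e, b.repr (Pi.single j 1) e * α e j' =
        (Pi.single j (1 : ℂ) : Fin (n + 1) → ℂ) j' := by
      intro j'
      conv_rhs => rw [← h1, Finset.sum_apply]
      simp only [hb, Pi.smul_apply, smul_eq_mul]
    have h3 : Y () j = ∑ e : s, C (algebraMap ℂ F (b.repr (Pi.single j 1) e)) *
        ∑ j', C (algebraMap ℂ F (α e j')) * Y () j' := by
      have h4 : Y () j = ∑ j', C (algebraMap ℂ F ((Pi.single j (1 : ℂ) : Fin (n + 1) → ℂ) j')) *
          Y () j' := by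
        rw [Finset.sum_eq_single j]
        · simp
        · intro j' _ h
          rw [Pi.single_eq_of_ne h, map_zero, C_0, zero_mul]
        · intro h
          exact absurd (Finset.mem_univ j) h
      rw [h4]
      simp only [← h2, map_sum, map_mul, Finset.sum_mul, Finset.mul_sum]
      rw [Finset.sum_comm]
      exact Finset.sum_congr rfl fun e _ => Finset.sum_congr rfl fun j' _ => by ring
    rw [h3]
    refine natDegree_sum_le_of_forall_le _ _ fun e _ => ?_
    refine (natDegree_C_mul_le _ _).trans ?_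
    rw [hY]
    exact (natDegree_C_mul_le _ _).trans (hrev e)
  -- the reversed curve over `RatFunc F`
  let x' : Fin (n + 1) → RatFunc F := fun s => RatFunc.X * RatFunc.C (xh s)
  have hx' : AlgebraicIndependent ℂ x' := by
    have h1 : AlgebraicIndependent ℂ (fun j => algebraMap K F (x j)) :=
      D.alg_indep.map' (f := IsScalarTower.toAlgHom ℂ K F) (algebraMap K F).injective
    exact ai_cone h1
  let Y' : Fin (n + 1) → (RatFunc F)[X] := fun s =>
    C RatFunc.X * (reflect M (Y () s)).map (RatFunc.C : F →+* RatFunc F)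
  have hlead : ∀ s, (Y' s).coeff M = x' s := by
    intro s
    simp only [Y', x']
    rw [coeff_C_mul, coeff_map, coeff_reflect, revAt_le le_rfl, Nat.sub_self,
      coeff_zero_eq_eval_zero, hY0]
  have hYdeg : ∀ s, (Y' s).natDegree ≤ M := fun s =>
    (natDegree_C_mul_le _ _).trans (natDegree_map_le.trans (reflect_natDegree_le _ _ (hdeg s)))
  let β' : ι → E → ℕ := fun i e => β i ⟨(), e⟩
  let t' : ι → RatFunc F := fun i => RatFunc.C (t i)
  have hcA : ∀ c : ℂ, algebraMap ℂ (RatFunc F) c = RatFunc.C (algebraMap ℂ F c) :=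
    fun c => MP_4329d7_ag_sq.algebraMap_ratFunc c
  have heqn : ∀ e, MvPolynomial.aeval Y' (A.F e) =
      C (MvPolynomial.aeval x' (A.F e)) * rootPoly β' t' e := by
    intro e
    rw [hA, hyp_aeval, hyp_aeval]
    have h1 : ∑ j, algebraMap ℂ (RatFunc F)[X] (α e j) * Y' j =
        C RatFunc.X * (reflect M (∑ j, C (algebraMap ℂ F (α e j)) * Y () j)).map
          (RatFunc.C : F →+* RatFunc F) := by
      rw [reflect_sum', Polynomial.map_sum, Finset.mul_sum]
      refine Finset.sum_congr rfl fun j _ => ?_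
      rw [reflect_C_mul, Polynomial.map_mul, map_C, Polynomial.algebraMap_apply, hcA]
      simp only [Y']
      ring
    have h2 : reflect M (∑ j, C (algebraMap ℂ F (α e j)) * Y () j) =
        C (algebraMap K F (lin (α e) x)) * rootPoly β t ⟨(), e⟩ := by
      rw [hY, reflect_C_mul, hM, ← hm ⟨(), e⟩, reflect_revPoly]
    have h3 : ∑ j, algebraMap ℂ (RatFunc F) (α e j) * x' j =
        RatFunc.X * RatFunc.C (algebraMap K F (lin (α e) x)) := by
      have h4 : algebraMap K F (lin (α e) x) = ∑ j, algebraMap ℂ F (α e j) * xh j := by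
        rw [lin, map_sum]
        refine Finset.sum_congr rfl fun j _ => ?_
        rw [map_mul, ← IsScalarTower.algebraMap_apply]
        congr 1
        refine Fin.cases ?_ (fun j => ?_) j
        · simp [hxh]
        · simp [hxh]
      rw [h4, map_sum, Finset.mul_sum]
      refine Finset.sum_congr rfl fun j _ => ?_
      rw [hcA, map_mul]
      simp only [x']
      ring
    rw [h1, h2, h3, Polynomial.map_mul, map_C, C_mul, ← mul_assoc]
    congr 1
    rw [rootPoly, rootPoly, Polynomial.map_prod]
    refine Finset.prod_congr rfl fun i _ => ?_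
    rw [Polynomial.map_pow, Polynomial.map_sub, map_X, map_C]
  have hX : (RatFunc.X : RatFunc F) ≠ 0 := RatFunc.X_ne_zero
  obtain ⟨c, -, -, -⟩ := red hok hx' M ι β' t' Y'
    (fun i => mem_L_of_isBlock (hβ i)) hYdeg hlead heqn ⟨0, j, by
      intro h
      apply hne
      simp only [x', Y'] at h
      rw [C_mul, C_mul] at h
      have h1 : (C (RatFunc.X : RatFunc F) : (RatFunc F)[X]) ≠ 0 := C_ne_zero.2 hX
      have h2 : (reflect M (Y () j)).map (RatFunc.C : F →+* RatFunc F) =
          (C (xh j) * reflect M (Y () 0)).map (RatFunc.C : F →+* RatFunc F) := by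
        have h3 : xh 0 = 1 := by simp [hxh]
        rw [h3, map_one, C_1] at h
        refine mul_left_cancel₀ (mul_ne_zero h1 h1) ?_
        rw [Polynomial.map_mul, map_C]
        linear_combination h
      have h4 := Polynomial.map_injective _ (RatFunc.C : F →+* RatFunc F).injective h2
      have h5 := congrArg (reflect M) h4
      rw [reflect_C_mul, reflect_reflect, reflect_reflect] at h5
      exact h5⟩
  exact (hno (RatFunc F) x' hx').false c

/-- If there is no curve at all then there are weights. -/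
theorem hyp_weights (D : HypData K n E α N x S) (hc : n + 1 ≤ Fintype.card E)
    (hno : ∀ (k : Type) [Field k] [Algebra ℂ k] (x' : Fin (n + 1) → k),
      AlgebraicIndependent ℂ x' → IsEmpty (Cv (hypArr (K := K) α N S) k x')) :
    ∃ (M : ℕ) (A : (Σ _ : Unit, E) → ℕ), 0 < M ∧
      (∀ i : Unit, ∑ e, A ⟨i, e⟩ ≤ (Fintype.card E - (n + 1)) * M) ∧
      ∀ b : (Σ _ : Unit, E) → ℕ, (coverBlocks (n := fun _ : Unit => n) N (covS S)).IsBlock b →
        M ≤ ∑ p, A p * b p :=
  weights_of_star (hyp_coverData D hc) (star_of_const (hyp_coverData D hc)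
    (fun ι _ β m h1 h2 t Y h3 h4 i j => hyp_const D hc hno ι β m h1 h2 t Y h3 h4 i j))

end Pool.Agent.Work.RC
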