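import Mathlib
import Pool.Agent.Work.MP_4329d7_ag_rc.HypDefs

/-!
At most `n + 1` hyperplanes in general position: an explicit curve.
-/

namespace Pool.Agent.Work.RC

open Polynomial
open Pool.Agent.Work.Uni

variable {K : Type} [Field K] [Algebra ℂ K] {n : ℕ} {E : Type} [Fintype E] [DecidableEq E]
  {α : E → Fin (n + 1) → ℂ} {N : ℕ} {x : Fin n → K} {S : Set (K × (E → ℕ))}

theorem linear_ne_zero {k : Type} [Field k] [Algebra ℂ k] {x' : Fin (n + 1) → k}
    (hx' : AlgebraicIndependent ℂ x') (v : Fin (n + 1) → ℂ) (hv : v ≠ 0) :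
    ∑ j, algebraMap ℂ k (v j) * x' j ≠ 0 := by
  classical
  intro h0
  let P : MvPolynomial (Fin (n + 1)) ℂ := ∑ j, MvPolynomial.C (v j) * MvPolynomial.X j
  have h1 : MvPolynomial.aeval x' P = 0 := by
    rw [← h0]
    simp [P, map_sum]
  have h2 : P = 0 := (algebraicIndependent_iff.1 hx') P h1
  apply hv
  funext j
  have h3 := congrArg (MvPolynomial.eval (Pi.single j (1 : ℂ))) h2
  simp only [P, map_sum, map_mul, MvPolynomial.eval_C, MvPolynomial.eval_X, map_zero] at h3
  rw [Finset.sum_eq_single j] at h3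
  · simpa using h3
  · intro j' _ hj
    rw [Pi.single_eq_of_ne hj, mul_zero]
  · intro h
    exact absurd (Finset.mem_univ j) h

/-- the curve `α_e(Y) = α_e(x) (X - t_e) ^ N` -/
theorem few_curve (D : HypBase K n E α N x S) (hc : Fintype.card E ≤ n + 1) {k : Type} [Field k]
    [Algebra ℂ k] {x' : Fin (n + 1) → k} (hx' : AlgebraicIndependent ℂ x') :
    Nonempty (Cv (hypArr (K := K) α N S) k x') := by
  classical
  have : CharZero k := charZero_of_injective_algebraMap (algebraMap ℂ k).injective
  have hok : (hypArr (K := K) α N S).Ok := hyp_ok D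
  -- a basis containing the forms
  have hli : LinearIndependent ℂ α := by
    have h1 := D.gen_pos Finset.univ (by rw [Finset.card_univ]; exact hc)
    have h2 : Function.Injective
        (fun e : E => (⟨e, Finset.mem_univ e⟩ : (Finset.univ : Finset E))) := by
      intro e e' h
      exact congrArg (fun z : (Finset.univ : Finset E) => z.1) h
    exact h1.comp _ h2
  let b := Module.Basis.sumExtend hli
  have hb : ∀ e, b (Sum.inl e) = α e := by
    intro e
    simp only [b, Module.Basis.sumExtend, Module.Basis.coe_reindex, Function.comp_apply,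
      Module.Basis.extend_apply_self]
    rfl
  have hfin : Finite (E ⊕ Module.Basis.sumExtendIndex hli) := Module.Finite.finite_basis b
  let _ : Fintype (E ⊕ Module.Basis.sumExtendIndex hli) := Fintype.ofFinite _
  have hcard : Fintype.card (E ⊕ Module.Basis.sumExtendIndex hli) = n + 1 := by
    rw [← Module.finrank_eq_card_basis b, Module.finrank_fin_fun]
  let t : E ⊕ Module.Basis.sumExtendIndex hli → k := fun i => ((Fintype.equivFin _ i : ℕ) : k)
  have ht : Function.Injective t := by
    intro i i' h
    have h1 : ((Fintype.equivFin _ i : ℕ) : k) = ((Fintype.equivFin _ i' : ℕ) : k) := h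
    exact (Fintype.equivFin _).injective (Fin.ext (Nat.cast_injective h1))
  let bx : E ⊕ Module.Basis.sumExtendIndex hli → k := fun i =>
    ∑ j, algebraMap ℂ k (b i j) * x' j
  have hbx : ∀ i, bx i ≠ 0 := fun i => linear_ne_zero hx' _ (b.ne_zero i)
  let r : Fin (n + 1) → (E ⊕ Module.Basis.sumExtendIndex hli) → ℂ := fun j i =>
    b.repr (Pi.single j 1) i
  have hr1 : ∀ j j', ∑ i, r j i * b i j' = (Pi.single j (1 : ℂ) : Fin (n + 1) → ℂ) j' := by
    intro j j'
    have h1 := b.sum_repr (Pi.single j 1)
    conv_rhs => rw [← h1, Finset.sum_apply]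
    simp only [r, Pi.smul_apply, smul_eq_mul]
  have hr2 : ∀ i i', ∑ j, b i j * r j i' = if i = i' then 1 else 0 := by
    intro i i'
    have h1 : b i = ∑ j, b i j • (Pi.single j (1 : ℂ) : Fin (n + 1) → ℂ) := by
      ext j
      simp [Finset.sum_apply, Pi.single_apply]
    have h2 := congrArg (fun v => b.repr v i') h1
    simp only [map_sum, map_smul, Finsupp.coe_finsetSum, Finset.sum_apply, Finsupp.smul_apply,
      smul_eq_mul, Module.Basis.repr_self] at h2
    rw [Finsupp.single_apply] at h2
    exact h2.symm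
  let Y : Fin (n + 1) → k[X] := fun j =>
    ∑ i, C (algebraMap ℂ k (r j i)) * (C (bx i) * (X - C (t i)) ^ N)
  have hY : ∀ i, ∑ j, C (algebraMap ℂ k (b i j)) * Y j = C (bx i) * (X - C (t i)) ^ N := by
    intro i
    simp only [Y, Finset.mul_sum]
    rw [Finset.sum_comm]
    have h1 : ∀ i', ∑ j, C (algebraMap ℂ k (b i j)) *
        (C (algebraMap ℂ k (r j i')) * (C (bx i') * (X - C (t i')) ^ N)) =
        if i = i' then C (bx i) * (X - C (t i)) ^ N else 0 := by
      intro i'
      have h2 : ∀ j, C (algebraMap ℂ k (b i j)) *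
        (C (algebraMap ℂ k (r j i')) * (C (bx i') * (X - C (t i')) ^ N)) =
          C (algebraMap ℂ k (b i j * r j i')) * (C (bx i') * (X - C (t i')) ^ N) := by
        intro j
        rw [map_mul, C_mul]
        ring
      rw [Finset.sum_congr rfl fun j _ => h2 j, ← Finset.sum_mul, ← map_sum, ← map_sum, hr2]
      by_cases h : i = i'
      · subst h; simp
      · rw [if_neg h, if_neg h, map_zero, C_0, zero_mul]
    rw [Finset.sum_congr rfl fun i' _ => h1 i', Finset.sum_ite_eq]
    simp
  refine ⟨{
    m := N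
    ι := E
    fin := inferInstance
    β := fun e e' => if e = e' then N else 0
    t := fun e => t (Sum.inl e)
    Y := Y
    m_pos := D.N_pos
    mem := ?_
    inj := fun e e' h => Sum.inl_injective (ht h)
    deg := ?_
    lead := ?_
    cop := ?_
    eqn := ?_ }⟩
  · intro e
    have h1 := hok.N_mem e
    have h2 : (Pi.single e ((hypArr (K := K) α N S).N : ℤ) : E → ℤ) =
        fun e' => (((if e = e' then N else 0 : ℕ)) : ℤ) := by
      funext e'
      by_cases h : e = e'
      · subst h; simp [hypArr]
      · rw [Pi.single_eq_of_ne (fun h' => h h'.symm), if_neg h]; rfl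
    rwa [h2] at h1
  · intro j
    refine natDegree_sum_le_of_forall_le _ _ fun i _ => ?_
    refine (natDegree_C_mul_le _ _).trans ((natDegree_C_mul_le _ _).trans ?_)
    exact natDegree_pow_le.trans (by rw [natDegree_X_sub_C, mul_one])
  · intro j
    simp only [Y, finsetSum_coeff, coeff_C_mul]
    have h1 : ∀ i, ((X - C (t i)) ^ N : k[X]).coeff N = 1 := by
      intro i
      have h2 := (monic_X_sub_C (t i)).pow N
      have h3 : ((X - C (t i)) ^ N : k[X]).natDegree = N := by
        rw [natDegree_pow, natDegree_X_sub_C, mul_one]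
      have h4 := h2.coeff_natDegree
      rwa [h3] at h4
    simp only [h1, mul_one, bx, Finset.mul_sum]
    rw [Finset.sum_comm]
    have h5 : ∀ j', ∑ i, algebraMap ℂ k (r j i) * (algebraMap ℂ k (b i j') * x' j') =
        algebraMap ℂ k ((Pi.single j (1 : ℂ) : Fin (n + 1) → ℂ) j') * x' j' := by
      intro j'
      rw [← hr1, map_sum, Finset.sum_mul]
      exact Finset.sum_congr rfl fun i _ => by rw [map_mul]; ring
    rw [Finset.sum_congr rfl fun j' _ => h5 j', Finset.sum_eq_single j]
    · simp
    · intro j' _ h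
      rw [Pi.single_eq_of_ne h, map_zero, zero_mul]
    · intro h
      exact absurd (Finset.mem_univ j) h
  · have h1 : 1 < Fintype.card (E ⊕ Module.Basis.sumExtendIndex hli) := by
      rw [hcard]
      have := D.n_pos
      omega
    obtain ⟨i, i', hii⟩ := Fintype.one_lt_card_iff.1 h1
    have h2 : IsCoprime ((X - C (t i)) ^ N : k[X]) ((X - C (t i')) ^ N) := by
      refine IsCoprime.pow (isCoprime_X_sub_C_of_isUnit_sub ?_)
      exact (sub_ne_zero.2 fun h => hii (ht h)).isUnit
    obtain ⟨u, v, huv⟩ := h2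
    refine ⟨fun j => u * C (bx i)⁻¹ * C (algebraMap ℂ k (b i j)) +
      v * C (bx i')⁻¹ * C (algebraMap ℂ k (b i' j)), ?_⟩
    have h3 : ∀ i, C (bx i)⁻¹ * (C (bx i) * (X - C (t i)) ^ N) = (X - C (t i)) ^ N := by
      intro i
      rw [← mul_assoc, ← C_mul, inv_mul_cancel₀ (hbx i), C_1, one_mul]
    simp only [add_mul, Finset.sum_add_distrib, mul_assoc, ← Finset.mul_sum]
    rw [hY, hY, h3, h3, huv]
  · intro e
    rw [hyp_aeval, hyp_aeval]
    have h1 := hY (Sum.inl e)
    rw [hb] at h1
    have h2 : ∑ j, algebraMap ℂ k[X] (α e j) * Y j = ∑ j, C (algebraMap ℂ k (α e j)) * Y j :=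
      Finset.sum_congr rfl fun j _ => by rw [Polynomial.algebraMap_apply]
    rw [h2, h1]
    simp only [bx, hb]
    congr 1
    rw [rootPoly, Finset.prod_eq_single e]
    · rw [if_pos rfl]
    · intro e' _ h
      rw [if_neg h, pow_zero]
    · intro h
      exact absurd (Finset.mem_univ e) h

end Pool.Agent.Work.RC
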