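import Mathlib
import Pool.Agent.Work.MP_4329d7_ag_rc.RankK
import Pool.Agent.Work.MP_4329d7_ag_rc.RankA

/-!
The rank argument: on a curve with free parameters `S` (`Rig`), `n` of the `n + 1` coordinates of
the point `Y(s)` are algebraically independent over `ℂ`, if `s` is not a root or a free root whose
block has only one divisor, and `s` is not one of the constants `a j`.

Proof.  For `z ∈ k^(n+1)` let `D_z` be a derivation with `D_z x = z`, `D_z = 0` on the free parameters
(`exists_der_of_algInd`), linear in `z` (`D_z = ∑ z_j D_(e_j)`).  `Z_z = coeffD D_z Y`,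
`δ_z = D_z t`: `c.Jac Z_z δ_z e = g_e u_e` with `g_e = ∇F_e(x)·z`, `deg Z_z ≤ m` with top coefficient
`z`; `Z_z(a_j) = 0` for the free parameters and `δ_z i = 0` for the free roots.
(1) `s` not a root.  If `Z_z(s) = 0` then `Z' = Z_z / (X - s)`, `δ'_i = δ_i / (t_i - s)` satisfy
`c.Jac Z' δ' = 0` and vanish on `S`, so `Z' = 0`, `z = 0`.  Hence `{z | D_z (Y(s)) = 0}`, which is
contained in `{z | Z_z(s) ∈ k Y'(s)}`, has dimension at most one.
(2) `s = t_i`, `i ∈ S`, only `e₁` in the block of `i`: `D_z s = 0`, so `D_z (Y(s)) = Z_z(s)`.  If this is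
zero then `Z' = Z_z / (X - s)`, `δ'_j = δ_j / (t_j - s)` (`j ≠ i`), `δ'_i = - h(t_i) / (c_(e₁) β_(i e₁))`
for `h = g_(e₁) - c_(e₁) ∑_(j ≠ i) δ_j β_(j e₁) / (X - t_j)` satisfy `c.Jac Z' δ' = 0` (for `e ≠ e₁`
as in (1)), and vanish on `S` except at `i`: so `z` (the top coefficient of `Z'`) lies in a space of
dimension at most one (if two such, a combination has `δ'_i = 0`).
(3) If `J` is a maximal set of algebraically independent coordinates of `Y(s)` then `D (Y(s)) = 0` for
every derivation `D` which vanishes on the coordinates in `J`; so the space of `z` with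
`D_z (Y(s)) = 0` has dimension at least `n + 1 - #J`.
-/

namespace Pool.Agent.Work.RC

open Polynomial
open Pool.Agent.Work.Uni (rootPoly)

variable {n : ℕ} {E : Type} [DecidableEq E] {A : Arr n E}
  {k : Type} [Field k] [Algebra ℂ k] {x : Fin (n + 1) → k}

theorem rank (hA : A.Ok) (c : Cv A k x) (a : Fin c.m → ℂ)
    (S : Set ((Fin (n + 1) × Fin c.m) ⊕ c.ι)) (h : Rig c a S) (s : k)
    (hs1 : ∀ j, s ≠ algebraMap ℂ k (a j))
    (hs2 : ∀ i, s = c.t i → Sum.inr i ∈ S ∧ ∃ e₁, ∀ e, e ≠ e₁ → c.β i e = 0) :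
    ∃ j₀ : Fin (n + 1), AlgebraicIndependent ℂ (fun j : {j // j ≠ j₀} => (c.Y j.1).eval s) := by
  have := hA
  obtain ⟨lam, hl⟩ := kernel_form c a S h s hs1 hs2
  exact RankA.rank_of_form x (fun j : S => c.par a j.1) h.ai (fun s' => (c.Y s').eval s) lam hl

end Pool.Agent.Work.RC
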