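import Mathlib
import Pool.Agent.Work.MP_4329d7_ag_rc.Split
import Pool.Agent.Work.MP_4329d7_ag_rc.Rank
import Pool.Agent.Work.MP_4329d7_ag_rc.Root
import Pool.Agent.Work.MP_4329d7_ag_rc.Coprime

/-!
The contradiction (`Picard number one`): no two relatively prime polynomials `P`, `Q` over `ℂ`, not
both constant, satisfy `P(x) Q(Y) = Q(x) P(Y)` for all curves.

Proof.  If `Q` is constant then `P(Y)` would be constant in `X`; it has degree
`totalDegree P * m > 0` (`coeff_aeval'`, `x` algebraically independent).  So `Q` is not constant and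
`Q(Y(X))` has positive degree; let `s₀` be a root; translate (`Cv.translate`) so that `s₀ = 0`.  Take
`exists_split`; the polynomial `Q(YR)` over `R` has a unit as leading coefficient and its constant
coefficient is not a unit; `exists_nonunit_root` gives `s`; `rank` and `no_common_zero` give the
contradiction (`Q(Y'(s)) = 0`, and `P(Y'(s)) = 0` because `Q(x) P(Y') = P(x) Q(Y')`, `Q(x) ≠ 0`).
-/

namespace Pool.Agent.Work.RC

open Polynomial
open Pool.Agent.Work.Uni (rootPoly)

variable {n : ℕ} {E : Type} [Fintype E] [DecidableEq E] {A : Arr n E}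

/-- the top form of a nonzero polynomial is not zero -/
theorem top_ne_zero {P : MvPolynomial (Fin (n + 1)) ℂ} (hP : P ≠ 0) :
    MvPolynomial.homogeneousComponent P.totalDegree P ≠ 0 := by
  intro h
  obtain ⟨d, hd, hdeg⟩ := Finset.exists_mem_eq_sup P.support
    (MvPolynomial.support_nonempty.2 hP) (fun s => s.sum fun _ e => e)
  have h1 : P.totalDegree = d.degree := by
    rw [MvPolynomial.totalDegree, hdeg]
    rfl
  have h2 := congrArg (MvPolynomial.coeff d) h
  rw [MvPolynomial.coeff_homogeneousComponent, if_pos h1.symm, MvPolynomial.coeff_zero] at h2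
  exact MvPolynomial.mem_support_iff.1 hd h2

/-- a nonzero polynomial is not zero at a generic point -/
theorem aeval_ne_zero_of_ai {σ k : Type*} [Field k] [Algebra ℂ k] {x : σ → k}
    (hx : AlgebraicIndependent ℂ x) {P : MvPolynomial σ ℂ} (hP : P ≠ 0) :
    MvPolynomial.aeval x P ≠ 0 := by
  intro h
  exact hP (hx (by rw [h, map_zero]))

omit [Fintype E] [DecidableEq E] in
/-- the top coefficient of `P(Y)` -/
theorem aeval_Y_coeff_ne {A : Arr n E} {k : Type} [Field k] [Algebra ℂ k]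
    {x : Fin (n + 1) → k}
    (hx : AlgebraicIndependent ℂ x) (c : Cv A k x) {P : MvPolynomial (Fin (n + 1)) ℂ}
    (hP : P ≠ 0) : (MvPolynomial.aeval c.Y P).coeff (P.totalDegree * c.m) ≠ 0 := by
  rw [coeff_aeval' P c.m_pos c.Y c.deg]
  have h : (fun s => (c.Y s).coeff c.m) = x := funext c.lead
  rw [h]
  exact aeval_ne_zero_of_ai hx (top_ne_zero hP)

theorem map_aeval_alg {σ R S : Type*} [CommRing R] [Algebra ℂ R] [CommRing S] [Algebra ℂ S]
    (f : R →ₐ[ℂ] S) (y : σ → R) (P : MvPolynomial σ ℂ) :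
    f (MvPolynomial.aeval y P) = MvPolynomial.aeval (fun s => f (y s)) P := by
  rw [← MvPolynomial.comp_aeval_apply]

/-- `P(Y.comp q) = (P(Y)).comp q` -/
theorem aeval_comp {k : Type} [CommRing k] [Algebra ℂ k] (Y : Fin (n + 1) → k[X]) (q : k[X])
    (P : MvPolynomial (Fin (n + 1)) ℂ) :
    MvPolynomial.aeval (fun s => (Y s).comp q) P = (MvPolynomial.aeval Y P).comp q :=
  (map_aeval_alg ((Polynomial.aeval q : k[X] →ₐ[k] k[X]).restrictScalars ℂ) Y P).symm

/-- `P(Y.map f) = (P(Y)).map f` -/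
theorem aeval_map {R S : Type} [CommRing R] [Algebra ℂ R] [CommRing S] [Algebra ℂ S]
    (f : R →ₐ[ℂ] S) (Y : Fin (n + 1) → R[X]) (P : MvPolynomial (Fin (n + 1)) ℂ) :
    MvPolynomial.aeval (fun s => (Y s).map (f : R →+* S)) P =
      (MvPolynomial.aeval Y P).map (f : R →+* S) :=
  (map_aeval_alg (Polynomial.mapAlgHom f) Y P).symm

/-- `P(Y(s)) = (P(Y))(s)` -/
theorem aeval_eval {k : Type} [CommRing k] [Algebra ℂ k] (Y : Fin (n + 1) → k[X]) (s : k)
    (P : MvPolynomial (Fin (n + 1)) ℂ) :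
    MvPolynomial.aeval (fun j => (Y j).eval s) P = (MvPolynomial.aeval Y P).eval s :=
  (map_aeval_alg ((Polynomial.aeval s : k[X] →ₐ[k] k).restrictScalars ℂ) Y P).symm

/-- the contradiction at a root at `0` -/
theorem no_relation_zero (hA : A.Ok) {k : Type} [Field k] [Algebra ℂ k] [IsAlgClosed k]
    {x : Fin (n + 1) → k} (hx : AlgebraicIndependent ℂ x) (c : Cv A k x)
    (P Q : MvPolynomial (Fin (n + 1)) ℂ) (hPQ : IsRelPrime P Q) (hQ : Q ≠ 0)
    (h0 : (MvPolynomial.aeval c.Y Q).eval 0 = 0)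
    (hrel : ∀ (k' : Type) [Field k'] [Algebra ℂ k'] (x' : Fin (n + 1) → k'),
      AlgebraicIndependent ℂ x' → ∀ c' : Cv A k' x',
        C (MvPolynomial.aeval x' P) * MvPolynomial.aeval c'.Y Q =
          C (MvPolynomial.aeval x' Q) * MvPolynomial.aeval c'.Y P) : False := by
  obtain ⟨D⟩ := exists_split hA hx c
  -- the base point is generic
  have hx' : AlgebraicIndependent ℂ (fun s => algebraMap D.R D.k' (D.xR s)) := by
    have h := D.rig.ai.comp Sum.inl Sum.inl_injective
    exact h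
  let QR : D.R[X] := MvPolynomial.aeval D.YR Q
  -- the top coefficient
  have htop : IsUnit (QR.coeff (Q.totalDegree * D.c'.m)) := by
    have h1 : QR.coeff (Q.totalDegree * D.c'.m) =
        MvPolynomial.aeval D.xR (MvPolynomial.homogeneousComponent Q.totalDegree Q) := by
      change (MvPolynomial.aeval D.YR Q).coeff _ = _
      rw [coeff_aeval' Q D.c'.m_pos D.YR D.Y_deg]
      have h : (fun s => (D.YR s).coeff D.c'.m) = D.xR := funext D.Y_lead
      rw [h]
    rw [D.unit_iff, h1, map_aeval_alg]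
    have h2 : (fun s => D.ρ (D.xR s)) = fun s => D.j (x s) := funext D.x_red
    rw [h2, ← map_aeval_alg]
    intro h3
    have hj : Function.Injective D.j := (D.j : k →+* D.κ).injective
    exact aeval_ne_zero_of_ai hx (top_ne_zero hQ) (hj (by rw [h3, map_zero]))
  have hlead : IsUnit QR.leadingCoeff := by
    have hne : QR.coeff (Q.totalDegree * D.c'.m) ≠ 0 := htop.ne_zero
    have h1 : QR.natDegree ≤ Q.totalDegree * D.c'.m := natDegree_aeval_le' Q D.YR D.Y_deg
    have h2 : Q.totalDegree * D.c'.m ≤ QR.natDegree := le_natDegree_of_ne_zero hne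
    rw [leadingCoeff, le_antisymm h1 h2]
    exact htop
  -- the constant coefficient
  have hconst : ¬ IsUnit (QR.coeff 0) := by
    rw [D.unit_iff, not_not]
    have h1 : D.ρ (QR.coeff 0) = (QR.map (D.ρ : D.R →+* D.κ)).coeff 0 := by
      rw [coeff_map]
      rfl
    have h2 : QR.map (D.ρ : D.R →+* D.κ) =
        ((MvPolynomial.aeval c.Y Q).comp (X ^ A.N)).map (D.j : k →+* D.κ) := by
      change (MvPolynomial.aeval D.YR Q).map (D.ρ : D.R →+* D.κ) = _
      rw [← aeval_map]
      have h3 : (fun s => (D.YR s).map (D.ρ : D.R →+* D.κ)) =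
          fun s => ((c.Y s).comp (X ^ A.N)).map (D.j : k →+* D.κ) := funext D.Y_red
      rw [h3, aeval_map D.j (fun s => (c.Y s).comp (X ^ A.N)) Q, aeval_comp]
    rw [h1, h2, coeff_map, coeff_zero_eq_eval_zero, eval_comp, eval_pow, eval_X,
      zero_pow hA.N_pos.ne', h0, map_zero]
  obtain ⟨s, hs, hsu⟩ := exists_nonunit_root D.inj QR hlead hconst
  have hs1 : ∀ j, s ≠ algebraMap ℂ D.k' (D.a j) := by
    intro j hj
    have hu : IsUnit (algebraMap ℂ D.R (D.a j)) :=
      (isUnit_iff_ne_zero.2 (D.a_ne j)).map (algebraMap ℂ D.R)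
    apply hsu _ hu
    rw [hj, IsScalarTower.algebraMap_apply ℂ D.R D.k']
  have hs2 : ∀ i, s = D.c'.t i → Sum.inr i ∈ D.S ∧ ∃ e₁, ∀ e, e ≠ e₁ → D.c'.β i e = 0 := by
    intro i hi
    rcases D.t_cases i with ⟨r, hr, hri⟩ | h
    · exact absurd (hi.trans hri) (hsu r hr)
    · exact h
  obtain ⟨j₀, hj₀⟩ := rank hA D.c' D.a D.S D.rig s hs1 hs2
  have hQs : (MvPolynomial.aeval D.c'.Y Q).eval s = 0 := by
    have h1 : MvPolynomial.aeval D.c'.Y Q = QR.map (algebraMap D.R D.k') := by
      have h2 : D.c'.Y = fun s => (D.YR s).map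
          ((IsScalarTower.toAlgHom ℂ D.R D.k' : D.R →ₐ[ℂ] D.k') : D.R →+* D.k') :=
        funext D.Y_map
      rw [h2, aeval_map]
      rfl
    rw [h1, eval_map_algebraMap]
    exact hs
  have hPs : (MvPolynomial.aeval D.c'.Y P).eval s = 0 := by
    have h1 := congrArg (fun p => p.eval s) (hrel D.k' _ hx' D.c')
    simp only [eval_mul, eval_C, hQs, mul_zero] at h1
    exact (mul_eq_zero.1 h1.symm).resolve_left (aeval_ne_zero_of_ai hx' hQ)
  refine no_common_zero hPQ (y := fun j => (D.c'.Y j).eval s) ?_ ?_ hj₀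
  · rw [aeval_eval]
    exact hPs
  · rw [aeval_eval]
    exact hQs

theorem no_relation (hA : A.Ok) {k : Type} [Field k] [Algebra ℂ k] [IsAlgClosed k]
    {x : Fin (n + 1) → k} (hx : AlgebraicIndependent ℂ x) (c : Cv A k x)
    (P Q : MvPolynomial (Fin (n + 1)) ℂ) (hPQ : IsRelPrime P Q)
    (hnc : ¬ (P.totalDegree = 0 ∧ Q.totalDegree = 0))
    (hrel : ∀ (k' : Type) [Field k'] [Algebra ℂ k'] (x' : Fin (n + 1) → k'),
      AlgebraicIndependent ℂ x' → ∀ c' : Cv A k' x',
        C (MvPolynomial.aeval x' P) * MvPolynomial.aeval c'.Y Q =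
          C (MvPolynomial.aeval x' Q) * MvPolynomial.aeval c'.Y P) : False := by
  -- `Q` is not zero
  have hQ0 : Q ≠ 0 := by
    intro h
    apply hnc
    have hu : IsUnit P := hPQ dvd_rfl (by rw [h]; exact dvd_zero _)
    refine ⟨?_, by rw [h]; exact MvPolynomial.totalDegree_zero⟩
    exact (MvPolynomial.isUnit_iff_totalDegree_of_isReduced.1 hu).2
  -- `Q` is not constant
  have hQ1 : 0 < Q.totalDegree := by
    rw [Nat.pos_iff_ne_zero]
    intro h
    have hP1 : 0 < P.totalDegree := Nat.pos_of_ne_zero fun h' => hnc ⟨h', h⟩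
    have hP0 : P ≠ 0 := by
      rintro rfl
      rw [MvPolynomial.totalDegree_zero] at hP1
      exact lt_irrefl _ hP1
    obtain ⟨q, rfl⟩ : ∃ q, Q = MvPolynomial.C q :=
      ⟨_, (MvPolynomial.totalDegree_eq_zero_iff_eq_C.1 h)⟩
    have h1 := hrel k x hx c
    rw [MvPolynomial.algHom_C, MvPolynomial.algHom_C] at h1
    have h2 := congrArg (fun p : k[X] => p.coeff (P.totalDegree * c.m)) h1
    have h3 : P.totalDegree * c.m ≠ 0 := (Nat.mul_pos hP1 c.m_pos).ne'
    have h4 : (algebraMap ℂ k[X] q) = C (algebraMap ℂ k q) := rfl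
    simp only [h4, ← C_mul, coeff_C_mul, coeff_C, h3, if_false] at h2
    have hq : q ≠ 0 := by
      rintro rfl
      exact hQ0 (MvPolynomial.C_0)
    rcases mul_eq_zero.1 h2.symm with h5 | h5
    · exact hq ((map_eq_zero (algebraMap ℂ k)).1 h5)
    · exact aeval_Y_coeff_ne hx c hP0 h5
  -- a root of `Q(Y)`
  have hdeg : (MvPolynomial.aeval c.Y Q).degree ≠ 0 := by
    intro h
    have h1 := le_degree_of_ne_zero (aeval_Y_coeff_ne hx c hQ0)
    rw [h] at h1
    have h2 : Q.totalDegree * c.m ≤ 0 := by exact_mod_cast h1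
    exact absurd h2 (Nat.mul_pos hQ1 c.m_pos).not_ge
  obtain ⟨s₀, hs₀⟩ := IsAlgClosed.exists_root _ hdeg
  refine no_relation_zero hA hx (c.translate s₀) P Q hPQ hQ0 ?_ hrel
  change (MvPolynomial.aeval (fun s => (c.Y s).comp (X + C s₀)) Q).eval 0 = 0
  rw [aeval_comp, eval_comp, eval_add, eval_X, eval_C, zero_add]
  exact hs₀

end Pool.Agent.Work.RC
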