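import Mathlib
import Pool.Agent.Work.MP_4329d7_ag_rc.Transfer
import Pool.Agent.Work.MP_4329d7_ag_rc.RCKdef
import Pool.Agent.Work.MP_4329d7_ag_sq.RMap

/-!
The algebraic independence needed for `rc_of_generic`: if no form over `KK n` vanishes on the curve
`c` then `Y_j(s₁)/Y_0(s₁)`, `Y_j(s₂)/Y_0(s₂)` (`j = 1..n`) are algebraically independent over `ℂ`.

Proof.  A relation `G(y(s₁), y(s₂)) = 0` gives (`s₂ → ∞`) the relation `G(y(s₁), x_j/x_0) = 0`; but
the `y_j(s₁)` are algebraically independent over `KK n` and the `x_j/x_0` over `ℂ`.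
-/

namespace Pool.Agent.Work.RC

open Polynomial
open Pool.Agent.Work.Uni (rootPoly)

section Homog

variable {n : ℕ} {R : Type*} [Field R]

/-- homogenisation with the variable `0` -/
noncomputable def hz (P : MvPolynomial (Fin n) R) : MvPolynomial (Fin (n + 1)) R :=
  ∑ v ∈ P.support, MvPolynomial.C (P.coeff v) *
    (MvPolynomial.X 0 ^ (P.totalDegree - ∑ j, v j) * ∏ j, MvPolynomial.X (Fin.succ j) ^ v j)

theorem hz_sum_le {P : MvPolynomial (Fin n) R} {v : Fin n →₀ ℕ} (hv : v ∈ P.support) :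
    ∑ j, v j ≤ P.totalDegree := by
  have h := MvPolynomial.le_totalDegree hv
  rwa [Finsupp.sum_fintype _ _ (by simp)] at h

theorem hz_hom (P : MvPolynomial (Fin n) R) : (hz P).IsHomogeneous P.totalDegree := by
  unfold hz
  refine MvPolynomial.IsHomogeneous.sum _ _ _ fun v hv => ?_
  have h1 : (MvPolynomial.X 0 ^ (P.totalDegree - ∑ j, v j) *
      ∏ j, MvPolynomial.X (Fin.succ j) ^ v j : MvPolynomial (Fin (n + 1)) R).IsHomogeneous
      ((P.totalDegree - ∑ j, v j) + ∑ j, v j) := by
    refine MvPolynomial.IsHomogeneous.mul ?_ ?_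
    · exact MvPolynomial.isHomogeneous_X_pow _ _
    · exact MvPolynomial.IsHomogeneous.prod _ _ _ fun j _ => MvPolynomial.isHomogeneous_X_pow _ _
  rw [Nat.sub_add_cancel (hz_sum_le hv)] at h1
  exact h1.C_mul _

theorem hz_aeval {L : Type*} [Field L] [Algebra R L] (P : MvPolynomial (Fin n) R)
    (y : Fin (n + 1) → L) (h0 : y 0 ≠ 0) :
    MvPolynomial.aeval y (hz P) =
      y 0 ^ P.totalDegree * MvPolynomial.aeval (fun j : Fin n => y j.succ / y 0) P := by
  conv_rhs => rw [MvPolynomial.aeval_def, MvPolynomial.eval₂_eq', Finset.mul_sum]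
  unfold hz
  rw [map_sum]
  refine Finset.sum_congr rfl fun v hv => ?_
  rw [map_mul, map_mul, map_prod, map_pow, MvPolynomial.aeval_C, MvPolynomial.aeval_X]
  simp only [map_pow, MvPolynomial.aeval_X, div_pow]
  rw [Finset.prod_div_distrib, Finset.prod_pow_eq_pow_sum]
  have h1 : y 0 ^ P.totalDegree = y 0 ^ (P.totalDegree - ∑ j, v j) * y 0 ^ (∑ j, v j) := by
    rw [← pow_add, Nat.sub_add_cancel (hz_sum_le hv)]
  rw [h1]
  have h2 : y 0 ^ (∑ j, v j) ≠ 0 := pow_ne_zero _ h0
  field_simp

theorem hz_ne {P : MvPolynomial (Fin n) R} (hP : P ≠ 0) : hz P ≠ 0 := by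
  intro h
  have h1 := hz_aeval (L := FractionRing (MvPolynomial (Fin n) R)) P
    (Fin.cons 1 fun j => algebraMap (MvPolynomial (Fin n) R) _ (MvPolynomial.X j)) (by simp)
  rw [h, map_zero] at h1
  simp only [Fin.cons_zero, one_pow, Fin.cons_succ, div_one, one_mul] at h1
  have h2 : MvPolynomial.aeval (fun j => algebraMap (MvPolynomial (Fin n) R)
      (FractionRing (MvPolynomial (Fin n) R)) (MvPolynomial.X j)) P =
      algebraMap (MvPolynomial (Fin n) R) (FractionRing (MvPolynomial (Fin n) R)) P := by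
    have h3 := MvPolynomial.aeval_algebraMap_apply (R := R)
      (FractionRing (MvPolynomial (Fin n) R)) (MvPolynomial.X : Fin n → MvPolynomial (Fin n) R) P
    rw [MvPolynomial.aeval_X_left_apply] at h3
    exact h3
  rw [h2] at h1
  exact hP (IsFractionRing.injective (MvPolynomial (Fin n) R) _ (by rw [← h1, map_zero]))

end Homog

/-- the specialisation `s → ∞` -/
theorem aeval_at_infty {n : ℕ} {R : Type*} [Field R] {m : ℕ} (Y : Fin (n + 1) → R[X])
    (x : Fin (n + 1) → R) (deg : ∀ s, (Y s).natDegree ≤ m) (lead : ∀ s, (Y s).coeff m = x s)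
    (h0 : x 0 ≠ 0) (H : MvPolynomial (Fin n) R)
    (h : MvPolynomial.aeval (fun j : Fin n => algebraMap R[X] (RatFunc R) (Y j.succ) /
      algebraMap R[X] (RatFunc R) (Y 0)) H = 0) :
    MvPolynomial.aeval (fun j : Fin n => x j.succ / x 0) H = 0 := by
  have hY0 : Y 0 ≠ 0 := by
    intro h1
    have h2 := lead 0
    rw [h1, coeff_zero] at h2
    exact h0 h2.symm
  have hY0' : algebraMap R[X] (RatFunc R) (Y 0) ≠ 0 := by
    intro h1
    exact hY0 (IsFractionRing.injective R[X] (RatFunc R) (by rw [h1, map_zero]))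
  have h1 := hz_aeval (L := RatFunc R) H (fun s => algebraMap R[X] (RatFunc R) (Y s)) hY0'
  rw [h, mul_zero] at h1
  have h2 : MvPolynomial.aeval Y (hz H) = 0 := by
    refine IsFractionRing.injective R[X] (RatFunc R) ?_
    rw [map_zero, ← h1]
    exact (MvPolynomial.aeval_algebraMap_apply (R := R) (RatFunc R) Y (hz H)).symm
  have h3 := hz_aeval (L := R) H x h0
  have h4 : MvPolynomial.aeval x (hz H) = (MvPolynomial.aeval Y (hz H)).coeff
      (H.totalDegree * m) := by
    unfold hz
    rw [map_sum, map_sum, finsetSum_coeff]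
    refine Finset.sum_congr rfl fun v hv => ?_
    have h5 := (prod_pow_aux Y deg
      (Fin.cons (H.totalDegree - ∑ j, v j) fun j => v j) Finset.univ).2
    rw [Fin.sum_univ_succ, Fin.prod_univ_succ, Fin.prod_univ_succ] at h5
    simp only [Fin.cons_zero, Fin.cons_succ, lead] at h5
    rw [Nat.sub_add_cancel (hz_sum_le hv)] at h5
    rw [map_mul, map_mul, map_prod, map_mul, map_mul, map_prod]
    simp only [map_pow, MvPolynomial.aeval_X, MvPolynomial.aeval_C]
    rw [Polynomial.algebraMap_eq, coeff_C_mul, h5]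
    rfl
  rw [h2, coeff_zero, h3] at h4
  exact (mul_eq_zero.1 h4).resolve_left (pow_ne_zero _ h0)


theorem gen_ai' (n : ℕ) :
    AlgebraicIndependent ℂ (fun j : Fin n => gen n j.succ / gen n 0) := by
  rw [algebraicIndependent_iff]
  intro P hP
  by_contra hne
  have h0 : gen n 0 ≠ 0 := (gen_ai n).ne_zero 0
  have h1 := hz_aeval (L := KK n) P (gen n) h0
  rw [hP, mul_zero] at h1
  exact hz_ne hne ((algebraicIndependent_iff.1 (gen_ai n)) _ h1)

variable {n : ℕ} {E : Type} {A : Arr n E}

/-- no relation over `KK n` between the affine coordinates -/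
theorem yy_ai {k : Type} [Field k] [Algebra ℂ k] [Algebra (KK n) k] [IsScalarTower ℂ (KK n) k]
    (c : Cv A k (fun s => algebraMap (KK n) k (gen n s)))
    (hc : ∀ (r : ℕ) (P : MvPolynomial (Fin (n + 1)) (KK n)), P.IsHomogeneous r → P ≠ 0 →
      MvPolynomial.aeval c.Y P ≠ 0) : AlgebraicIndependent (KK n) (yy c) := by
  rw [algebraicIndependent_iff]
  intro P hP
  by_contra hne
  have hY0 : c.Y 0 ≠ 0 := by
    intro h1
    have h2 := c.lead 0
    rw [h1, coeff_zero] at h2
    exact (gen_ai n).ne_zero 0 ((algebraMap (KK n) k).injective (by rw [← h2, map_zero]))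
  have hY0' : algebraMap k[X] (RatFunc k) (c.Y 0) ≠ 0 := by
    intro h1
    exact hY0 (IsFractionRing.injective k[X] (RatFunc k) (by rw [h1, map_zero]))
  have h1 := hz_aeval (L := RatFunc k) P (fun s => algebraMap k[X] (RatFunc k) (c.Y s)) hY0'
  have h3 : MvPolynomial.aeval (fun j : Fin n => algebraMap k[X] (RatFunc k) (c.Y j.succ) /
      algebraMap k[X] (RatFunc k) (c.Y 0)) P = 0 := hP
  rw [h3, mul_zero] at h1
  refine hc _ _ (hz_hom P) (hz_ne hne) ?_
  refine IsFractionRing.injective k[X] (RatFunc k) ?_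
  rw [map_zero, ← h1]
  exact (MvPolynomial.aeval_algebraMap_apply (R := KK n) (RatFunc k) c.Y (hz P)).symm

theorem ai_two {k : Type} [Field k] [Algebra ℂ k] [Algebra (KK n) k] [IsScalarTower ℂ (KK n) k]
    (c : Cv A k (fun s => algebraMap (KK n) k (gen n s)))
    (hc : ∀ (r : ℕ) (P : MvPolynomial (Fin (n + 1)) (KK n)), P.IsHomogeneous r → P ≠ 0 →
      MvPolynomial.aeval c.Y P ≠ 0) :
    AlgebraicIndependent ℂ (Sum.elim (fun j : Fin n => (RatFunc.C (yy c j) : RatFunc (RatFunc k)))
      (fun j => Pool.Agent.Work.MP_4329d7_ag_sq.psi k (yy c j))) := by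
  have hst : IsScalarTower ℂ (KK n) (RatFunc k) := by
    refine IsScalarTower.of_algebraMap_eq fun r => ?_
    rw [IsScalarTower.algebraMap_apply ℂ k[X] (RatFunc k),
      IsScalarTower.algebraMap_apply (KK n) k[X] (RatFunc k),
      IsScalarTower.algebraMap_apply ℂ (KK n) k[X]]
  have hai := (gen_ai' n).sumElim_comp (yy_ai c hc)
  rw [algebraicIndependent_iff] at hai ⊢
  intro G hG
  refine hai G ?_
  -- the polynomial in the second variables
  let ρ : MvPolynomial (Fin n ⊕ Fin n) ℂ →ₐ[ℂ] MvPolynomial (Fin n) (RatFunc k) :=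
    MvPolynomial.aeval (Sum.elim (fun j => MvPolynomial.C (yy c j)) MvPolynomial.X)
  have key := aeval_at_infty (R := RatFunc k) (m := c.m)
    (fun s => (c.Y s).map (RatFunc.C : k →+* RatFunc k))
    (fun s => RatFunc.C (algebraMap (KK n) k (gen n s)))
    (fun s => natDegree_map_le.trans (c.deg s))
    (fun s => by rw [coeff_map, c.lead]) (by
      rw [_root_.map_ne_zero, _root_.map_ne_zero]
      exact (gen_ai n).ne_zero 0) (ρ G) ?_
  · rw [← key]
    let ev : MvPolynomial (Fin n) (RatFunc k) →ₐ[ℂ] RatFunc k :=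
      (MvPolynomial.aeval (fun j : Fin n => (RatFunc.C (algebraMap (KK n) k (gen n j.succ)) /
        RatFunc.C (algebraMap (KK n) k (gen n 0)) : RatFunc k))).restrictScalars ℂ
    change MvPolynomial.aeval _ G = ev (ρ G)
    rw [← AlgHom.comp_apply]
    congr 1
    refine MvPolynomial.algHom_ext fun i => ?_
    rcases i with j | j
    · simp [ρ, ev]
    · simp only [ρ, ev, MvPolynomial.aeval_X, Sum.elim_inr, AlgHom.comp_apply,
        AlgHom.restrictScalars_apply, Function.comp_apply]
      rw [map_div₀, IsScalarTower.algebraMap_apply (KK n) k (RatFunc k),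
        IsScalarTower.algebraMap_apply (KK n) k (RatFunc k), RatFunc.algebraMap_eq_C]
  · rw [← hG]
    let ev : MvPolynomial (Fin n) (RatFunc k) →ₐ[ℂ] RatFunc (RatFunc k) :=
      (MvPolynomial.aeval (fun j : Fin n =>
        (algebraMap (RatFunc k)[X] (RatFunc (RatFunc k))
          ((c.Y j.succ).map (RatFunc.C : k →+* RatFunc k)) /
        algebraMap (RatFunc k)[X] (RatFunc (RatFunc k))
          ((c.Y 0).map (RatFunc.C : k →+* RatFunc k))))).restrictScalars ℂ
    change ev (ρ G) = _
    rw [← AlgHom.comp_apply]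
    congr 1
    refine MvPolynomial.algHom_ext fun i => ?_
    rcases i with j | j
    · simp [ρ, ev, RatFunc.algebraMap_eq_C]
    · simp only [ρ, ev, MvPolynomial.aeval_X, Sum.elim_inr, AlgHom.comp_apply,
        AlgHom.restrictScalars_apply]
      unfold yy Pool.Agent.Work.MP_4329d7_ag_sq.psi
      rw [map_div₀, Pool.Agent.Work.MP_4329d7_ag_sq.rmap_algebraMap,
        Pool.Agent.Work.MP_4329d7_ag_sq.rmap_algebraMap]

end Pool.Agent.Work.RC
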