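import Mathlib
import Pool.Agent.Work.MP_4329d7_ag_rc.Transfer
import Pool.Agent.Work.MP_4329d7_ag_rc.RCKhom
import Pool.Agent.Work.MP_4329d7_ag_rc.RCKai

/-!
A curve on which no form over `KK n` vanishes makes the cover `K` rationally connected.

Proof.  WLOG the field `k` of the curve is algebraically closed (`Cv.map` to the algebraic closure).
The `2 n` elements `x_j / x_0`, `Y_j / Y_0` (`j = 1..n`) of `k(s)` are algebraically independent over
`ℂ`; so (specialisation `s₁ → ∞`) the elements `Y_j(s₁)/Y_0(s₁)`, `Y_j(s₂)/Y_0(s₂)` of `k(s₁)(s₂)` are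
algebraically independent (`RCKai`).  `exists_ext_kummer` (CurveExt) gives `K → k(s)`,
`x_j ↦ Y_j/Y_0` (`RCKhom`), and `rc_of_good` (MP_4329d7_ag_sq/RC) applies.
-/

namespace Pool.Agent.Work.RC

open Polynomial
open Pool.Agent.Work.Uni (rootPoly)
open Pool.Agent.Work.MP_4329d7_ag.FF

variable {n : ℕ} {E : Type} [Fintype E] [DecidableEq E] {A : Arr n E}

theorem rc_of_generic (hA : A.Ok) {K : Type} [Field K] [Algebra ℂ K] [Algebra.EssFiniteType ℂ K]
    {x : Fin n → K} {S : Set (K × (E → ℕ))} (hK : Cover A K x S)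
    {k : Type} [Field k] [Algebra ℂ k] [Algebra (KK n) k] [IsScalarTower ℂ (KK n) k]
    (c : Cv A k (fun s => algebraMap (KK n) k (gen n s)))
    (hc : ∀ (r : ℕ) (P : MvPolynomial (Fin (n + 1)) (KK n)), P.IsHomogeneous r → P ≠ 0 →
      MvPolynomial.aeval c.Y P ≠ 0) : RationallyConnected K := by
  let e : k →ₐ[ℂ] AlgebraicClosure k := IsScalarTower.toAlgHom ℂ k (AlgebraicClosure k)
  let c' : Cv A (AlgebraicClosure k)
      (fun s => algebraMap (KK n) (AlgebraicClosure k) (gen n s)) := c.map e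
  have hY : ∀ s, c'.Y s = (c.Y s).map (algebraMap k (AlgebraicClosure k)) := fun s => rfl
  have hc' : ∀ (r : ℕ) (P : MvPolynomial (Fin (n + 1)) (KK n)), P.IsHomogeneous r → P ≠ 0 →
      MvPolynomial.aeval c'.Y P ≠ 0 := by
    intro r P hP hP0 h
    have h1 : MvPolynomial.aeval c'.Y P =
        mapAlgHom (IsScalarTower.toAlgHom (KK n) k (AlgebraicClosure k))
          (MvPolynomial.aeval c.Y P) := by
      exact (MvPolynomial.comp_aeval_apply (f := c.Y)
        (mapAlgHom (IsScalarTower.toAlgHom (KK n) k (AlgebraicClosure k))) P).symm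
    rw [h1] at h
    refine hc r P hP hP0 ?_
    have h2 : (MvPolynomial.aeval c.Y P).map (algebraMap k (AlgebraicClosure k)) = 0 := h
    exact (Polynomial.map_eq_zero_iff (algebraMap k (AlgebraicClosure k)).injective).1 h2
  have h0 : c'.Y 0 ≠ 0 := by
    have h1 := hc' 1 (MvPolynomial.X 0) (MvPolynomial.isHomogeneous_X _ _) (MvPolynomial.X_ne_zero _)
    rwa [MvPolynomial.aeval_X] at h1
  exact rc_of_ai hA.N_pos hA.hom hK c' h0 (ai_two c' hc')

end Pool.Agent.Work.RC
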