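import Mathlib
import Pool.Agent.Work.MP_4329d7_ag_rc.Picard
import Pool.Agent.Work.MP_4329d7_ag_rc.Circuit
import Pool.Agent.Work.MP_4329d7_ag_rc.Generic
import Pool.Agent.Work.MP_4329d7_ag_rc.RCK

/-!
Assembly: the existence of one curve makes the cover rationally connected.
-/

namespace Pool.Agent.Work.RC

open Polynomial
open Pool.Agent.Work.Uni (rootPoly)
open Pool.Agent.Work.MP_4329d7_ag.FF

variable {n : ℕ} {E : Type} [Fintype E] [DecidableEq E] {A : Arr n E}

theorem rc_of_curve (hA : A.Ok) [Nonempty E] {K : Type} [Field K] [Algebra ℂ K]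
    [Algebra.EssFiniteType ℂ K] {x : Fin n → K} {S : Set (K × (E → ℕ))} (hK : Cover A K x S)
    {k : Type} [Field k] [Algebra ℂ k] {x' : Fin (n + 1) → k} (hx' : AlgebraicIndependent ℂ x')
    (c : Cv A k x') : RationallyConnected K := by
  have hne : Nonempty (Cv A (KK n) (gen n)) := by
    obtain ⟨c', -⟩ := transfer hx' c 1 (by simp [semi])
    exact ⟨c'⟩
  obtain ⟨c₀⟩ := hne
  have hdense : ∀ (r : ℕ) (P : MvPolynomial (Fin (n + 1)) (KK n)), P.IsHomogeneous r → P ≠ 0 →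
      ∃ c : Cv A (KK n) (gen n), MvPolynomial.aeval c.Y P ≠ 0 := by
    intro r P hP hP0
    by_contra hcon
    push Not at hcon
    obtain ⟨Q₁, Q₂, h1, h2, h3⟩ := circuit hA ⟨c₀⟩ r P hP hP0 hcon
    exact no_relation hA (gen_ai n) c₀ Q₁ Q₂ h1 h2 h3
  obtain ⟨k₁, _, _, _, _, c₁, hc₁⟩ := generic hA hdense
  exact rc_of_generic hA hK c₁ hc₁

end Pool.Agent.Work.RC
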