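import Mathlib
import Pool.Agent.Work.MP_4329d7_ag_rc.MainRC
import Pool.Agent.Work.MP_4329d7_ag_rc.HypCurve
import Pool.Agent.Work.MP_4329d7_ag_rc.HypFew
import Pool.Agent.Work.MP_4329d7_ag_uni.MainUnif

/-!
Hyperplanes in general position (one factor): one exponent `M(n)`; no pluricanonical forms of
order `M` implies rationally connected.
-/

namespace Pool.Agent.Work.RC

open Polynomial
open Pool.Agent.Work.Uni
open Pool.Agent.Work.MP_4329d7_ag.FF

/-- the form for given weights -/
theorem exists_form_of_weights {K : Type} [Field K] [Algebra ℂ K]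
    {I : Type} [Fintype I] [DecidableEq I]
    {n : I → ℕ} {E : I → Type} [∀ i, Fintype (E i)] [∀ i, DecidableEq (E i)]
    {α : (i : I) → E i → Fin (n i + 1) → ℂ} {N : ℕ} {x : (i : I) → Fin (n i) → K}
    {S : Set (K × ((i : I) → E i → ℕ))} (D : CoverData K I n E α N x S)
    (M : ℕ) (hM : 0 < M) (d : ℕ) (hd : ∑ i, n i = d)
    (hunif : ∀ (I : Type) [Fintype I] [DecidableEq I] (n : I → ℕ), (∀ i, 0 < n i) →
      ∑ i, n i = d → ∀ (E : Type) [Fintype E] [DecidableEq E] (f : E → I)
      (B : Set (E → ℕ)) (A : E → ℚ), RatWt n f B A → ∃ A' : E → ℕ, NatWt n f B M A')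
    (M0 : ℕ) (A0 : (Σ i, E i) → ℕ) (hM0 : 0 < M0)
    (hA0 : ∀ i, ∑ e, A0 ⟨i, e⟩ ≤ (Fintype.card (E i) - (n i + 1)) * M0)
    (hb0 : ∀ b : (Σ i, E i) → ℕ, (coverBlocks (n := n) N S).IsBlock b → M0 ≤ ∑ p, A0 p * b p) :
    ∃ T : TensorForm K (M * d), IsPluricanonical M d T ∧ IsRegular T ∧ T ≠ 0 := by
  classical
  have hcard : ∀ i, (Finset.univ.filter fun p : Σ i, E i => p.1 = i).card =
      Fintype.card (E i) := by
    intro i
    rw [Finset.card_filter, Fintype.sum_sigma, Finset.sum_eq_single i]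
    · simp
    · intro i' _ hi
      exact Finset.sum_eq_zero fun e _ => if_neg hi
    · intro h
      exact absurd (Finset.mem_univ i) h
  have hsum : ∀ (A : (Σ i, E i) → ℕ) i, ∑ p : Σ i, E i with p.1 = i, A p = ∑ e, A ⟨i, e⟩ := by
    intro A i
    rw [Finset.sum_filter, Fintype.sum_sigma, Finset.sum_eq_single i]
    · simp
    · intro i' _ hi
      exact Finset.sum_eq_zero fun e _ => if_neg hi
    · intro h
      exact absurd (Finset.mem_univ i) h
  have hrat := ratWt_of_nat n (Sigma.fst : (Σ i, E i) → I)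
    {b | (coverBlocks (n := n) N S).IsBlock b} (fun i => by rw [hcard]; exact D.card i)
    M0 hM0 A0 (fun i => by rw [hcard, hsum]; exact hA0 i) hb0
  obtain ⟨A, hA⟩ := hunif I n D.n_pos hd (Σ i, E i) Sigma.fst _ _ hrat
  subst hd
  obtain ⟨T, hTp, hT, hT0⟩ := exists_form D M hM A
    (fun i => by
      have h1 := hA.fac i
      rw [hcard, hsum] at h1
      rw [Nat.sub_mul]
      omega)
    hA.blk
  exact ⟨T, hTp, hT, hT0⟩

/-- at least `n + 1` hyperplanes -/
theorem hyp_main' (n : ℕ) : ∃ M : ℕ, 0 < M ∧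
    ∀ (K : Type) [Field K] [Algebra ℂ K] [Algebra.EssFiniteType ℂ K]
    (E : Type) [Fintype E] [DecidableEq E]
    (α : E → Fin (n + 1) → ℂ) (N : ℕ) (x : Fin n → K)
    (S : Set (K × (E → ℕ))), HypData K n E α N x S → n + 1 ≤ Fintype.card E →
    (∀ T : TensorForm K (M * n), IsPluricanonical M n T → IsRegular T → T = 0) →
      RationallyConnected K := by
  classical
  obtain ⟨M, hM, hunif⟩ := unif_weights_dim n
  refine ⟨M, hM, fun K _ _ _ E _ _ α N x S D hc h => ?_⟩
  have hE : Nonempty E := Fintype.card_pos_iff.1 (by omega)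
  by_contra hRC
  have hno : ∀ (k : Type) [Field k] [Algebra ℂ k] (x' : Fin (n + 1) → k),
      AlgebraicIndependent ℂ x' → IsEmpty (Cv (hypArr (K := K) α N S) k x') := by
    intro k _ _ x' hx'
    refine ⟨fun c => hRC ?_⟩
    exact rc_of_curve (hyp_ok D.toHypBase) (hyp_cover D.toHypBase) hx' c
  obtain ⟨M0, A0, hM0, hA0, hb0⟩ := hyp_weights D hc hno
  obtain ⟨T, hTp, hT, hT0⟩ := exists_form_of_weights (hyp_coverData D hc) M hM n (by simp) hunif
    M0 A0 hM0 hA0 hb0
  exact hT0 (h T hTp hT)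

/-- at most `n + 1` hyperplanes: always rationally connected -/
theorem hyp_few {K : Type} [Field K] [Algebra ℂ K] [Algebra.EssFiniteType ℂ K] {n : ℕ}
    {E : Type} [Fintype E] [DecidableEq E] {α : E → Fin (n + 1) → ℂ} {N : ℕ} {x : Fin n → K}
    {S : Set (K × (E → ℕ))} (D : HypBase K n E α N x S) (hc : Fintype.card E ≤ n + 1) :
    RationallyConnected K := by
  classical
  rcases isEmpty_or_nonempty E with hE | hE
  · -- add the hyperplane at infinity
    let S' : Set (K × (Unit → ℕ)) := {p | ∃ c, (p.1, c) ∈ S ∧ p.2 = 0}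
    have D' : HypBase K n Unit (fun _ => Pi.single 0 1) N x S' := by
      refine ⟨D.N_pos, D.n_pos, fun s _ => ?_, D.alg_indep, ?_, ?_, ?_⟩
      · have h1 : Subsingleton s := ⟨fun a b => Subtype.ext (Subsingleton.elim _ _)⟩
        rw [Fintype.linearIndependent_iff]
        intro g hg i
        have h2 := congrFun hg 0
        rw [Finset.sum_apply, Fintype.sum_eq_single i (fun i' hi => absurd (h1.elim _ _) hi)] at h2
        simpa using h2
      · rintro z c ⟨c', hc', h0⟩
        simp only at h0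
        subst h0
        rw [D.rad z c' hc']
        simp
      · rintro z c ⟨c', hc', h0⟩
        simp only at h0
        subst h0
        simp
      · have h1 : {z | ∃ c, (z, c) ∈ S'} = {z | ∃ c, (z, c) ∈ S} := by
          ext z
          constructor
          · rintro ⟨c, c', hc', -⟩
            exact ⟨c', hc'⟩
          · rintro ⟨c', hc'⟩
            exact ⟨0, c', hc', rfl⟩
        rw [h1]
        exact D.gen
    obtain ⟨c⟩ := few_curve D' (by simp) (gen_ai n)
    exact rc_of_curve (hyp_ok D') (hyp_cover D') (gen_ai n) c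
  · obtain ⟨c⟩ := few_curve D hc (gen_ai n)
    exact rc_of_curve (hyp_ok D) (hyp_cover D) (gen_ai n) c

/-- One exponent for all abelian covers of `ℙⁿ` branched along hyperplanes in general position. -/
theorem hyp_main (n : ℕ) : ∃ M : ℕ, 0 < M ∧
    ∀ (K : Type) [Field K] [Algebra ℂ K] [Algebra.EssFiniteType ℂ K]
    (E : Type) [Fintype E] (α : E → Fin (n + 1) → ℂ) (N : ℕ) (x : Fin n → K)
    (S : Set (K × (E → ℕ))), HypData K n E α N x S →
    (∀ T : TensorForm K (M * n), IsPluricanonical M n T → IsRegular T → T = 0) →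
      RationallyConnected K := by
  classical
  obtain ⟨M, hM, h⟩ := hyp_main' n
  refine ⟨M, hM, fun K _ _ _ E _ α N x S D hT => ?_⟩
  by_cases hc : n + 1 ≤ Fintype.card E
  · exact h K E α N x S D hc hT
  · exact hyp_few D.toHypBase (by omega)

end Pool.Agent.Work.RC
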