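import Mathlib
import Pool.Agent.Work.MP_4329d7_ag_rc.Transfer
import Pool.Agent.Work.MP_4329d7_ag_rc.Red
import Pool.Agent.Work.MP_4329d7_ag_uni.Main

/-!
Hyperplane case: if there is no curve at all then `Star` holds over `KK n`, hence weights.
-/

namespace Pool.Agent.Work.RC

open Polynomial
open Pool.Agent.Work.Uni

/-- weights from `Star` over any algebraically closed field of characteristic zero -/
theorem weights_of_star {K : Type} [Field K] [Algebra ℂ K]
    {I : Type} [Fintype I] [DecidableEq I]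
    {n : I → ℕ} {E : I → Type} [∀ i, Fintype (E i)] [∀ i, DecidableEq (E i)]
    {α : (i : I) → E i → Fin (n i + 1) → ℂ} {N : ℕ} {x : (i : I) → Fin (n i) → K}
    {S : Set (K × ((i : I) → E i → ℕ))} (D : CoverData K I n E α N x S)
    {k Q : Type} [Field k] [IsAlgClosed k] [CharZero k] [Fintype Q] (g : Q → I)
    (a : Q → (Σ i, E i) → k) (ha : Coef Sigma.fst g a)
    (hcardQ : ∀ i, (Finset.univ.filter fun q => g q = i).card = Fintype.card (E i) - (n i + 1))
    (hstar : Star (coverBlocks (n := n) N S) Sigma.fst a) :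
    ∃ (M : ℕ) (A : (Σ i, E i) → ℕ), 0 < M ∧
      (∀ i, ∑ e, A ⟨i, e⟩ ≤ (Fintype.card (E i) - (n i + 1)) * M) ∧
      ∀ b : (Σ i, E i) → ℕ, (coverBlocks (n := n) N S).IsBlock b → M ≤ ∑ p, A p * b p := by
  classical
  have hcrit := crit_of_star (coverBlocks (n := n) N S) Sigma.fst g a ha hstar
  have hfin := eq_case (coverBlocks (n := n) N S) Sigma.fst g a ha hstar hcrit
    (one_mem_L D) N D.N_pos single_mem_L_N (small_single D) (single_one_notMem_L D)
  set Bs : Finset ((Σ i, E i) → ℕ) :=
    (Fintype.piFinset fun _ => Finset.range (N + 1)).filter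
      fun b => (coverBlocks (n := n) N S).IsBlock b with hBs
  have hmem : ∀ b, b ∈ Bs ↔ (∀ p, b p ≤ N) ∧ (coverBlocks (n := n) N S).IsBlock b := by
    intro b
    rw [hBs, Finset.mem_filter, Fintype.mem_piFinset]
    simp only [Finset.mem_range, Nat.lt_succ_iff]
  have hsing : ∀ p, (Pi.single p N : (Σ i, E i) → ℕ) ∈ Bs := by
    intro p
    rw [hmem]
    refine ⟨fun p' => ?_, single_isBlock D p⟩
    by_cases hp : p' = p
    · subst hp
      rw [Pi.single_eq_same]
    · rw [Pi.single_eq_of_ne hp]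
      exact Nat.zero_le _
  rcases weights_or_packing (Sigma.fst : (Σ i, E i) → I)
    (fun i => Fintype.card (E i) - (n i + 1)) Bs N D.N_pos hsing with
    ⟨M, A, hM, hA, hAb⟩ | ⟨lam, m, hpack, hdelta⟩
  · refine ⟨M, A, hM, fun i => ?_, fun b hb => ?_⟩
    · refine le_trans (le_of_eq ?_) (hA i)
      rw [Finset.sum_filter, Fintype.sum_sigma, Finset.sum_eq_single i]
      · simp
      · intro i' _ hi
        refine Finset.sum_eq_zero fun e _ => ?_
        rw [if_neg hi]
      · intro h
        exact absurd (Finset.mem_univ i) h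
    · by_cases hle : ∀ p, b p ≤ N
      · exact hAb b ((hmem b).2 ⟨hle, hb⟩)
      · push Not at hle
        obtain ⟨p, hp⟩ := hle
        have h1 := hAb _ (hsing p)
        rw [Finset.sum_eq_single p] at h1
        · rw [Pi.single_eq_same] at h1
          calc M ≤ A p * N := h1
            _ ≤ A p * b p := Nat.mul_le_mul_left _ hp.le
            _ ≤ ∑ p, A p * b p :=
              Finset.single_le_sum (f := fun p => A p * b p) (fun _ _ => Nat.zero_le _)
                (Finset.mem_univ p)
        · intro p' _ hp'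
          rw [Pi.single_eq_of_ne hp', mul_zero]
        · intro hp
          exact absurd (Finset.mem_univ p) hp
  · have hf : Function.Surjective (Sigma.fst : (Σ i, E i) → I) := by
      intro i
      have h1 := D.card i
      have : Nonempty (E i) := Fintype.card_pos_iff.1 (by omega)
      exact ⟨⟨i, Classical.arbitrary _⟩, rfl⟩
    obtain ⟨Ty, _, b, lam', m', hb, hext, hlt⟩ := exists_ext
      (Sigma.fst : (Σ i, E i) → I) hf (fun i => Fintype.card (E i) - (n i + 1)) Bs
      (fun b hb => ((hmem b).1 hb).2.1) lam m hpack hdelta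
    have h1 := hfin Ty b lam' m' (fun t => ((hmem _).1 (hb t)).2) hext
    have h2 : ∑ q, m' (g q) = ∑ i, (Fintype.card (E i) - (n i + 1)) * m' i := by
      rw [← Finset.sum_fiberwise (s := Finset.univ) (g := g) (f := fun q => m' (g q))]
      refine Finset.sum_congr rfl fun i _ => ?_
      rw [← hcardQ i, Finset.sum_congr rfl (g := fun _ => m' i), Finset.sum_const, smul_eq_mul]
      intro q hq
      rw [(Finset.mem_filter.1 hq).2]
    rw [h2] at h1
    exact absurd hlt (not_lt.2 h1)

variable {K : Type} [Field K] [Algebra ℂ K] {n : ℕ} {E : Type} [Fintype E] [DecidableEq E]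

theorem coeff_rootPoly {k ι Pt : Type} [Field k] [Fintype ι] (β : ι → Pt → ℕ) (t : ι → k) (p : Pt)
    {m : ℕ} (hm : ∑ i, β i p = m) :
    (rootPoly β t p).natDegree = m ∧ (rootPoly β t p).coeff m = 1 := by
  have h1 : (rootPoly β t p).Monic := by
    unfold rootPoly
    exact monic_prod_of_monic _ _ fun i _ => (monic_X_sub_C _).pow _
  have h2 : (rootPoly β t p).natDegree = m := by
    unfold rootPoly
    rw [natDegree_prod_of_monic _ _ fun i _ => (monic_X_sub_C _).pow _, ← hm]
    refine Finset.sum_congr rfl fun i _ => ?_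
    rw [(monic_X_sub_C _).natDegree_pow, natDegree_X_sub_C, mul_one]
  refine ⟨h2, ?_⟩
  rw [← h2]
  exact h1.coeff_natDegree

/-- `Star` over `KK n` from the absence of curves -/
theorem star_of_no_curve {A : Arr n E} (hA : A.Ok) {α : E → Fin (n + 1) → ℂ}
    (hF : ∀ e, A.F e = ∑ j, MvPolynomial.C (α e j) * MvPolynomial.X j)
    (card : n + 1 ≤ Fintype.card E)
    (gen_pos : ∀ s : Finset E, s.card = n + 1 → LinearIndependent ℂ (fun e : s => α e))
    (hno : IsEmpty (Cv A (KK n) (gen n))) :
    ∃ (Q : Type) (_ : Fintype Q) (a : Q → (Σ _ : Unit, E) → KK n),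
      Coef Sigma.fst (fun _ => ()) a ∧ Fintype.card Q = Fintype.card E - (n + 1) ∧
      ∀ (ι : Type) [Fintype ι] (β : ι → (Σ _ : Unit, E) → ℕ) (m : ℕ),
        (∀ i, (fun e => (β i ⟨(), e⟩ : ℤ)) ∈ A.L) → (∀ p, ∑ i, β i p = m) → ∀ t : ι → KK n,
        IsSol a β t → ∀ p p', rootPoly β t p = rootPoly β t p' := by
  classical
  have hEne : Nonempty E := Fintype.card_pos_iff.1 (by omega)
  obtain ⟨B, _, hB⟩ := Finset.exists_subset_card_eq (s := (Finset.univ : Finset E))
    (n := n + 1) (by rw [Finset.card_univ]; exact card)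
  have hne : Nonempty B := by
    rw [← Fintype.card_pos_iff, Fintype.card_coe, hB]
    exact Nat.succ_pos _
  let b : Module.Basis B ℂ (Fin (n + 1) → ℂ) :=
    basisOfLinearIndependentOfCardEqFinrank (gen_pos B hB)
      (by rw [Fintype.card_coe, hB, Module.finrank_fin_fun])
  have hb : ∀ e : B, b e = α e := by
    intro e
    exact congrFun (coe_basisOfLinearIndependentOfCardEqFinrank (gen_pos B hB) _) e
  -- the values of the forms at the generic point, as a linear map
  let lin0 : (Fin (n + 1) → ℂ) →ₗ[ℂ] KK n := Fintype.linearCombination ℂ (gen n)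
  have hlin0 : ∀ v, lin0 v = ∑ j, v j • gen n j := fun v => rfl
  have hinj : ∀ v, lin0 v = 0 → v = 0 := by
    intro v hv
    have h1 := (gen_ai n).linearIndependent
    rw [hlin0] at hv
    exact funext fun j => Fintype.linearIndependent_iff.1 h1 v hv j
  have hα0 : ∀ e, α e ≠ 0 := by
    intro e
    obtain ⟨B', he, hB'⟩ := Finset.exists_superset_card_eq (s := ({e} : Finset E))
      (n := n + 1) (by rw [Finset.card_singleton]; omega) card
    have h1 := (gen_pos B' hB').ne_zero ⟨e, he (Finset.mem_singleton_self e)⟩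
    exact h1
  let l : (Σ _ : Unit, E) → KK n := fun p => lin0 (α p.2)
  have hl : ∀ p, l p ≠ 0 := fun p h0 => hα0 p.2 (hinj _ h0)
  let Q : Type := {e : E // e ∉ B}
  let ρ : (q : Q) → B → KK n := fun q e' => algebraMap ℂ (KK n) (b.repr (α q.1) e')
  let a : Q → (Σ _ : Unit, E) → KK n := fun q p =>
    (if p = ⟨(), q.1⟩ then l p else 0) -
      ∑ e' : B, if p = ⟨(), e'.1⟩ then ρ q e' * l p else 0
  have hasum : ∀ (M : Type) [AddCommGroup M] [Module (KK n) M] (q : Q) (R : (Σ _ : Unit, E) → M),
      ∑ p, a q p • R p = l ⟨(), q.1⟩ • R ⟨(), q.1⟩ -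
        ∑ e' : B, (ρ q e' * l ⟨(), e'.1⟩) • R ⟨(), e'.1⟩ := by
    intro M _ _ q R
    simp only [a, sub_smul, Finset.sum_sub_distrib, Finset.sum_smul, ite_smul, zero_smul]
    rw [Finset.sum_comm]
    simp
  have hbα : ∀ q : Q, α q.1 = ∑ e' : B, b.repr (α q.1) e' • α e'.1 := by
    intro q
    conv_lhs => rw [← b.sum_repr (α q.1)]
    exact Finset.sum_congr rfl fun e' _ => by rw [hb]
  have hlq : ∀ q : Q, l ⟨(), q.1⟩ = ∑ e' : B, ρ q e' * l ⟨(), e'.1⟩ := by
    intro q
    simp only [l, ρ]
    conv_lhs => rw [hbα q]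
    rw [map_sum]
    refine Finset.sum_congr rfl fun e' _ => ?_
    rw [map_smul, Algebra.smul_def]
  refine ⟨Q, inferInstance, a, ⟨fun _ _ _ => rfl, ?_⟩, ?_, ?_⟩
  · intro q
    have h1 := hasum (KK n) q (fun _ => 1)
    simp only [smul_eq_mul, mul_one] at h1
    rw [h1, hlq q, sub_self]
  · rw [Fintype.card_subtype_compl, Fintype.card_coe, hB]
  · intro ι _ β m hβ hpack t hsol
    by_contra hcon
    push Not at hcon
    obtain ⟨p₁, p₂, hp⟩ := hcon
    -- the curve
    have hrel : ∀ q : Q, C (l ⟨(), q.1⟩) * rootPoly β t ⟨(), q.1⟩ =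
        ∑ e' : B, C (ρ q e') * (C (l ⟨(), e'.1⟩) * rootPoly β t ⟨(), e'.1⟩) := by
      intro q
      have h1 := hasum (KK n)[X] q (rootPoly β t)
      have h2 := hsol q
      simp only [← smul_eq_C_mul] at h2
      rw [h2] at h1
      have h3 := sub_eq_zero.1 h1.symm
      rw [smul_eq_C_mul] at h3
      rw [h3]
      refine Finset.sum_congr rfl fun e' _ => ?_
      rw [smul_eq_C_mul, C_mul, mul_assoc]
    let U : E → (KK n)[X] := fun e => C (l ⟨(), e⟩) * rootPoly β t ⟨(), e⟩
    let Φ : (Fin (n + 1) → ℂ) →ₗ[ℂ] (KK n)[X] := b.constr ℂ (fun e' => U e')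
    have hsm : ∀ (c : ℂ) (p : (KK n)[X]), c • p = C (algebraMap ℂ (KK n) c) * p := by
      intro c p
      rw [Algebra.smul_def, Polynomial.algebraMap_apply]
    have hΦ : ∀ e, Φ (α e) = U e := by
      intro e
      by_cases he : e ∈ B
      · have h1 := b.constr_basis ℂ (fun e' : B => U e') ⟨e, he⟩
        rw [hb] at h1
        exact h1
      · have h1 := hrel ⟨e, he⟩
        change b.constr ℂ (fun e' => U e') (α e) = _
        rw [Module.Basis.constr_apply_fintype]
        change _ = C (l ⟨(), e⟩) * rootPoly β t ⟨(), e⟩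
        rw [h1]
        refine Finset.sum_congr rfl fun e' _ => ?_
        rw [hsm, Module.Basis.equivFun_apply]
    let Y : Fin (n + 1) → (KK n)[X] := fun j => Φ (Pi.single j 1)
    have hYsum : ∀ v : Fin (n + 1) → ℂ, Φ v = ∑ j, C (algebraMap ℂ (KK n) (v j)) * Y j := by
      intro v
      conv_lhs => rw [pi_eq_sum_univ' v]
      rw [map_sum]
      refine Finset.sum_congr rfl fun j _ => ?_
      rw [map_smul, hsm]
    have hcoef : ((Polynomial.lcoeff (KK n) m).restrictScalars ℂ).comp Φ = lin0 := by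
      refine b.ext fun e => ?_
      rw [LinearMap.comp_apply, hb, hΦ]
      change (C (l ⟨(), e⟩) * rootPoly β t ⟨(), e.1⟩).coeff m = _
      rw [coeff_C_mul, (coeff_rootPoly β t _ (hpack _)).2, mul_one]
    have hdeg : ∀ v, (Φ v).natDegree ≤ m := by
      intro v
      change (b.constr ℂ (fun e' => U e') v).natDegree ≤ m
      rw [Module.Basis.constr_apply_fintype]
      refine natDegree_sum_le_of_forall_le _ _ fun e' _ => ?_
      rw [hsm]
      refine (natDegree_C_mul_le _ _).trans ((natDegree_C_mul_le _ _).trans ?_)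
      exact (coeff_rootPoly β t _ (hpack _)).1.le
    have hval : ∀ (R : Type) [CommRing R] [Algebra ℂ R] (e : E) (P : Fin (n + 1) → R),
        MvPolynomial.aeval P (A.F e) = ∑ j, algebraMap ℂ R (α e j) * P j := by
      intro R _ _ e P
      rw [hF, map_sum]
      refine Finset.sum_congr rfl fun j _ => ?_
      rw [map_mul, MvPolynomial.aeval_C, MvPolynomial.aeval_X]
    have hval0 : ∀ e, MvPolynomial.aeval (gen n) (A.F e) = l ⟨(), e⟩ := by
      intro e
      rw [hval]
      change _ = lin0 (α e)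
      rw [hlin0]
      exact Finset.sum_congr rfl fun j _ => (Algebra.smul_def _ _).symm
    have hgne : ∀ s, gen n s ≠ 0 := (gen_ai n).ne_zero
    obtain ⟨c, -⟩ := red hA (gen_ai n) m ι (fun i e => β i ⟨(), e⟩) t Y hβ
      (fun s => hdeg _)
      (fun s => by
        have h1 := congrArg (fun f => f (Pi.single s 1)) hcoef
        change (Y s).coeff m = lin0 (Pi.single s 1) at h1
        rw [h1, hlin0, Finset.sum_eq_single s]
        · simp
        · intro j _ hj
          rw [Pi.single_eq_of_ne hj, zero_smul]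
        · intro h
          exact absurd (Finset.mem_univ _) h)
      (fun e => by
        rw [hval, hval0]
        have h1 := hYsum (α e)
        rw [hΦ e] at h1
        simp only [Polynomial.algebraMap_apply]
        rw [← h1]
        rfl)
      (by
        by_contra hcon2
        push Not at hcon2
        apply hp
        -- all forms are proportional to `Y 0`
        have h1 : ∀ p : (Σ _ : Unit, E), C (gen n 0) * rootPoly β t p = Y 0 := by
          intro p
          obtain ⟨⟨⟩, e⟩ := p
          have h2 := hYsum (α e)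
          rw [hΦ e] at h2
          have h3 : C (gen n 0) * (C (l ⟨(), e⟩) * rootPoly β t ⟨(), e⟩) =
              C (l ⟨(), e⟩) * Y 0 := by
            change C (gen n 0) * U e = _
            rw [h2, Finset.mul_sum]
            have h4 : l ⟨(), e⟩ = ∑ j, algebraMap ℂ (KK n) (α e j) * gen n j := by
              change lin0 (α e) = _
              rw [hlin0]
              exact Finset.sum_congr rfl fun j _ => Algebra.smul_def _ _
            rw [h4, map_sum, Finset.sum_mul]
            refine Finset.sum_congr rfl fun j _ => ?_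
            rw [C_mul, mul_assoc, ← hcon2 0 j]
            ring
          have h5 : C (l ⟨(), e⟩) * (C (gen n 0) * rootPoly β t ⟨(), e⟩) =
              C (l ⟨(), e⟩) * Y 0 := by rw [← h3]; ring
          exact mul_left_cancel₀ (C_ne_zero.2 (hl _)) h5
        exact mul_left_cancel₀ (C_ne_zero.2 (hgne 0)) ((h1 p₁).trans (h1 p₂).symm))
    exact hno.false c

/-- if there is no curve at all then there are weights -/
theorem hypW {α : E → Fin (n + 1) → ℂ} {N : ℕ} {x : Fin n → K} {S : Set (K × (E → ℕ))}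
    (N_pos : 0 < N) (n_pos : 0 < n) (card : n + 1 ≤ Fintype.card E)
    (gen_pos : ∀ s : Finset E, s.card = n + 1 → LinearIndependent ℂ (fun e : s => α e))
    (alg_indep : AlgebraicIndependent ℂ x)
    (rad : ∀ z c, (z, c) ∈ S → z ^ N = ∏ e, lin (α e) x ^ c e)
    (deg : ∀ z c, (z, c) ∈ S → N ∣ ∑ e, c e)
    (hgen : IntermediateField.adjoin ℂ (Set.range x ∪ {z | ∃ c, (z, c) ∈ S}) = ⊤)
    (branch : ∀ e, ∃ z c, (z, c) ∈ S ∧ ¬ N ∣ c e)
    {A : Arr n E} (hA : A.Ok)
    (hF : ∀ e, A.F e = ∑ j, MvPolynomial.C (α e j) * MvPolynomial.X j)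
    (hL : ∀ b : E → ℤ, b ∈ A.L ↔ ∀ z c, (z, c) ∈ S → (N : ℤ) ∣ ∑ e, b e * (c e : ℤ))
    (hno : IsEmpty (Cv A (KK n) (gen n))) :
    ∃ (M : ℕ) (W : E → ℕ), 0 < M ∧ ∑ e, W e ≤ (Fintype.card E - (n + 1)) * M ∧
      ∀ b : E → ℕ, b ≠ 0 → (fun e => (b e : ℤ)) ∈ A.L →
        (Finset.univ.filter fun e => b e ≠ 0).card ≤ n → M ≤ ∑ e, W e * b e := by
  classical
  let S' : Set (K × ((i : Unit) → E → ℕ)) := {p | (p.1, p.2 ()) ∈ S}
  have D : CoverData K Unit (fun _ => n) (fun _ => E) (fun _ => α) N (fun _ => x) S' :=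
    { N_pos := N_pos
      n_pos := fun _ => n_pos
      card := fun _ => card
      gen_pos := fun _ => gen_pos
      alg_indep := by
        have h1 := alg_indep.comp (fun p : Σ _ : Unit, Fin n => p.2) (by
          rintro ⟨⟨⟩, i⟩ ⟨⟨⟩, j⟩ h
          simp only at h
          rw [h])
        exact h1
      rad := fun z c h => by
        rw [Fintype.prod_unique]
        exact rad z _ h
      deg := fun z c h i => deg z _ h
      gen := by
        rw [← hgen]
        congr 1
        ext w
        constructor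
        · rintro (⟨⟨⟨⟩, i⟩, rfl⟩ | ⟨c, hc⟩)
          · exact Or.inl ⟨i, rfl⟩
          · exact Or.inr ⟨_, hc⟩
        · rintro (⟨i, rfl⟩ | ⟨c, hc⟩)
          · exact Or.inl ⟨⟨(), i⟩, rfl⟩
          · exact Or.inr ⟨fun _ => c, hc⟩
      branch := fun _ e => by
        obtain ⟨z, c, h, h'⟩ := branch e
        exact ⟨z, fun _ => c, h, h'⟩ }
  have hsumS : ∀ (R : Type) [AddCommMonoid R] (F : (Σ _ : Unit, E) → R),
      ∑ p, F p = ∑ e, F ⟨(), e⟩ := by
    intro R _ F
    rw [Fintype.sum_sigma, Fintype.sum_unique]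
  obtain ⟨Q, _, a, ha, hcardQ, hst⟩ := star_of_no_curve hA hF card gen_pos hno
  have hcz : CharZero (KK n) := charZero_of_injective_algebraMap (algebraMap ℂ (KK n)).injective
  have hstar : Star (coverBlocks (n := fun _ : Unit => n) N S') Sigma.fst a := by
    intro ι _ β m hβ hpack t hsol p p' _
    refine hst ι β (m ()) (fun i => ?_) (fun p => ?_) t hsol p p'
    · rw [hL]
      intro z c hz
      have h1 := (hβ i).2.1 z (fun _ => c) hz
      rw [hsumS] at h1
      exact h1
    · rw [hpack]
  obtain ⟨M, W, hM, hW, hWb⟩ := weights_of_star D (fun _ => ()) a ha (fun i => by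
    rw [← hcardQ, ← Finset.card_univ]
    congr 1
    exact Finset.filter_true_of_mem fun _ _ => rfl) hstar
  refine ⟨M, fun e => W ⟨(), e⟩, hM, hW (), fun b hb0 hbL hbs => ?_⟩
  have h1 := hWb (fun p => b p.2) ⟨?_, ?_, ?_⟩
  · rw [hsumS] at h1
    exact h1
  · intro h
    apply hb0
    funext e
    exact congrFun h ⟨(), e⟩
  · intro z c hz
    rw [hsumS]
    exact (hL _).1 hbL z _ hz
  · intro i
    refine le_trans (le_of_eq ?_) hbs
    refine Finset.card_bij (fun p _ => p.2) ?_ ?_ ?_
    · intro p hp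
      simp only [Finset.mem_filter, Finset.mem_univ, true_and] at hp ⊢
      exact hp.1
    · rintro ⟨⟨⟩, e⟩ _ ⟨⟨⟩, e'⟩ _ h
      simp only at h
      rw [h]
    · intro e he
      simp only [Finset.mem_filter, Finset.mem_univ, true_and] at he
      exact ⟨⟨(), e⟩, by simpa using he, rfl⟩

end Pool.Agent.Work.RC
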