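import Mathlib
import Pool.Agent.Work.MP_4329d7_ag_uni.Defs

/-!
`u_e(X ^ N) = X ^ (N b₀ e) ∏ (X - s (i, l)) ^ (β i e)` when the `s (i, l)` are the `N`-th roots of
the nonzero roots `t i`.
-/

namespace Pool.Agent.Work.RC

open Polynomial
open Pool.Agent.Work.Uni (rootPoly)

theorem rootPoly_comp_pow_aux {ι E k : Type*} [Fintype ι] [Field k] (β : ι → E → ℕ) (t : ι → k)
    (N : ℕ) [DecidablePred fun i => t i = 0] [inst : Fintype ({i : ι // t i ≠ 0} × Fin N)]
    (s : {i : ι // t i ≠ 0} × Fin N → k)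
    (hs : ∀ i, ∏ l, (X - C (s (i, l))) = (X : k[X]) ^ N - C (t i.1)) (e : E) :
    (rootPoly β t e).comp (X ^ N) =
      X ^ (N * ∑ i with t i = 0, β i e) *
        rootPoly (fun (p : {i : ι // t i ≠ 0} × Fin N) => β p.1.1) s e := by
  classical
  have hinst : inst = instFintypeProd {i : ι // t i ≠ 0} (Fin N) := Subsingleton.elim _ _
  subst hinst
  unfold rootPoly
  rw [Polynomial.prod_comp]
  simp only [Polynomial.pow_comp, Polynomial.sub_comp, Polynomial.X_comp, Polynomial.C_comp]
  rw [← Finset.prod_filter_mul_prod_filter_not Finset.univ (fun i => t i = 0)]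
  congr 1
  · rw [Finset.mul_sum, ← Finset.prod_pow_eq_pow_sum]
    refine Finset.prod_congr rfl fun i hi => ?_
    rw [(Finset.mem_filter.mp hi).2, C_0, sub_zero, ← pow_mul]
  · rw [Fintype.prod_prod_type]
    rw [Finset.prod_subtype (Finset.univ.filter fun i => ¬ t i = 0) (p := fun i => t i ≠ 0)
      (by intro i; simp)]
    refine Finset.prod_congr rfl fun i _ => ?_
    rw [← hs i, ← Finset.prod_pow]

end Pool.Agent.Work.RC
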