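import Mathlib
import Pool.Agent.Work.MP_4329d7_ag_rc.SncDefs
import Pool.Agent.Work.MP_4329d7_ag_rc.Transfer

/-!
The case without branch divisors: `K = ℂ(x)`; we use a hyperplane as artificial branch divisor
(helper44).
-/

namespace Pool.Agent.Work.RC

open Polynomial

/-- one hyperplane, no condition on the blocks -/
noncomputable def nilArr (n : ℕ) : Arr n Unit where
  F _ := MvPolynomial.X 0
  d _ := 1
  L := ⊤
  N := 1

theorem nil_ok (n : ℕ) : (nilArr n).Ok where
  hom _ := MvPolynomial.isHomogeneous_X _ _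
  d_pos _ := Nat.one_pos
  N_pos := Nat.one_pos
  N_mem _ := trivial
  d_mem := trivial
  snc k _ _ P _ := by
    rw [linearIndependent_subsingleton_index_iff]
    rintro ⟨⟨⟩, he⟩ h0
    have h1 := congrFun h0 0
    simp [nilArr] at h1

/-- a curve -/
theorem nil_curve {n : ℕ} (hn : 0 < n) : Nonempty (Cv (nilArr n) (KK n) (gen n)) := by
  classical
  have hg : gen n 0 ≠ 0 := (gen_ai n).ne_zero 0
  have h10 : (⟨1, by omega⟩ : Fin (n + 1)) ≠ 0 := by
    intro h
    exact one_ne_zero (congrArg Fin.val h)
  let Y : Fin (n + 1) → (KK n)[X] := fun s => C (gen n s) * X + if s = 0 then 0 else 1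
  have hY0 : Y 0 = C (gen n 0) * X := by simp [Y]
  have hY1 : Y ⟨1, by omega⟩ = C (gen n ⟨1, by omega⟩) * X + 1 := by
    simp only [Y, if_neg h10]
  exact ⟨{
    m := 1
    ι := Unit
    β := fun _ _ => 1
    t := fun _ => 0
    Y := Y
    m_pos := Nat.one_pos
    mem := fun _ => trivial
    inj := fun _ _ _ => rfl
    deg := fun s => by
      simp only [Y]
      split_ifs
      · rw [add_zero]
        exact (natDegree_C_mul_le _ _).trans natDegree_X_le
      · refine (natDegree_add_le _ _).trans (max_le ?_ ?_)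
        · exact (natDegree_C_mul_le _ _).trans natDegree_X_le
        · rw [natDegree_one]
          exact Nat.zero_le _
    lead := fun s => by
      simp only [Y]
      split_ifs
      · simp
      · simp [coeff_one]
    cop := by
      refine ⟨fun s => if s = 0 then - C (gen n ⟨1, by omega⟩ / gen n 0) else
        if s = ⟨1, by omega⟩ then 1 else 0, ?_⟩
      rw [Fintype.sum_eq_add (0 : Fin (n + 1)) ⟨1, by omega⟩ (Ne.symm h10)]
      · beta_reduce
        rw [if_pos rfl, if_neg h10, if_pos rfl, hY0, hY1]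
        have h2 : C (gen n ⟨1, by omega⟩ / gen n 0) * C (gen n 0) =
            C (gen n ⟨1, by omega⟩) := by
          rw [← C_mul, div_mul_cancel₀ _ hg]
        linear_combination (-X) * h2
      · rintro s ⟨h1, h2⟩
        beta_reduce
        rw [if_neg h1, if_neg h2, zero_mul]
    eqn := fun e => by
      simp only [nilArr, MvPolynomial.aeval_X]
      rw [hY0]
      simp [Uni.rootPoly] }⟩

variable {K : Type} [Field K] [Algebra ℂ K] {n : ℕ} {E : Type} [Fintype E]
  {F : E → MvPolynomial (Fin (n + 1)) ℂ} {d : E → ℕ} {N : ℕ} {x : Fin n → K}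
  {S : Set (K × (E → ℕ))}

theorem nil_cover [IsEmpty E] (D : SncOne K n E F d N x S) : Cover (nilArr n) K x ∅ where
  alg_indep := D.alg_indep
  rad z c hz := absurd hz (Set.notMem_empty _)
  deg z c hz := absurd hz (Set.notMem_empty _)
  blk z c hz := absurd hz (Set.notMem_empty _)
  gen := by
    have h0 : {z : K | ∃ c : Unit → ℕ, (z, c) ∈ (∅ : Set (K × (Unit → ℕ)))} = ∅ := by
      ext z
      simp
    rw [h0, Set.union_empty, eq_top_iff, ← D.gen, IntermediateField.adjoin_le_iff]
    rintro y (hy | ⟨c, hc⟩)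
    · exact IntermediateField.subset_adjoin ℂ _ hy
    · have h1 := D.rad y c hc
      rw [Fintype.prod_empty] at h1
      have hint : IsIntegral ℂ y := ⟨X ^ N - 1, monic_X_pow_sub_C 1 D.N_pos.ne', by
        rw [eval₂_sub, eval₂_pow, eval₂_X, eval₂_one, h1, sub_self]⟩
      have hdeg := IsAlgClosed.degree_eq_one_of_irreducible ℂ (minpoly.irreducible hint)
      obtain ⟨a, rfl⟩ := minpoly.mem_range_of_degree_eq_one ℂ y hdeg
      exact IntermediateField.algebraMap_mem _ _

end Pool.Agent.Work.RC
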