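import Mathlib
import Pool.Agent.Work.MP_4329d7_ag_rc.MainRC
import Pool.Agent.Work.MP_4329d7_ag_rc.SncW
import Pool.Agent.Work.MP_4329d7_ag_rc.SncNil

/-!
One exponent for all abelian covers of `ℙⁿ` branched along simple normal crossing divisors: no
pluricanonical forms of order `M` implies rationally connected (helper44).
-/

namespace Pool.Agent.Work.RC

open Pool.Agent.Work.Uni
open Pool.Agent.Work.MP_4329d7_ag.FF

theorem snc_main (n : ℕ) : ∃ M : ℕ, 0 < M ∧
    ∀ (K : Type) [Field K] [Algebra ℂ K] [Algebra.EssFiniteType ℂ K]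
    (E : Type) [Fintype E] (F : E → MvPolynomial (Fin (n + 1)) ℂ) (d : E → ℕ) (N : ℕ)
    (x : Fin n → K) (S : Set (K × (E → ℕ))), SncOne K n E F d N x S →
    (∀ T : TensorForm K (M * n), IsPluricanonical M n T → IsRegular T → T = 0) →
      RationallyConnected K := by
  classical
  obtain ⟨M, hM, h⟩ := snc_curve n
  refine ⟨M, hM, fun K _ _ _ E _ F d N x S D hT => ?_⟩
  rcases isEmpty_or_nonempty E with hE | hE
  · obtain ⟨c⟩ := nil_curve D.n_pos
    exact rc_of_curve (nil_ok n) (nil_cover D) (gen_ai n) c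
  · obtain ⟨c⟩ := h K E F d N x S D hT
    exact rc_of_curve (snc_ok D) (snc_cover D) (gen_ai n) c

end Pool.Agent.Work.RC
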