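import Mathlib
import Pool.Agent.Work.MP_4329d7_ag_rc.Snc
import Pool.Agent.Work.MP_4329d7_ag_rc.GEffE

/-!
Abelian covers of `ℙⁿ` branched along simple normal crossing divisors with explicit exponents: no
pluricanonical forms of orders at most `(2 * n + 1) ^ ((2 * n + 1) * 4 ^ n)` implies rationally
connected.
-/

namespace Pool.Agent.Work.RC

open Pool.Agent.Work.Uni Pool.Agent.Work.Snc Pool.Agent.Work.GEff
open Pool.Agent.Work.MP_4329d7_ag.FF

theorem false_of_natWt {K : Type} [Field K] [Algebra ℂ K] {I : Type} [Fintype I]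
    [DecidableEq I] {n : I → ℕ} {m : ℕ} (hm : ∑ i, n i = m) {E : Type} [Fintype E]
    {F : E → MvPolynomial (Co I n) ℂ} {d : E → I → ℕ} {N : ℕ} {x : (i : I) → Fin (n i) → K}
    {S : Set (K × (E → ℕ))} (D : SncData K I n E F d N x S) {M : ℕ} {A : E → ℕ}
    (hA : NatWtD n d {b | SBlock F N S b} M A)
    (hT : ∀ T : TensorForm K (M * m), IsPluricanonical M m T → IsRegular T → T = 0) : False := by
  subst hm
  obtain ⟨T, hTp, hTr, hT0⟩ := exists_form_of_natWtD D hA
  exact hT0 (hT T hTp hTr)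

theorem snc_curve_eff (n : ℕ) (K : Type) [Field K] [Algebra ℂ K]
    (E : Type) [Fintype E] [DecidableEq E] [Nonempty E]
    (F : E → MvPolynomial (Fin (n + 1)) ℂ) (d : E → ℕ) (N : ℕ) (x : Fin n → K)
    (S : Set (K × (E → ℕ))) (D : SncOne K n E F d N x S)
    (hT : ∀ M, 0 < M → M ≤ (2 * n + 1) ^ ((2 * n + 1) * 4 ^ n) →
      ∀ T : TensorForm K (M * n), IsPluricanonical M n T → IsRegular T → T = 0) :
    Nonempty (Cv (sncArr F d N S) (KK n) (gen n)) := by
  refine curve_of_not_starP D fun hstar => ?_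
  obtain ⟨M0, A, hM0, hA, hAb⟩ := weights_of_starP (sncData_of_one D) _ hstar
  obtain ⟨M, hM, hMle, A', hA'⟩ := weights_eff n D.n_pos d D.d_pos _ _
    (ratWtD_of_weights (I := Unit) (n := fun _ => n) (d := fun e _ => d e) hM0 A hA hAb)
  exact false_of_natWt (by simp) (sncData_of_one D) hA' (hT M hM hMle)

theorem snc_main_eff (n : ℕ) (K : Type) [Field K] [Algebra ℂ K] [Algebra.EssFiniteType ℂ K]
    (E : Type) [Fintype E] (F : E → MvPolynomial (Fin (n + 1)) ℂ) (d : E → ℕ) (N : ℕ)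
    (x : Fin n → K) (S : Set (K × (E → ℕ))) (D : SncOne K n E F d N x S)
    (hT : ∀ M, 0 < M → M ≤ (2 * n + 1) ^ ((2 * n + 1) * 4 ^ n) →
      ∀ T : TensorForm K (M * n), IsPluricanonical M n T → IsRegular T → T = 0) :
    RationallyConnected K := by
  classical
  rcases isEmpty_or_nonempty E with hE | hE
  · obtain ⟨c⟩ := nil_curve D.n_pos
    exact rc_of_curve (nil_ok n) (nil_cover D) (gen_ai n) c
  · obtain ⟨c⟩ := snc_curve_eff n K E F d N x S D hT
    exact rc_of_curve (snc_ok D) (snc_cover D) (gen_ai n) c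

end Pool.Agent.Work.RC
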